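import Pool.Agent.P.MP_7a6434d8_pr.QL.W.DMarkov

/-! Elementary properties of the clock and of occupation integrals. -/

open MeasureTheory ProbabilityTheory Set Filter Topology Metric
open scoped ENNReal NNReal

namespace Pool.Agent.QL

open Pool.Agent.LGD Pool.Agent.P.MP_7a6434d8_pr

variable {W : Measure Path} {μ : Measure ℂ} {A : Path → ℝ≥0 → ℝ≥0} {Λ : Set Path}
  {B : Path → Path} {w : Path} {H : ℂ → ℝ}

theorem dclock_set {α : Type} [MeasurableSpace α] {a b : α → ℝ} (ha : Measurable a)
    (hb : Measurable b) : MeasurableSet {p : α × ℝ | p.2 ∈ Ioc (a p.1) (b p.1)} :=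
  (measurableSet_lt (ha.comp measurable_fst) measurable_snd).inter
    (measurableSet_le measurable_snd (hb.comp measurable_fst))

theorem dclock_int {α : Type} [MeasurableSpace α] {a b : α → ℝ} (ha : Measurable a)
    (hb : Measurable b) {f : α × ℝ → ℝ} (hf : Measurable f) :
    Measurable fun p => ∫ v in Ioc (a p) (b p), f (p, v) := by
  convert ((hf.indicator (dclock_set ha hb)).stronglyMeasurable.integral_prod_right'
    (ν := volume)).measurable using 2 with p
  rw [← integral_indicator measurableSet_Ioc]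
  rfl

theorem measurable_occ (hH : Measurable H) :
    Measurable fun p : Path × ℝ≥0 × ℝ => occ H p.1 p.2.1 p.2.2 := by
  have h : Measurable fun x : (Path × ℝ≥0 × ℝ) × ℝ =>
      H (x.1.1.1 (x.1.2.1 + x.2.toNNReal)) :=
    hH.comp (measurable_eval2.comp (measurable_fst.fst.prodMk
      (measurable_fst.snd.fst.add measurable_snd.real_toNNReal)))
  exact (dclock_int measurable_const measurable_snd.snd h).sub
    (dclock_int measurable_snd.snd measurable_const h)

theorem abs_occ_le {C : ℝ} (hC : ∀ z, |H z| ≤ C) (b : Path) (r : ℝ≥0) (q : ℝ) :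
    |occ H b r q| ≤ C * |q| := by
  simpa [occ] using intervalIntegral.norm_integral_le_of_norm_le_const (a := 0) (b := q)
    (f := fun v => H (b.1 (r + v.toNNReal))) fun _ _ => hC _

theorem dclock_ii (hH : Measurable H) (bH : Bdd H) (b : Path) (r : ℝ≥0) (x y : ℝ) :
    IntervalIntegrable (fun v : ℝ => H (b.1 (r + v.toNNReal))) volume x y := by
  obtain ⟨C, hC⟩ := bH
  exact (intervalIntegrable_const (c := C)).mono_fun' (hH.comp (b.2.measurable.comp
    (measurable_const.add measurable_id.real_toNNReal))).aestronglyMeasurable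
    (Eventually.of_forall fun _ => hC _)

theorem occ_add (hH : Measurable H) (bH : Bdd H) (b : Path) (r q q' : ℝ≥0) :
    occ H b r ((q + q' : ℝ≥0) : ℝ) = occ H b r q + occ H b (r + q) q' := by
  have h := intervalIntegral.integral_comp_add_left (a := 0) (b := q')
    (fun v : ℝ => H (b.1 (r + v.toNNReal))) (q : ℝ)
  rw [occ, occ, occ, ← intervalIntegral.integral_add_adjacent_intervals (b := q)
    (dclock_ii hH bH b r _ _) (dclock_ii hH bH b r _ _), NNReal.coe_add, add_right_inj]
  rw [add_zero] at h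
  rw [← h]
  refine intervalIntegral.integral_congr fun v hv => ?_
  rw [uIcc_of_le q'.coe_nonneg] at hv
  simp only [Real.toNNReal_add q.coe_nonneg hv.1, Real.toNNReal_coe, add_assoc]

theorem occ_cont (hH : Measurable H) (bH : Bdd H) (b : Path) (r : ℝ≥0) :
    Continuous (occ H b r) :=
  intervalIntegral.continuous_primitive (dclock_ii hH bH b r) 0

theorem IsClock.zero (hC : IsClock W μ A Λ B) (hw : w ∈ Λ) : A w 0 = 0 := by
  obtain ⟨t, ht⟩ := (hC.mono w hw).2 0
  exact le_antisymm (((hC.mono w hw).1.monotone zero_le).trans ht.le) zero_le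

theorem IsClock.cont (hC : IsClock W μ A Λ B) (hw : w ∈ Λ) : Continuous (A w) :=
  (hC.mono w hw).1.monotone.continuous_of_surjective (hC.mono w hw).2

theorem IsClock.start (hC : IsClock W μ A Λ B) (hw : w ∈ Λ) : (B w).1 0 = w.1 0 := by
  rw [← hC.change w hw 0, hC.zero hw]

theorem IsClock.shift_B (hC : IsClock W μ A Λ B) (hw : w ∈ Λ) (s u : ℝ≥0) :
    (B (shift s w)).1 u = (B w).1 (A w s + u) := by
  obtain ⟨t, rfl⟩ := (hC.mono _ (hC.shift_mem w hw s)).2 u
  rw [hC.change _ (hC.shift_mem w hw s), ← hC.add w hw, hC.change w hw]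
  rfl

theorem IsClock.occ_shift (hC : IsClock W μ A Λ B) (hw : w ∈ Λ) (s : ℝ≥0) (q : ℝ) :
    occ H (B (shift s w)) 0 q = occ H (B w) (A w s) q := by
  simp only [occ, hC.shift_B hw, zero_add]

/-- the additive functional with density `H` is additive -/
theorem IsClock.occ_add (hC : IsClock W μ A Λ B) (hw : w ∈ Λ) (hH : Measurable H) (bH : Bdd H)
    (s t : ℝ≥0) : occ H (B w) 0 (A w (s + t)) =
      occ H (B w) 0 (A w s) + occ H (B (shift s w)) 0 (A (shift s w) t) := by
  rw [hC.add w hw, QL.occ_add hH bH, zero_add, hC.occ_shift hw]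

theorem IsClock.measA (hC : IsClock W μ A Λ B) (t : ℝ≥0) : Measurable fun w => A w t :=
  (hC.adapted t).mono (fil_le t) le_rfl

theorem IsClock.meas_occ (hC : IsClock W μ A Λ B) (hH : Measurable H) (t : ℝ≥0) :
    Measurable fun w => occ H (B w) 0 (A w t) :=
  (measurable_occ hH).comp
    (hC.measB.prodMk (measurable_const.prodMk (hC.measA t).coe_nnreal_real))

theorem IsClock.meas_lint (hC : IsClock W μ A Λ B) {φ : ℂ → ℝ≥0∞} (hφ : Measurable φ) (t : ℝ≥0) :
    Measurable fun w => ∫⁻ u in Ioc (0 : ℝ) (A w t), φ ((B w).1 u.toNNReal) := by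
  have h : Measurable fun x : Path × ℝ => φ ((B x.1).1 x.2.toNNReal) :=
    hφ.comp (measurable_eval2.comp ((hC.measB.comp measurable_fst).prodMk
      measurable_snd.real_toNNReal))
  convert (h.indicator (dclock_set (measurable_const (a := (0 : ℝ)))
    (hC.measA t).coe_nnreal_real)).lintegral_prod_right' (ν := volume) using 2 with p
  rw [← lintegral_indicator measurableSet_Ioc]
  rfl

theorem IsClock.ae_mem (hC : IsClock W μ A Λ B) (hW : IsWiener W) (m : Measure ℂ) [SFinite m]
    (hm : m ≪ volume + μ) : ∀ᵐ w ∂Pm W m, w ∈ Λ :=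
  Pm_ae hW m hC.measΛ (hm.ae_le hC.full)

theorem IsClock.revuz' (hC : IsClock W μ A Λ B) (hW : IsWiener W) {φ : ℂ → ℝ≥0∞}
    (hφ : Measurable φ) (t : ℝ≥0) :
    ∫⁻ w, (∫⁻ u in Ioc (0 : ℝ) (A w t), φ ((B w).1 u.toNNReal)) ∂Pm W volume =
      t * ∫⁻ z, φ z ∂μ := by
  rw [lintegral_Pm hW volume (hC.meas_lint hφ t)]
  exact hC.revuz φ hφ t

theorem dclock_lint (hC : IsClock W μ A Λ B) (hW : IsWiener W) [IsProbabilityMeasure μ]
    (t : ℝ≥0) : ∫⁻ w, (A w t : ℝ≥0∞) ∂Pm W volume = t := by
  simpa using hC.revuz' hW (φ := fun _ => 1) measurable_const t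

theorem IsClock.integrable_A (hC : IsClock W μ A Λ B) (hW : IsWiener W) [IsProbabilityMeasure μ]
    (t : ℝ≥0) : Integrable (fun w => (A w t : ℝ)) (Pm W volume) :=
  ⟨(hC.measA t).coe_nnreal_real.aestronglyMeasurable, hasFiniteIntegral_iff_ofNNReal.2
    ((dclock_lint hC hW t).trans_lt ENNReal.coe_lt_top)⟩

theorem dclock_pos (hC : IsClock W μ A Λ B) (hW : IsWiener W) (hH : Measurable H) (bH : Bdd H)
    (h0 : ∀ z, 0 ≤ H z) (t : ℝ≥0) :
    ∫ w, occ H (B w) 0 (A w t) ∂Pm W volume = t * ∫ z, H z ∂μ := by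
  have h1 : ∀ w, ENNReal.ofReal (occ H (B w) 0 (A w t)) =
      ∫⁻ u in Ioc (0 : ℝ) (A w t), ENNReal.ofReal (H ((B w).1 u.toNNReal)) := fun w => by
    rw [occ, intervalIntegral.integral_of_le (A w t).coe_nonneg, ofReal_integral_eq_lintegral_ofReal
      (dclock_ii hH bH (B w) 0 0 (A w t)).1 (Eventually.of_forall fun _ => h0 _)]
    simp only [zero_add]
  rw [integral_eq_lintegral_of_nonneg_ae (f := fun w => occ H (B w) 0 (A w t))
    (Eventually.of_forall fun w =>
      intervalIntegral.integral_nonneg_of_forall (A w t).coe_nonneg fun _ => h0 _)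
    (hC.meas_occ hH t).aestronglyMeasurable, lintegral_congr h1,
    hC.revuz' hW hH.ennreal_ofReal, ENNReal.toReal_mul, ENNReal.coe_toReal,
    integral_eq_lintegral_of_nonneg_ae (Eventually.of_forall h0) hH.aestronglyMeasurable]

theorem IsClock.revuz_real (hC : IsClock W μ A Λ B) (hW : IsWiener W) [IsProbabilityMeasure μ]
    (hH : Measurable H) (bH : Bdd H) (t : ℝ≥0) :
    ∫ w, occ H (B w) 0 (A w t) ∂Pm W volume = t * ∫ z, H z ∂μ := by
  obtain ⟨C, hb⟩ := id bH
  have h0 : 0 ≤ C := (abs_nonneg _).trans (hb 0)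
  have h1 := dclock_pos hC hW (H := fun z => H z + C) (hH.add_const C)
    ⟨C + C, fun z => (abs_add_le _ _).trans (add_le_add (hb z) (abs_of_nonneg h0).le)⟩
    (fun z => by linarith [(abs_le.1 (hb z)).1]) t
  have h2 : ∀ w, occ (fun z => H z + C) (B w) 0 (A w t) =
      occ H (B w) 0 (A w t) + C * A w t := fun w => by
    rw [occ, intervalIntegral.integral_add (dclock_ii hH bH _ _ _ _) intervalIntegrable_const]
    simp [occ, mul_comm]
  have h3 : ∫ w, (A w t : ℝ) ∂Pm W volume = t := by
    rw [integral_eq_lintegral_of_nonneg_ae (Eventually.of_forall fun w => (A w t).coe_nonneg)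
      (hC.measA t).coe_nnreal_real.aestronglyMeasurable]
    simp [dclock_lint hC hW t]
  have h4 : Integrable H μ :=
    .of_bound hH.aestronglyMeasurable C (Eventually.of_forall hb)
  have h5 := (hC.integrable_A hW t).const_mul C
  rw [integral_congr_ae (Eventually.of_forall h2), integral_add (h5.mono'
    (hC.meas_occ hH t).aestronglyMeasurable (Eventually.of_forall fun w => by
      simpa using abs_occ_le hb (B w) 0 (A w t))) h5, integral_const_mul, h3,
    integral_add h4 (integrable_const C)] at h1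
  simp only [integral_const, probReal_univ, one_smul] at h1
  linarith

theorem IsClock.integrable_incr (hC : IsClock W μ A Λ B) (hW : IsWiener W)
    [IsProbabilityMeasure μ] (m : Measure ℂ) [IsFiniteMeasure m] {s : ℝ≥0} (hs : 0 < s)
    (t : ℝ≥0) : Integrable (fun w => (A (shift s w) t : ℝ)) (Pm W m) := by
  have := hW.prob
  have h1 := (hC.measA t).coe_nnreal_ennreal
  have h2 : Measurable fun y : ℂ => ∫⁻ w', (A (tr y w') t : ℝ≥0∞) ∂W :=
    (h1.comp measurable_tr).lintegral_prod_right'
  obtain ⟨C, h3⟩ := Pm_eval_le hW m hs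
  refine ⟨((hC.measA t).comp (measurable_shift s)).coe_nnreal_real.aestronglyMeasurable,
    hasFiniteIntegral_iff_ofNNReal.2 ?_⟩
  have h4 := markov_lintegral hW m s (Y := fun _ => 1) measurable_const h1
  simp only [one_mul] at h4
  rw [h4, ← lintegral_map h2 (measurable_eval s)]
  refine (lintegral_mono' h3 le_rfl).trans_lt ?_
  rw [lintegral_smul_measure, ← lintegral_Pm hW volume h1, dclock_lint hC hW t]
  exact ENNReal.mul_lt_top ENNReal.coe_lt_top ENNReal.coe_lt_top

/-- a measurable inverse of the clock -/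
theorem IsClock.exists_inv (hC : IsClock W μ A Λ B) :
    ∃ τ : ℝ≥0 → Path → ℝ≥0, (∀ r, Measurable (τ r)) ∧ ∀ w ∈ Λ, ∀ r, A w (τ r w) = r := by
  classical
  have h : ∀ w ∈ Λ, ∀ r, A w (Function.invFun (A w) r) = r := fun w hw =>
    Function.rightInverse_invFun (hC.mono w hw).2
  refine ⟨fun r w => if w ∈ Λ then Function.invFun (A w) r else 0,
    fun r => measurable_of_Iic fun s => ?_, fun w hw r => by simp only [if_pos hw, h w hw]⟩
  convert (measurableSet_le (measurable_const (a := r)) (hC.measA s)).union hC.measΛ.compl using 1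
  ext w
  by_cases hw : w ∈ Λ
  · simp only [mem_preimage, mem_Iic, mem_union, mem_ofPred_eq, mem_compl_iff, hw,
      not_true_eq_false, or_false, if_true]
    rw [← (hC.mono w hw).1.le_iff_le, h w hw]
  · simp [hw]

end Pool.Agent.QL
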