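import Pool.Agent.P.MP_7a6434d8_pr.QL.W.Base

/-! Continuous metrics on the sphere, partitions of unity. -/

open MeasureTheory ProbabilityTheory Set Filter Topology Metric
open scoped ENNReal NNReal

namespace Pool.Agent.QL

open Pool.Agent.LGD Pool.Agent.P.MP_7a6434d8_pr

variable {d d' : Sph → Sph → ℝ}

theorem isMet_chord : IsMet chord :=
  ⟨fun _ _ => dist_comm _ _, fun _ _ _ => dist_triangle _ _ _,
    fun _ _ => dist_eq_zero.trans sphHomeo.injective.eq_iff,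
    (sphHomeo.continuous.comp continuous_fst).dist (sphHomeo.continuous.comp continuous_snd)⟩

theorem IsMet.self (h : IsMet d) (x : Sph) : d x x = 0 := (h.eq_iff x x).2 rfl

theorem IsMet.nonneg (h : IsMet d) (x y : Sph) : 0 ≤ d x y := by
  have h1 := h.triangle x y x
  rw [h.self, h.symm y x] at h1
  linarith

theorem IsMet.cont_right (h : IsMet d) (z : Sph) : Continuous fun x => d z x :=
  h.cont.comp (continuous_const.prodMk continuous_id)

/-- the metric is bounded below on a closed set that misses the diagonal -/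
theorem top_pos (h : IsMet d) {S : Set (Sph × Sph)} (hS : IsClosed S)
    (hne : ∀ p ∈ S, p.1 ≠ p.2) : ∃ θ > 0, ∀ x y, d x y ≤ θ → (x, y) ∉ S := by
  obtain ⟨a, ha, h1⟩ := hS.isCompact.exists_forall_le' (a := 0) h.cont.continuousOn fun p hp =>
    (h.nonneg _ _).lt_of_ne' fun e => hne p hp ((h.eq_iff _ _).1 e)
  exact ⟨a / 2, half_pos ha, fun x y hxy hp => by linarith [h1 _ hp]⟩

theorem IsMet.unif (h : IsMet d) (h' : IsMet d') {ε : ℝ} (hε : 0 < ε) :
    ∃ θ > 0, ∀ x y, d x y ≤ θ → d' x y ≤ ε := by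
  obtain ⟨θ, h1, h2⟩ := top_pos h (isClosed_le (continuous_const (y := ε)) h'.cont) fun p hp e => by
    rw [mem_ofPred_eq, e, h'.self] at hp
    exact absurd hε (not_lt.2 hp)
  exact ⟨θ, h1, fun x y hxy => (not_le.1 (h2 x y hxy)).le⟩

theorem IsMet.unif_cont (h : IsMet d) (g : C(Sph, ℝ)) {ε : ℝ} (hε : 0 < ε) :
    ∃ θ > 0, ∀ x y, d x y ≤ θ → |g x - g y| ≤ ε := by
  obtain ⟨θ, h1, h2⟩ := top_pos h (S := {p | ε ≤ |g p.1 - g p.2|})
    (isClosed_le continuous_const (by fun_prop)) fun p hp e => by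
    rw [mem_ofPred_eq, e, sub_self, abs_zero] at hp
    exact absurd hε (not_lt.2 hp)
  exact ⟨θ, h1, fun x y hxy => (not_le.1 (h2 x y hxy)).le⟩

theorem IsMet.ball_sub (h : IsMet d) {z : Sph} {O : Set Sph} (hO : O ∈ 𝓝 z) :
    ∃ r > 0, ∀ x, d z x < r → x ∈ O := by
  obtain ⟨θ, h1, h2⟩ := top_pos h (isClosed_singleton (x := z) |>.prod
    (isOpen_interior (s := O)).isClosed_compl) fun p hp e =>
    hp.2 (e ▸ (show p.1 = z from hp.1) ▸ mem_interior_iff_mem_nhds.2 hO)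
  exact ⟨θ, h1, fun x hx => interior_subset (not_not.1 fun hn => h2 z x hx.le ⟨rfl, hn⟩)⟩

theorem IsMet.thick (h : IsMet d) {K O : Set Sph} (hK : IsClosed K) (hO : IsOpen O)
    (hKO : K ⊆ O) : ∃ r > 0, ∀ x ∈ K, ∀ y, d x y ≤ r → y ∈ O := by
  obtain ⟨θ, h1, h2⟩ := top_pos h (hK.prod hO.isClosed_compl) fun p hp e => hp.2 (e ▸ hKO hp.1)
  exact ⟨θ, h1, fun x hx y hxy => not_not.1 fun hn => h2 x y hxy ⟨hx, hn⟩⟩

theorem IsMet.bdd (h : IsMet d) : ∃ C, ∀ x y, d x y ≤ C := by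
  obtain ⟨C, hC⟩ := (isCompact_range h.cont).bddAbove
  exact ⟨C, fun x y => hC ⟨(x, y), rfl⟩⟩

theorem IsMet.net (h : IsMet d) {ε : ℝ} (hε : 0 < ε) :
    ∃ s : Finset Sph, ∀ x, ∃ z ∈ s, d z x < ε := by
  obtain ⟨s, hs⟩ := isCompact_univ.elim_finite_subcover (fun z => {x | d z x < ε})
    (fun z => isOpen_lt (h.cont_right z) continuous_const)
    fun x _ => mem_iUnion.2 ⟨x, show d x x < ε by rwa [h.self]⟩
  exact ⟨s, fun x => by simpa using hs (mem_univ x)⟩

theorem IsMet.far (h : IsMet d) (z : Sph) : ∃ y, 0 < d z y := by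
  obtain ⟨y, hy⟩ := exists_ne z
  exact ⟨y, (h.nonneg _ _).lt_of_ne' fun e => hy ((h.eq_iff _ _).1 e).symm⟩

theorem IsMet.dense_dz (h : IsMet d) (x : Sph) {ε : ℝ} (hε : 0 < ε) : ∃ i, d (dz i) x < ε := by
  obtain ⟨i, hi⟩ := (TopologicalSpace.denseRange_denseSeq Sph).exists_mem_open
    (isOpen_lt (h.cont_right x) (continuous_const (y := ε))) ⟨x, show d x x < ε by rwa [h.self]⟩
  exact ⟨i, h.symm _ _ ▸ hi⟩

theorem IsMet.bump (h : IsMet d) (z : Sph) {r R : ℝ} (hr : r < R) :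
    ∃ g : C(Sph, ℝ), (∀ x, g x ∈ Icc (0 : ℝ) 1) ∧ (∀ x, d z x ≤ r → g x = 0) ∧
      ∀ x, R ≤ d z x → g x = 1 := by
  have h0 := sub_pos.2 hr
  refine ⟨⟨fun x => max 0 (min 1 ((d z x - r) / (R - r))), continuous_const.max
    (continuous_const.min (((h.cont_right z).sub continuous_const).div_const _))⟩,
    fun x => ⟨le_max_left _ _, max_le zero_le_one (min_le_left _ _)⟩, fun x hx => ?_,
    fun x hx => ?_⟩
  · exact max_eq_left (min_le_of_right_le (div_nonpos_of_nonpos_of_nonneg (by linarith) h0.le))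
  · change max 0 (min 1 _) = _
    rw [min_eq_left ((one_le_div h0).2 (by linarith)), max_eq_right zero_le_one]

theorem pou_nonempty {θ : ℝ} (hθ : 0 < θ) : Nonempty (POU θ) := by
  obtain ⟨s, hs⟩ := isMet_chord.net (half_pos hθ)
  let ψ : Fin s.card → Sph → ℝ := fun l x => max 0 (θ / 2 - chord (s.equivFin.symm l) x)
  have hc : ∀ l, Continuous (ψ l) := fun l =>
    continuous_const.max (continuous_const.sub (isMet_chord.cont_right _))
  have h0 : ∀ l x, 0 ≤ ψ l x := fun l x => le_max_left _ _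
  have hp : ∀ x, 0 < ∑ l, ψ l x := fun x => by
    obtain ⟨z, hz, h⟩ := hs x
    refine Finset.sum_pos' (fun l _ => h0 l x) ⟨s.equivFin ⟨z, hz⟩, Finset.mem_univ _, ?_⟩
    simp only [ψ, Equiv.symm_apply_apply]
    exact lt_max_of_lt_right (sub_pos.2 h)
  have hn : ∀ l x, ψ l x / ∑ l, ψ l x ≠ 0 → chord (s.equivFin.symm l) x ≤ θ / 2 := fun l x h =>
    not_lt.1 fun h1 => h (by rw [show ψ l x = 0 from max_eq_left (by linarith), zero_div])
  refine ⟨⟨s.card, fun l => ⟨fun x => ψ l x / ∑ l, ψ l x,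
    (hc l).div (continuous_finsetSum _ fun l _ => hc l) fun x => (hp x).ne'⟩,
    fun l z => div_nonneg (h0 l z) (hp z).le, fun z => ?_, fun l x y hx hy => ?_⟩⟩
  · simp only [ContinuousMap.coe_mk]
    rw [← Finset.sum_div, div_self (hp z).ne']
  · have h1 := isMet_chord.triangle x (s.equivFin.symm l) y
    rw [isMet_chord.symm x (s.equivFin.symm l)] at h1
    linarith [hn l x hx, hn l y hy]

theorem measurableEmbedding_coe_sph : MeasurableEmbedding fun z : ℂ => (z : Sph) :=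
  OnePoint.isOpenEmbedding_coe.measurableEmbedding

theorem measurable_coe_sph : Measurable fun z : ℂ => (z : Sph) :=
  measurableEmbedding_coe_sph.measurable

theorem cont_bdd (g : C(Sph, ℝ)) : Bdd g :=
  ⟨‖g‖, fun x => g.norm_coe_le_norm x⟩

theorem cont_coe (g : C(Sph, ℝ)) : Continuous fun z : ℂ => g z :=
  g.continuous.comp OnePoint.continuous_coe

/-- a test function extended by zero at infinity -/
theorem exists_testC (φ : Test) :
    ∃ g : C(Sph, ℝ), (⇑g = fun s : Sph => OnePoint.rec 0 φ s) ∧ ∀ z : ℂ, g z = φ z := by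
  have h : Tendsto φ (coclosedCompact ℂ) (𝓝 0) := tendsto_const_nhds.congr'
    (hasCompactSupport_iff_eventuallyEq.1 φ.hasCompactSupport).symm
  have hc : Continuous (fun s : Sph => (OnePoint.rec 0 φ s : ℝ)) := by
    rw [OnePoint.continuous_iff]
    exact ⟨h, φ.continuous⟩
  exact ⟨⟨_, hc⟩, rfl, fun _ => rfl⟩

theorem cw_nonneg {θ : ℝ} (Φ : POU θ) {J : ℕ} (c : Fin J → Fin Φ.k) (γ : Fin J → Sph) :
    0 ≤ cw Φ c γ :=
  Finset.prod_nonneg fun _ _ => Φ.nonneg _ _

theorem cw_sum {θ : ℝ} (Φ : POU θ) {J : ℕ} (γ : Fin J → Sph) :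
    ∑ c : Fin J → Fin Φ.k, cw Φ c γ = 1 := by
  have h := Finset.prod_univ_sum (fun _ : Fin J => (Finset.univ : Finset (Fin Φ.k)))
    fun j l => Φ.φ l (γ j)
  rw [Fintype.piFinset_univ] at h
  simp only [cw, ← h, Φ.sum_one, Finset.prod_const_one]

end Pool.Agent.QL
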