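import Pool.Agent.P.MP_7a6434d8_pr.QL.W.ARes
import Pool.Agent.P.MP_7a6434d8_pr.QL.W.Top

/-! Elementary facts on nets. -/

open MeasureTheory ProbabilityTheory Set Filter Topology Metric
open scoped ENNReal NNReal

namespace Pool.Agent.QL

open Pool.Agent.LGD Pool.Agent.P.MP_7a6434d8_pr

variable {d : Sph → Sph → ℝ} {μ : Measure ℂ} {N : Net}

theorem cn_nonneg (n : ℕ) : 0 ≤ cn n := Real.rpow_nonneg (by positivity) _

theorem cn_tendsto : Tendsto cn atTop (𝓝 0) := by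
  have h := (tendsto_const_div_atTop_nhds_zero_nat (9 / 8 : ℝ)).rpow_const
    (p := 1 / 4) (.inr (by norm_num))
  rwa [Real.zero_rpow (by norm_num)] at h

theorem Net.Geo.cn_le (h : N.Geo d μ) {ε : ℝ} (hε : 0 < ε) :
    ∀ᶠ m in (N.U : Filter ℕ), cn (N.n m) ≤ ε :=
  (cn_tendsto.comp h.n_top).eventually (eventually_le_nhds hε)

theorem Net.Geo.step (h : N.Geo d μ) {ε : ℝ} (hε : 0 < ε) :
    ∀ᶠ m in (N.U : Filter ℕ), ∀ e,
      d (N.p m ((N.q m).tail e)) (N.p m ((N.q m).head e)) ≤ ε := by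
  filter_upwards [h.cn_le (half_pos hε), h.dist _ (half_pos hε)] with m h1 h2 e
  have h3 : (((N.q m).graph.dist ((N.q m).tail e) ((N.q m).head e) : ℕ) : ℝ) ≤ 1 := by
    exact_mod_cast dist_tail_head _ e
  have h4 := (abs_le.1 (h2 ((N.q m).tail e) ((N.q m).head e))).1
  have h5 := mul_le_of_le_one_right (cn_nonneg (N.n m)) h3
  linarith

theorem Net.En.pos (h : N.En d) : ∀ᶠ m in (N.U : Filter ℕ), 0 < N.a m :=
  h.a_top.eventually (eventually_gt_atTop 0)

theorem Net.Good.mono {η η' : ℝ} {G : ∀ m, Set (N.q m).Vertex} (h : N.Good η G) (hη : η ≤ η') :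
    N.Good η' G := ⟨h.small.mono fun _ hm => hm.trans hη, h.kato⟩

theorem Net.Good.nonempty {η : ℝ} {G : ∀ m, Set (N.q m).Vertex} (h : N.Good η G) (hη : η < 1) :
    ∀ᶠ m in (N.U : Filter ℕ), (G m).Nonempty := by
  filter_upwards [h.small] with m hm
  by_contra h0
  have e : ind (G m)ᶜ = fun _ => 1 :=
    funext fun x => ind_of_mem fun hx => h0 ⟨x, hx⟩
  rw [e, avg_const] at hm
  linarith

theorem NoTrap.mono {n : ℕ} {q : Quad n} {a ε ε' r : ℝ} {y : q.Vertex} (h : NoTrap q a ε r y)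
    (hε : ε ≤ ε') : NoTrap q a ε' r y := by
  obtain ⟨w, h1, h2, h3⟩ := h
  exact ⟨w, h1, h2, h3.trans hε⟩

/-- good sets exist -/
theorem Net.Trap.good (h : N.Trap) {η : ℝ} (hη : 0 < η) : ∃ G, N.Good η G := by
  classical
  have h1 : ∀ i : ℕ, ∃ r > 0, ∀ᶠ m in (N.U : Filter ℕ),
      avg (N.q m) (ind {y | ¬ NoTrap (N.q m) (N.a m) (1 / ((i : ℝ) + 1)) r y}) ≤ η / 2 / 2 ^ i := by
    intro i
    obtain ⟨r, hr, hm⟩ := h (1 / ((i : ℝ) + 1)) (by positivity) (η / 2 / 2 ^ i) (by positivity)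
    refine ⟨r, hr, hm.mono fun m hm => ?_⟩
    rw [← finsum_stat]
    refine le_of_eq_of_le (finsum_congr fun y => ?_) hm
    split_ifs with hy
    · rw [ind_of_notMem (by simpa using hy), mul_zero]
    · rw [ind_of_mem (by simpa using hy), mul_one]
  choose r hr hm using h1
  refine ⟨fun m => {y | ∀ i : ℕ,
    avg (N.q m) (ind {y | ¬ NoTrap (N.q m) (N.a m) (1 / ((i : ℝ) + 1)) (r i) y}) ≤ η / 2 / 2 ^ i →
      NoTrap (N.q m) (N.a m) (1 / ((i : ℝ) + 1)) (r i) y}, .of_forall fun m => ?_, fun ε hε => ?_⟩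
  · set T : ℕ → Set (N.q m).Vertex :=
      fun i => {y | ¬ NoTrap (N.q m) (N.a m) (1 / ((i : ℝ) + 1)) (r i) y}
    set G : Set (N.q m).Vertex := {y | ∀ i : ℕ, avg (N.q m) (ind (T i)) ≤ η / 2 / 2 ^ i →
      NoTrap (N.q m) (N.a m) (1 / ((i : ℝ) + 1)) (r i) y}
    have h2 : ∀ y : ↥Gᶜ, ∃ i, avg (N.q m) (ind (T i)) ≤ η / 2 / 2 ^ i ∧ y.1 ∈ T i := fun y => by
      by_contra h0
      exact y.2 fun i hi => by_contra fun h' => h0 ⟨i, hi, h'⟩
    choose ι hι using h2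
    have := Fintype.ofFinite ↥Gᶜ
    calc avg (N.q m) (ind Gᶜ)
        ≤ avg (N.q m) fun y => ∑ i ∈ Finset.univ.image ι, ind (T i) y := avg_mono _ fun y => by
          by_cases hy : y ∈ Gᶜ
          · rw [ind_of_mem hy, ← ind_of_mem (hι ⟨y, hy⟩).2]
            exact Finset.single_le_sum (f := fun i => ind (T i) y) (fun i _ => ind_nonneg _ _)
              (Finset.mem_image_of_mem _ (Finset.mem_univ _))
          · rw [ind_of_notMem hy]
            exact Finset.sum_nonneg fun i _ => ind_nonneg _ _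
      _ ≤ ∑ i ∈ Finset.univ.image ι, η / 2 / 2 ^ i := by
          rw [avg_sum]
          refine Finset.sum_le_sum fun i hi => ?_
          obtain ⟨y, -, rfl⟩ := Finset.mem_image.1 hi
          exact (hι y).1
      _ ≤ η := sum_le_hasSum _ (fun i _ => by positivity) (hasSum_geometric_two' η)
  · obtain ⟨i, hi⟩ := exists_nat_one_div_lt hε
    exact ⟨r i, hr i, (hm i).mono fun m hm y hy => (hy i hm).mono hi.le⟩

theorem Net.exists_res (hE : N.En d) {η l : ℝ} (hη : η < 1) (hl : 0 < l)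
    {G : ∀ m, Set (N.q m).Vertex} (hG : N.Good η G) (f : C(Sph, ℝ)) :
    ∃ u, N.Res l G f u := by
  have h : ∀ m, ∃ u : (N.q m).Vertex → ℝ, 0 < N.a m → (G m).Nonempty →
      IsRes (N.q m) (N.a m) l (G m) (fun x => f (N.p m x)) u := fun m => by
    by_cases h : 0 < N.a m ∧ (G m).Nonempty
    · exact (res_exists _ h.1 hl h.2 _).imp fun _ hu _ _ => hu
    · exact ⟨0, fun h1 h2 => absurd ⟨h1, h2⟩ h⟩
  choose u hu using h
  refine ⟨u, ?_⟩
  filter_upwards [hE.pos, hG.nonempty hη] with m h1 h2 using hu m h1 h2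

theorem Net.Unif.mem_Icc (hd : IsMet d) (h : N.Geo d μ) {v : ∀ m, (N.q m).Vertex → ℝ}
    {g : C(Sph, ℝ)} (hv : N.Unif v g) {s t : ℝ}
    (hb : ∀ᶠ m in (N.U : Filter ℕ), ∀ x, v m x ∈ Icc s t) (z : Sph) : g z ∈ Icc s t := by
  have key : ∀ ε > 0, s ≤ g z + ε ∧ g z ≤ t + ε := fun ε hε => by
    obtain ⟨θ, hθ, h1⟩ := hd.unif_cont g (half_pos hε)
    obtain ⟨m, h2, h3, h4⟩ := ((h.dense θ hθ).and ((hv _ (half_pos hε)).and hb)).exists
    obtain ⟨x, hx⟩ := h2 z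
    have a1 := abs_le.1 (h1 _ _ hx)
    have a2 := abs_le.1 (h3 x)
    have a3 := h4 x
    exact ⟨by linarith [a3.1], by linarith [a3.2]⟩
  exact ⟨le_of_forall_pos_le_add fun ε hε => (key ε hε).1,
    le_of_forall_pos_le_add fun ε hε => (key ε hε).2⟩

/-- Arzela-Ascoli along the ultrafilter -/
theorem Net.Equi.exists_lim (hd : IsMet d) (h : N.Geo d μ) {v : ∀ m, (N.q m).Vertex → ℝ}
    (he : N.Equi d v) {C : ℝ} (hb : ∀ᶠ m in (N.U : Filter ℕ), ∀ x, |v m x| ≤ C) :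
    ∃ g : C(Sph, ℝ), N.Unif v g := by
  have h1 : ∀ m z, ∃ x : (N.q m).Vertex, ∀ y, d z (N.p m x) ≤ d z (N.p m y) := fun m z => by
    have : Nonempty (N.q m).Vertex :=
      ⟨(N.q m).tail ⟨0, Nat.mul_pos (by norm_num) (n_pos (N.q m))⟩⟩
    exact Finite.exists_min fun y => d z (N.p m y)
  choose x hx using h1
  have h2 : ∀ z z' r, d z z' < r → ∀ᶠ m in (N.U : Filter ℕ), d z (N.p m (x m z')) < r := by
    intro z z' r hr
    filter_upwards [h.dense ((r - d z z') / 2) (by linarith)] with m hm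
    obtain ⟨y, hy⟩ := hm z'
    linarith [hd.triangle z z' (N.p m (x m z')), hx m z' y]
  have h3 : ∀ z, ∃ c, Tendsto (fun m => v m (x m z)) N.U (𝓝 c) := fun z => by
    obtain ⟨c, -, hc⟩ := isCompact_Icc.ultrafilter_le_nhds (N.U.map fun m => v m (x m z))
      (le_principal_iff.2 (show ∀ᶠ m in (N.U : Filter ℕ), v m (x m z) ∈ Icc (-C) C from
        hb.mono fun m hm => abs_le.1 (hm _)))
    exact ⟨c, hc⟩
  choose g hg using h3
  have h4 : ∀ z, ∀ ε > 0, ∃ r > 0, (∀ z', d z z' < r → |g z - g z'| ≤ ε) ∧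
      ∀ᶠ m in (N.U : Filter ℕ), ∀ y, d z (N.p m y) < r → |v m y - g z| ≤ 2 * ε := by
    intro z ε hε
    obtain ⟨r, hr, hm⟩ := he z ε hε
    have h0 := h2 z z r (by rwa [hd.self])
    refine ⟨r, hr, fun z' hz => le_of_tendsto ((hg z).sub (hg z')).abs ?_, ?_⟩
    · filter_upwards [hm, h0, h2 z z' r hz] with m a1 a2 a3 using a1 _ _ a2 a3
    · filter_upwards [hm, h0, (hg z).eventually (closedBall_mem_nhds _ hε)] with m a1 a2 a3 y hy
      have a4 := a1 _ _ hy a2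
      rw [Real.dist_eq] at a3
      linarith [abs_sub_le (v m y) (v m (x m z)) (g z)]
  have h5 : ∀ z r, 0 < r → {z' | d z z' < r} ∈ 𝓝 z := fun z r hr =>
    (isOpen_lt (hd.cont_right z) continuous_const).mem_nhds (by rwa [mem_ofPred_eq, hd.self])
  have hc : Continuous g := continuous_iff_continuousAt.2 fun z =>
    Metric.tendsto_nhds.2 fun ε hε => by
      obtain ⟨r, hr, h6, -⟩ := h4 z _ (half_pos hε)
      filter_upwards [h5 z r hr] with z' hz
      rw [Real.dist_eq, abs_sub_comm]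
      linarith [h6 z' hz]
  refine ⟨⟨g, hc⟩, fun ε hε => ?_⟩
  choose r hr h6 h7 using fun z => h4 z (ε / 3) (by positivity)
  obtain ⟨t, -, ht⟩ := isCompact_univ.elim_nhds_subcover (fun z => {z' | d z z' < r z})
    fun z _ => h5 z _ (hr z)
  filter_upwards [(eventually_all_finset t).2 fun z _ => h7 z] with m hm y
  obtain ⟨z, hz, hy⟩ := mem_iUnion₂.1 (ht (mem_univ (N.p m y)))
  have a1 := hm z hz y hy
  have a2 := h6 z _ hy
  change |v m y - g (N.p m y)| ≤ ε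
  linarith [abs_sub_le (v m y) (g z) (g (N.p m y))]

end Pool.Agent.QL
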