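import Pool.Agent.P.MP_7a6434d8_pr.QL.W.FWalk
import Pool.Agent.P.MP_7a6434d8_pr.XCount

/-! Instances for rooted quadrangulations. -/

open MeasureTheory ProbabilityTheory Set Filter Topology Metric
open scoped ENNReal NNReal

namespace Pool.Agent.QL

open Pool.Agent.LGD Pool.Agent.P.MP_7a6434d8_pr

instance (n : ℕ) : Finite (RootedQuad n) := Quot.finite _

instance (n : ℕ) : DiscreteMeasurableSpace (RootedQuad n) := ⟨fun _ => trivial⟩

end Pool.Agent.QL
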