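import Pool.Agent.P.MP_7a6434d8_pr.QL.WDefs

/-! Definitions internal to block W (from the energy inputs to the walk). -/

open MeasureTheory ProbabilityTheory Set Filter Topology Metric
open scoped ENNReal NNReal

namespace Pool.Agent.QL

open Pool.Agent.LGD Pool.Agent.P.MP_7a6434d8_pr

/-! ### The sphere -/

instance : BorelSpace Sph := ⟨rfl⟩

/-- the sphere as the round sphere -/
noncomputable def sphHomeo : Sph ≃ₜ sphere (0 : EuclideanSpace ℝ (Fin 3)) 1 :=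
  onePointEquivSphereOfFinrankEq (by simp)

instance : TopologicalSpace.MetrizableSpace Sph := sphHomeo.isEmbedding.metrizableSpace

instance : SecondCountableTopology Sph := sphHomeo.isEmbedding.secondCountableTopology

/-- chordal distance -/
noncomputable def chord (x y : Sph) : ℝ := dist (sphHomeo x) (sphHomeo y)

/-- a continuous metric on the sphere -/
structure IsMet (d : Sph → Sph → ℝ) : Prop where
  symm : ∀ x y, d x y = d y x
  triangle : ∀ x y z, d x z ≤ d x y + d y z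
  eq_iff : ∀ x y, d x y = 0 ↔ x = y
  cont : Continuous fun p : Sph × Sph => d p.1 p.2

theorem IsGeoMetric.isMet {d : Sph → Sph → ℝ} (h : IsGeoMetric d) : IsMet d :=
  ⟨h.symm, h.triangle, h.eq_iff, h.cont⟩

/-- a dense sequence -/
noncomputable def dz : ℕ → Sph := TopologicalSpace.denseSeq Sph

/-- a partition of unity with supports of chordal diameter at most `θ` -/
structure POU (θ : ℝ) where
  k : ℕ
  φ : Fin k → C(Sph, ℝ)
  nonneg : ∀ l z, 0 ≤ φ l z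
  sum_one : ∀ z, ∑ l, φ l z = 1
  small : ∀ l x y, φ l x ≠ 0 → φ l y ≠ 0 → chord x y ≤ θ

/-- a smooth compactly supported function as a test function -/
def mkTest (f : ℂ → ℝ) (hf : ContDiff ℝ (⊤ : ℕ∞) f) (hs : HasCompactSupport f) : Test :=
  ⟨f, hf, hs, subset_univ _⟩

@[simp] theorem mkTest_coe (f : ℂ → ℝ) (hf : ContDiff ℝ (⊤ : ℕ∞) f) (hs : HasCompactSupport f) :
    ⇑(mkTest f hf hs) = f := rfl

/-! ### One map -/

instance {n : ℕ} (q : Quad n) : Finite q.Vertex := Quotient.finite _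

noncomputable instance {n : ℕ} (q : Quad n) : Fintype q.Vertex := Fintype.ofFinite _

/-- average for the stationary measure -/
noncomputable def avg {n : ℕ} (q : Quad n) (f : q.Vertex → ℝ) : ℝ := (∑ e, f (q.tail e)) / (4 * n)

/-- real indicator -/
noncomputable def ind {α : Type} (G : Set α) (x : α) : ℝ := G.indicator (fun _ => 1) x

/-- `u` is the resolvent of `f` for the speed measure restricted to `G` -/
def IsRes {n : ℕ} (q : Quad n) (a l : ℝ) (G : Set q.Vertex) (f u : q.Vertex → ℝ) : Prop :=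
  ∀ x, l * ind G x * u x - a * lap q u x = ind G x * f x

/-- sequences of darts -/
abbrev DP (n : ℕ) : Type := ℕ → Fin (4 * n)

/-- a dart followed by a sequence -/
def dcons {n : ℕ} (e : Fin (4 * n)) (w : DP n) : DP n
  | 0 => e
  | j + 1 => w j

/-- forget the first `j` darts -/
def dshift {n : ℕ} (j : ℕ) (w : DP n) : DP n := fun i => w (j + i)

/-- `Y` depends only on the positions up to time `j` -/
def Dep {n : ℕ} (q : Quad n) (j : ℕ) (Y : DP n → ℝ) : Prop :=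
  ∀ e e' : DP n, (∀ i ≤ j, q.tail (e i) = q.tail (e' i)) → Y e = Y e'

/-- `h` is a nonnegative `l`-superharmonic function, at least one on `S` -/
def Barrier {n : ℕ} (q : Quad n) (a l : ℝ) (S : Set q.Vertex) (h : q.Vertex → ℝ) : Prop :=
  (∀ x, 0 ≤ h x) ∧ (∀ x, 0 ≤ l * h x - a * lap q h x) ∧ ∀ z ∈ S, 1 ≤ h z

/-- Laplace transform of `g` along the sped-up walk -/
noncomputable def lapl {n : ℕ} (q : Quad n) (a l : ℝ) (g : q.Vertex → ℝ) (e : DP n) : ℝ :=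
  ∫ s in Ioi (0 : ℝ), Real.exp (-(l * s)) * g (q.tail (e ⌊a * s⌋₊))

/-! ### Nets -/

namespace Net

/-- sets of mass at least `1 - η` without traps at any scale -/
structure Good (N : Net) (η : ℝ) (G : ∀ m, Set (N.q m).Vertex) : Prop where
  small : ∀ᶠ m in (N.U : Filter ℕ), avg (N.q m) (ind (G m)ᶜ) ≤ η
  kato : ∀ ε > 0, ∃ r > 0, ∀ᶠ m in (N.U : Filter ℕ), ∀ y ∈ G m, NoTrap (N.q m) (N.a m) ε r y

/-- asymptotic equicontinuity -/
def Equi (N : Net) (d : Sph → Sph → ℝ) (v : ∀ m, (N.q m).Vertex → ℝ) : Prop :=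
  ∀ (z : Sph) (ε : ℝ), 0 < ε → ∃ r > 0, ∀ᶠ m in (N.U : Filter ℕ), ∀ x y,
    d z (N.p m x) < r → d z (N.p m y) < r → |v m x - v m y| ≤ ε

/-- `u m` is eventually the resolvent of `f` -/
def Res (N : Net) (l : ℝ) (G : ∀ m, Set (N.q m).Vertex) (f : C(Sph, ℝ))
    (u : ∀ m, (N.q m).Vertex → ℝ) : Prop :=
  ∀ᶠ m in (N.U : Filter ℕ), IsRes (N.q m) (N.a m) l (G m) (fun x => f (N.p m x)) (u m)

/-- tightness at all scales -/
def AllTight (N : Net) (d : Sph → Sph → ℝ) : Prop := ∀ ε > 0, ∀ T : ℝ, ∃ δ > 0, N.Tight d ε T δ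

/-- product of functions of the positions at the times `t j` -/
noncomputable def cyl (N : Net) (m : ℕ) {k : ℕ} (t : Fin k → ℝ≥0) (g : Fin k → C(Sph, ℝ))
    (e : DP (N.n m)) : ℝ := ∏ j, g j (N.pos m e ⌊N.a m * t j⌋₊)

/-- convergence of a cylinder function times any function of the position at time `s` -/
def Upto (N : Net) (L : Measure Path) {k : ℕ} (t : Fin k → ℝ≥0) (g : Fin k → C(Sph, ℝ))
    (s : ℝ≥0) : Prop :=
  ∀ h : C(Sph, ℝ), Tendsto
    (fun m => ∫ e, N.cyl m t g e * h (N.pos m e ⌊N.a m * s⌋₊) ∂statLaw (N.q m)) N.U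
    (𝓝 (∫ w, (∏ j, g j (w.1 (t j))) * h (w.1 s) ∂L))

end Net

/-! ### The limit equation -/

/-- `-Δu/2 = H μ` in the sense of distributions -/
def Weak (μ : Measure ℂ) (u H : ℂ → ℝ) : Prop :=
  ∀ φ : Test, -(1 / 2) * ∫ z, u z * Laplacian.laplacian (φ : ℂ → ℝ) z = ∫ z, φ z * H z ∂μ

/-- `u` is the resolvent of `f` for the measure `ρ μ` -/
structure ResLim (μ : Measure ℂ) (l η M : ℝ) (f u : C(Sph, ℝ)) (ρ : ℂ → ℝ) : Prop where
  meas : Measurable ρ
  mem : ∀ z, ρ z ∈ Icc (0 : ℝ) 1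
  small : ∫ z, (1 - ρ z) ∂μ ≤ η
  bdd : ∀ z, |l * u z| ≤ M
  weak : Weak μ (fun z => u z) (fun z => (f z - l * u z) * ρ z)

/-! ### Brownian side -/

/-- Brownian motion with initial measure `m` -/
noncomputable def Pm (W : Measure Path) (m : Measure ℂ) : Measure Path :=
  (m.prod W).map fun p => tr p.1 p.2

/-- the past up to time `s` -/
def past (s : ℝ≥0) (w : Path) (r : Iic s) : ℂ := w.1 r

/-- the natural filtration -/
noncomputable abbrev Fil (s : ℝ≥0) : MeasurableSpace Path :=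
  MeasurableSpace.comap (fun (w : Path) (r : Iic s) => w.1 r) inferInstance

/-- the increments after time `s` -/
def incr (s : ℝ≥0) (w : Path) : Path := tr (-(w.1 s)) (shift s w)

/-- heat semigroup -/
noncomputable def heat (W : Measure Path) (s : ℝ≥0) (ψ : ℂ → ℝ) (y : ℂ) : ℝ :=
  ∫ w, ψ (y + w.1 s) ∂W

/-- occupation integral of `H` along `b` between times `r` and `r + q` -/
noncomputable def occ (H : ℂ → ℝ) (b : Path) (r : ℝ≥0) (q : ℝ) : ℝ :=
  ∫ v in (0 : ℝ)..q, H (b.1 (r + v.toNNReal))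

/-- bounded functions -/
def Bdd {α : Type} (f : α → ℝ) : Prop := ∃ C, ∀ x, |f x| ≤ C

/-- cylinder functions of the path up to time `r` -/
def Cyl (r : ℝ≥0) (ξ : Path → ℝ) : Prop :=
  ∃ (k : ℕ) (t : Fin k → ℝ≥0) (f : Fin k → ℂ → ℝ), (∀ i, t i ≤ r) ∧ (∀ i, Continuous (f i)) ∧
    (∀ i, Bdd (f i)) ∧ ξ = fun b => ∏ i, f i (b.1 (t i))

/-- `u (b t) + ∫₀ᵗ H (b s) ds` is a martingale -/
def BMart (Q : Measure Path) (u H : ℂ → ℝ) : Prop :=
  ∀ (r : ℝ≥0) (ξ : Path → ℝ), Cyl r ξ → ∀ q : ℝ≥0,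
    ∫ b, ξ b * (u (b.1 (r + q)) - u (b.1 r) + occ H b r q) ∂Q = 0

/-- the occupation measure is absolutely continuous -/
def OccAC (Q : Measure Path) (μ : Measure ℂ) : Prop :=
  ∀ (r : ℝ≥0) (θ : ℝ), 0 < θ → ∃ η > 0, ∀ g : ℂ → ℝ, Measurable g → (∀ z, g z ∈ Icc (0 : ℝ) 1) →
    ∫ z, g z ∂μ ≤ η →
    ∫ q in Ioi (0 : ℝ), Real.exp (-q) * ∫ b, g (b.1 (r + q.toNNReal)) ∂Q ≤ θ

/-- `Q` solves the martingale problem of the time change by `μ` -/
structure Solves (μ : Measure ℂ) (Q : Measure Path) : Prop where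
  fin : IsFiniteMeasure Q
  mart : ∀ u H : ℂ → ℝ, Continuous u → Bdd u → Measurable H → Bdd H → Weak μ u H → BMart Q u H
  ac : OccAC Q μ

/-- what the walk side uses of Liouville Brownian motion -/
structure Cont (μ : Measure ℂ) (L : Measure Path) : Prop where
  prob : IsProbabilityMeasure L
  sol : Solves μ L
  init : L.map (fun w => w.1 0) = μ
  leb : ∀ K : Set ℂ, IsCompact K → ∃ Q, Solves μ Q ∧ Q.map (fun w => w.1 0) = volume.restrict K

/-! ### Assembly -/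

/-- a uniform dart and the walk started at its tail -/
noncomputable def statLaw2 {n : ℕ} (q : Quad n) : Measure (Fin (4 * n) × DP n) :=
  (uniformOn univ : Measure (Fin (4 * n))).bind fun e => (walkLaw q (q.tail e)).map (Prod.mk e)

/-- `ψ` is an isomorphism of unrooted maps -/
def UIso {n : ℕ} (q q' : Quad n) (ψ : Equiv.Perm (Fin (4 * n))) : Prop :=
  (∀ d, ψ (q.α d) = q'.α (ψ d)) ∧ ∀ d, ψ (q.φ d) = q'.φ (ψ d)

/-- positions in the dense sequence -/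
noncomputable def cand {n : ℕ} (q : Quad n) (κ : Fin (4 * n) → ℕ) (x : q.Vertex) : Sph :=
  dz (κ (Quotient.out x))

/-- weight of a cell -/
noncomputable def cw {θ : ℝ} (Φ : POU θ) {J : ℕ} (c : Fin J → Fin Φ.k) (γ : Fin J → Sph) : ℝ :=
  ∏ j, Φ.φ (c j) (γ j)

/-- mesh times -/
noncomputable def mesh (δ : ℝ≥0) (J : ℕ) (j : Fin J) : ℝ≥0 := (j : ℕ) * δ

/-- paths with an oscillation -/
def Osc (θ δ T : ℝ) : Set Path :=
  {w | ∃ s t : ℝ≥0, (s : ℝ) < T ∧ (t : ℝ) < T ∧ |(s : ℝ) - t| < δ ∧ θ < chord (w.1 s) (w.1 t)}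

/-- walks with an oscillation -/
def DOsc {n : ℕ} (q : Quad n) (a ε δ T : ℝ) : Set (DP n) :=
  {e | ∃ i j : ℕ, i ≤ j ∧ (j : ℝ) ≤ a * T ∧ (j : ℝ) - i ≤ a * (2 * δ) ∧
    ε < cn n * q.graph.dist (q.tail (e i)) (q.tail (e j))}

/-- the positions `p` are good for the sphere `d` and the law `L` -/
structure GoodAt {n : ℕ} (q : Quad n) (a ε T : ℝ) (δ : ℝ≥0) {θ : ℝ} (Φ : POU θ) (J : ℕ)
    (d : Sph → Sph → ℝ) (L : Measure Path) (p : q.Vertex → Sph) : Prop where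
  big : 1 ≤ a * δ
  dist : ∀ x y, |cn n * q.graph.dist x y - d (p x) (p y)| ≤ ε
  dense : ∀ i, ∃ x, d (dz i) (p x) ≤ ε
  modu : ∀ i j, chord (dz i) (dz j) < 2 * θ → d (dz i) (dz j) ≤ ε
  meas : ∑ l, |(n : ℝ)⁻¹ * ∑ᶠ x, Φ.φ l (p x) - ∫ w, Φ.φ l (w.1 0) ∂L| ≤ ε
  fdd : ∑ c : Fin J → Fin Φ.k,
    |∫ e, cw Φ c (fun j => p (q.tail (e ⌊a * mesh δ J j⌋₊))) ∂statLaw q -
      ∫ w, cw Φ c (fun j => w.1 (mesh δ J j)) ∂L| ≤ ε
  osc : statLaw q (DOsc q a ε δ T) ≤ ENNReal.ofReal ε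

/-- the map with its walk is close to the sphere with its curve -/
def Close {n : ℕ} (q : Quad n) (a : ℝ) (e : DP n) (d : Sph → Sph → ℝ) (μ : Measure ℂ) (w : Path)
    (ε T : ℝ) : Prop :=
  ∃ (p : q.Vertex → Sph) (k : ℕ) (φ : Fin k → C(Sph, ℝ)),
    (∀ l z, 0 ≤ φ l z) ∧ (∀ z, ∑ l, φ l z = 1) ∧ (∀ l x y, φ l x ≠ 0 → φ l y ≠ 0 → d x y ≤ ε) ∧
    (∀ x y, |cn n * q.graph.dist x y - d (p x) (p y)| ≤ ε) ∧ (∀ z, ∃ x, d z (p x) ≤ ε) ∧
    ∑ l, |(n : ℝ)⁻¹ * ∑ᶠ x, φ l (p x) - ∫ z : ℂ, φ l z ∂μ| ≤ ε ∧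
    ∀ t : ℝ≥0, (t : ℝ) ≤ T → d (p (q.tail (e ⌊a * t⌋₊))) (w.1 t) ≤ ε

/-- the GHPU distance of the statement -/
noncomputable def ghpu {n : ℕ} (q : Quad n) (a : ℝ≥0) (e : DP n) (d : Sph → Sph → ℝ)
    (μ : Measure ℂ) (w : Path) : ℝ≥0∞ :=
  gh (mdist q) (vmeas q) d (μ.map (↑))
    (curveTerm (fun t => curve e (a * t)) fun t => (w.1 t : Sph))

/-- there is a coupling at precision `ε` for the speed `a` -/
def Coupled {Ω : Type} [MeasurableSpace Ω] (P : Measure Ω) (d : Ω → Sph → Sph → ℝ)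
    (μ : Ω → Measure ℂ) (L : Kernel Ω Path) (n : ℕ) (a : ℝ≥0) (ε : ℝ≥0∞) : Prop :=
  ∃ Γ : Measure ((RootedQuad n × DP n) × (Ω × Path)), Γ.fst = jointLaw n ∧ Γ.snd = P ⊗ₘ L ∧
    Γ {p | ε < ghpu (Quot.out p.1.1) a p.1.2 (d p.2.1) (μ p.2.1) p.2.2} ≤ ε

/-- what is known of the sphere for a given environment -/
structure Env (d : Sph → Sph → ℝ) (μ : Measure ℂ) (W L : Measure Path) : Prop where
  geo : IsGeoMetric d
  prob : IsProbabilityMeasure μ
  at0 : μ {0} = 0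
  at1 : μ {1} = 0
  lbm : IsLBM W μ L

end Pool.Agent.QL
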