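import Pool.Agent.P.MP_7a6434d8_pr.QL.W.AGreen

/-! Vertices are matched with faces. -/

open MeasureTheory ProbabilityTheory Set Filter Topology Metric
open scoped ENNReal NNReal

namespace Pool.Agent.QL

open Pool.Agent.LGD Pool.Agent.P.MP_7a6434d8_pr

section

variable {n : ℕ} (q : Quad n)

theorem deg_four (e : Fin (4 * n)) : q.φ (q.φ (q.φ (q.φ e))) = e := (q.φ_four e).1

theorem deg_mod (e : Fin (4 * n)) (k : ℕ) : q.φ^[k % 4] e = q.φ^[k] e :=
  Function.IsPeriodicPt.iterate_mod_apply (f := q.φ) (n := 4)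
    (show Function.IsPeriodicPt q.φ 4 e from deg_four q e) k

theorem deg_ne (e : Fin (4 * n)) {m : ℕ} (h0 : 0 < m) (h4 : m < 4) : q.φ^[m] e ≠ e := by
  have h2 : q.φ (q.φ e) ≠ e := (q.φ_four e).2
  have h1 : q.φ e ≠ e := fun h => h2 (by rw [h, h])
  interval_cases m
  · exact h1
  · exact h2
  · exact fun h => h1 ((congrArg q.φ h).symm.trans (deg_four q e))

/-- the dart is the least one of its face -/
def deg_Min (e : Fin (4 * n)) : Prop := ∀ m, 0 < m → m < 4 → e < q.φ^[m] e

theorem deg_exists_min (e : Fin (4 * n)) : ∃ j, deg_Min q (q.φ^[j] e) := by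
  obtain ⟨j, -, hj⟩ := (Finset.range 4).exists_min_image (fun j => q.φ^[j] e) (by simp)
  refine ⟨j, fun m h0 h4 => lt_of_le_of_ne ?_ (deg_ne q _ h0 h4).symm⟩
  rw [← Function.iterate_add_apply, ← deg_mod q e (m + j)]
  exact hj _ (Finset.mem_range.2 (Nat.mod_lt _ (by norm_num)))

theorem deg_inj {e e' : Fin (4 * n)} (h : deg_Min q e) (h' : deg_Min q e') {j k : ℕ} (hjk : j ≤ k)
    (hk : k < 4) (he : q.φ^[j] e = q.φ^[k] e') : e = e' ∧ j = k := by
  obtain ⟨m, rfl⟩ := Nat.exists_eq_add_of_le hjk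
  rw [Function.iterate_add_apply] at he
  have h1 := q.φ.injective.iterate j he
  rcases Nat.eq_zero_or_pos m with rfl | hm
  · exact ⟨h1, rfl⟩
  · have h2 := h (4 - m) (by omega) (by omega)
    have h3 := h' m hm (by omega)
    rw [← h1] at h3
    nth_rewrite 2 [h1] at h2
    rw [← Function.iterate_add_apply, show 4 - m + m = 4 by omega,
      show q.φ^[4] e' = e' from deg_four q e'] at h2
    exact absurd h2 h3.not_gt

/-- the face operator -/
noncomputable def deg_T (e : Fin (4 * n)) : (q.Vertex → ℂ) →ₗ[ℂ] ℂ where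
  toFun F := F (q.tail e) - F (q.tail (q.φ (q.φ e))) -
      Complex.I * (F (q.tail (q.φ e)) - F (q.tail (q.φ (q.φ (q.φ e)))))
  map_add' F G := by
    simp only [Pi.add_apply]
    ring
  map_smul' c F := by
    simp only [Pi.smul_apply, smul_eq_mul, RingHom.id_apply]
    ring

theorem deg_T_apply (e : Fin (4 * n)) (F : q.Vertex → ℂ) : deg_T q e F =
    F (q.tail e) - F (q.tail (q.φ (q.φ e))) -
      Complex.I * (F (q.tail (q.φ e)) - F (q.tail (q.φ (q.φ (q.φ e))))) := rfl

theorem deg_T_iter (F : q.Vertex → ℂ) (j : ℕ) (e : Fin (4 * n))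
    (h : deg_T q (q.φ^[j] e) F = 0) : deg_T q e F = 0 := by
  induction j with
  | zero => exact h
  | succ j ih =>
    refine ih ?_
    rw [Function.iterate_succ_apply', deg_T_apply, deg_four] at h
    rw [deg_T_apply]
    linear_combination (-Complex.I) * h +
      (F (q.tail (q.φ^[j] e)) - F (q.tail (q.φ (q.φ (q.φ^[j] e))))) * Complex.I_mul_I

theorem deg_ker {F : q.Vertex → ℂ} (h : ∀ e, deg_T q e F = 0) (e : Fin (4 * n)) :
    F (q.tail e) = F (q.tail (q.φ (q.φ e))) := by
  let w : Fin (4 * n) → ℝ := fun e => (F (q.tail e)).re * (F (q.tail (q.φ e))).im -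
    (F (q.tail e)).im * (F (q.tail (q.φ e))).re
  have h0 : ∑ e, w e = 0 := by
    have h1 : ∑ e, w (q.α e) = ∑ e, -w e := Finset.sum_congr rfl fun e _ => by
      simp only [w, tail_φ, tail_α, head_α]
      ring
    rw [Equiv.sum_comp q.α w, Finset.sum_neg_distrib] at h1
    linarith
  have h1 : ∑ e, w (q.φ e) = 0 := (Equiv.sum_comp q.φ w).trans h0
  have h2 : ∑ e, w (q.φ (q.φ e)) = 0 := (Equiv.sum_comp q.φ fun e => w (q.φ e)).trans h1
  have h3 : ∑ e, w (q.φ (q.φ (q.φ e))) = 0 :=
    (Equiv.sum_comp q.φ fun e => w (q.φ (q.φ e))).trans h2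
  have h4 : ∀ e, Complex.normSq (F (q.tail e) - F (q.tail (q.φ (q.φ e)))) =
      -(w e + w (q.φ e) + w (q.φ (q.φ e)) + w (q.φ (q.φ (q.φ e)))) := fun e => by
    have h5 := h e
    rw [deg_T_apply] at h5
    have a1 := congrArg Complex.re h5
    have a2 := congrArg Complex.im h5
    simp only [Complex.sub_re, Complex.sub_im, Complex.mul_re, Complex.mul_im, Complex.I_re,
      Complex.I_im, Complex.zero_re, Complex.zero_im] at a1 a2
    simp only [w, deg_four, Complex.normSq_apply, Complex.sub_re, Complex.sub_im]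
    linear_combination ((F (q.tail e)).re - (F (q.tail (q.φ (q.φ e)))).re) * a1 +
      ((F (q.tail e)).im - (F (q.tail (q.φ (q.φ e)))).im) * a2
  have h5 : ∑ e, Complex.normSq (F (q.tail e) - F (q.tail (q.φ (q.φ e)))) = 0 := by
    simp only [h4, Finset.sum_neg_distrib, Finset.sum_add_distrib, h0, h1, h2, h3]
    simp
  exact sub_eq_zero.1 (Complex.normSq_eq_zero.1 ((Finset.sum_eq_zero_iff_of_nonneg
    fun e _ => Complex.normSq_nonneg _).1 h5 e (Finset.mem_univ _)))

theorem deg_zero {F : q.Vertex → ℂ} (h : ∀ e, deg_T q e F = 0) (h1 : F (q.tail q.root) = 0)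
    (h2 : F (q.head q.root) = 0) : F = 0 := by
  have key : ∀ e, F (q.tail e) = 0 ∧ F (q.head e) = 0 := fun e => by
    induction q.connected q.root e with
    | refl => exact ⟨h1, h2⟩
    | tail _ hb ih =>
      rcases hb with rfl | rfl
      · rw [tail_α, head_α]
        exact ih.symm
      · rw [← tail_φ q (q.φ _), ← deg_ker q h, tail_φ]
        exact ih.symm
  funext x
  rw [← tail_out q x]
  exact (key _).1

theorem deg_rank (S : Set q.Vertex) (R : Finset (Fin (4 * n)))
    (hR : ∀ e, deg_Min q e → (∃ j < 4, q.tail (q.φ^[j] e) ∈ S) → e ∈ R) :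
    S.ncard ≤ R.card + 2 := by
  classical
  let L : (q.Vertex → ℂ) →ₗ[ℂ] ((R → ℂ) × ℂ × ℂ) × (↥Sᶜ → ℂ) :=
    ((LinearMap.pi fun e : R => deg_T q e).prod ((LinearMap.proj (q.tail q.root)).prod
      (LinearMap.proj (q.head q.root)))).prod (LinearMap.pi fun x : ↥Sᶜ => LinearMap.proj x.1)
  have hL : Function.Injective L := by
    refine (injective_iff_map_eq_zero L).2 fun F hF => ?_
    refine deg_zero q (fun e => ?_) (congrArg (·.1.2.1) hF) (congrArg (·.1.2.2) hF)
    obtain ⟨j, hj⟩ := deg_exists_min q e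
    refine deg_T_iter q F j e ?_
    generalize q.φ^[j] e = e' at hj
    by_cases h : ∃ j < 4, q.tail (q.φ^[j] e') ∈ S
    · exact congrFun (congrArg (·.1.1) hF) ⟨e', hR e' hj h⟩
    · have h0 : ∀ j < 4, F (q.tail (q.φ^[j] e')) = 0 := fun j hj =>
        congrFun (congrArg (·.2) hF) ⟨_, fun h' => h ⟨j, hj, h'⟩⟩
      rw [deg_T_apply, show F (q.tail e') = 0 from h0 0 (by norm_num),
        show F (q.tail (q.φ e')) = 0 from h0 1 (by norm_num),
        show F (q.tail (q.φ (q.φ e'))) = 0 from h0 2 (by norm_num),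
        show F (q.tail (q.φ (q.φ (q.φ e')))) = 0 from h0 3 (by norm_num)]
      simp
  have h1 := LinearMap.finrank_le_finrank_of_injective hL
  simp only [Module.finrank_prod, Module.finrank_fintype_fun_eq_card, Module.finrank_self,
    Fintype.card_coe] at h1
  have h2 := S.ncard_add_ncard_compl
  rw [← Nat.card_eq_fintype_card, ← Nat.card_eq_fintype_card, Nat.card_coe_set_eq] at h1
  omega

theorem deg_dist (e : Fin (4 * n)) {j : ℕ} (hj : j < 4) :
    q.graph.dist (q.tail (q.φ^[j] e)) (q.tail e) ≤ 2 := by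
  have h : ∀ e, q.graph.dist (q.tail (q.φ e)) (q.tail e) ≤ 1 := fun e => by
    rw [SimpleGraph.dist_comm, tail_φ]
    exact dist_tail_head q e
  interval_cases j
  · simp
  · exact (h e).trans one_le_two
  · exact (graph_connected q).dist_triangle.trans (add_le_add (h (q.φ e)) (h e))
  · have h1 := h (q.φ (q.φ (q.φ e)))
    rw [deg_four, SimpleGraph.dist_comm] at h1
    exact h1.trans one_le_two

end

theorem card_le_avg {n : ℕ} (q : Quad n) (S : Set q.Vertex) :
    (S.ncard : ℝ) / n ≤ 2 / n + avg q (ind {y | ∃ x ∈ S, q.graph.dist x y ≤ 2}) := by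
  classical
  let D := Finset.univ.filter fun e => ∃ j < 4, q.tail (q.φ^[j] e) ∈ S
  let R := D.filter (deg_Min q)
  have h1 := deg_rank q S R fun e h h' => by simp only [R, D, Finset.mem_filter]; simp [h, h']
  have h2 : (R ×ˢ Finset.range 4).card ≤ D.card := by
    refine Finset.card_le_card_of_injOn (fun x => q.φ^[x.2] x.1) ?_ ?_
    · rintro ⟨e, k⟩ hx
      simp only [R, D, Finset.coe_product, mem_prod, Finset.mem_coe, Finset.mem_filter,
        Finset.mem_univ, true_and, Finset.mem_range] at hx ⊢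
      obtain ⟨⟨⟨j, hj, h⟩, -⟩, hk⟩ := hx
      refine ⟨(j + 4 - k) % 4, Nat.mod_lt _ (by norm_num), ?_⟩
      rwa [deg_mod, ← Function.iterate_add_apply, show j + 4 - k + k = j + 4 by omega, ← deg_mod,
        show (j + 4) % 4 = j by omega]
    · rintro ⟨e, j⟩ hx ⟨e', k⟩ hy he
      simp only [R, Finset.coe_product, mem_prod, Finset.mem_coe, Finset.mem_filter,
        Finset.mem_range] at hx hy
      rcases le_total j k with h | h
      · exact Prod.ext_iff.2 (deg_inj q hx.1.2 hy.1.2 h hy.2 he)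
      · exact (Prod.ext_iff.2 (deg_inj q hy.1.2 hx.1.2 h hx.2 he.symm)).symm
  have h3 : (D.card : ℝ) ≤ ∑ e, ind {y | ∃ x ∈ S, q.graph.dist x y ≤ 2} (q.tail e) := by
    refine le_trans (le_of_eq ?_) (Finset.sum_le_sum_of_subset_of_nonneg (Finset.subset_univ D)
      fun _ _ _ => ind_nonneg _ _)
    rw [Finset.card_eq_sum_ones, Nat.cast_sum]
    refine Finset.sum_congr rfl fun e he => ?_
    simp only [D, Finset.mem_filter] at he
    obtain ⟨j, hj, h⟩ := he.2
    rw [ind_of_mem (G := {y | ∃ x ∈ S, q.graph.dist x y ≤ 2}) ⟨_, h, deg_dist q e hj⟩, Nat.cast_one]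
  rw [Finset.card_product, Finset.card_range] at h2
  have h4 : (4 * S.ncard : ℝ) ≤ 8 + D.card := by exact_mod_cast (by omega : 4 * S.ncard ≤ 8 + D.card)
  have hn : (0 : ℝ) < n := by exact_mod_cast n_pos q
  rw [avg, div_add_div _ _ hn.ne' (by positivity), div_le_div_iff₀ hn (by positivity)]
  nlinarith [mul_le_mul_of_nonneg_right (h4.trans (add_le_add_right h3 8)) (mul_pos hn hn).le]

end Pool.Agent.QL
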