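import Pool.Agent.P.MP_7a6434d8_pr.QL.W.GBase

/-! Re-rooting at a uniform dart. -/

open MeasureTheory ProbabilityTheory Set Filter Topology Metric
open scoped ENNReal NNReal

namespace Pool.Agent.QL

open Pool.Agent.LGD Pool.Agent.P.MP_7a6434d8_pr

variable {n : ℕ}

theorem grer_labelled (f : RootedQuad n → ℝ≥0∞) :
    ∑' q : Quad n, f (Quot.mk _ q) = ((4 * n).factorial : ℝ≥0∞) * ∑' c, f c := by
  classical
  have : Fintype (Quad n) := Fintype.ofFinite _
  have : Fintype (RootedQuad n) := Fintype.ofFinite _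
  obtain ⟨mk, hmk⟩ : ∃ mk : Quad n → RootedQuad n, mk = fun q => Quot.mk _ q := ⟨_, rfl⟩
  have h2 : ∀ c, (Finset.univ.filter fun q => mk q = c).card = (4 * n).factorial := by
    intro c
    have h2 : Nat.card {q : Quad n // mk q = c} =
        Nat.card {c' : RootedQuad n // c' = c} * (4 * n).factorial := by
      subst hmk
      exact card_labelled (n := n) (fun c' => c' = c)
    rwa [Nat.card_eq_fintype_card, Fintype.card_subtype, Nat.card_unique, one_mul] at h2
  have h3 : ∑' q : Quad n, f (Quot.mk _ q) = ∑' q : Quad n, f (mk q) := by rw [hmk]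
  rw [h3, tsum_fintype, tsum_fintype, Finset.mul_sum,
    ← Finset.sum_fiberwise (Finset.univ : Finset (Quad n)) mk]
  refine Finset.sum_congr rfl fun c _ => ?_
  rw [Finset.sum_congr rfl fun q hq => congrArg f (Finset.mem_filter.1 hq).2, Finset.sum_const,
    nsmul_eq_mul, h2]

theorem grer_root_iso {q q' : Quad n} {ψ : Equiv.Perm (Fin (4 * n))} (h : UIso q q' ψ)
    (e : Fin (4 * n)) :
    (Quot.mk _ (xcountRoot q e) : RootedQuad n) = Quot.mk _ (xcountRoot q' (ψ e)) :=
  (xcount_mk_eq _ _).2 ⟨ψ, h.1, h.2, rfl⟩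

theorem reroot_tsum (F : RootedQuad n → ℝ≥0∞) :
    ∑' c : RootedQuad n, ∑ e, F (Quot.mk _ (xcountRoot (Quot.out c) e)) =
      ((4 * n : ℕ) : ℝ≥0∞) * ∑' c, F c := by
  have hG : ∀ q : Quad n, ∑ e, F (Quot.mk _ (xcountRoot
      (Quot.out (Quot.mk _ q : RootedQuad n)) e)) = ∑ e, F (Quot.mk _ (xcountRoot q e)) := by
    intro q
    obtain ⟨ψ, h1, h2, -⟩ : Quad.Iso (Quot.out (Quot.mk _ q : RootedQuad n)) q :=
      (xcount_mk_eq _ _).1 (Quot.out_eq _)
    rw [← Equiv.sum_comp ψ (fun e => F (Quot.mk _ (xcountRoot q e)))]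
    exact Finset.sum_congr rfl fun e _ => by rw [grer_root_iso ⟨h1, h2⟩ e]
  have h1 := grer_labelled (fun c : RootedQuad n =>
    ∑ e, F (Quot.mk _ (xcountRoot (Quot.out c) e)))
  simp only [hG] at h1
  let σ : Quad n × Fin (4 * n) ≃ Quad n × Fin (4 * n) :=
    { toFun := fun p => (xcountRoot p.1 p.2, p.1.root)
      invFun := fun p => (xcountRoot p.1 p.2, p.1.root)
      left_inv := fun _ => rfl
      right_inv := fun _ => rfl }
  have h2 : ∑' q : Quad n, ∑ e, F (Quot.mk _ (xcountRoot q e)) =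
      ((4 * n : ℕ) : ℝ≥0∞) * ∑' q : Quad n, F (Quot.mk _ q) := by
    have e1 : ∑' q : Quad n, ∑ e, F (Quot.mk _ (xcountRoot q e)) =
        ∑' p : Quad n × Fin (4 * n), F (Quot.mk _ (σ p).1) := by
      rw [ENNReal.tsum_prod']
      refine tsum_congr fun q => ?_
      rw [tsum_fintype]
      rfl
    rw [e1, σ.tsum_eq (fun p => F (Quot.mk _ p.1)), ENNReal.tsum_prod', ← ENNReal.tsum_mul_left]
    refine tsum_congr fun q => ?_
    rw [tsum_fintype]
    simp
  rw [h2, grer_labelled, mul_left_comm] at h1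
  have hf0 : ((4 * n).factorial : ℝ≥0∞) ≠ 0 := by exact_mod_cast Nat.factorial_ne_zero _
  exact ((ENNReal.mul_right_inj hf0 (ENNReal.natCast_ne_top _)).1 h1).symm

theorem exists_uiso (c : RootedQuad n) (e : Fin (4 * n)) : ∃ ψ : Equiv.Perm (Fin (4 * n)),
    UIso (Quot.out c) (Quot.out (Quot.mk _ (xcountRoot (Quot.out c) e) : RootedQuad n)) ψ ∧
      ψ e = (Quot.out (Quot.mk _ (xcountRoot (Quot.out c) e) : RootedQuad n) : Quad n).root := by
  obtain ⟨ψ, h1, h2, h3⟩ : Quad.Iso (xcountRoot (Quot.out c) e)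
      (Quot.out (Quot.mk _ (xcountRoot (Quot.out c) e) : RootedQuad n)) :=
    (xcount_mk_eq _ _).1 (Quot.out_eq _).symm
  exact ⟨ψ, ⟨h1, h2⟩, h3⟩

theorem UIso.symm {q q' : Quad n} {ψ : Equiv.Perm (Fin (4 * n))} (h : UIso q q' ψ) :
    UIso q' q ψ.symm := by
  refine ⟨fun d => ?_, fun d => ?_⟩
  · obtain ⟨c, rfl⟩ := ψ.surjective d
    rw [← h.1]; simp
  · obtain ⟨c, rfl⟩ := ψ.surjective d
    rw [← h.2]; simp

theorem grer_meas_comp (ψ : Equiv.Perm (Fin (4 * n))) :
    Measurable (fun (w : DP n) j => ψ (w j) : DP n → DP n) :=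
  measurable_pi_lambda _ fun j => (measurable_of_finite ψ).comp (measurable_pi_apply j)

theorem grer_meas_cyl (k : ℕ) (x : DP n) : MeasurableSet {e : DP n | ∀ i < k, e i = x i} := by
  have : {e : DP n | ∀ i < k, e i = x i} = ⋂ i, ⋂ (_ : i < k), (fun e : DP n => e i) ⁻¹' {x i} := by
    ext e; simp
  rw [this]
  exact MeasurableSet.iInter fun i => MeasurableSet.iInter fun _ =>
    measurable_pi_apply i (measurableSet_singleton _)

theorem walk_iso {q q' : Quad n} {ψ : Equiv.Perm (Fin (4 * n))} (h : UIso q q' ψ)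
    (e : Fin (4 * n)) : (walkLaw q (q.tail e)).map (fun (w : DP n) j => ψ (w j)) =
      walkLaw q' (q'.tail (ψ e)) := by
  classical
  have hm := grer_meas_comp ψ
  have := Measure.isProbabilityMeasure_map (μ := walkLaw q (q.tail e)) hm.aemeasurable
  refine dp_ext fun k x => ?_
  cases k with
  | zero => simp
  | succ k =>
    rw [Measure.map_apply hm (grer_meas_cyl _ _)]
    obtain ⟨y, rfl⟩ : ∃ y : DP n, x = fun j => ψ (y j) :=
      ⟨fun j => ψ.symm (x j), by funext j; simp⟩
    have h1 : (fun (w : DP n) j => ψ (w j)) ⁻¹' {e : DP n | ∀ i < k + 1, e i = ψ (y i)} =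
        {e : DP n | ∀ i < k + 1, e i = y i} := by
      ext w; simp
    rw [h1, walk_cyl, walk_cyl]
    obtain ⟨h1, h2⟩ := h
    have hc : ∀ v : q.Vertex, (q'.out (xrerootV q q' ψ h1 h2 v)).card = (q.out v).card :=
      fun v => by rw [xreroot_out, Finset.card_map]
    have ht : ∀ a : Fin (4 * n), q'.tail (ψ a) = xrerootV q q' ψ h1 h2 (q.tail a) :=
      fun a => rfl
    have hh : ∀ a : Fin (4 * n), q'.head (ψ a) = xrerootV q q' ψ h1 h2 (q.head a) :=
      fun a => (xreroot_head q q' ψ h1 h2 a).symm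
    congr 1
    · rw [ht, ht, hc]
      exact if_congr (xrerootV q q' ψ h1 h2).apply_eq_iff_eq.symm rfl rfl
    · refine Finset.prod_congr rfl fun i _ => ?_
      rw [ht, hh, hc]
      exact if_congr (xrerootV q q' ψ h1 h2).apply_eq_iff_eq.symm rfl rfl

theorem grer_unif {α : Type} [Finite α] [MeasurableSpace α] [DiscreteMeasurableSpace α] (a : α) :
    (uniformOn univ : Measure α) {a} = (Nat.card α : ℝ≥0∞)⁻¹ := by
  have : Fintype α := Fintype.ofFinite _
  rw [uniformOn_univ, Measure.count_singleton, Nat.card_eq_fintype_card, one_div]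

theorem grer_bind {α β : Type} [Finite α] [MeasurableSpace α] [DiscreteMeasurableSpace α]
    [MeasurableSpace β] (f : α → Measure β) {s : Set β} (hs : MeasurableSet s) :
    (uniformOn univ : Measure α).bind f s = (Nat.card α : ℝ≥0∞)⁻¹ * ∑' a, f a s := by
  rw [Measure.bind_apply hs (Measurable.of_discrete (f := f)).aemeasurable, lintegral_countable',
    ← ENNReal.tsum_mul_left]
  exact tsum_congr fun a => by rw [grer_unif, mul_comm]

theorem grer_stat2 (q : Quad n) {s : Set (Fin (4 * n) × DP n)} (hs : MeasurableSet s) :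
    statLaw2 q s = ((4 * n : ℕ) : ℝ≥0∞)⁻¹ * ∑ e, walkLaw q (q.tail e) (Prod.mk e ⁻¹' s) := by
  rw [statLaw2, grer_bind _ hs, tsum_fintype, Nat.card_fin]
  congr 1
  exact Finset.sum_congr rfl fun e _ => Measure.map_apply measurable_prodMk_left hs

theorem grer_ne (q : Quad n) : ((4 * n : ℕ) : ℝ≥0∞) ≠ 0 := by
  exact_mod_cast (Fin.pos q.root).ne'

instance statLaw2_prob (q : Quad n) : IsProbabilityMeasure (statLaw2 q) := by
  refine ⟨?_⟩
  rw [grer_stat2 q MeasurableSet.univ]
  simp only [preimage_univ, measure_univ, Finset.sum_const, Finset.card_univ, Fintype.card_fin,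
    nsmul_eq_mul, mul_one]
  exact ENNReal.inv_mul_cancel (grer_ne q) (ENNReal.natCast_ne_top _)

theorem statLaw2_snd (q : Quad n) : (statLaw2 q).map Prod.snd = statLaw q := by
  ext s hs
  rw [Measure.map_apply measurable_snd hs, grer_stat2 q (measurable_snd hs), statLaw,
    grer_bind _ hs, tsum_fintype, Nat.card_fin]
  rfl

theorem exists_reroot (n : ℕ) :
    ∃ (R : RootedQuad n → Fin (4 * n) → RootedQuad n)
      (ψ : RootedQuad n → Fin (4 * n) → Equiv.Perm (Fin (4 * n))),
      (∀ c e, UIso (Quot.out c) (Quot.out (R c e)) (ψ c e)) ∧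
      (Measurable fun p : RootedQuad n × (Fin (4 * n) × DP n) =>
        ((R p.1 p.2.1, fun j => ψ p.1 p.2.1 (p.2.2 j)) : RootedQuad n × DP n)) ∧
      ((uniformOn univ : Measure (RootedQuad n)).bind
          fun c => (statLaw2 (Quot.out c)).map (Prod.mk c)).map
        (fun p => ((R p.1 p.2.1, fun j => ψ p.1 p.2.1 (p.2.2 j)) : RootedQuad n × DP n)) =
        jointLaw n := by
  choose ψ hψ hroot using exists_uiso (n := n)
  have hm : Measurable fun p : RootedQuad n × (Fin (4 * n) × DP n) =>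
      (((Quot.mk _ (xcountRoot (Quot.out p.1) p.2.1) : RootedQuad n),
        fun j => ψ p.1 p.2.1 (p.2.2 j)) : RootedQuad n × DP n) := by
    refine measurable_from_prod_countable_right fun c => ?_
    refine measurable_from_prod_countable_right fun e => ?_
    exact (measurable_const (a := (Quot.mk _ (xcountRoot (Quot.out c) e) : RootedQuad n))).prodMk
      (grer_meas_comp (ψ c e))
  refine ⟨fun c e => Quot.mk _ (xcountRoot (Quot.out c) e), ψ, hψ, hm, ?_⟩
  ext s hs
  rw [Measure.map_apply hm hs, grer_bind _ (hm hs), jointLaw, grer_bind _ hs]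
  congr 1
  let F : RootedQuad n → ℝ≥0∞ := fun c =>
    walkLaw (Quot.out c) ((Quot.out c).tail (Quot.out c).root) (Prod.mk c ⁻¹' s)
  have h1 : ∀ c : RootedQuad n, (walkLaw (Quot.out c) ((Quot.out c).tail (Quot.out c).root)).map
      (Prod.mk c) s = F c := fun c => Measure.map_apply measurable_prodMk_left hs
  have h2 : ∀ c : RootedQuad n, (statLaw2 (Quot.out c)).map (Prod.mk c)
      ((fun p : RootedQuad n × (Fin (4 * n) × DP n) =>
      (((Quot.mk _ (xcountRoot (Quot.out p.1) p.2.1) : RootedQuad n),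
        fun j => ψ p.1 p.2.1 (p.2.2 j)) : RootedQuad n × DP n)) ⁻¹' s) =
      ((4 * n : ℕ) : ℝ≥0∞)⁻¹ * ∑ e, F (Quot.mk _ (xcountRoot (Quot.out c) e)) := by
    intro c
    rw [Measure.map_apply measurable_prodMk_left (hm hs),
      grer_stat2 _ (measurable_prodMk_left (hm hs))]
    congr 1
    refine Finset.sum_congr rfl fun e _ => ?_
    simp only [F]
    rw [← hroot c e, ← walk_iso (hψ c e) e,
      Measure.map_apply (grer_meas_comp _) (measurable_prodMk_left hs)]
    rfl
  simp only [h1, h2]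
  rw [ENNReal.tsum_mul_left, reroot_tsum]
  rcases isEmpty_or_nonempty (RootedQuad n) with h0 | ⟨⟨c⟩⟩
  · simp
  · rw [← mul_assoc, ENNReal.inv_mul_cancel (grer_ne (Quot.out c)) (ENNReal.natCast_ne_top _),
      one_mul]

end Pool.Agent.QL
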