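import Pool.Agent.P.MP_7a6434d8_pr.QL.W.Base
import Pool.Agent.P.MP_ca04ec_pr.G.Exists
import Pool.Agent.P.MP_ca04ec_pr.Tail.T0

/-! The area measure has no atoms. -/

open MeasureTheory ProbabilityTheory Set Filter Topology Metric
open scoped ENNReal NNReal

namespace Pool.Agent.QL

open Pool.Agent.LGD Pool.Agent.P.MP_7a6434d8_pr

theorem lqg_no_atom {γ ξ c₀ : ℝ} (hγ : 0 < γ) (hγ2 : γ < 2) (hξ : 0 < ξ) (hc : 0 < c₀)
    {D : Dist → ℂ → ℂ → ℝ} (hD : IsLQGMetric γ ξ D) {θ : Test} {Θ : ℝ → ℂ → Test}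
    (hθ : IsMollifier θ Θ) {Ω : Type} [MeasurableSpace Ω] (P : Measure Ω) [IsProbabilityMeasure P]
    {h : Ω → Dist} (hh : IsGFF P h) {μ : Ω → Measure ℂ} (hμ : IsLQGMeasure P h γ c₀ Θ μ) :
    ∀ᵐ ω ∂P, μ ω {0} = 0 ∧ μ ω {1} = 0 := by
  obtain ⟨Ω', _, S, g, X₀, rfl, rfl, hg, -, -, hml⟩ :=
    exists_setup γ ξ c₀ hγ hγ2 hξ hc D hD θ Θ hθ P h hh μ hμ
  filter_upwards [hml, hg.quasiMeasurePreserving.ae S.no_atoms] with ω hm1 hat
  have hat' : ∀ x, μ ω {x} = 0 := fun x => by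
    refine nonpos_iff_eq_zero.1 (ENNReal.le_of_forall_pos_le_add fun e he _ => ?_)
    obtain ⟨r, hr, h⟩ := hat (ex (-(S.γ * X₀ ω)) * e)
      (ENNReal.mul_pos (ex_ne_zero _) (ENNReal.coe_pos.2 he).ne') (‖x‖ + 1)
    obtain ⟨T, hT, hx, -, hth⟩ := exists_isQBall_small isOpen_univ (mem_univ x) hr
    have h1 := h T hT ⟨x, hx, by rw [mem_ball_zero_iff]; linarith⟩ hth
    rw [zero_add]
    refine (measure_mono (singleton_subset_iff.2 hx)).trans ?_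
    rw [hm1 T hT]
    refine (mul_le_mul_right h1 _).trans ?_
    rw [← mul_assoc, ex_mul_neg, one_mul]
  exact ⟨hat' 0, hat' 1⟩

end Pool.Agent.QL
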