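import Pool.Agent.P.MP_7a6434d8_pr.QL.W.GSub
import Pool.Agent.P.MP_7a6434d8_pr.QL.W.GAtom

/-! From the energy inputs to the statement. -/

open MeasureTheory ProbabilityTheory Set Filter Topology Metric
open scoped ENNReal NNReal

namespace Pool.Agent.QL

open Pool.Agent.LGD Pool.Agent.P.MP_7a6434d8_pr

theorem Coupled.mono {Ω : Type} [MeasurableSpace Ω] {P : Measure Ω} {d : Ω → Sph → Sph → ℝ}
    {μ : Ω → Measure ℂ} {L : Kernel Ω Path} {n : ℕ} {a : ℝ≥0} {ε ε' : ℝ≥0∞}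
    (h : Coupled P d μ L n a ε) (hε : ε ≤ ε') : Coupled P d μ L n a ε' := by
  obtain ⟨Γ, h1, h2, h3⟩ := h
  exact ⟨Γ, h1, h2, (measure_mono fun p hp => lt_of_le_of_lt hε hp).trans (h3.trans hε)⟩

theorem conv_of_inputs {Ω : Type} [MeasurableSpace Ω] (P : Measure Ω) [IsProbabilityMeasure P]
    (d : Ω → Sph → Sph → ℝ) (hdm : ∀ x y, Measurable fun ω => d ω x y) (μ : Ω → Measure ℂ)
    {W : Measure Path} (hW : IsWiener W) (L : Kernel Ω Path) [IsMarkovKernel L]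
    (henv : ∀ᵐ ω ∂P, Env (d ω) (μ ω) W (L ω)) (hin : Inputs P d μ) :
    ∃ a : ℕ → ℝ≥0, (∀ n, 0 < a n) ∧
      ∀ ε : ℝ≥0∞, 0 < ε → ∀ᶠ n in atTop, Coupled P d μ L n (a n) ε := by
  classical
  have key : ∀ ε : ℝ≥0∞, 0 < ε → ∀ᶠ n in atTop, ∃ a : ℝ≥0, 0 < a ∧ Coupled P d μ L n a ε := by
    intro ε hε
    by_contra hn
    rw [not_eventually] at hn
    obtain ⟨n₀, hn₀, h0⟩ := extraction_of_frequently_atTop hn
    obtain ⟨σ, a, ha, h⟩ := coupled_sub P d hdm μ hW L henv hin n₀ hn₀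
    obtain ⟨k, hk⟩ := (h ε hε).exists
    exact h0 (σ k) ⟨a k, ha k, hk⟩
  let E : ℕ → ℕ → Prop := fun n i => ∃ a : ℝ≥0, 0 < a ∧ Coupled P d μ L n a ((i : ℝ≥0∞) + 1)⁻¹
  have hch : ∀ n, ∃ a : ℝ≥0, 0 < a ∧ (E n (Nat.findGreatest (E n) n) →
      Coupled P d μ L n a (((Nat.findGreatest (E n) n : ℕ) : ℝ≥0∞) + 1)⁻¹) := fun n => by
    by_cases h : E n (Nat.findGreatest (E n) n)
    · obtain ⟨a, ha, h⟩ := h
      exact ⟨a, ha, fun _ => h⟩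
    · exact ⟨1, one_pos, fun h' => absurd h' h⟩
  choose a ha hc using hch
  refine ⟨a, ha, fun ε hε => ?_⟩
  obtain ⟨i, hi⟩ := ENNReal.exists_inv_nat_lt hε.ne'
  have hi' : ((i : ℝ≥0∞) + 1)⁻¹ ≤ ε := (ENNReal.inv_le_inv.2 le_self_add).trans hi.le
  filter_upwards [key ((i : ℝ≥0∞) + 1)⁻¹ (ENNReal.inv_pos.2 (by simp)), eventually_ge_atTop i]
    with n h1 h2
  have h3 : i ≤ Nat.findGreatest (E n) n := Nat.le_findGreatest h2 h1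
  refine (hc n (Nat.findGreatest_spec h2 h1)).mono (le_trans ?_ hi')
  exact ENNReal.inv_le_inv.2 (add_le_add_left (Nat.cast_le.2 h3) 1)

theorem target_of_inputs
    (H : ∀ (c₀ : ℝ) (_ : 0 < c₀) (D : Dist → ℂ → ℂ → ℝ)
      (_ : IsLQGMetric (√(8 / 3)) (√(8 / 3) / 4) D) (θ : Test) (Θ : ℝ → ℂ → Test)
      (_ : IsMollifier θ Θ) (Ω : Type) [MeasurableSpace Ω] (P₀ P : Measure Ω)
      [IsProbabilityMeasure P₀] [IsProbabilityMeasure P] (_ : P ≪ P₀) (_ : P₀ ≪ P)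
      (h : Ω → Dist) (_ : IsGFF P₀ h) (μ₀ : Ω → Measure ℂ)
      (_ : IsLQGMeasure P₀ h (√(8 / 3)) c₀ Θ μ₀) (f : ℂ → ℝ)
      (_ : ContDiffOn ℝ (⊤ : ℕ∞) f {0, 1}ᶜ) (d : Ω → Sph → Sph → ℝ)
      (_ : ∀ x y, Measurable fun ω => d ω x y) (μ : Ω → Measure ℂ)
      (_ : ∀ᵐ ω ∂P, IsSphere (√(8 / 3)) D f (h ω) (μ₀ ω) (d ω) (μ ω))
      (_ : ConvLaw (fun n => (uniformOn univ : Measure (RootedQuad n))) P fun _ c ω =>
        gh (mdist (Quot.out c)) (vmeas (Quot.out c)) (d ω) ((μ ω).map (↑)) fun _ => 0),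
      Inputs P d μ) : Target := by
  intro c₀ hc D hD θ Θ hθ Ω _ P₀ P _ _ hP hP' h hh μ₀ hμ₀ f hf d hd μ hS hconv W hW L _ hL
  have hin := H c₀ hc D hD θ Θ hθ Ω P₀ P hP hP' h hh μ₀ hμ₀ f hf d hd μ hS hconv
  have hγ : (0 : ℝ) < √(8 / 3) := Real.sqrt_pos.2 (by norm_num)
  have hγ2 : √(8 / 3 : ℝ) < 2 := by
    rw [Real.sqrt_lt' (by norm_num)]; norm_num
  have hat := hP.ae_le (lqg_no_atom hγ hγ2 (by positivity) hc hD hθ P₀ hh hμ₀)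
  have henv : ∀ᵐ ω ∂P, Env (d ω) (μ ω) W (L ω) := by
    filter_upwards [hS, hat, hL] with ω h1 h2 h3
    obtain ⟨hg, hp, c, hc, -⟩ := h1
    have hac : μ ω ≪ μ₀ ω := hc ▸ withDensity_absolutelyContinuous _ _
    exact ⟨hg, hp, hac h2.1, hac h2.2, h3⟩
  obtain ⟨a, ha, hc⟩ := conv_of_inputs P d hd μ hW L henv hin
  exact ⟨a, ha, hc⟩

end Pool.Agent.QL
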