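import Pool.Agent.P.MP_7a6434d8_pr.QL.W.Base

/-! Darts, averages and the Green identity on one map. -/

open MeasureTheory ProbabilityTheory Set Filter Topology Metric
open scoped ENNReal NNReal

namespace Pool.Agent.QL

open Pool.Agent.LGD Pool.Agent.P.MP_7a6434d8_pr

variable {n : ℕ} (q : Quad n)

theorem n_pos (q : Quad n) : 0 < n := by
  have := q.root.pos
  omega

theorem tail_α (e : Fin (4 * n)) : q.tail (q.α e) = q.head e :=
  rfl

theorem head_α (e : Fin (4 * n)) : q.head (q.α e) = q.tail e := by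
  rw [Quad.head, q.α_α]

theorem tail_φ (e : Fin (4 * n)) : q.tail (q.φ e) = q.head e := by
  refine Quotient.sound ?_
  have e1 : q.φ e = (q.φ * q.α) (q.α e) := by rw [Equiv.Perm.mul_apply, q.α_α]
  rw [e1]
  exact Equiv.Perm.sameCycle_apply_left.2 (Equiv.Perm.SameCycle.refl _ _)

theorem tail_out (x : q.Vertex) : q.tail (Quotient.out x) = x :=
  Quotient.out_eq x

theorem mem_out {x : q.Vertex} {e : Fin (4 * n)} : e ∈ q.out x ↔ q.tail e = x := by
  simp [Quad.out]

theorem card_out_pos (x : q.Vertex) : (0 : ℝ) < (q.out x).card := by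
  exact_mod_cast (q.out_nonempty x).card_pos

/-- induction along edges -/
theorem vertex_induction (S : Set q.Vertex) {x : q.Vertex} (hx : x ∈ S)
    (hS : ∀ e, q.tail e ∈ S → q.head e ∈ S) (y : q.Vertex) : y ∈ S := by
  have key : ∀ d d', Relation.ReflTransGen (fun x y => y = q.α x ∨ y = q.φ x) d d' →
      q.tail d ∈ S → q.tail d' ∈ S := by
    intro d d' h hd
    induction h with
    | refl => exact hd
    | tail _ h ih =>
      rcases h with rfl | rfl
      · exact hS _ ih
      · rw [tail_φ]
        exact hS _ ih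
  rw [← tail_out q y]
  exact key _ _ (q.connected (Quotient.out x) _) (by rwa [tail_out])

theorem agreen_adj {e : Fin (4 * n)} (h : q.tail e ≠ q.head e) :
    q.graph.Adj (q.tail e) (q.head e) :=
  (SimpleGraph.fromRel_adj _ _ _).2 ⟨h, Or.inl ⟨e, rfl, rfl⟩⟩

theorem graph_connected : q.graph.Connected := by
  have : Nonempty q.Vertex := ⟨q.tail q.root⟩
  refine ⟨fun x y => ?_⟩
  refine vertex_induction q {z | q.graph.Reachable x z} (SimpleGraph.Reachable.refl x)
    (fun e he => ?_) y
  by_cases h : q.tail e = q.head e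
  · rwa [← h]
  · exact SimpleGraph.Reachable.trans he (agreen_adj q h).reachable

theorem dist_tail_head (e : Fin (4 * n)) : q.graph.dist (q.tail e) (q.head e) ≤ 1 := by
  by_cases h : q.tail e = q.head e
  · rw [h, SimpleGraph.dist_self]
    exact zero_le_one
  · exact (SimpleGraph.dist_eq_one_iff_adj.2 (agreen_adj q h)).le

theorem sum_tail (F : q.Vertex → Fin (4 * n) → ℝ) :
    ∑ e, F (q.tail e) e = ∑ x, ∑ e ∈ q.out x, F x e := by
  classical
  rw [← Finset.sum_fiberwise Finset.univ q.tail]
  refine Finset.sum_congr rfl fun x _ => Finset.sum_congr ?_ fun e he => ?_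
  · ext e
    simp [mem_out]
  · rw [(mem_out q).1 he]

theorem avg_eq_sum (f : q.Vertex → ℝ) : avg q f = ∑ x, q.stat x * f x := by
  rw [avg, sum_tail q fun x _ => f x, Finset.sum_div]
  refine Finset.sum_congr rfl fun x _ => ?_
  rw [Finset.sum_const, nsmul_eq_mul, Quad.stat]
  ring

theorem finsum_stat (f : q.Vertex → ℝ) : ∑ᶠ x, q.stat x * f x = avg q f := by
  rw [finsum_eq_sum_of_fintype, avg_eq_sum]

theorem avg_head (f : q.Vertex → ℝ) : (∑ e, f (q.head e)) / (4 * n) = avg q f := by
  rw [avg, ← Equiv.sum_comp q.α fun e => f (q.tail e)]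
  rfl

theorem avg_const (c : ℝ) : avg q (fun _ => c) = c := by
  have : (0 : ℝ) < n := by exact_mod_cast n_pos q
  rw [avg, Finset.sum_const, Finset.card_univ, Fintype.card_fin, nsmul_eq_mul]
  push_cast
  field_simp

theorem avg_mono {f g : q.Vertex → ℝ} (h : ∀ x, f x ≤ g x) : avg q f ≤ avg q g :=
  div_le_div_of_nonneg_right (Finset.sum_le_sum fun _ _ => h _) (by positivity)

theorem avg_add (f g : q.Vertex → ℝ) : avg q (fun x => f x + g x) = avg q f + avg q g := by
  simp only [avg, Finset.sum_add_distrib, add_div]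

theorem avg_sub (f g : q.Vertex → ℝ) : avg q (fun x => f x - g x) = avg q f - avg q g := by
  simp only [avg, Finset.sum_sub_distrib, sub_div]

theorem avg_mul (c : ℝ) (f : q.Vertex → ℝ) : avg q (fun x => c * f x) = c * avg q f := by
  simp only [avg, ← Finset.mul_sum, mul_div_assoc]

theorem avg_sum {ι : Type} (s : Finset ι) (f : ι → q.Vertex → ℝ) :
    avg q (fun x => ∑ i ∈ s, f i x) = ∑ i ∈ s, avg q (f i) := by
  simp only [avg, ← Finset.sum_div]
  rw [Finset.sum_comm]

theorem abs_avg_le (f : q.Vertex → ℝ) : |avg q f| ≤ avg q fun x => |f x| := by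
  rw [avg, avg, abs_div, abs_of_nonneg (show (0 : ℝ) ≤ 4 * n by positivity)]
  exact div_le_div_of_nonneg_right (Finset.abs_sum_le_sum_abs _ _) (by positivity)

theorem lap_const (c : ℝ) (x : q.Vertex) : lap q (fun _ => c) x = 0 := by
  simp [lap]

theorem lap_add (u v : q.Vertex → ℝ) (x : q.Vertex) :
    lap q (fun y => u y + v y) x = lap q u x + lap q v x := by
  rw [lap, lap, lap, ← add_div, ← Finset.sum_add_distrib]
  congr 1
  exact Finset.sum_congr rfl fun e _ => by ring

theorem lap_sub (u v : q.Vertex → ℝ) (x : q.Vertex) :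
    lap q (fun y => u y - v y) x = lap q u x - lap q v x := by
  rw [lap, lap, lap, ← sub_div, ← Finset.sum_sub_distrib]
  congr 1
  exact Finset.sum_congr rfl fun e _ => by ring

theorem lap_cmul (c : ℝ) (u : q.Vertex → ℝ) (x : q.Vertex) :
    lap q (fun y => c * u y) x = c * lap q u x := by
  rw [lap, lap, ← mul_div_assoc, Finset.mul_sum]
  congr 1
  exact Finset.sum_congr rfl fun e _ => by ring

theorem lap_eq (u : q.Vertex → ℝ) (x : q.Vertex) :
    lap q u x = (∑ e ∈ q.out x, u (q.head e)) / (q.out x).card - u x := by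
  have := card_out_pos q x
  rw [lap, Finset.sum_sub_distrib, Finset.sum_const, nsmul_eq_mul]
  field_simp

theorem agreen_sum (u v : q.Vertex → ℝ) : ∑ e, u (q.tail e) * lap q v (q.tail e) =
    ∑ e, u (q.tail e) * (v (q.head e) - v (q.tail e)) := by
  rw [sum_tail q fun x _ => u x * lap q v x, sum_tail q fun x e => u x * (v (q.head e) - v x)]
  refine Finset.sum_congr rfl fun x _ => ?_
  have := card_out_pos q x
  rw [Finset.sum_const, nsmul_eq_mul, ← Finset.mul_sum, lap]
  field_simp

theorem avg_lap (u : q.Vertex → ℝ) : avg q (lap q u) = 0 := by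
  have h := agreen_sum q (fun _ => 1) u
  simp only [one_mul] at h
  rw [avg, h, Finset.sum_sub_distrib, ← Equiv.sum_comp q.α fun e => u (q.tail e)]
  exact (congrArg (· / (4 * (n : ℝ))) (sub_self _)).trans (zero_div _)

theorem form_green (a : ℝ) (u v : q.Vertex → ℝ) :
    form q a u v = avg q fun x => u x * -(a * lap q v x) := by
  have h := agreen_sum q u v
  have h2 : ∑ e, u (q.head e) * (v (q.head e) - v (q.tail e)) =
      -∑ e, u (q.tail e) * (v (q.head e) - v (q.tail e)) := by
    rw [← Equiv.sum_comp q.α, ← Finset.sum_neg_distrib]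
    refine Finset.sum_congr rfl fun e _ => ?_
    rw [head_α, tail_α]
    ring
  have h3 : ∑ e, u (q.tail e) * -(a * lap q v (q.tail e)) =
      -a * ∑ e, u (q.tail e) * lap q v (q.tail e) := by
    rw [Finset.mul_sum]
    exact Finset.sum_congr rfl fun e _ => by ring
  rw [form, dir, avg, h3, h]
  simp only [sub_mul (u _), Finset.sum_sub_distrib]
  rw [h2]
  ring

theorem form_comm (a : ℝ) (u v : q.Vertex → ℝ) : form q a u v = form q a v u := by
  simp only [form, dir, mul_comm (u _ - u _)]

theorem form_nonneg {a : ℝ} (ha : 0 ≤ a) (u : q.Vertex → ℝ) : 0 ≤ form q a u u :=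
  mul_nonneg (by positivity)
    (mul_nonneg (by norm_num) (Finset.sum_nonneg fun _ _ => mul_self_nonneg _))

theorem form_add_self (a : ℝ) (u v : q.Vertex → ℝ) :
    form q a (fun x => u x + v x) (fun x => u x + v x) =
      form q a u u + 2 * form q a u v + form q a v v := by
  have h : ∑ e, (u (q.head e) + v (q.head e) - (u (q.tail e) + v (q.tail e))) *
      (u (q.head e) + v (q.head e) - (u (q.tail e) + v (q.tail e))) =
      ∑ e, (u (q.head e) - u (q.tail e)) * (u (q.head e) - u (q.tail e)) +
      2 * ∑ e, (u (q.head e) - u (q.tail e)) * (v (q.head e) - v (q.tail e)) +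
      ∑ e, (v (q.head e) - v (q.tail e)) * (v (q.head e) - v (q.tail e)) := by
    rw [Finset.mul_sum, ← Finset.sum_add_distrib, ← Finset.sum_add_distrib]
    exact Finset.sum_congr rfl fun e _ => by ring
  simp only [form, dir]
  rw [h]
  ring

theorem form_affine (a c b : ℝ) (u : q.Vertex → ℝ) :
    form q a (fun x => c * u x + b) (fun x => c * u x + b) = c ^ 2 * form q a u u := by
  have h : ∑ e, (c * u (q.head e) + b - (c * u (q.tail e) + b)) *
      (c * u (q.head e) + b - (c * u (q.tail e) + b)) =
      c ^ 2 * ∑ e, (u (q.head e) - u (q.tail e)) * (u (q.head e) - u (q.tail e)) := by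
    rw [Finset.mul_sum]
    exact Finset.sum_congr rfl fun e _ => by ring
  simp only [form, dir]
  rw [h]
  ring

theorem ind_of_mem {α : Type} {G : Set α} {x : α} (h : x ∈ G) : ind G x = 1 :=
  indicator_of_mem h _

theorem ind_of_notMem {α : Type} {G : Set α} {x : α} (h : x ∉ G) : ind G x = 0 :=
  indicator_of_notMem h _

theorem ind_nonneg {α : Type} (G : Set α) (x : α) : 0 ≤ ind G x :=
  indicator_nonneg (fun _ _ => zero_le_one) x

theorem ind_le_one {α : Type} (G : Set α) (x : α) : ind G x ≤ 1 := by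
  by_cases h : x ∈ G
  · exact (ind_of_mem h).le
  · rw [ind_of_notMem h]
    exact zero_le_one

theorem ind_compl {α : Type} (G : Set α) (x : α) : ind Gᶜ x = 1 - ind G x := by
  by_cases h : x ∈ G
  · rw [ind_of_mem h, ind_of_notMem (not_not.2 h), sub_self]
  · rw [ind_of_notMem h, ind_of_mem (G := Gᶜ) h, sub_zero]

theorem measurable_ind {α : Type} [MeasurableSpace α] {G : Set α} (h : MeasurableSet G) :
    Measurable (ind G) :=
  measurable_const.indicator h

end Pool.Agent.QL
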