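import Pool.Agent.P.MP_7a6434d8_pr.QL.W.CBasic

/-! The path metric of the metric graph. -/

open MeasureTheory ProbabilityTheory Set Filter Topology Metric
open scoped ENNReal NNReal

namespace Pool.Agent.QL

open Pool.Agent.LGD Pool.Agent.P.MP_7a6434d8_pr

variable {n : ℕ} (q : Quad n)

/-- the defining set of the path metric -/
def gmdS (x y : Pt n) : Set ℝ := {r : ℝ |
    (∃ b b', r = (endOf q x b).2 + q.graph.dist (endOf q x b).1 (endOf q y b').1 +
      (endOf q y b').2) ∨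
    (y.1 = x.1 ∧ r = |(x.2 : ℝ) - y.2|) ∨ (y.1 = q.α x.1 ∧ r = |(x.2 : ℝ) + y.2 - 1|)}

theorem gmd_eq (x y : Pt n) : mdist q x y = cn n * sInf (gmdS q x y) := rfl

theorem gmd_cn : 0 ≤ cn n := Real.rpow_nonneg (by positivity) _

theorem gmd_αα (e : Fin (4 * n)) : q.α (q.α e) = e := q.α_α e

theorem gmd_end_nonneg (x : Pt n) (b : Bool) : 0 ≤ (endOf q x b).2 := by
  have h0 := x.2.2.1
  have h1 := x.2.2.2
  cases b <;> simp [endOf] <;> linarith

theorem gmd_end_le (x : Pt n) (b : Bool) : (endOf q x b).2 ≤ 1 := by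
  have h0 := x.2.2.1
  have h1 := x.2.2.2
  cases b <;> simp [endOf] <;> linarith

theorem gmd_tri (u v w : q.Vertex) :
    (q.graph.dist u w : ℝ) ≤ q.graph.dist u v + q.graph.dist v w := by
  exact_mod_cast (graph_connected q).dist_triangle

theorem gmd_comm (u v : q.Vertex) : (q.graph.dist u v : ℝ) = q.graph.dist v u := by
  rw [SimpleGraph.dist_comm]

theorem gmd_th (e : Fin (4 * n)) : (q.graph.dist (q.tail e) (q.head e) : ℝ) ≤ 1 := by
  exact_mod_cast dist_tail_head q e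

theorem gmd_ht (e : Fin (4 * n)) : (q.graph.dist (q.head e) (q.tail e) : ℝ) ≤ 1 := by
  rw [gmd_comm]; exact gmd_th q e

theorem gmd_ends (y : Pt n) (b c : Bool) :
    (q.graph.dist (endOf q y b).1 (endOf q y c).1 : ℝ) ≤ (endOf q y b).2 + (endOf q y c).2 := by
  have h0 := y.2.2.1
  have h1 := y.2.2.2
  have h2 := gmd_th q y.1
  have h3 := gmd_ht q y.1
  cases b <;> cases c <;>
    simp only [endOf, if_true, if_false, Bool.false_eq_true, SimpleGraph.dist_self,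
      Nat.cast_zero] <;> linarith

theorem gmd_tail_end (y : Pt n) (b : Bool) :
    (q.graph.dist (q.tail y.1) (endOf q y b).1 : ℝ) ≤ 1 := by
  have h2 := gmd_th q y.1
  cases b <;>
    simp only [endOf, if_true, if_false, Bool.false_eq_true, SimpleGraph.dist_self,
      Nat.cast_zero] <;> linarith

theorem gmdS_nonempty (x y : Pt n) : (gmdS q x y).Nonempty :=
  ⟨_, Or.inl ⟨false, false, rfl⟩⟩

theorem gmdS_nonneg {x y : Pt n} {r : ℝ} (h : r ∈ gmdS q x y) : 0 ≤ r := by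
  rcases h with ⟨b, b', rfl⟩ | ⟨-, rfl⟩ | ⟨-, rfl⟩
  · have := gmd_end_nonneg q x b
    have := gmd_end_nonneg q y b'
    positivity
  · exact abs_nonneg _
  · exact abs_nonneg _

theorem gmdS_bdd (x y : Pt n) : BddBelow (gmdS q x y) := ⟨0, fun _ h => gmdS_nonneg q h⟩

theorem gmdS_symm {x y : Pt n} {r : ℝ} (h : r ∈ gmdS q x y) : r ∈ gmdS q y x := by
  rcases h with ⟨b, b', rfl⟩ | ⟨h, rfl⟩ | ⟨h, rfl⟩
  · exact Or.inl ⟨b', b, by rw [gmd_comm]; ring⟩
  · exact Or.inr (Or.inl ⟨h.symm, abs_sub_comm _ _⟩)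
  · exact Or.inr (Or.inr ⟨by rw [h, gmd_αα], by rw [add_comm]⟩)

theorem gmd_same_end {y z : Pt n} (h : z.1 = y.1) (b : Bool) :
    (endOf q z b).1 = (endOf q y b).1 ∧ (endOf q z b).2 ≤ (endOf q y b).2 + |(y.2 : ℝ) - z.2| := by
  have h1 := le_abs_self ((y.2 : ℝ) - z.2)
  have h2 := neg_abs_le ((y.2 : ℝ) - z.2)
  cases b <;> simp [endOf, h] <;> linarith

theorem gmd_opp_end {y z : Pt n} (h : z.1 = q.α y.1) (b : Bool) :
    (endOf q z (!b)).1 = (endOf q y b).1 ∧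
      (endOf q z (!b)).2 ≤ (endOf q y b).2 + |(y.2 : ℝ) + z.2 - 1| := by
  have h1 := le_abs_self ((y.2 : ℝ) + z.2 - 1)
  have h2 := neg_abs_le ((y.2 : ℝ) + z.2 - 1)
  cases b <;> simp [endOf, h, tail_α, head_α] <;> linarith

theorem gmdS_triA {x y z : Pt n} (b b' : Bool) {r : ℝ} (h : r ∈ gmdS q y z) :
    ∃ s ∈ gmdS q x z, s ≤ (endOf q x b).2 + q.graph.dist (endOf q x b).1 (endOf q y b').1 +
      (endOf q y b').2 + r := by
  rcases h with ⟨c, c', rfl⟩ | ⟨h, rfl⟩ | ⟨h, rfl⟩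
  · refine ⟨_, Or.inl ⟨b, c', rfl⟩, ?_⟩
    have h1 := gmd_tri q (endOf q x b).1 (endOf q y b').1 (endOf q z c').1
    have h2 := gmd_tri q (endOf q y b').1 (endOf q y c).1 (endOf q z c').1
    have h3 := gmd_ends q y b' c
    linarith
  · refine ⟨_, Or.inl ⟨b, b', rfl⟩, ?_⟩
    obtain ⟨h1, h2⟩ := gmd_same_end q h b'
    rw [h1]; linarith
  · refine ⟨_, Or.inl ⟨b, !b', rfl⟩, ?_⟩
    obtain ⟨h1, h2⟩ := gmd_opp_end q h b'
    rw [h1]; linarith

theorem gmdS_tri {x y z : Pt n} {r r' : ℝ} (h : r ∈ gmdS q x y) (h' : r' ∈ gmdS q y z) :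
    ∃ s ∈ gmdS q x z, s ≤ r + r' := by
  rcases h with ⟨b, b', rfl⟩ | h
  · exact gmdS_triA q b b' h'
  rcases gmdS_symm q h' with ⟨b, b', rfl⟩ | h''
  · obtain ⟨s, hs, hle⟩ := gmdS_triA q (x := z) b b' (gmdS_symm q (Or.inr h))
    exact ⟨s, gmdS_symm q hs, by linarith⟩
  rcases h with ⟨h, rfl⟩ | ⟨h, rfl⟩ <;> rcases h'' with ⟨k, rfl⟩ | ⟨k, rfl⟩
  · refine ⟨_, Or.inr (Or.inl ⟨k.symm.trans h, rfl⟩), ?_⟩
    have := abs_sub_le (x.2 : ℝ) y.2 z.2
    rw [abs_sub_comm (z.2 : ℝ)]; exact this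
  · refine ⟨_, Or.inr (Or.inr ⟨by rw [← h, k, gmd_αα], rfl⟩), ?_⟩
    have := abs_add_le ((x.2 : ℝ) - y.2) ((z.2 : ℝ) + y.2 - 1)
    refine le_trans (le_of_eq ?_) this
    congr 1; ring
  · refine ⟨_, Or.inr (Or.inr ⟨k.symm.trans h, rfl⟩), ?_⟩
    have := abs_add_le ((x.2 : ℝ) + y.2 - 1) ((z.2 : ℝ) - y.2)
    refine le_trans (le_of_eq ?_) this
    congr 1; ring
  · refine ⟨_, Or.inr (Or.inl ⟨q.α.injective (k.symm.trans h), rfl⟩), ?_⟩
    have := abs_sub ((x.2 : ℝ) + y.2 - 1) ((z.2 : ℝ) + y.2 - 1)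
    refine le_trans (le_of_eq ?_) this
    congr 1; ring

theorem mdist_nonneg (x y : Pt n) : 0 ≤ mdist q x y := by
  rw [gmd_eq]
  exact mul_nonneg gmd_cn (le_csInf (gmdS_nonempty q x y) fun _ h => gmdS_nonneg q h)

theorem mdist_self (x : Pt n) : mdist q x x = 0 := by
  refine le_antisymm ?_ (mdist_nonneg q x x)
  rw [gmd_eq]
  refine mul_nonpos_of_nonneg_of_nonpos gmd_cn (csInf_le (gmdS_bdd q x x) ?_)
  exact Or.inr (Or.inl ⟨rfl, by simp⟩)

theorem mdist_comm (x y : Pt n) : mdist q x y = mdist q y x := by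
  rw [gmd_eq, gmd_eq]
  congr 2
  exact Set.ext fun _ => ⟨gmdS_symm q, gmdS_symm q⟩

theorem mdist_triangle (x y z : Pt n) : mdist q x z ≤ mdist q x y + mdist q y z := by
  rw [gmd_eq, gmd_eq, gmd_eq, ← mul_add]
  refine mul_le_mul_of_nonneg_left ?_ gmd_cn
  have key : ∀ r ∈ gmdS q x y, ∀ r' ∈ gmdS q y z, sInf (gmdS q x z) ≤ r + r' := by
    intro r h r' h'
    obtain ⟨s, hs, hle⟩ := gmdS_tri q h h'
    exact (csInf_le (gmdS_bdd q x z) hs).trans hle
  have h1 : ∀ r ∈ gmdS q x y, sInf (gmdS q x z) - r ≤ sInf (gmdS q y z) := fun r h =>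
    le_csInf (gmdS_nonempty q y z) fun r' h' => by have := key r h r' h'; linarith
  have h2 : sInf (gmdS q x z) - sInf (gmdS q y z) ≤ sInf (gmdS q x y) :=
    le_csInf (gmdS_nonempty q x y) fun r h => by have := h1 r h; linarith
  linarith

theorem mdist_tail (x y : Pt n) :
    |mdist q x y - cn n * q.graph.dist (q.tail x.1) (q.tail y.1)| ≤ 2 * cn n := by
  rw [gmd_eq, ← mul_sub, abs_mul, abs_of_nonneg gmd_cn, mul_comm 2]
  refine mul_le_mul_of_nonneg_left (abs_le.2 ⟨?_, ?_⟩) gmd_cn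
  · have : (q.graph.dist (q.tail x.1) (q.tail y.1) : ℝ) - 2 ≤ sInf (gmdS q x y) := by
      refine le_csInf (gmdS_nonempty q x y) ?_
      rintro r (⟨b, b', rfl⟩ | ⟨h, rfl⟩ | ⟨h, rfl⟩)
      · have h1 := gmd_tri q (q.tail x.1) (endOf q x b).1 (q.tail y.1)
        have h2 := gmd_tri q (endOf q x b).1 (endOf q y b').1 (q.tail y.1)
        have h3 := gmd_tail_end q x b
        have h4 := gmd_tail_end q y b'
        rw [gmd_comm] at h4
        have h5 := gmd_end_nonneg q x b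
        have h6 := gmd_end_nonneg q y b'
        linarith
      · have := abs_nonneg ((x.2 : ℝ) - y.2)
        rw [h, SimpleGraph.dist_self]; simp only [Nat.cast_zero]; linarith
      · have := abs_nonneg ((x.2 : ℝ) + y.2 - 1)
        have h2 := gmd_th q x.1
        rw [h, tail_α]; linarith
    linarith
  · have h1 := csInf_le (gmdS_bdd q x y) (Or.inl ⟨false, false, rfl⟩)
    have h2 := gmd_end_le q x false
    have h3 := gmd_end_le q y false
    have e1 : (endOf q x false).1 = q.tail x.1 := rfl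
    have e2 : (endOf q y false).1 = q.tail y.1 := rfl
    rw [e1, e2] at h1
    linarith

theorem mdist_same (e : Fin (4 * n)) (s t : unitInterval) :
    mdist q (e, s) (e, t) ≤ cn n * |(s : ℝ) - t| := by
  rw [gmd_eq]
  exact mul_le_mul_of_nonneg_left
    (csInf_le (gmdS_bdd q _ _) (Or.inr (Or.inl ⟨rfl, rfl⟩))) gmd_cn

theorem mdist_bdd : ∃ C, ∀ x y, mdist q x y ≤ C := by
  obtain ⟨C, hC⟩ := (Set.finite_range fun p : q.Vertex × q.Vertex =>
    (q.graph.dist p.1 p.2 : ℝ)).bddAbove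
  refine ⟨cn n * C + 2 * cn n, fun x y => ?_⟩
  have h1 := (abs_le.1 (mdist_tail q x y)).2
  have h2 := mul_le_mul_of_nonneg_left (hC ⟨(q.tail x.1, q.tail y.1), rfl⟩) (gmd_cn (n := n))
  linarith

/-- two bounded pseudometric spaces with a correspondence embed in a common metric space -/
theorem exists_glue {X Y Z : Type} (d : X → X → ℝ) (d' : Y → Y → ℝ) (s : ∀ x, d x x = 0)
    (c : ∀ x y, d x y = d y x) (t : ∀ x y z, d x z ≤ d x y + d y z) (b : ∃ C, ∀ x y, d x y ≤ C)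
    (s' : ∀ x, d' x x = 0) (c' : ∀ x y, d' x y = d' y x)
    (t' : ∀ x y z, d' x z ≤ d' x y + d' y z) (b' : ∃ C, ∀ x y, d' x y ≤ C) (R₁ : Z → X)
    (R₂ : Z → Y) (h₁ : Function.Surjective R₁) (h₂ : Function.Surjective R₂) {ε : ℝ}
    (h : ∀ z z', |d (R₁ z) (R₁ z') - d' (R₂ z) (R₂ z')| ≤ ε) :
    ∃ (W : Type) (_ : MetricSpace W) (ι : X → W) (ι' : Y → W), (∀ x y, dist (ι x) (ι y) = d x y) ∧
      (∀ x y, dist (ι' x) (ι' y) = d' x y) ∧ ∀ z, dist (ι (R₁ z)) (ι' (R₂ z)) ≤ ε := by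
  let _ : TopologicalSpace Z := ⊥
  have : DiscreteTopology Z := ⟨rfl⟩
  have main : ∀ {X : Type} (d : X → X → ℝ), (∀ x, d x x = 0) → (∀ x y, d x y = d y x) →
      (∀ x y z, d x z ≤ d x y + d y z) → (∃ C, ∀ x y, d x y ≤ C) → ∀ R : Z → X,
      Function.Surjective R → ∃ ι : X → BoundedContinuousFunction Z ℝ,
        (∀ x z, ι x z = d x (R z)) ∧ ∀ x y, dist (ι x) (ι y) = d x y := by
    intro X d s c t b R hR
    obtain ⟨C, hC⟩ := b
    have pos : ∀ x y, 0 ≤ d x y := fun x y => by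
      have := t x y x
      rw [s, c y x] at this
      linarith
    refine ⟨fun x => BoundedContinuousFunction.mkOfDiscrete (fun z => d x (R z)) C ?_,
      fun _ _ => rfl, fun x y => le_antisymm ?_ ?_⟩
    · intro z z'
      rw [Real.dist_eq, abs_le]
      have := pos x (R z)
      have := pos x (R z')
      have := hC x (R z)
      have := hC x (R z')
      constructor <;> linarith
    · refine (BoundedContinuousFunction.dist_le (pos x y)).2 fun z => ?_
      change dist (d x (R z)) (d y (R z)) ≤ d x y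
      rw [Real.dist_eq, abs_le]
      have h1 := t x y (R z)
      have h2 := t y x (R z)
      rw [c y x] at h2
      constructor <;> linarith
    · obtain ⟨z, rfl⟩ := hR y
      refine le_trans ?_ (BoundedContinuousFunction.dist_coe_le_dist z)
      change d x (R z) ≤ dist (d x (R z)) (d (R z) (R z))
      rw [Real.dist_eq, s, sub_zero]
      exact le_abs_self _
  obtain ⟨ι, e, hι⟩ := main d s c t b R₁ h₁
  obtain ⟨ι', e', hι'⟩ := main d' s' c' t' b' R₂ h₂
  refine ⟨BoundedContinuousFunction Z ℝ, inferInstance, ι, ι', hι, hι', fun z => ?_⟩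
  refine (BoundedContinuousFunction.dist_le ((abs_nonneg _).trans (h z z))).2 fun z' => ?_
  rw [e, e', Real.dist_eq]
  exact h z z'

end Pool.Agent.QL
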