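import Pool.Agent.P.MP_7a6434d8_pr.QL.W.Base
import Pool.Agent.P.MP_ca04ec_pr.G.Pot

/-! Calculus of the Laplacian on the plane. -/

open MeasureTheory ProbabilityTheory Set Filter Topology Metric
open scoped ENNReal NNReal

namespace Pool.Agent.QL

open Pool.Agent.LGD Pool.Agent.P.MP_7a6434d8_pr

theorem lap_fderiv_mul {f g : ℂ → ℝ} (hf : ContDiff ℝ 1 f) (hg : ContDiff ℝ 1 g) (z v : ℂ) :
    fderiv ℝ (fun x => f x * g x) z v = f z * fderiv ℝ g z v + g z * fderiv ℝ f z v := by
  rw [fderiv_fun_mul (hf.differentiable one_ne_zero z) (hg.differentiable one_ne_zero z)]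
  simp

theorem lap_mul_dir {f g : ℂ → ℝ} (hf : ContDiff ℝ 2 f) (hg : ContDiff ℝ 2 g) (z v : ℂ) :
    fderiv ℝ (fun y => fderiv ℝ (fun x => f x * g x) y v) z v =
      f z * fderiv ℝ (fun y => fderiv ℝ g y v) z v + g z * fderiv ℝ (fun y => fderiv ℝ f y v) z v +
        2 * (fderiv ℝ f z v * fderiv ℝ g z v) := by
  have f1 := hf.of_le one_le_two
  have g1 := hg.of_le one_le_two
  simp only [lap_fderiv_mul f1 g1]
  rw [fderiv_fun_add ((f1.mul (pot_d1 hg v)).differentiable one_ne_zero z)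
    ((g1.mul (pot_d1 hf v)).differentiable one_ne_zero z), _root_.add_apply,
    lap_fderiv_mul f1 (pot_d1 hg v), lap_fderiv_mul g1 (pot_d1 hf v)]
  ring

theorem lap_mul {f g : ℂ → ℝ} (hf : ContDiff ℝ 2 f) (hg : ContDiff ℝ 2 g) (z : ℂ) :
    Laplacian.laplacian (fun x => f x * g x) z =
      f z * Laplacian.laplacian g z + g z * Laplacian.laplacian f z +
        2 * (fderiv ℝ f z 1 * fderiv ℝ g z 1 +
          fderiv ℝ f z Complex.I * fderiv ℝ g z Complex.I) := by
  rw [pot_laplacian (hf.mul hg), pot_laplacian hf, pot_laplacian hg, lap_mul_dir hf hg,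
    lap_mul_dir hf hg]
  ring

theorem fderiv_affine {f : ℂ → ℝ} (hf : ContDiff ℝ 1 f) (s : ℝ) (c z v : ℂ) :
    fderiv ℝ (fun x => f (s • x + c)) z v = s * fderiv ℝ f (s • z + c) v := by
  have h : HasFDerivAt (fun x : ℂ => s • x + c) (s • ContinuousLinearMap.id ℝ ℂ) z :=
    ((hasFDerivAt_id z).const_smul s).add_const c
  have := ((hf.differentiable one_ne_zero _).hasFDerivAt.comp z h).fderiv
  rw [show (fun x => f (s • x + c)) = f ∘ fun x => s • x + c from rfl, this]
  rw [ContinuousLinearMap.comp_apply, _root_.smul_apply, map_smul]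
  rfl

theorem lap_affine {f : ℂ → ℝ} (hf : ContDiff ℝ 2 f) (s : ℝ) (c z : ℂ) :
    Laplacian.laplacian (fun x => f (s • x + c)) z =
      s ^ 2 * Laplacian.laplacian f (s • z + c) := by
  have h : ∀ v, fderiv ℝ (fun y => fderiv ℝ (fun x => f (s • x + c)) y v) z v =
      s ^ 2 * fderiv ℝ (fun y => fderiv ℝ f y v) (s • z + c) v := fun v => by
    simp only [fderiv_affine (hf.of_le one_le_two)]
    rw [lap_fderiv_mul contDiff_const ((pot_d1 hf v).fun_comp (by fun_prop)),
      fderiv_affine (pot_d1 hf v)]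
    simp
    ring
  rw [pot_laplacian (hf.fun_comp (by fun_prop)), pot_laplacian hf, h, h, mul_add]

theorem test_c2 (φ : Test) : ContDiff ℝ 2 (φ : ℂ → ℝ) :=
  φ.contDiff.of_le (WithTop.coe_le_coe.2 le_top)

theorem lap_test_cont (φ : Test) : Continuous (Laplacian.laplacian (φ : ℂ → ℝ)) :=
  pot_laplacian_continuous (test_c2 φ)

theorem lap_test_compact (φ : Test) : HasCompactSupport (Laplacian.laplacian (φ : ℂ → ℝ)) :=
  pot_laplacian_compact φ.hasCompactSupport

theorem lap_test_bdd (φ : Test) : Bdd (Laplacian.laplacian (φ : ℂ → ℝ)) :=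
  (lap_test_cont φ).bounded_above_of_compact_support (lap_test_compact φ)

theorem test_bdd (φ : Test) : Bdd (φ : ℂ → ℝ) :=
  (test_c2 φ).continuous.bounded_above_of_compact_support φ.hasCompactSupport

theorem integral_lap_test (φ : Test) : ∫ z, Laplacian.laplacian (φ : ℂ → ℝ) z = 0 := by
  simpa using pot_green1' (a := fun _ => 1) contDiff_const (test_c2 φ) φ.hasCompactSupport

/-- affine images of test functions -/
theorem exists_test_affine (φ : Test) {s : ℝ} (hs : s ≠ 0) (c : ℂ) :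
    ∃ χ : Test, ⇑χ = fun x => φ (s • x + c) :=
  ⟨mkTest (fun x => φ (s • x + c)) (φ.contDiff.fun_comp (by fun_prop))
    (φ.hasCompactSupport.comp_homeomorph
      ((Homeomorph.smulOfNeZero s hs).trans (Homeomorph.addRight c))), rfl⟩

/-- products of a test function with a smooth function -/
theorem exists_test_mul (φ : Test) {g : ℂ → ℝ} (hg : ContDiff ℝ (⊤ : ℕ∞) g) :
    ∃ χ : Test, ⇑χ = fun x => φ x * g x :=
  ⟨mkTest _ (φ.contDiff.mul hg) φ.hasCompactSupport.mul_right, rfl⟩

end Pool.Agent.QL
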