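import Pool.Agent.P.MP_7a6434d8_pr.QL.W.GRer
import Pool.Agent.P.MP_7a6434d8_pr.QL.W.CBasic

/-! From no traps at the root to no traps at most vertices. -/

open MeasureTheory ProbabilityTheory Set Filter Topology Metric
open scoped ENNReal NNReal

namespace Pool.Agent.QL

open Pool.Agent.LGD Pool.Agent.P.MP_7a6434d8_pr

theorem NoTrap.iso {n : ℕ} {q q' : Quad n} {ψ : Equiv.Perm (Fin (4 * n))} (h : UIso q q' ψ)
    {a ε r : ℝ} {e : Fin (4 * n)} (ht : NoTrap q a ε r (q.tail e)) :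
    NoTrap q' a ε r (q'.tail (ψ e)) := by
  obtain ⟨w, h0, h1, h2⟩ := ht
  obtain ⟨ha, hf⟩ := h
  set V := xrerootV q q' ψ ha hf with hV
  have hlap : ∀ x, lap q' (fun y => w (V.symm y)) (V x) = lap q w x := fun x => by
    unfold lap
    rw [hV, xreroot_out, Finset.card_map, Finset.sum_map]
    congr 1
    refine Finset.sum_congr rfl fun b _ => ?_
    rw [Equiv.coe_toEmbedding, ← xreroot_head q q' ψ ha hf]
    simp only [Equiv.symm_apply_apply]
  have htl : q'.tail (ψ e) = V (q.tail e) := rfl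
  refine ⟨fun y => w (V.symm y), fun y => h0 _, fun y hy => ?_, ?_⟩
  · obtain ⟨x, rfl⟩ := V.surjective y
    rw [hlap]
    refine h1 x ?_
    have hd : q'.graph.dist (V (q.tail e)) (V x) = q.graph.dist (q.tail e) x :=
      xreroot_dist (xrerootG q q' ψ ha hf) (q.tail e) x
    rwa [htl, hd] at hy
  · simp only [htl, Equiv.symm_apply_apply]
    exact h2

theorem gtrap_count {n : ℕ} (S : Set (RootedQuad n)) :
    Measure.count S = ∑' c, S.indicator (1 : RootedQuad n → ℝ≥0∞) c := by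
  rw [← lintegral_count, lintegral_indicator_one (MeasurableSet.of_discrete)]

theorem trap_avg {n : ℕ} (a ε r : ℝ) {β : ℝ} (hβ : 0 < β) :
    ENNReal.ofReal β * uniformOn univ {c : RootedQuad n |
        β < avg (Quot.out c) (ind {y | ¬ NoTrap (Quot.out c) a ε r y})} ≤
      uniformOn univ {c : RootedQuad n |
        ¬ NoTrap (Quot.out c) a ε r ((Quot.out c).tail (Quot.out c).root)} := by
  set S := {c : RootedQuad n |
    β < avg (Quot.out c) (ind {y | ¬ NoTrap (Quot.out c) a ε r y})} with hS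
  set T := {c : RootedQuad n |
    ¬ NoTrap (Quot.out c) a ε r ((Quot.out c).tail (Quot.out c).root)} with hT
  rcases S.eq_empty_or_nonempty with h0 | ⟨c₀, -⟩
  · rw [h0]; simp
  have hn : 0 < n := n_pos (Quot.out c₀)
  have hn' : (0 : ℝ) < 4 * n := by positivity
  have key : ENNReal.ofReal β * Measure.count S ≤ Measure.count T := by
    have h4 : ((4 * n : ℕ) : ℝ≥0∞) ≠ 0 := by
      rw [Ne, Nat.cast_eq_zero]; omega
    rw [← ENNReal.mul_le_mul_iff_right h4 (ENNReal.natCast_ne_top _), gtrap_count T,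
      ← reroot_tsum, gtrap_count S, ← mul_assoc, ← ENNReal.tsum_mul_left]
    refine ENNReal.tsum_le_tsum fun c => ?_
    by_cases hc : c ∈ S
    · rw [indicator_of_mem hc, Pi.one_apply, mul_one]
      have h1 : β < avg (Quot.out c) (ind {y | ¬ NoTrap (Quot.out c) a ε r y}) := hc
      unfold avg at h1
      rw [lt_div_iff₀ hn'] at h1
      have h2 : ((4 * n : ℕ) : ℝ≥0∞) * ENNReal.ofReal β = ENNReal.ofReal (β * (4 * n)) := by
        rw [ENNReal.ofReal_mul hβ.le, mul_comm, ← ENNReal.ofReal_natCast]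
        push_cast
        rfl
      rw [h2]
      refine (ENNReal.ofReal_le_ofReal h1.le).trans ?_
      rw [ENNReal.ofReal_sum_of_nonneg fun e _ => ind_nonneg _ _]
      refine Finset.sum_le_sum fun e _ => ?_
      by_cases he : (Quot.out c).tail e ∈ {y | ¬ NoTrap (Quot.out c) a ε r y}
      · obtain ⟨ψ, hψ, hψe⟩ := exists_uiso c e
        have hm : (Quot.mk _ (xcountRoot (Quot.out c) e) : RootedQuad n) ∈ T := by
          intro hno
          rw [← hψe] at hno
          have := NoTrap.iso hψ.symm hno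
          rw [Equiv.symm_apply_apply] at this
          exact he this
        rw [ind_of_mem he, ENNReal.ofReal_one]
        exact (indicator_of_mem hm (1 : RootedQuad n → ℝ≥0∞)).ge
      · rw [ind_of_notMem he]
        simp
    · rw [indicator_of_notMem hc, mul_zero]
      exact zero_le
  unfold uniformOn
  rw [cond_apply MeasurableSet.univ, cond_apply MeasurableSet.univ, univ_inter, univ_inter,
    mul_left_comm]
  exact mul_le_mul_right key _

theorem trap_sets (n : ℕ → ℕ) (a : ℕ → ℝ)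
    (h : ∀ ε > 0, ∀ η : ℝ≥0∞, 0 < η → ∃ r > 0, ∀ᶠ k in atTop,
      uniformOn univ {c : RootedQuad (n k) |
        ¬ NoTrap (Quot.out c) (a k) ε r ((Quot.out c).tail (Quot.out c).root)} ≤ η)
    {η : ℝ≥0∞} (hη : 0 < η) :
    ∃ H : ∀ k, Set (RootedQuad (n k)), (∀ k, uniformOn univ (H k)ᶜ ≤ η) ∧
      ∀ (k : ℕ → ℕ) (c : ∀ m, RootedQuad (n (k m))) (U : Ultrafilter ℕ)
        (p : ∀ m, (Quot.out (c m) : Quad _).Vertex → Sph), Tendsto k U atTop →
        (∀ m, c m ∈ H (k m)) →
        Net.Trap ⟨U, fun m => n (k m), fun m => Quot.out (c m), p, fun m => a (k m)⟩ := by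
  classical
  obtain ⟨η', hη'0, hη'⟩ := ENNReal.exists_pos_sum_of_countable' hη.ne' ℕ
  have hb : ∀ i : ℕ, (0 : ℝ) < 1 / ((i : ℝ) + 1) := fun i => Nat.one_div_pos_of_nat
  have hb' : ∀ i : ℕ, ENNReal.ofReal (1 / ((i : ℝ) + 1)) ≠ 0 := fun i =>
    (ENNReal.ofReal_pos.2 (hb i)).ne'
  choose r hr hev using fun i : ℕ => h (1 / ((i : ℝ) + 1)) (hb i)
    (ENNReal.ofReal (1 / ((i : ℝ) + 1)) * η' i) (ENNReal.mul_pos (hb' i) (hη'0 i).ne')
  choose k₀ hk₀ using fun i => eventually_atTop.1 (hev i)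
  let Bad : ∀ (i k : ℕ), Set (RootedQuad (n k)) := fun i k => {c | k₀ i ≤ k ∧
    1 / ((i : ℝ) + 1) < avg (Quot.out c)
      (ind {y | ¬ NoTrap (Quot.out c) (a k) (1 / ((i : ℝ) + 1)) (r i) y})}
  have hBad : ∀ i k, uniformOn univ (Bad i k) ≤ η' i := fun i k => by
    by_cases hk : k₀ i ≤ k
    · have h1 := (trap_avg (n := n k) (a k) (1 / ((i : ℝ) + 1)) (r i) (hb i)).trans (hk₀ i k hk)
      rw [ENNReal.mul_le_mul_iff_right (hb' i) ENNReal.ofReal_ne_top] at h1
      exact le_trans (measure_mono fun c hc => hc.2) h1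
    · have : Bad i k = ∅ := eq_empty_of_forall_notMem fun c hc => hk hc.1
      rw [this]; simp
  refine ⟨fun k => (⋃ i, Bad i k)ᶜ, fun k => ?_, fun k c U p hk hc ε hε β hβ => ?_⟩
  · rw [compl_compl]
    exact (measure_iUnion_le _).trans ((ENNReal.tsum_le_tsum fun i => hBad i k).trans hη'.le)
  · obtain ⟨i, hi⟩ := exists_nat_one_div_lt (lt_min hε hβ)
    refine ⟨r i, hr i, ?_⟩
    filter_upwards [hk.eventually_ge_atTop (k₀ i)] with m hm
    have h1 : avg (Quot.out (c m)) (ind {y | ¬ NoTrap (Quot.out (c m)) (a (k m))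
        (1 / ((i : ℝ) + 1)) (r i) y}) ≤ 1 / ((i : ℝ) + 1) := by
      by_contra hlt
      exact hc m (mem_iUnion.2 ⟨i, hm, lt_of_not_ge hlt⟩)
    refine le_trans ?_ (h1.trans (hi.le.trans (min_le_right _ _)))
    rw [avg_eq_sum, finsum_eq_sum_of_fintype]
    refine Finset.sum_le_sum fun y _ => ?_
    have hs : 0 ≤ (Quot.out (c m) : Quad _).stat y := by unfold Quad.stat; positivity
    split_ifs with hy
    · exact mul_nonneg hs (ind_nonneg _ _)
    · rw [ind_of_mem, mul_one]
      exact fun hno => hy (hno.mono (hi.le.trans (min_le_left _ _)))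

end Pool.Agent.QL
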