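import Pool.Agent.P.MP_7a6434d8_pr.QL.W.AGreen

/-! Comparison principle, Dirichlet problems and level paths. -/

open MeasureTheory ProbabilityTheory Set Filter Topology Metric
open scoped ENNReal NNReal

namespace Pool.Agent.QL

open Pool.Agent.LGD Pool.Agent.P.MP_7a6434d8_pr

variable {n : ℕ} (q : Quad n)

theorem amax_min {u : q.Vertex → ℝ} {x : q.Vertex} (h : ∀ e, q.tail e = x → u x ≤ u (q.head e))
    (hl : lap q u x ≤ 0) (e : Fin (4 * n)) (he : q.tail e = x) : u (q.head e) = u x := by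
  have h0 : ∀ e ∈ q.out x, 0 ≤ u (q.head e) - u x := fun e he =>
    sub_nonneg.2 (h e ((mem_out q).1 he))
  have h1 : ∑ e ∈ q.out x, (u (q.head e) - u x) = 0 := by
    refine le_antisymm ?_ (Finset.sum_nonneg h0)
    rw [lap, div_le_iff₀ (card_out_pos q x), zero_mul] at hl
    exact hl
  exact sub_eq_zero.1 ((Finset.sum_eq_zero_iff_of_nonneg h0).1 h1 e ((mem_out q).2 he))

theorem amax_neg (u : q.Vertex → ℝ) (x : q.Vertex) : lap q (fun y => -u y) x = -lap q u x := by
  simpa using lap_cmul q (-1) u x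

theorem compare {a : ℝ} (ha : 0 < a) (B : Set q.Vertex) (c : q.Vertex → ℝ) (hc : ∀ x, 0 ≤ c x)
    (hB : (∃ x, x ∉ B) ∨ ∃ x, c x ≠ 0) (u : q.Vertex → ℝ)
    (h1 : ∀ x ∈ B, 0 ≤ c x * u x - a * lap q u x) (h2 : ∀ x, x ∉ B → 0 ≤ u x) (x : q.Vertex) :
    0 ≤ u x := by
  by_contra hx
  have : Nonempty q.Vertex := ⟨x⟩
  obtain ⟨y, hy⟩ := Finite.exists_min u
  have hm : u y < 0 := (hy x).trans_lt (not_le.1 hx)
  have hin : ∀ z, u z = u y → z ∈ B := fun z hz => by
    by_contra h
    exact (h2 z h).not_gt (hz ▸ hm)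
  have hall : ∀ z, u z = u y := fun z => by
    refine vertex_induction q {z | u z = u y} (x := y) rfl (fun e he => ?_) z
    have he' : u (q.tail e) = u y := he
    have h3 := h1 _ (hin _ he')
    have h4 : c (q.tail e) * u (q.tail e) ≤ 0 :=
      mul_nonpos_of_nonneg_of_nonpos (hc _) (he' ▸ hm.le)
    have h5 : lap q u (q.tail e) ≤ 0 := by
      by_contra h
      have := mul_pos ha (not_le.1 h)
      linarith
    exact (amax_min q (fun e' _ => he' ▸ hy _) h5 e rfl).trans he'
  rcases hB with ⟨z, hz⟩ | ⟨z, hz⟩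
  · exact hz (hin z (hall z))
  · have h3 := h1 z (hin z (hall z))
    have h4 : lap q u z = 0 := by
      rw [show u = fun _ => u y from funext hall]
      exact lap_const q _ z
    rw [h4, mul_zero, sub_zero, hall z] at h3
    exact h3.not_gt (mul_neg_of_pos_of_neg ((hc z).lt_of_ne' hz) hm)

theorem solve {a : ℝ} (ha : 0 < a) (B : Set q.Vertex) (c : q.Vertex → ℝ) (hc : ∀ x, 0 ≤ c x)
    (hB : (∃ x, x ∉ B) ∨ ∃ x, c x ≠ 0) (F g : q.Vertex → ℝ) :
    ∃ u : q.Vertex → ℝ, (∀ x ∈ B, c x * u x - a * lap q u x = F x) ∧ ∀ x, x ∉ B → u x = g x := by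
  classical
  let T : (q.Vertex → ℝ) →ₗ[ℝ] q.Vertex → ℝ :=
    { toFun := fun u x => if x ∈ B then c x * u x - a * lap q u x else u x
      map_add' := fun u v => funext fun x => by
        have := lap_add q u v x
        by_cases h : x ∈ B
        · simp only [Pi.add_apply, if_pos h]
          rw [show lap q (u + v) x = _ from this]
          ring
        · simp only [Pi.add_apply, if_neg h]
      map_smul' := fun r u => funext fun x => by
        have := lap_cmul q r u x
        by_cases h : x ∈ B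
        · simp only [Pi.smul_apply, if_pos h, smul_eq_mul, RingHom.id_apply]
          rw [show lap q (r • u) x = _ from this]
          ring
        · simp only [Pi.smul_apply, if_neg h, RingHom.id_apply] }
  have hT : ∀ u x, T u x = if x ∈ B then c x * u x - a * lap q u x else u x := fun _ _ => rfl
  have h0 : ∀ u, T u = 0 → ∀ x, 0 ≤ u x := fun u hu =>
    compare q ha B c hc hB u
      (fun x hx => by
        have := congrFun hu x
        rw [hT, if_pos hx] at this
        exact this.ge)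
      (fun x hx => by
        have := congrFun hu x
        rw [hT, if_neg hx] at this
        exact this.ge)
  have hi : Function.Injective T := by
    refine (injective_iff_map_eq_zero T).2 fun u hu => funext fun x => ?_
    have h1 := h0 (-u) (by rw [map_neg, hu, neg_zero]) x
    exact le_antisymm (neg_nonneg.1 h1) (h0 u hu x)
  obtain ⟨u, hu⟩ := LinearMap.injective_iff_surjective.1 hi fun x => if x ∈ B then F x else g x
  refine ⟨u, fun x hx => ?_, fun x hx => ?_⟩
  · have := congrFun hu x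
    rwa [hT, if_pos hx, if_pos hx] at this
  · have := congrFun hu x
    rwa [hT, if_neg hx, if_neg hx] at this

/-- maximum principle for subharmonic functions, with the outer boundary only -/
theorem max_boundary (B : Set q.Vertex) (hB : ∃ x, x ∉ B) (u : q.Vertex → ℝ)
    (hu : ∀ x ∈ B, 0 ≤ lap q u x) {θ : ℝ}
    (hb : ∀ e, q.tail e ∈ B → q.head e ∉ B → u (q.head e) ≤ θ) : ∀ x ∈ B, u x ≤ θ := by
  classical
  let v : q.Vertex → ℝ := fun x =>
    if x ∈ B ∨ ∃ e, q.tail e ∈ B ∧ q.head e = x then θ - u x else 0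
  have hv : ∀ x ∈ B, v x = θ - u x := fun x hx => if_pos (Or.inl hx)
  have h := compare q one_pos B (fun _ => 0) (fun _ => le_rfl) (Or.inl hB) v (fun x hx => ?_)
    fun x hx => ?_
  · intro x hx
    have := h x
    rwa [hv x hx, sub_nonneg] at this
  · have h1 : lap q v x = lap q (fun y => θ - u y) x := by
      rw [lap, lap, hv x hx]
      congr 1
      refine Finset.sum_congr rfl fun e he => ?_
      rw [show v (q.head e) = θ - u (q.head e) from
        if_pos (Or.inr ⟨e, ((mem_out q).1 he).symm ▸ hx, rfl⟩)]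
    rw [h1, lap_sub, lap_const]
    linarith [hu x hx]
  · by_cases h1 : x ∈ B ∨ ∃ e, q.tail e ∈ B ∧ q.head e = x
    · rw [show v x = θ - u x from if_pos h1]
      obtain ⟨e, he, rfl⟩ := h1.resolve_left hx
      exact sub_nonneg.2 (hb e he hx)
    · rw [show v x = 0 from if_neg h1]

theorem cross_ge (B : Set q.Vertex) (hB : ∃ x, x ∉ B) (h : q.Vertex → ℝ)
    (hh : ∀ x ∈ B, lap q h x = 0) (x : q.Vertex) : Cross q {y | h x ≤ h y} {x} Bᶜ := by
  by_contra hcon
  let S : Set q.Vertex := {y | Relation.ReflTransGen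
    (fun u v => v ∈ {y | h x ≤ h y} ∧ ∃ e, q.tail e = u ∧ q.head e = v) x y}
  have hS : ∀ y ∈ S, y ∈ B := fun y hy => by
    by_contra h'
    exact hcon ⟨x, rfl, y, h', le_refl (h x), hy⟩
  have hx : x ∈ S := Relation.ReflTransGen.refl
  obtain ⟨y, hy, hmax⟩ := Set.exists_max_image S h (toFinite S) ⟨x, hx⟩
  have hstep : ∀ e, q.tail e ∈ S → h y ≤ h (q.head e) → q.head e ∈ S := fun e he h1 =>
    Relation.ReflTransGen.tail he ⟨(hmax x hx).trans h1, e, rfl, rfl⟩
  obtain ⟨z, hz⟩ := hB
  refine hz (hS z (vertex_induction q {z | z ∈ S ∧ h z = h y} (x := y) ⟨hy, rfl⟩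
    (fun e he => ?_) z).1)
  have h1 : -h (q.head e) = -h (q.tail e) := by
    refine amax_min q (u := fun y => -h y) (fun e' he' => neg_le_neg ?_) ?_ e rfl
    · rw [he.2]
      by_contra h2
      exact h2 (hmax _ (hstep e' (he' ▸ he.1) (not_le.1 h2).le))
    · rw [amax_neg, hh _ (hS _ he.1), neg_zero]
  have h2 : h (q.head e) = h y := (neg_injective h1).trans he.2
  exact ⟨hstep e he.1 h2.ge, h2⟩

theorem cross_le (B : Set q.Vertex) (hB : ∃ x, x ∉ B) (h : q.Vertex → ℝ)
    (hh : ∀ x ∈ B, lap q h x = 0) (x : q.Vertex) : Cross q {y | h y ≤ h x} {x} Bᶜ := by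
  simpa only [neg_le_neg_iff] using
    cross_ge q B hB (fun y => -h y) (fun y hy => by rw [amax_neg, hh y hy, neg_zero]) x

theorem Cross.mono {S S' A A' B B' : Set q.Vertex} (h : Cross q S A B) (hS : S ⊆ S') (hA : A ⊆ A')
    (hB : B ⊆ B') : Cross q S' A' B' := by
  obtain ⟨x, hx, y, hy, h1, h2⟩ := h
  exact ⟨x, hA hx, y, hB hy, hS h1, Relation.ReflTransGen.mono (fun _ _ h3 => ⟨hS h3.1, h3.2⟩) _ _ h2⟩

end Pool.Agent.QL
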