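import Pool.Agent.P.MP_7a6434d8_pr.QL.W.AMax

/-! The resolvent for a restricted speed measure; removal of traps. -/

open MeasureTheory ProbabilityTheory Set Filter Topology Metric
open scoped ENNReal NNReal

namespace Pool.Agent.QL

open Pool.Agent.LGD Pool.Agent.P.MP_7a6434d8_pr

variable {n : ℕ} {q : Quad n} {a l l' M : ℝ} {G : Set q.Vertex} {f u u' : q.Vertex → ℝ}

theorem ares_c_nonneg (hl : 0 < l) (G : Set q.Vertex) (x : q.Vertex) : 0 ≤ l * ind G x :=
  mul_nonneg hl.le (ind_nonneg G x)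

theorem ares_c_ne (hl : 0 < l) (hG : G.Nonempty) :
    (∃ x, x ∉ (univ : Set q.Vertex)) ∨ ∃ x, l * ind G x ≠ 0 := by
  obtain ⟨x, hx⟩ := hG
  exact Or.inr ⟨x, by rw [ind_of_mem hx, mul_one]; exact hl.ne'⟩

theorem ares_cmp (ha : 0 < a) (hl : 0 < l) (hG : G.Nonempty) (w : q.Vertex → ℝ)
    (hw : ∀ x, 0 ≤ l * ind G x * w x - a * lap q w x) (x : q.Vertex) : 0 ≤ w x :=
  compare q ha univ (fun x => l * ind G x) (ares_c_nonneg hl G) (ares_c_ne hl hG) w
    (fun x _ => hw x) (fun x hx => absurd (mem_univ x) hx) x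

theorem ares_cmp0 (ha : 0 < a) (B : Set q.Vertex) (hB : ∃ x, x ∉ B) (w : q.Vertex → ℝ)
    (h1 : ∀ x ∈ B, 0 ≤ -(a * lap q w x)) (h2 : ∀ x, x ∉ B → 0 ≤ w x) (x : q.Vertex) : 0 ≤ w x :=
  compare q ha B (fun _ => 0) (fun _ => le_rfl) (Or.inl hB) w
    (fun x hx => by have := h1 x hx; linarith) h2 x

theorem ares_solve0 (ha : 0 < a) (B : Set q.Vertex) (hB : ∃ x, x ∉ B) (F : q.Vertex → ℝ) :
    ∃ w : q.Vertex → ℝ, (∀ x ∈ B, -(a * lap q w x) = F x) ∧ ∀ x, x ∉ B → w x = 0 := by
  obtain ⟨w, h1, h2⟩ := solve q ha B (fun _ => 0) (fun _ => le_rfl) (Or.inl hB) F (fun _ => 0)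
  exact ⟨w, fun x hx => by have := h1 x hx; linarith, h2⟩

theorem res_exists (q : Quad n) (ha : 0 < a) (hl : 0 < l) {G : Set q.Vertex} (hG : G.Nonempty)
    (f : q.Vertex → ℝ) : ∃ u, IsRes q a l G f u := by
  obtain ⟨u, h1, -⟩ := solve q ha univ (fun x => l * ind G x) (ares_c_nonneg hl G)
    (ares_c_ne hl hG) (fun x => ind G x * f x) (fun _ => 0)
  exact ⟨u, fun x => h1 x (mem_univ x)⟩

theorem IsRes.nonneg (h : IsRes q a l G f u) (ha : 0 < a) (hl : 0 < l) (hG : G.Nonempty)
    (hf : ∀ x, 0 ≤ f x) (x : q.Vertex) : 0 ≤ u x :=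
  ares_cmp ha hl hG u (fun y => by rw [h y]; exact mul_nonneg (ind_nonneg G y) (hf y)) x

theorem IsRes.bound (h : IsRes q a l G f u) (ha : 0 < a) (hl : 0 < l) (hG : G.Nonempty)
    (hf : ∀ x, |f x| ≤ M) (x : q.Vertex) : |l * u x| ≤ M := by
  have hml : l * (M / l) = M := by field_simp
  have h1 : 0 ≤ M / l - u x := by
    refine ares_cmp ha hl hG (fun y => M / l - u y) (fun y => ?_) x
    rw [lap_sub, lap_const]
    have e := h y
    have h0 : 0 ≤ ind G y * (M - f y) :=
      mul_nonneg (ind_nonneg G y) (by have := (abs_le.1 (hf y)).2; linarith)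
    have : l * ind G y * (M / l - u y) - a * (0 - lap q u y) =
        ind G y * (l * (M / l)) - (l * ind G y * u y - a * lap q u y) := by ring
    rw [this, hml, e]
    linarith
  have h2 : 0 ≤ M / l + u x := by
    refine ares_cmp ha hl hG (fun y => M / l + u y) (fun y => ?_) x
    rw [lap_add, lap_const]
    have e := h y
    have h0 : 0 ≤ ind G y * (M + f y) :=
      mul_nonneg (ind_nonneg G y) (by have := (abs_le.1 (hf y)).1; linarith)
    have : l * ind G y * (M / l + u y) - a * (0 + lap q u y) =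
        ind G y * (l * (M / l)) + (l * ind G y * u y - a * lap q u y) := by ring
    rw [this, hml, e]
    linarith
  have h3 := mul_nonneg hl.le h1
  have h4 := mul_nonneg hl.le h2
  rw [mul_sub, hml] at h3
  rw [mul_add, hml] at h4
  exact abs_le.2 ⟨by linarith, by linarith⟩

theorem ares_abs_le (h : IsRes q a l G f u) (ha : 0 < a) (hl : 0 < l) (hG : G.Nonempty)
    (hf : ∀ x, |f x| ≤ M) (x : q.Vertex) : |u x| ≤ M / l := by
  have := h.bound ha hl hG hf x
  rw [abs_mul, abs_of_pos hl] at this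
  rw [le_div_iff₀ hl]
  linarith

theorem IsRes.energy (h : IsRes q a l G f u) (ha : 0 < a) (hl : 0 < l) (hG : G.Nonempty)
    (hf : ∀ x, |f x| ≤ M) : form q a u u ≤ M ^ 2 / l := by
  rw [form_green, ← avg_const q (M ^ 2 / l)]
  refine avg_mono q fun x => ?_
  have e := h x
  have h1 := ares_abs_le h ha hl hG hf x
  have hM : 0 ≤ M := (abs_nonneg _).trans (hf x)
  have h2 : -(a * lap q u x) = ind G x * f x - l * ind G x * u x := by linarith
  have h3 : |u x * f x| ≤ M ^ 2 / l := by
    rw [abs_mul]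
    calc |u x| * |f x| ≤ M / l * M := mul_le_mul h1 (hf x) (abs_nonneg _) (by positivity)
      _ = M ^ 2 / l := by ring
  have h4 : 0 ≤ l * ind G x * (u x * u x) :=
    mul_nonneg (ares_c_nonneg hl G x) (mul_self_nonneg _)
  have h5 : ind G x * (u x * f x) ≤ M ^ 2 / l := by
    calc ind G x * (u x * f x) ≤ ind G x * |u x * f x| :=
          mul_le_mul_of_nonneg_left (le_abs_self _) (ind_nonneg G x)
      _ ≤ 1 * |u x * f x| := mul_le_mul_of_nonneg_right (ind_le_one G x) (abs_nonneg _)
      _ ≤ M ^ 2 / l := by rw [one_mul]; exact h3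
  rw [h2]
  nlinarith

theorem IsRes.compl (h : IsRes q a l G f u) (hl : 0 < l) :
    IsRes q a l G (fun x => 1 - f x) (fun x => 1 / l - u x) := by
  intro x
  have e := h x
  have hml : l * (1 / l) = 1 := by field_simp
  rw [lap_sub, lap_const]
  have : l * ind G x * (1 / l - u x) - a * (0 - lap q u x) =
      ind G x * (l * (1 / l)) - (l * ind G x * u x - a * lap q u x) := by ring
  rw [this, hml, e]
  ring

theorem IsRes.cmul (h : IsRes q a l G f u) (c : ℝ) :
    IsRes q a l G (fun x => c * f x) (fun x => c * u x) := by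
  intro x
  have e := h x
  rw [lap_cmul]
  have : l * ind G x * (c * u x) - a * (c * lap q u x) =
      c * (l * ind G x * u x - a * lap q u x) := by ring
  rw [this, e]
  ring

theorem IsRes.super (h : IsRes q a l G f u) (ha : 0 < a) (hl : 0 < l) (hG : G.Nonempty)
    (hf : ∀ x, 0 ≤ f x) (x : q.Vertex) : 0 ≤ l * u x - a * lap q u x := by
  have e := h x
  have h0 := h.nonneg ha hl hG hf x
  have h1 : 0 ≤ ind G x * f x := mul_nonneg (ind_nonneg G x) (hf x)
  have h2 : 0 ≤ l * (1 - ind G x) * u x :=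
    mul_nonneg (mul_nonneg hl.le (sub_nonneg.2 (ind_le_one G x))) h0
  nlinarith

theorem ares_univ (h : IsRes q a l univ f u) (x : q.Vertex) : l * u x - a * lap q u x = f x := by
  have e := h x
  rw [ind_of_mem (mem_univ x)] at e
  linarith

theorem ares_of_univ (h : ∀ x, l * u x - a * lap q u x = f x) : IsRes q a l univ f u := by
  intro x
  rw [ind_of_mem (mem_univ x)]
  have := h x
  linarith

theorem ares_univ_nonempty (q : Quad n) : (univ : Set q.Vertex).Nonempty :=
  ⟨q.tail ⟨0, by have := n_pos q; omega⟩, mem_univ _⟩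

theorem IsRes.diff (h : IsRes q a l univ f u) (h' : IsRes q a l G f u') (ha : 0 < a) (hl : 0 < l)
    (hG : G.Nonempty) (hf : ∀ x, |f x| ≤ M) :
    avg q (fun x => |u x - u' x|) ≤ 2 * M * avg q (ind Gᶜ) / l := by
  have hU := ares_univ_nonempty q
  obtain ⟨R, hR⟩ := res_exists q ha hl hU (fun x => 2 * M * ind Gᶜ x)
  have hk : ∀ x, l * (u x - u' x) - a * (lap q u x - lap q u' x) =
      ind Gᶜ x * (f x - l * u' x) := by
    intro x
    have e := ares_univ h x
    have e' := h' x
    rw [ind_compl]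
    linarith
  have hb : ∀ x, |ind Gᶜ x * (f x - l * u' x)| ≤ 2 * M * ind Gᶜ x := by
    intro x
    rw [abs_mul, abs_of_nonneg (ind_nonneg _ x), mul_comm]
    refine mul_le_mul_of_nonneg_right ?_ (ind_nonneg _ x)
    have h1 := hf x
    have h2 := h'.bound ha hl hG hf x
    calc |f x - l * u' x| ≤ |f x| + |l * u' x| := abs_sub _ _
      _ ≤ 2 * M := by linarith
  have h1 : ∀ x, 0 ≤ R x - (u x - u' x) := by
    refine ares_cmp ha hl hU (fun y => R y - (u y - u' y)) fun y => ?_
    rw [lap_sub, lap_sub, ind_of_mem (mem_univ y)]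
    have e := ares_univ hR y
    have e2 := hk y
    have e3 := (abs_le.1 (hb y)).2
    linarith
  have h2 : ∀ x, 0 ≤ R x + (u x - u' x) := by
    refine ares_cmp ha hl hU (fun y => R y + (u y - u' y)) fun y => ?_
    rw [lap_add, lap_sub, ind_of_mem (mem_univ y)]
    have e := ares_univ hR y
    have e2 := hk y
    have e3 := (abs_le.1 (hb y)).1
    linarith
  have h3 : avg q (fun x => |u x - u' x|) ≤ avg q R :=
    avg_mono q fun x => abs_le.2 ⟨by have := h2 x; linarith, by have := h1 x; linarith⟩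
  have h4 : l * avg q R = 2 * M * avg q (ind Gᶜ) := by
    have e1 : avg q (fun x => l * R x - a * lap q R x) = avg q (fun x => 2 * M * ind Gᶜ x) := by
      congr 1
      funext x
      exact ares_univ hR x
    rw [avg_sub, avg_mul, avg_mul, avg_mul, avg_lap] at e1
    have e2 : avg q (fun x => ind Gᶜ x) = avg q (ind Gᶜ) := rfl
    linarith
  rw [le_div_iff₀ hl]
  nlinarith

theorem IsRes.lam (h : IsRes q a l univ f u) (h' : IsRes q a l' univ f u') (ha : 0 < a)
    (hl : 0 < l) (hl' : 0 < l') (hf : ∀ x, |f x| ≤ M) (x : q.Vertex) :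
    |u x - u' x| ≤ |l - l'| * M / (l * l') := by
  have hU := ares_univ_nonempty q
  have hw : IsRes q a l univ (fun y => (l' - l) * u' y) (fun y => u y - u' y) := by
    refine ares_of_univ fun y => ?_
    have e := ares_univ h y
    have e' := ares_univ h' y
    rw [lap_sub]
    linarith
  have hb : ∀ y, |(l' - l) * u' y| ≤ |l - l'| * (M / l') := by
    intro y
    rw [abs_mul, abs_sub_comm l' l]
    exact mul_le_mul_of_nonneg_left (ares_abs_le h' ha hl' hU hf y) (abs_nonneg _)
  have := ares_abs_le hw ha hl hU hb x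
  calc |u x - u' x| ≤ |l - l'| * (M / l') / l := this
    _ = |l - l'| * M / (l * l') := by field_simp

/-- harmonic approximation on a small set -/
theorem res_split (q : Quad n) (ha : 0 < a) {ε r : ℝ} (hε : 0 ≤ ε) (hM : 0 ≤ M)
    (B G : Set q.Vertex) (hB : ∃ x, x ∉ B) (hG : ∀ y ∈ B, y ∈ G → NoTrap q a ε r y)
    (hr : ∀ y ∈ B, ∀ x ∈ B, cn n * q.graph.dist y x ≤ r) (F u : q.Vertex → ℝ)
    (hF : ∀ x, |F x| ≤ M) (hu : ∀ x ∈ B, -(a * lap q u x) = ind G x * F x) :
    ∃ h : q.Vertex → ℝ, (∀ x ∈ B, lap q h x = 0) ∧ (∀ x, |u x - h x| ≤ M * ε) ∧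
      form q a h h ≤ form q a u u := by
  obtain ⟨e, he1, he2⟩ := ares_solve0 ha B hB (ind G)
  obtain ⟨g, hg1, hg2⟩ := ares_solve0 ha B hB (fun x => ind G x * F x)
  have hgood : ∀ y ∈ B, y ∈ G → e y ≤ ε := by
    intro y hy hyG
    obtain ⟨w, hw0, hw1, hw2⟩ := hG y hy hyG
    have : 0 ≤ w y - e y := by
      refine ares_cmp0 ha B hB (fun x => w x - e x) (fun x hx => ?_) (fun x hx => ?_) y
      · rw [lap_sub]
        have e1 := hw1 x (hr y hy x hx)
        have e2 := he1 x hx
        have e3 := ind_le_one G x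
        linarith
      · rw [he2 x hx, sub_zero]
        exact hw0 x
    linarith
  have hee : ∀ x, 0 ≤ ε - e x := by
    refine ares_cmp0 ha (B \ G) ?_ (fun x => ε - e x) (fun x hx => ?_) (fun x hx => ?_)
    · obtain ⟨x, hx⟩ := hB
      exact ⟨x, fun h => hx h.1⟩
    · rw [lap_sub, lap_const]
      have e2 := he1 x hx.1
      rw [ind_of_notMem hx.2] at e2
      linarith
    · by_cases hxB : x ∈ B
      · have hxG : x ∈ G := by
          by_contra hn
          exact hx ⟨hxB, hn⟩
        have := hgood x hxB hxG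
        linarith
      · rw [he2 x hxB, sub_zero]
        exact hε
  have hp : ∀ x, 0 ≤ M * e x + g x := by
    refine ares_cmp0 ha B hB (fun x => M * e x + g x) (fun x hx => ?_) (fun x hx => ?_)
    · rw [lap_add, lap_cmul]
      have e1 := he1 x hx
      have e2 := hg1 x hx
      have e3 : 0 ≤ ind G x * (M + F x) :=
        mul_nonneg (ind_nonneg G x) (by have := (abs_le.1 (hF x)).1; linarith)
      have : -(a * (M * lap q e x + lap q g x)) = M * -(a * lap q e x) + -(a * lap q g x) := by
        ring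
      rw [this, e1, e2]
      linarith
    · rw [he2 x hx, hg2 x hx]
      simp
  have hm : ∀ x, 0 ≤ M * e x - g x := by
    refine ares_cmp0 ha B hB (fun x => M * e x - g x) (fun x hx => ?_) (fun x hx => ?_)
    · rw [lap_sub, lap_cmul]
      have e1 := he1 x hx
      have e2 := hg1 x hx
      have e3 : 0 ≤ ind G x * (M - F x) :=
        mul_nonneg (ind_nonneg G x) (by have := (abs_le.1 (hF x)).2; linarith)
      have : -(a * (M * lap q e x - lap q g x)) = M * -(a * lap q e x) - -(a * lap q g x) := by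
        ring
      rw [this, e1, e2]
      linarith
    · rw [he2 x hx, hg2 x hx]
      simp
  have hh : ∀ x ∈ B, lap q (fun y => u y - g y) x = 0 := by
    intro x hx
    rw [lap_sub]
    have e1 := hu x hx
    have e2 := hg1 x hx
    have : a * (lap q u x - lap q g x) = 0 := by linarith
    exact (mul_eq_zero.1 this).resolve_left ha.ne'
  refine ⟨fun y => u y - g y, hh, fun x => ?_, ?_⟩
  · have e1 := hp x
    have e2 := hm x
    have e3 : M * e x ≤ M * ε := mul_le_mul_of_nonneg_left (by have := hee x; linarith) hM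
    exact abs_le.2 ⟨by linarith, by linarith⟩
  · have e0 : form q a (fun y => u y - g y) g = 0 := by
      rw [form_comm, form_green, ← avg_const q 0]
      congr 1
      funext x
      by_cases hx : x ∈ B
      · rw [hh x hx]
        simp
      · rw [hg2 x hx, zero_mul]
    have e1 := form_add_self q a (fun y => u y - g y) g
    have e2 : (fun x => u x - g x + g x) = u := by
      funext x
      ring
    rw [e2, e0] at e1
    have e3 := form_nonneg q ha.le g
    linarith

end Pool.Agent.QL
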