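import Pool.Agent.P.MP_7a6434d8_pr.QL.W.CBasic

/-! Equicontinuity of potentials of the restricted measure. -/

open MeasureTheory ProbabilityTheory Set Filter Topology Metric
open scoped ENNReal NNReal

namespace Pool.Agent.QL

open Pool.Agent.LGD Pool.Agent.P.MP_7a6434d8_pr

theorem Net.equi {d : Sph → Sph → ℝ} {μ : Measure ℂ} {N : Net} (hd : IsMet d) (hG : N.Geo d μ)
    (hE : N.En d) {η M C : ℝ} {G : ∀ m, Set (N.q m).Vertex} (hg : N.Good η G)
    (F u : ∀ m, (N.q m).Vertex → ℝ)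
    (hu : ∀ᶠ m in (N.U : Filter ℕ), (∀ x, |F m x| ≤ M) ∧
      (∀ x, -(N.a m * lap (N.q m) (u m) x) = ind (G m) x * F m x) ∧ N.E m (u m) (u m) ≤ C) :
    N.Equi d u := by
  intro z ε hε
  have hM := abs_nonneg M
  have hε' : 0 < ε / (4 * (|M| + 1)) := by positivity
  obtain ⟨r₀, hr₀, hk⟩ := hg.kato _ hε'
  obtain ⟨z', hz'⟩ := hd.far z
  obtain ⟨R, hR, h1, h2⟩ : ∃ R > 0, 3 * R ≤ r₀ ∧ 2 * R ≤ d z z' :=
    ⟨min (r₀ / 3) (d z z' / 2), lt_min (by positivity) (by positivity),
      by linarith [min_le_left (r₀ / 3) (d z z' / 2)],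
      by linarith [min_le_right (r₀ / 3) (d z z' / 2)]⟩
  obtain ⟨r, hr, hs⟩ := hE.sep z R ((|C| + 1) / (ε / 2) ^ 2) hR
  refine ⟨r, hr, ?_⟩
  filter_upwards [hu, hk, hs, hE.pos, hG.dist R hR, hG.dense R hR] with m hu hk hs ha hdi hde
  have hB : ∃ x, x ∉ {x | d z (N.p m x) < R} := by
    obtain ⟨x, hx⟩ := hde z'
    refine ⟨x, fun h => ?_⟩
    have h3 : d z (N.p m x) < R := h
    linarith [hd.triangle z (N.p m x) z', hd.symm (N.p m x) z']
  obtain ⟨h, h3, h4, h5⟩ := res_split (N.q m) ha hε'.le hM {x | d z (N.p m x) < R} (G m) hB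
    (fun y _ hy => hk y hy) (fun y hy x hx => by
      have a1 : d z (N.p m y) < R := hy
      have a2 : d z (N.p m x) < R := hx
      linarith [(abs_le.1 (hdi y x)).2, hd.triangle (N.p m y) z (N.p m x), hd.symm (N.p m y) z])
    (F m) (u m) (fun x => (hu.1 x).trans (le_abs_self M)) fun x _ => hu.2.1 x
  have h6 : |M| * (ε / (4 * (|M| + 1))) ≤ ε / 4 := by
    rw [← mul_div_assoc, div_le_div_iff₀ (by positivity) (by norm_num)]
    nlinarith
  have key : ∀ x y, d z (N.p m x) < r → d z (N.p m y) < r → h x - h y ≤ ε / 2 := by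
    intro x y hx hy
    by_contra hn
    obtain ⟨t, ht⟩ : ∃ t, t = h x - h y := ⟨_, rfl⟩
    rw [← ht, not_le] at hn
    have ht0 : 0 < t := by linarith
    have h7 := hs (fun w => 1 / t * h w + -(h y / t))
      (Cross.mono _ (cross_ge _ _ hB h h3 x) (fun w hw => by
        have a1 : h x ≤ h w := hw
        have a2 : 1 / t * h w + -(h y / t) = (h w - h y) / t := by ring
        rw [mem_ofPred_eq, a2, le_div_iff₀ ht0]
        linarith) (singleton_subset_iff.2 hx)
        fun w hw => not_lt.1 (show ¬ d z (N.p m w) < R from hw))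
      (Cross.mono _ (cross_le _ _ hB h h3 y) (fun w hw => by
        have a1 : h w ≤ h y := hw
        have a2 : 1 / t * h w + -(h y / t) = (h w - h y) / t := by ring
        rw [mem_ofPred_eq, a2]
        exact div_nonpos_of_nonpos_of_nonneg (by linarith) ht0.le)
        (singleton_subset_iff.2 hy) fun w hw => not_lt.1 (show ¬ d z (N.p m w) < R from hw))
    rw [Net.E, form_affine] at h7
    have h8 : form (N.q m) (N.a m) h h ≤ |C| := (h5.trans hu.2.2).trans (le_abs_self C)
    have h9 : (1 / t) ^ 2 * form (N.q m) (N.a m) h h ≤ |C| / (ε / 2) ^ 2 := by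
      refine (mul_le_mul_of_nonneg_left h8 (sq_nonneg _)).trans ?_
      rw [one_div, inv_pow, inv_mul_eq_div]
      gcongr
    have h10 : |C| / (ε / 2) ^ 2 < (|C| + 1) / (ε / 2) ^ 2 := by
      gcongr
      exact lt_add_one _
    linarith
  intro x y hx hy
  have a1 := abs_le.1 (h4 x)
  have a2 := abs_le.1 (h4 y)
  exact abs_le.2 ⟨by linarith [key y x hy hx], by linarith [key x y hx hy]⟩

end Pool.Agent.QL
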