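import Pool.Agent.P.MP_7a6434d8_pr.QL.W.DegNet

/-! Limit of the restricted measure. -/

open MeasureTheory ProbabilityTheory Set Filter Topology Metric
open scoped ENNReal NNReal

namespace Pool.Agent.QL

open Pool.Agent.LGD Pool.Agent.P.MP_7a6434d8_pr

theorem cmeas_int (ν : Measure Sph) [IsFiniteMeasure ν] (g : C(Sph, ℝ)) : Integrable g ν :=
  (BoundedContinuousFunction.mkOfCompact g).integrable ν

/-- the stationary measure restricted to a set, as a measure on the sphere -/
theorem cmeas_fin {n : ℕ} (q : Quad n) (p : q.Vertex → Sph) (G : Set q.Vertex) :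
    ∃ ν : FiniteMeasure Sph, ν.mass ≤ 1 ∧
      ∀ g : C(Sph, ℝ), ∫ z, g z ∂(ν : Measure Sph) = avg q fun x => ind G x * g (p x) := by
  have hn : (0 : ℝ) < 4 * n := by
    have : (0 : ℝ) < n := by exact_mod_cast n_pos q
    positivity
  have hw : ∀ e : Fin (4 * n), 0 ≤ ind G (q.tail e) / (4 * n) := fun e =>
    div_nonneg (ind_nonneg _ _) hn.le
  obtain ⟨ν, hν⟩ : ∃ ν : Measure Sph, ν = ∑ e : Fin (4 * n),
      (ind G (q.tail e) / (4 * n)).toNNReal • Measure.dirac (p (q.tail e)) := ⟨_, rfl⟩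
  have hf : IsFiniteMeasure ν := by
    rw [hν]
    infer_instance
  have key : ∀ g : C(Sph, ℝ), ∫ z, g z ∂ν = avg q fun x => ind G x * g (p x) := by
    intro g
    rw [hν, integral_finsetSum_measure fun e _ => cmeas_int _ g, avg, Finset.sum_div]
    refine Finset.sum_congr rfl fun e _ => ?_
    rw [integral_smul_nnreal_measure, integral_dirac, NNReal.smul_def, Real.coe_toNNReal _ (hw e),
      smul_eq_mul]
    ring
  refine ⟨⟨ν, hf⟩, ?_, key⟩
  have h1 := key 1
  have h2 : (avg q fun x => ind G x * (1 : C(Sph, ℝ)) (p x)) ≤ 1 := by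
    refine (avg_mono q fun x => ?_).trans (avg_const q 1).le
    simpa using ind_le_one G x
  rw [← h1] at h2
  simp only [ContinuousMap.one_apply, integral_const, smul_eq_mul, mul_one] at h2
  exact_mod_cast h2

/-- weak limits along the ultrafilter -/
theorem cmeas_lim (N : Net) (G : ∀ m, Set (N.q m).Vertex) :
    ∃ ν : FiniteMeasure Sph, ∀ g : C(Sph, ℝ),
      Tendsto (fun m => avg (N.q m) fun x => ind (G m) x * g (N.p m x)) N.U
        (𝓝 (∫ z, g z ∂(ν : Measure Sph))) := by
  choose ν h1 h2 using fun m => cmeas_fin (N.q m) (N.p m) (G m)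
  have hc := isCompact_setOfPred_finiteMeasure_le_of_compactSpace Sph 1
  obtain ⟨κ, -, hκ⟩ := hc.ultrafilter_le_nhds (N.U.map ν) (by
      rw [Ultrafilter.coe_map, le_principal_iff, mem_map]
      exact univ_mem' h1)
  refine ⟨κ, fun g => ?_⟩
  simp only [← h2]
  exact FiniteMeasure.tendsto_iff_forall_integral_tendsto.1 hκ
    (BoundedContinuousFunction.mkOfCompact g)

theorem Net.Geo.exists_density {d : Sph → Sph → ℝ} {μ : Measure ℂ} [IsProbabilityMeasure μ]
    {N : Net} (hd : IsMet d) (h : N.Geo d μ) {η : ℝ} (G : ∀ m, Set (N.q m).Vertex)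
    (hG : ∀ᶠ m in (N.U : Filter ℕ), avg (N.q m) (ind (G m)ᶜ) ≤ η) :
    ∃ ρ : ℂ → ℝ, Measurable ρ ∧ (∀ z, ρ z ∈ Icc (0 : ℝ) 1) ∧ ∫ z, (1 - ρ z) ∂μ ≤ η ∧
      ∀ g : C(Sph, ℝ), Tendsto (fun m => avg (N.q m) fun x => ind (G m) x * g (N.p m x)) N.U
        (𝓝 (∫ z : ℂ, g z * ρ z ∂μ)) := by
  obtain ⟨ν, h1⟩ := cmeas_lim N G
  obtain ⟨ν', h2⟩ := cmeas_lim N fun m => (G m)ᶜ
  have he := measurableEmbedding_coe_sph
  obtain ⟨κ, hκ⟩ : ∃ κ : Measure Sph, κ = μ.map fun z : ℂ => (z : Sph) := ⟨_, rfl⟩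
  have hf : IsFiniteMeasure κ := by
    rw [hκ]
    infer_instance
  have hs : (ν : Measure Sph) + ν' = κ := by
    refine ext_of_forall_integral_eq_of_IsFiniteMeasure fun f => ?_
    have h3 := (h1 f.toContinuousMap).add (h2 f.toContinuousMap)
    have h4 := h.avg_tendsto hd f.toContinuousMap
    have e : ∀ m, ((avg (N.q m) fun x => ind (G m) x * f.toContinuousMap (N.p m x)) +
        avg (N.q m) fun x => ind (G m)ᶜ x * f.toContinuousMap (N.p m x)) =
        avg (N.q m) fun x => f.toContinuousMap (N.p m x) := fun m => by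
      rw [← avg_add]
      congr 1
      funext x
      rw [ind_compl]
      ring
    simp only [e] at h3
    rw [integral_add_measure (f.integrable _) (f.integrable _), hκ, he.integral_map]
    exact tendsto_nhds_unique h3 h4
  have hle : (ν : Measure Sph) ≤ κ := hs ▸ Measure.le_add_right le_rfl
  have hm : Measurable fun z : Sph => min ((ν : Measure Sph).rnDeriv κ z).toReal 1 :=
    (Measure.measurable_rnDeriv _ _).ennreal_toReal.min measurable_const
  have hρ : ∀ z : Sph, min ((ν : Measure Sph).rnDeriv κ z).toReal 1 ∈ Icc (0 : ℝ) 1 := fun z =>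
    ⟨le_min ENNReal.toReal_nonneg zero_le_one, min_le_right _ _⟩
  have key : ∀ g : C(Sph, ℝ), ∫ z : ℂ, g z * min ((ν : Measure Sph).rnDeriv κ z).toReal 1 ∂μ =
      ∫ z, g z ∂(ν : Measure Sph) := by
    intro g
    rw [← integral_toReal_rnDeriv_mul (Measure.absolutelyContinuous_of_le hle),
      ← he.integral_map (g := fun z => g z * min ((ν : Measure Sph).rnDeriv κ z).toReal 1), ← hκ]
    refine integral_congr_ae ?_
    filter_upwards [Measure.rnDeriv_le_one_of_le hle] with z hz
    have h3 : ((ν : Measure Sph).rnDeriv κ z).toReal ≤ 1 :=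
      ENNReal.toReal_le_of_le_ofReal zero_le_one (by simpa using hz)
    rw [min_eq_left h3, mul_comm]
  refine ⟨fun z => min ((ν : Measure Sph).rnDeriv κ z).toReal 1, hm.comp he.measurable,
    fun z => hρ z, ?_, fun g => key g ▸ h1 g⟩
  have hi : Integrable (fun z : ℂ => min ((ν : Measure Sph).rnDeriv κ z).toReal 1) μ :=
    Integrable.of_mem_Icc 0 1 (hm.comp he.measurable).aemeasurable
      (Eventually.of_forall fun z => hρ z)
  have h3 := (h1 1).const_sub 1
  rw [← key 1] at h3
  simp only [ContinuousMap.one_apply, one_mul, mul_one] at h3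
  rw [integral_sub (integrable_const _) hi, integral_const, probReal_univ, one_smul]
  refine le_of_tendsto h3 (hG.mono fun m hm => le_of_eq_of_le ?_ hm)
  rw [← avg_const (N.q m) 1, ← avg_sub]
  congr 1
  funext x
  rw [ind_compl]

end Pool.Agent.QL
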