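import Pool.Agent.P.MP_7a6434d8_pr.QL.W.Lap

/-! Points are removable for continuous solutions. -/

open MeasureTheory ProbabilityTheory Set Filter Topology Metric
open scoped ENNReal NNReal

namespace Pool.Agent.QL

open Pool.Agent.LGD Pool.Agent.P.MP_7a6434d8_pr

theorem cremove_fderiv_bdd (φ : Test) (v : ℂ) : ∃ C, 0 ≤ C ∧ ∀ z, |fderiv ℝ (φ : ℂ → ℝ) z v| ≤ C := by
  have h1 : Continuous fun z => fderiv ℝ (φ : ℂ → ℝ) z v :=
    ((test_c2 φ).continuous_fderiv (by norm_num)).clm_apply continuous_const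
  have h2 : HasCompactSupport fun z => fderiv ℝ (φ : ℂ → ℝ) z v :=
    φ.hasCompactSupport.fderiv_apply ℝ v
  obtain ⟨C, hC⟩ := h1.bounded_above_of_compact_support h2
  exact ⟨C, (norm_nonneg _).trans (hC 0), hC⟩

theorem cremove_bdd {α : Type} [Nonempty α] {f : α → ℝ} (h : Bdd f) :
    ∃ C, 0 ≤ C ∧ ∀ z, |f z| ≤ C := by
  obtain ⟨C, hC⟩ := h
  exact ⟨C, (abs_nonneg _).trans (hC (Classical.arbitrary α)), hC⟩

/-- the cut-off pieces -/
theorem cremove_pieces (φ : Test) (c : ℂ) : ∃ (C : ℝ) (χ : ℝ → Test), 0 ≤ C ∧ ∀ s : ℝ, 1 ≤ s →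
    (∀ z, |χ s z| ≤ C) ∧ (∀ z, |Laplacian.laplacian (χ s : ℂ → ℝ) z| ≤ C * s ^ 2) ∧
    tsupport (χ s) ⊆ closedBall c (2 / s) ∧ tsupport (χ s) ⊆ tsupport φ ∧
    ∀ z ∈ ball c (1 / s), χ s z = φ z := by
  let b : ContDiffBump (0 : ℂ) := ⟨1, 2, one_pos, one_lt_two⟩
  let B : Test := mkTest b b.contDiff b.hasCompactSupport
  obtain ⟨C1, p1, h1⟩ := cremove_bdd (test_bdd φ)
  obtain ⟨C2, p2, h2⟩ := cremove_bdd (lap_test_bdd φ)
  obtain ⟨C3, p3, h3⟩ := cremove_fderiv_bdd φ 1
  obtain ⟨C4, p4, h4⟩ := cremove_fderiv_bdd φ Complex.I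
  obtain ⟨D2, q2, k2⟩ := cremove_bdd (lap_test_bdd B)
  obtain ⟨D3, q3, k3⟩ := cremove_fderiv_bdd B 1
  obtain ⟨D4, q4, k4⟩ := cremove_fderiv_bdd B Complex.I
  have hsm : ∀ s : ℝ, ContDiff ℝ (⊤ : ℕ∞) fun x : ℂ => B (s • x + -(s • c)) := fun s =>
    B.contDiff.comp ((contDiff_id.const_smul s).add contDiff_const)
  choose χ hχ using fun s : ℝ => exists_test_mul φ (hsm s)
  have hb : ∀ x, |B x| ≤ 1 := fun x => by
    rw [abs_of_nonneg (show 0 ≤ B x from b.nonneg)]; exact b.le_one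
  have hn : ∀ (s : ℝ), 1 ≤ s → ∀ x : ℂ, ‖s • x + -(s • c)‖ = s * dist x c := by
    intro s hs x
    rw [← sub_eq_add_neg, ← smul_sub, norm_smul, Real.norm_of_nonneg (by linarith), dist_eq_norm]
  refine ⟨C1 + (C1 * D2 + C2 + 2 * (C3 * D3 + C4 * D4)), χ, by positivity, fun s hs => ?_⟩
  have hs0 : 0 < s := by linarith
  refine ⟨fun z => ?_, fun z => ?_, ?_, ?_, fun z hz => ?_⟩
  · rw [hχ s]
    simp only [abs_mul]
    have := mul_le_mul (h1 z) (hb (s • z + -(s • c))) (abs_nonneg _) p1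
    have : 0 ≤ C1 * D2 + C2 + 2 * (C3 * D3 + C4 * D4) := by positivity
    linarith
  · rw [hχ s, lap_mul (test_c2 φ) ((hsm s).of_le (ENat.LEInfty.out)),
      lap_affine (test_c2 B), fderiv_affine ((test_c2 B).of_le (by norm_num)),
      fderiv_affine ((test_c2 B).of_le (by norm_num))]
    set y := s • z + -(s • c)
    have e1 : |φ z * (s ^ 2 * Laplacian.laplacian (B : ℂ → ℝ) y)| ≤ C1 * D2 * s ^ 2 := by
      rw [abs_mul, abs_mul, abs_of_nonneg (sq_nonneg s)]
      calc |φ z| * (s ^ 2 * |Laplacian.laplacian (B : ℂ → ℝ) y|) ≤ C1 * (s ^ 2 * D2) := by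
            gcongr
            · exact h1 z
            · exact k2 y
        _ = _ := by ring
    have hs2 : 1 ≤ s ^ 2 := one_le_pow₀ hs
    have hs3 : s ≤ s ^ 2 := by nlinarith
    have e2 : |B y * Laplacian.laplacian (φ : ℂ → ℝ) z| ≤ C2 * s ^ 2 := by
      rw [abs_mul]
      calc |B y| * |Laplacian.laplacian (φ : ℂ → ℝ) z| ≤ 1 * C2 := by
            gcongr
            · exact hb y
            · exact h2 z
        _ ≤ _ := by nlinarith
    have e3 : ∀ (v : ℂ) (C D : ℝ), 0 ≤ C → 0 ≤ D → |fderiv ℝ (φ : ℂ → ℝ) z v| ≤ C →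
        |fderiv ℝ (B : ℂ → ℝ) y v| ≤ D →
        |fderiv ℝ (φ : ℂ → ℝ) z v * (s * fderiv ℝ (B : ℂ → ℝ) y v)| ≤ C * D * s ^ 2 := by
      intro v C D hC hD a1 a2
      rw [abs_mul, abs_mul, abs_of_pos hs0]
      calc |fderiv ℝ (φ : ℂ → ℝ) z v| * (s * |fderiv ℝ (B : ℂ → ℝ) y v|) ≤ C * (s ^ 2 * D) := by
            gcongr
        _ = _ := by ring
    have e4 := e3 1 C3 D3 p3 q3 (h3 z) (k3 y)
    have e5 := e3 Complex.I C4 D4 p4 q4 (h4 z) (k4 y)
    have e6 : 0 ≤ C1 * s ^ 2 := by positivity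
    rw [abs_le] at e1 e2 e4 e5 ⊢
    constructor <;> nlinarith [e1.1, e1.2, e2.1, e2.2, e4.1, e4.2, e5.1, e5.2]
  · refine closure_minimal (fun x hx => ?_) isClosed_closedBall
    rw [hχ s] at hx
    have hx' : s • x + -(s • c) ∈ Function.support b := fun h0 => hx (by
      show φ x * b _ = 0
      rw [h0, mul_zero])
    rw [b.support_eq, mem_ball, dist_zero_right, hn s hs] at hx'
    change _ < (2 : ℝ) at hx'
    rw [mem_closedBall, le_div_iff₀ hs0]
    linarith
  · rw [hχ s]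
    exact tsupport_mul_subset_left
  · rw [hχ s]
    have : b (s • z + -(s • c)) = 1 := by
      refine b.one_of_mem_closedBall ?_
      rw [mem_closedBall, dist_zero_right, hn s hs]
      change _ ≤ (1 : ℝ)
      rw [mem_ball, lt_div_iff₀ hs0] at hz
      linarith
    show φ z * b _ = φ z
    rw [this, mul_one]

theorem cremove_int {u : ℂ → ℝ} (hu : Continuous u) (φ : Test) :
    Integrable fun z => u z * Laplacian.laplacian (φ : ℂ → ℝ) z :=
  (hu.mul (lap_test_cont φ)).integrable_of_hasCompactSupport (lap_test_compact φ).mul_left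

theorem cremove_intH {μ : Measure ℂ} [IsFiniteMeasure μ] {H : ℂ → ℝ} (hH : Measurable H)
    (bH : Bdd H) (φ : Test) : Integrable (fun z => φ z * H z) μ := by
  obtain ⟨C, hC0, hC⟩ := cremove_bdd bH
  obtain ⟨C1, p1, h1⟩ := cremove_bdd (test_bdd φ)
  refine Integrable.of_bound (φ.continuous.measurable.mul hH).aestronglyMeasurable (C1 * C)
    (ae_of_all _ fun z => ?_)
  rw [Real.norm_eq_abs, abs_mul]
  exact mul_le_mul (h1 z) (hC z) (abs_nonneg _) p1

theorem cremove_small {u : ℂ → ℝ} (hu : Continuous u) (c : ℂ) (χ : Test) {C s ε : ℝ} (hs : 0 < s)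
    (hε : 0 ≤ ε) (h1 : ∀ z, |Laplacian.laplacian (χ : ℂ → ℝ) z| ≤ C * s ^ 2)
    (h2 : tsupport χ ⊆ closedBall c (2 / s)) (h3 : ∀ z ∈ closedBall c (2 / s), |u z - u c| ≤ ε) :
    |∫ z, u z * Laplacian.laplacian (χ : ℂ → ℝ) z| ≤ ε * C * (4 * Real.pi) := by
  have e1 : ∫ z, u z * Laplacian.laplacian (χ : ℂ → ℝ) z =
      ∫ z, (u z - u c) * Laplacian.laplacian (χ : ℂ → ℝ) z := by
    simp only [sub_mul]
    rw [integral_sub (cremove_int hu χ) (cremove_int continuous_const χ), integral_const_mul,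
      integral_lap_test, mul_zero, sub_zero]
  have e2 : ∫ z, (u z - u c) * Laplacian.laplacian (χ : ℂ → ℝ) z =
      ∫ z in closedBall c (2 / s), (u z - u c) * Laplacian.laplacian (χ : ℂ → ℝ) z := by
    refine (setIntegral_eq_integral_of_forall_compl_eq_zero fun z hz => ?_).symm
    have : z ∉ tsupport (Laplacian.laplacian (χ : ℂ → ℝ)) := fun h =>
      hz (h2 (pot_laplacian_tsupport _ h))
    rw [image_eq_zero_of_notMem_tsupport this, mul_zero]
  rw [e1, e2, ← Real.norm_eq_abs]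
  refine (norm_setIntegral_le_of_norm_le_const (C := ε * (C * s ^ 2))
    measure_closedBall_lt_top fun z hz => ?_).trans (le_of_eq ?_)
  · rw [Real.norm_eq_abs, abs_mul]
    exact mul_le_mul (h3 z hz) (h1 z) (abs_nonneg _) hε
  · rw [Measure.real, Complex.volume_closedBall, ENNReal.toReal_mul, ENNReal.toReal_pow,
      ENNReal.toReal_ofReal (by positivity)]
    simp only [ENNReal.coe_toReal, NNReal.coe_real_pi]
    field_simp
    ring

theorem remove_point {μ : Measure ℂ} [IsFiniteMeasure μ] {u H : ℂ → ℝ} (hu : Continuous u)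
    (hH : Measurable H) (bH : Bdd H) (S : Set ℂ) (c : ℂ) (hc : μ {c} = 0)
    (h : ∀ φ : Test, tsupport φ ⊆ (insert c S)ᶜ →
      -(1 / 2) * ∫ z, u z * Laplacian.laplacian (φ : ℂ → ℝ) z = ∫ z, φ z * H z ∂μ) :
    ∀ φ : Test, tsupport φ ⊆ Sᶜ →
      -(1 / 2) * ∫ z, u z * Laplacian.laplacian (φ : ℂ → ℝ) z = ∫ z, φ z * H z ∂μ := by
  intro φ hφ
  obtain ⟨C, χ, hC, hχ⟩ := cremove_pieces φ c
  have hs : ∀ j : ℕ, (1 : ℝ) ≤ (j : ℝ) + 1 := fun j => by
    have := Nat.cast_nonneg (α := ℝ) j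
    linarith
  have hr : Tendsto (fun j : ℕ => 2 / ((j : ℝ) + 1)) atTop (𝓝 0) :=
    tendsto_const_nhds.div_atTop (tendsto_natCast_atTop_atTop.atTop_add tendsto_const_nhds)
  have key : ∀ j : ℕ,
      -(1 / 2) * (∫ z, u z * Laplacian.laplacian (φ : ℂ → ℝ) z) - ∫ z, φ z * H z ∂μ =
      -(1 / 2) * (∫ z, u z * Laplacian.laplacian (χ (j + 1) : ℂ → ℝ) z) -
        ∫ z, χ (j + 1) z * H z ∂μ := by
    intro j
    obtain ⟨-, -, -, a4, a5⟩ := hχ _ (hs j)
    set ξ := χ (j + 1)
    have hsub : tsupport (φ - ξ : Test) ⊆ (insert c S)ᶜ := by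
      intro x hx hx'
      rcases hx' with rfl | hx'
      · have : (φ - ξ : Test) =ᶠ[𝓝 x] 0 := by
          filter_upwards [ball_mem_nhds x (show (0 : ℝ) < 1 / ((j : ℝ) + 1) by positivity)]
            with z hz
          show φ z - ξ z = 0
          rw [a5 z hz, sub_self]
        exact (notMem_tsupport_iff_eventuallyEq.2 this) hx
      · have : tsupport (φ - ξ : Test) ⊆ tsupport φ := by
          refine closure_minimal (fun z hz => ?_) (isClosed_tsupport _)
          by_contra hn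
          apply hz
          show φ z - ξ z = 0
          rw [image_eq_zero_of_notMem_tsupport hn,
            image_eq_zero_of_notMem_tsupport fun h' => hn (a4 h'), sub_self]
        exact hφ (this hx) hx'
    have e := h _ hsub
    have l1 : ∀ z, Laplacian.laplacian ((φ - ξ : Test) : ℂ → ℝ) z =
        Laplacian.laplacian (φ : ℂ → ℝ) z - Laplacian.laplacian (ξ : ℂ → ℝ) z := by
      intro z
      have := ContDiffAt.laplacian_add (x := z) (test_c2 (φ - ξ)).contDiffAt (test_c2 ξ).contDiffAt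
      have e' : ((φ - ξ : Test) : ℂ → ℝ) + (ξ : ℂ → ℝ) = φ := by
        funext x
        show φ x - ξ x + ξ x = φ x
        ring
      rw [e'] at this
      linarith
    have l2 : ∀ z, (φ - ξ : Test) z * H z = φ z * H z - ξ z * H z := fun z => by
      show (φ z - ξ z) * H z = _
      ring
    simp only [l1, l2, mul_sub] at e
    rw [integral_sub (cremove_int hu φ) (cremove_int hu ξ),
      integral_sub (cremove_intH hH bH φ) (cremove_intH hH bH ξ)] at e
    linarith
  have t1 : Tendsto (fun j : ℕ => ∫ z, u z * Laplacian.laplacian (χ (j + 1) : ℂ → ℝ) z) atTop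
      (𝓝 0) := by
    rw [Metric.tendsto_atTop]
    intro ε hε
    have hp : 0 < (C + 1) * (4 * Real.pi) := by positivity
    obtain ⟨δ, hδ, hu'⟩ := Metric.continuousAt_iff.1 (hu.continuousAt (x := c))
      (ε / ((C + 1) * (4 * Real.pi))) (by positivity)
    obtain ⟨J, hJ⟩ := eventually_atTop.1 (hr.eventually (gt_mem_nhds hδ))
    refine ⟨J, fun j hj => ?_⟩
    obtain ⟨-, a2, a3, -, -⟩ := hχ _ (hs j)
    have := cremove_small hu c (χ (j + 1)) (ε := ε / ((C + 1) * (4 * Real.pi))) (by positivity)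
      (by positivity) a2 a3 fun z hz => by
        have := hu' ((mem_closedBall.1 hz).trans_lt (hJ j hj))
        rw [Real.dist_eq] at this
        exact this.le
    rw [Real.dist_eq, sub_zero]
    refine this.trans_lt ?_
    rw [mul_assoc, div_mul_eq_mul_div, div_lt_iff₀ hp]
    have : 0 < ε * (4 * Real.pi) := by positivity
    nlinarith
  have t2 : Tendsto (fun j : ℕ => ∫ z, χ (j + 1) z * H z ∂μ) atTop (𝓝 (∫ _, (0 : ℝ) ∂μ)) := by
    obtain ⟨C', hC0, hC'⟩ := cremove_bdd bH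
    refine tendsto_integral_of_dominated_convergence (fun _ => C * C')
      (fun j => (cremove_intH hH bH _).aestronglyMeasurable) (integrable_const _)
      (fun j => ae_of_all _ fun z => ?_) ?_
    · rw [Real.norm_eq_abs, abs_mul]
      exact mul_le_mul ((hχ _ (hs j)).1 z) (hC' z) (abs_nonneg _) hC
    · have : ∀ᵐ z ∂μ, z ≠ c := by
        rw [ae_iff]
        simpa using hc
      filter_upwards [this] with z hz
      refine tendsto_const_nhds.congr' ?_
      filter_upwards [hr.eventually (gt_mem_nhds (dist_pos.2 hz))] with j hj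
      have : z ∉ tsupport (χ (j + 1)) := fun h' =>
        absurd (mem_closedBall.1 ((hχ _ (hs j)).2.2.1 h')) (not_le.2 hj)
      rw [image_eq_zero_of_notMem_tsupport this, zero_mul]
  have t3 := (t1.const_mul (-(1 / 2))).sub t2
  simp only [← key, mul_zero, integral_zero, sub_zero] at t3
  have := tendsto_nhds_unique tendsto_const_nhds t3
  linarith

theorem weak_of_off {μ : Measure ℂ} [IsFiniteMeasure μ] {u H : ℂ → ℝ} (hu : Continuous u)
    (hH : Measurable H) (bH : Bdd H) (h0 : μ {0} = 0) (h1 : μ {1} = 0)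
    (h : ∀ φ : Test, tsupport φ ⊆ ({0, 1} : Set ℂ)ᶜ →
      -(1 / 2) * ∫ z, u z * Laplacian.laplacian (φ : ℂ → ℝ) z = ∫ z, φ z * H z ∂μ) :
    Weak μ u H := by
  have a := remove_point hu hH bH {1} 0 h0 h
  have b := remove_point hu hH bH ∅ 1 h1 (by simpa using a)
  exact fun φ => b φ (by simp)

end Pool.Agent.QL
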