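import Pool.Agent.P.MP_7a6434d8_pr.QL.W.CEqui
import Pool.Agent.P.MP_7a6434d8_pr.QL.W.CMeas
import Pool.Agent.P.MP_7a6434d8_pr.QL.W.CRemove

/-! Limit of the restricted resolvent. -/

open MeasureTheory ProbabilityTheory Set Filter Topology Metric
open scoped ENNReal NNReal

namespace Pool.Agent.QL

open Pool.Agent.LGD Pool.Agent.P.MP_7a6434d8_pr

theorem res_lim {d : Sph → Sph → ℝ} {μ : Measure ℂ} [IsProbabilityMeasure μ] (hd : IsMet d)
    (h0 : μ {0} = 0) (h1 : μ {1} = 0) {N : Net} (hG : N.Geo d μ) (hE : N.En d) {η l M : ℝ}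
    (hη : η < 1) (hl : 0 < l) {G : ∀ m, Set (N.q m).Vertex} (hg : N.Good η G) {f : C(Sph, ℝ)}
    (hf : ∀ z, |f z| ≤ M) {u : ∀ m, (N.q m).Vertex → ℝ} (hu : N.Res l G f u) :
    ∃ (v : C(Sph, ℝ)) (ρ : ℂ → ℝ), ResLim μ l η M f v ρ ∧ N.Unif u v := by
  have hM : 0 ≤ M := (abs_nonneg _).trans (hf OnePoint.infty)
  have base : ∀ᶠ m in (N.U : Filter ℕ), (∀ x, |l * u m x| ≤ M) ∧
      (∀ x, -(N.a m * lap (N.q m) (u m) x) = ind (G m) x * (f (N.p m x) - l * u m x)) ∧
      N.E m (u m) (u m) ≤ M ^ 2 / l := by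
    filter_upwards [hE.pos, hg.nonempty hη, hu] with m ha hne hr
    refine ⟨hr.bound ha hl hne fun x => hf _, fun x => ?_, hr.energy ha hl hne fun x => hf _⟩
    have := hr x
    linarith
  have hF : ∀ {s t : ℝ}, |s| ≤ M → |t| ≤ M → |s - t| ≤ 2 * M := fun h1 h2 =>
    (abs_sub _ _).trans (by linarith)
  have heq : N.Equi d u := Net.equi hd hG hE (M := 2 * M) (C := M ^ 2 / l) hg
    (fun m x => f (N.p m x) - l * u m x) u
    (base.mono fun m h => ⟨fun x => hF (hf _) (h.1 x), h.2.1, h.2.2⟩)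
  have hub : ∀ᶠ m in (N.U : Filter ℕ), ∀ x, |u m x| ≤ M / l := base.mono fun m h x => by
    have := h.1 x
    rw [abs_mul, abs_of_pos hl] at this
    rw [le_div_iff₀ hl]; linarith
  obtain ⟨v, hv⟩ := heq.exists_lim hd hG hub
  have hvb : ∀ z, |l * v z| ≤ M := fun z => by
    have h2 := hv.mem_Icc hd hG (s := -(M / l)) (t := M / l)
      (hub.mono fun m h x => abs_le.1 (h x)) z
    have h3 : |v z| ≤ M / l := abs_le.2 h2
    rw [le_div_iff₀ hl] at h3
    rw [abs_mul, abs_of_pos hl]; linarith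
  obtain ⟨ρ, r1, r2, r3, r4⟩ := hG.exists_density hd G hg.small
  refine ⟨v, ρ, ⟨r1, r2, r3, hvb, ?_⟩, hv⟩
  refine weak_of_off (cont_coe v)
    (((cont_coe f).sub (continuous_const.mul (cont_coe v))).measurable.mul r1)
    ⟨2 * M, fun z => ?_⟩ h0 h1 fun φ hφ => ?_
  · rw [abs_mul, abs_of_nonneg (r2 z).1]
    exact (mul_le_of_le_one_right (abs_nonneg _) (r2 z).2).trans (hF (hf _) (hvb _))
  obtain ⟨w, w1, w2⟩ := hE.recov φ hφ
  obtain ⟨g, g1, g2⟩ := exists_testC φ
  rw [← g1] at w1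
  obtain ⟨B, hB⟩ := cont_bdd g
  have hB0 : 0 ≤ B := (abs_nonneg _).trans (hB OnePoint.infty)
  have t1 := w2 u v _ hv (base.mono fun m h => h.2.2)
  have t2 := r4 (g * (f - l • v))
  have t3 : Tendsto (fun m => N.E m (w m) (u m) -
      avg (N.q m) fun x => ind (G m) x * (g * (f - l • v)) (N.p m x)) N.U (𝓝 0) := by
    rw [Metric.tendsto_nhds]
    intro ε hε
    have hK : 0 < 2 * M + B * l + 1 := by positivity
    have hδ : 0 < ε / (2 * M + B * l + 1) := div_pos hε hK
    filter_upwards [base, w1 _ hδ, hv _ hδ] with m hb a1 a2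
    rw [Real.dist_eq, sub_zero, Net.E, form_green, ← avg_sub]
    refine (abs_avg_le _ _).trans_lt (lt_of_le_of_lt
      (avg_mono _ (g := fun _ => ε / (2 * M + B * l + 1) * (2 * M + B * l)) fun x => ?_) ?_)
    · rw [hb.2.1 x]
      simp only [ContinuousMap.mul_apply, ContinuousMap.sub_apply, ContinuousMap.smul_apply,
        smul_eq_mul]
      have e1 : w m x * (ind (G m) x * (f (N.p m x) - l * u m x)) -
          ind (G m) x * (g (N.p m x) * (f (N.p m x) - l * v (N.p m x))) =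
          ind (G m) x * ((w m x - g (N.p m x)) * (f (N.p m x) - l * u m x) -
            g (N.p m x) * l * (u m x - v (N.p m x))) := by ring
      rw [e1, abs_mul, abs_of_nonneg (ind_nonneg _ _)]
      refine (mul_le_of_le_one_left (abs_nonneg _) (ind_le_one _ _)).trans
        ((abs_sub _ _).trans ?_)
      rw [abs_mul, abs_mul, abs_mul, abs_of_pos hl, mul_add]
      refine add_le_add (mul_le_mul (a1 x) (hF (hf _) (hb.1 x)) (abs_nonneg _) hδ.le) ?_
      rw [mul_comm (ε / _)]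
      exact mul_le_mul (mul_le_mul_of_nonneg_right (hB _) hl.le) (a2 x) (abs_nonneg _)
        (by positivity)
    · rw [avg_const, div_mul_eq_mul_div, div_lt_iff₀ hK]
      nlinarith
  have t4 := (t1.sub t3)
  simp only [sub_sub_cancel, sub_zero] at t4
  rw [tendsto_nhds_unique t4 t2]
  refine integral_congr_ae (.of_forall fun z => ?_)
  simp only [ContinuousMap.mul_apply, ContinuousMap.sub_apply, ContinuousMap.smul_apply,
    smul_eq_mul, g2]
  ring

end Pool.Agent.QL
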