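import Pool.Agent.P.MP_7a6434d8_pr.QL.W.DClock

/-! The occupation measure of the time-changed process. -/

open MeasureTheory ProbabilityTheory Set Filter Topology Metric
open scoped ENNReal NNReal

namespace Pool.Agent.QL

open Pool.Agent.LGD Pool.Agent.P.MP_7a6434d8_pr

theorem dac_eps {α : Type} [MeasurableSpace α] {O μ : Measure α} [IsFiniteMeasure O]
    [IsFiniteMeasure μ] (h : O ≪ μ) {θ : ℝ} (hθ : 0 < θ) :
    ∃ η > 0, ∀ g : α → ℝ, Measurable g → (∀ z, g z ∈ Icc (0 : ℝ) 1) → ∫ z, g z ∂μ ≤ η →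
      ∫ z, g z ∂O ≤ θ := by
  obtain ⟨δ, hδ, h1⟩ := exists_pos_setLIntegral_lt_of_measure_lt
    (Measure.lintegral_rnDeriv_lt_top O μ).ne (ε := ENNReal.ofReal (θ / 2))
    (ENNReal.ofReal_pos.2 (half_pos hθ)).ne'
  obtain ⟨δ', -, h2, h3⟩ := ENNReal.lt_iff_exists_real_btwn.1 hδ
  have h2' : 0 < δ' := ENNReal.ofReal_pos.1 h2
  have hO : 0 ≤ O.real univ := measureReal_nonneg
  set t : ℝ := θ / (2 * (O.real univ + 1)) with ht
  have ht0 : 0 < t := by positivity
  refine ⟨t * δ', mul_pos ht0 h2', fun g hg hm hi => ?_⟩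
  have hb : ∀ (ν : Measure α) [IsFiniteMeasure ν], Integrable g ν := fun ν _ =>
    Integrable.of_bound hg.aestronglyMeasurable 1 (Eventually.of_forall fun z => by
      rw [Real.norm_eq_abs, abs_of_nonneg (hm z).1]; exact (hm z).2)
  have hS : MeasurableSet {z | t ≤ g z} := measurableSet_le measurable_const hg
  have h4 := mul_meas_ge_le_integral_of_nonneg (μ := μ)
    (Eventually.of_forall fun z => (hm z).1) (hb μ) t
  have h5 : μ.real {z | t ≤ g z} ≤ δ' := le_of_mul_le_mul_left (h4.trans hi) ht0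
  have h6 : μ {z | t ≤ g z} < δ := by
    refine lt_of_le_of_lt ?_ h3
    rw [← ofReal_measureReal (measure_ne_top μ _)]
    exact ENNReal.ofReal_le_ofReal h5
  have h7 := h1 _ h6
  rw [Measure.setLIntegral_rnDeriv' h hS] at h7
  have h8 : O.real {z | t ≤ g z} ≤ θ / 2 :=
    ENNReal.toReal_le_of_le_ofReal (half_pos hθ).le h7.le
  have h9 : ∫ z, g z ∂O ≤ ∫ z, (t + {z | t ≤ g z}.indicator (fun _ => (1 : ℝ)) z) ∂O := by
    refine integral_mono (hb O) ((integrable_const t).add ((integrable_const 1).indicator hS))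
      fun z => ?_
    by_cases hz : z ∈ {z | t ≤ g z}
    · simp only [indicator_of_mem hz]
      linarith [(hm z).2]
    · simp only [indicator_of_notMem hz]
      have : g z < t := not_le.1 hz
      linarith
  rw [integral_add (integrable_const t) ((integrable_const 1).indicator hS),
    integral_indicator_const _ hS, integral_const, smul_eq_mul, smul_eq_mul, mul_one] at h9
  have h10 : O.real univ * t ≤ θ / 2 := by
    have : t * (2 * (O.real univ + 1)) = θ := by rw [ht]; field_simp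
    nlinarith
  linarith

variable {W : Measure Path} {μ : Measure ℂ} {A : Path → ℝ≥0 → ℝ≥0} {Λ : Set Path}
  {B : Path → Path}

theorem dac_shift (hC : IsClock W μ A Λ B) (hW : IsWiener W) (m : Measure ℂ) [IsFiniteMeasure m]
    {φ : ℂ → ℝ≥0∞} (hφ : Measurable φ) (h0 : ∫⁻ z, φ z ∂μ = 0) {s : ℝ≥0} (hs : 0 < s) (t : ℝ≥0) :
    ∀ᵐ w ∂Pm W m,
      ∫⁻ u in Ioc (0 : ℝ) (A (shift s w) t), φ ((B (shift s w)).1 u.toNNReal) = 0 := by
  have := hW.prob
  have h1 := hC.meas_lint hφ t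
  have h2 : Measurable fun y : ℂ => ∫⁻ w',
      (∫⁻ u in Ioc (0 : ℝ) (A (tr y w') t), φ ((B (tr y w')).1 u.toNNReal)) ∂W :=
    (h1.comp measurable_tr).lintegral_prod_right'
  obtain ⟨C, h3⟩ := Pm_eval_le hW m hs
  have h4 := markov_lintegral hW m s (Y := fun _ => 1) measurable_const h1
  simp only [one_mul] at h4
  refine (lintegral_eq_zero_iff (h1.comp (measurable_shift s))).1 ?_
  simp only [Function.comp_def]
  rw [h4, ← lintegral_map h2 (measurable_eval s)]
  refine le_antisymm ((lintegral_mono' h3 le_rfl).trans_eq ?_) zero_le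
  rw [lintegral_smul_measure, ← lintegral_Pm hW volume h1, hC.revuz' hW hφ t, h0, mul_zero,
    smul_zero]

theorem dac_path (hC : IsClock W μ A Λ B) {N : Set ℂ} (hN : MeasurableSet N) {w : Path}
    (hw : w ∈ Λ)
    (h : ∀ j : ℕ, ∫⁻ u in Ioc (0 : ℝ) (A (shift (1 / ((j : ℝ≥0) + 1)) w) j),
      N.indicator (1 : ℂ → ℝ≥0∞) ((B (shift (1 / ((j : ℝ≥0) + 1)) w)).1 u.toNNReal) = 0)
    (r : ℝ≥0) : ∀ᵐ q : ℝ, 0 < q → (B w).1 (r + q.toNNReal) ∉ N := by
  have h1 : ∀ j : ℕ, ∀ᵐ u : ℝ, u ∈ Ioc (0 : ℝ) (A (shift (1 / ((j : ℝ≥0) + 1)) w) j) →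
      (B w).1 (A w (1 / ((j : ℝ≥0) + 1)) + u.toNNReal) ∉ N := fun j => by
    have hm : Measurable fun u : ℝ =>
        N.indicator (1 : ℂ → ℝ≥0∞) ((B (shift (1 / ((j : ℝ≥0) + 1)) w)).1 u.toNNReal) :=
      (measurable_one.indicator hN).comp
        ((B _).2.measurable.comp measurable_real_toNNReal)
    have h2 := (ae_restrict_iff' measurableSet_Ioc).1 ((lintegral_eq_zero_iff hm).1 (h j))
    filter_upwards [h2] with u hu hu' hn
    have h3 := hu hu'
    rw [hC.shift_B hw, indicator_of_mem hn] at h3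
    exact one_ne_zero h3
  have h2 : ∀ j : ℕ, ∀ᵐ q : ℝ, q + ((r : ℝ) - A w (1 / ((j : ℝ≥0) + 1))) ∈
      Ioc (0 : ℝ) (A (shift (1 / ((j : ℝ≥0) + 1)) w) j) →
      (B w).1 (A w (1 / ((j : ℝ≥0) + 1)) +
        (q + ((r : ℝ) - A w (1 / ((j : ℝ≥0) + 1)))).toNNReal) ∉ N := fun j =>
    (measurePreserving_add_right volume _).quasiMeasurePreserving.ae (h1 j)
  filter_upwards [ae_all_iff.2 h2] with q hq hq0
  obtain ⟨τ, hτ⟩ := (hC.mono w hw).2 (r + q.toNNReal)
  have hτ' : (A w τ : ℝ) = r + q := by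
    rw [hτ, NNReal.coe_add, Real.coe_toNNReal _ hq0.le]
  have hτ0 : 0 < τ := by
    rw [← (hC.mono w hw).1.lt_iff_lt, hC.zero hw, ← NNReal.coe_pos, hτ']
    have := r.2
    positivity
  obtain ⟨j₁, hj₁⟩ := exists_nat_one_div_lt hτ0
  obtain ⟨j₂, hj₂⟩ := exists_nat_ge τ
  have h3 : 1 / (((max j₁ j₂ : ℕ) : ℝ≥0) + 1) < τ := by
    refine lt_of_le_of_lt ?_ hj₁
    gcongr
    exact le_max_left _ _
  have h4 : τ ≤ 1 / (((max j₁ j₂ : ℕ) : ℝ≥0) + 1) + (max j₁ j₂ : ℕ) :=
    (hj₂.trans (by exact_mod_cast le_max_right _ _)).trans le_add_self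
  have h5 := NNReal.coe_lt_coe.2 ((hC.mono w hw).1 h3)
  have h6 := NNReal.coe_le_coe.2 ((hC.mono w hw).1.monotone h4)
  rw [hC.add w hw, NNReal.coe_add, hτ'] at h6
  rw [hτ'] at h5
  have h7 := hq (max j₁ j₂) ⟨by linarith, by linarith⟩
  have h8 : A w (1 / (((max j₁ j₂ : ℕ) : ℝ≥0) + 1)) +
      (q + ((r : ℝ) - A w (1 / (((max j₁ j₂ : ℕ) : ℝ≥0) + 1)))).toNNReal = r + q.toNNReal := by
    apply NNReal.eq
    rw [NNReal.coe_add, NNReal.coe_add, Real.coe_toNNReal _ hq0.le,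
      Real.coe_toNNReal _ (by linarith)]
    ring
  rwa [h8] at h7

theorem IsClock.occAC {W : Measure Path} {μ : Measure ℂ} {A : Path → ℝ≥0 → ℝ≥0}
    {Λ : Set Path} {B : Path → Path} (hC : IsClock W μ A Λ B) (hW : IsWiener W)
    [IsProbabilityMeasure μ] (m : Measure ℂ) [IsFiniteMeasure m] (hm : m ≪ volume + μ) :
    OccAC ((Pm W m).map B) μ := by
  intro r θ hθ
  have := Pm_finite hW m
  have hρ : Measurable fun q : ℝ => (Real.exp (-q)).toNNReal :=
    measurable_real_toNNReal.comp (Real.measurable_exp.comp measurable_neg)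
  set ν : Measure ℝ := (volume.restrict (Ioi (0 : ℝ))).withDensity
    fun q => ((Real.exp (-q)).toNNReal : ℝ≥0∞) with hν
  have : IsFiniteMeasure ν :=
    isFiniteMeasure_withDensity_ofReal (integrableOn_exp_neg_Ioi 0).2
  have hT : Measurable fun p : ℝ × Path => p.2.1 (r + p.1.toNNReal) :=
    measurable_eval2.comp (measurable_snd.prodMk
      (measurable_const.add (measurable_real_toNNReal.comp measurable_fst)))
  have hac : (ν.prod ((Pm W m).map B)).map (fun p : ℝ × Path => p.2.1 (r + p.1.toNNReal)) ≪ μ := by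
    refine Measure.AbsolutelyContinuous.mk fun N hN h0 => ?_
    rw [Measure.map_apply hT hN, Measure.prod_apply_symm (hT hN),
      lintegral_map (measurable_measure_prodMk_right (hT hN)) hC.measB]
    have h1 : ∫⁻ z, N.indicator (1 : ℂ → ℝ≥0∞) z ∂μ = 0 := by
      rw [lintegral_indicator_one hN, h0]
    have h2 := ae_all_iff.2 fun j : ℕ => dac_shift hC hW m (measurable_one.indicator hN) h1
      (s := 1 / ((j : ℝ≥0) + 1)) (by positivity) j
    refine lintegral_eq_zero_of_ae_eq_zero ?_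
    filter_upwards [h2, hC.ae_mem hW m hm] with w hw hw'
    refine withDensity_absolutelyContinuous _ _ ?_
    exact measure_eq_zero_iff_ae_notMem.2
      ((ae_restrict_iff' measurableSet_Ioi).2 (dac_path hC hN hw' hw r))
  obtain ⟨η, hη, h⟩ := dac_eps hac hθ
  refine ⟨η, hη, fun g hg hb hi => le_of_eq_of_le ?_ (h g hg hb hi)⟩
  have hI : Integrable (fun p : ℝ × Path => g (p.2.1 (r + p.1.toNNReal)))
      (ν.prod ((Pm W m).map B)) :=
    Integrable.of_bound (hg.comp hT).aestronglyMeasurable 1 (Eventually.of_forall fun p => by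
      rw [Real.norm_eq_abs, abs_of_nonneg (hb _).1]; exact (hb _).2)
  rw [integral_map hT.aemeasurable hg.aestronglyMeasurable, integral_prod _ hI, hν,
    integral_withDensity_eq_integral_smul hρ]
  refine integral_congr_ae (Eventually.of_forall fun q => ?_)
  simp only [NNReal.smul_def, Real.coe_toNNReal _ (Real.exp_pos _).le, smul_eq_mul]

end Pool.Agent.QL
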