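import Pool.Agent.P.MP_7a6434d8_pr.QL.W.DMart
import Pool.Agent.P.MP_7a6434d8_pr.QL.W.DAC

/-! Liouville Brownian motion solves the martingale problem. -/

open MeasureTheory ProbabilityTheory Set Filter Topology Metric
open scoped ENNReal NNReal

namespace Pool.Agent.QL

open Pool.Agent.LGD Pool.Agent.P.MP_7a6434d8_pr

theorem cont_of_lbm {W L : Measure Path} {μ : Measure ℂ} [IsProbabilityMeasure μ]
    (hW : IsWiener W) (h : IsLBM W μ L) : Cont μ L := by
  obtain ⟨A, Λ, B, hC, rfl⟩ := h
  have key : ∀ (m : Measure ℂ) [IsFiniteMeasure m], m ≪ volume + μ →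
      Solves μ ((Pm W m).map B) ∧ ((Pm W m).map B).map (fun w => w.1 0) = m := by
    intro m _ hm
    have := Pm_finite hW m
    refine ⟨⟨inferInstance, fun u H hu bu hH bH hw => hC.bmart hW m hm hu bu hH bH hw,
      hC.occAC hW m hm⟩, ?_⟩
    rw [Measure.map_map (measurable_eval 0) hC.measB]
    refine Eq.trans (Measure.map_congr ?_) (Pm_zero hW m)
    filter_upwards [hC.ae_mem hW m hm] with w hw
    exact hC.start hw
  have hL : (μ.prod W).map (fun p => B (tr p.1 p.2)) = (Pm W μ).map B := by
    rw [Pm, Measure.map_map hC.measB measurable_tr]; rfl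
  have hμ : μ ≪ volume + μ := Measure.absolutelyContinuous_of_le (Measure.le_add_left le_rfl)
  have := Pm_prob hW μ
  rw [hL]
  refine ⟨Measure.isProbabilityMeasure_map hC.measB.aemeasurable, (key μ hμ).1, (key μ hμ).2,
    fun K hK => ?_⟩
  have : IsFiniteMeasure (volume.restrict K) := ⟨by simpa using hK.measure_lt_top⟩
  have hm : (volume.restrict K : Measure ℂ) ≪ volume + μ :=
    Measure.absolutelyContinuous_of_le
      (Measure.restrict_le_self.trans (Measure.le_add_right le_rfl))
  exact ⟨_, (key _ hm).1, (key _ hm).2⟩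

end Pool.Agent.QL
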