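import Pool.Agent.P.MP_7a6434d8_pr.QL.W.DWien
import Pool.Agent.P.MP_7a6434d8_pr.QL.W.Lap

/-! Dynkin formula for test functions. -/

open MeasureTheory ProbabilityTheory Set Filter Topology Metric
open scoped ENNReal NNReal

namespace Pool.Agent.QL

open Pool.Agent.LGD Pool.Agent.P.MP_7a6434d8_pr

variable {W : Measure Path}

theorem heat_cont (hW : IsWiener W) {ψ : ℂ → ℝ} (hψ : Continuous ψ) (hb : Bdd ψ) :
    Continuous fun p : ℝ≥0 × ℂ => heat W p.1 ψ p.2 := by
  have := hW.prob
  obtain ⟨C, hC⟩ := hb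
  exact continuous_of_dominated (bound := fun _ => C)
    (fun p => (hψ.measurable.comp ((measurable_eval p.1).const_add p.2)).aestronglyMeasurable)
    (fun p => ae_of_all _ fun w => hC _) (integrable_const C)
    (ae_of_all _ fun w => hψ.comp (continuous_snd.add (w.2.comp continuous_fst)))

theorem abs_heat_le (hW : IsWiener W) {ψ : ℂ → ℝ} {C : ℝ} (hb : ∀ z, |ψ z| ≤ C) (s : ℝ≥0) (y : ℂ) :
    |heat W s ψ y| ≤ C := by
  have := hW.prob
  have h := norm_integral_le_of_norm_le_const (μ := W) (f := fun w => ψ (y + w.1 s))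
    (ae_of_all _ fun w => hb _)
  rwa [probReal_univ, mul_one] at h

theorem ddynkin_mk : Measurable fun p : ℝ × ℝ => (⟨p.1, p.2⟩ : ℂ) :=
  Complex.measurableEquivRealProd.symm.measurable

/-- Brownian scaling at one time. -/
theorem ddynkin_scale (hW : IsWiener W) {f : ℂ → ℝ} (hf : Continuous f) (s : ℝ≥0) :
    ∫ w, f (w.1 s) ∂W = ∫ w, f (√(s : ℝ) • w.1 1) ∂W := by
  have h1 : (gaussianReal 0 1).map (√(s : ℝ) * ·) = gaussianReal 0 s := by
    rw [gaussianReal_map_const_mul, mul_zero, mul_one]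
    congr 1
    exact NNReal.eq (Real.sq_sqrt s.2)
  have h2 : Measurable fun x : ℝ => √(s : ℝ) * x := measurable_const_mul _
  have h3 : Measurable fun x : ℂ => √(s : ℝ) • x := measurable_const_smul _
  have h4 : W.map (fun w => w.1 s) = W.map fun w => √(s : ℝ) • w.1 1 := by
    rw [show (fun w : Path => √(s : ℝ) • w.1 1) = (fun x : ℂ => √(s : ℝ) • x) ∘ fun w => w.1 1 from
      rfl, ← Measure.map_map h3 (measurable_eval 1), hW.law, hW.law, ← h1,
      Measure.map_prod_map _ _ h2 h2, Measure.map_map ddynkin_mk (h2.prodMap h2),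
      Measure.map_map h3 ddynkin_mk]
    congr 1
    funext p
    exact Complex.ext (by simp) (by simp)
  rw [← integral_map (measurable_eval s).aemeasurable hf.aestronglyMeasurable, h4]
  exact integral_map (h3.comp (measurable_eval 1)).aemeasurable hf.aestronglyMeasurable

/-- The standard Gaussian density of the plane. -/
noncomputable def ddynkinG (x : ℂ) : ℝ :=
  (√(2 * Real.pi))⁻¹ ^ 2 * Real.exp (-(x.re ^ 2 + x.im ^ 2) / 2)

theorem ddynkin_dens (hW : IsWiener W) {f : ℂ → ℝ} (hf : Continuous f) :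
    ∫ w, f (w.1 1) ∂W = ∫ x, ddynkinG x * f x := by
  rw [← integral_map (measurable_eval 1).aemeasurable hf.aestronglyMeasurable, hW.law,
    integral_map ddynkin_mk.aemeasurable hf.aestronglyMeasurable,
    gaussianReal_of_var_ne_zero 0 one_ne_zero,
    prod_withDensity (measurable_gaussianPDF 0 1) (measurable_gaussianPDF 0 1),
    integral_withDensity_eq_integral_toReal_smul (by fun_prop)
      (ae_of_all _ fun _ => ENNReal.mul_lt_top gaussianPDF_lt_top gaussianPDF_lt_top),
    ← Measure.volume_eq_prod, ← Complex.volume_preserving_equiv_real_prod.integral_comp']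
  refine integral_congr_ae (ae_of_all _ fun x => ?_)
  simp only [ENNReal.toReal_mul, toReal_gaussianPDF, gaussianPDFReal, ddynkinG,
    Complex.measurableEquivRealProd_apply, smul_eq_mul, NNReal.coe_one, mul_one, sub_zero]
  rw [neg_add, add_div, Real.exp_add]
  ring

theorem ddynkinG_fderiv (x v : ℂ) :
    fderiv ℝ ddynkinG x v = -(x.re * v.re + x.im * v.im) * ddynkinG x := by
  have h : HasFDerivAt ddynkinG _ x :=
    (((((Complex.reCLM.hasFDerivAt (x := x)).pow 2).add
      ((Complex.imCLM.hasFDerivAt (x := x)).pow 2)).neg.mul_const (2 : ℝ)⁻¹).exp).const_mul _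
  rw [h.fderiv]
  simp [ddynkinG, div_eq_mul_inv]
  ring

theorem ddynkinG_smooth : ContDiff ℝ 1 ddynkinG :=
  contDiff_const.mul ((((Complex.reCLM.contDiff.pow 2).add
    (Complex.imCLM.contDiff.pow 2)).neg.div_const 2).exp)

/-- Gaussian integration by parts. -/
theorem ddynkin_stein (hW : IsWiener W) (φ : Test) :
    ∫ w, fderiv ℝ (φ : ℂ → ℝ) (w.1 1) (w.1 1) ∂W =
      ∫ w, Laplacian.laplacian (φ : ℂ → ℝ) (w.1 1) ∂W := by
  rw [ddynkin_dens hW (lap_test_cont φ), ddynkin_dens hW (f := fun x => fderiv ℝ (φ : ℂ → ℝ) x x)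
    (((test_c2 φ).continuous_fderiv (by simp)).clm_apply continuous_id),
    pot_green1' ddynkinG_smooth (test_c2 φ) φ.hasCompactSupport, ← integral_neg]
  refine integral_congr_ae (ae_of_all _ fun x => ?_)
  have h : fderiv ℝ (φ : ℂ → ℝ) x x =
      x.re * fderiv ℝ (φ : ℂ → ℝ) x 1 + x.im * fderiv ℝ (φ : ℂ → ℝ) x Complex.I := by
    rw [← smul_eq_mul, ← smul_eq_mul, ← map_smul, ← map_smul, ← map_add]
    congr 1
    exact Complex.ext (by simp) (by simp)
  simp only [ddynkinG_fderiv, h, Complex.one_re, Complex.one_im, Complex.I_re, Complex.I_im]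
  ring

/-- The derivative in the scale. -/
theorem ddynkin_deriv (hW : IsWiener W) (ψ : Test) (z : ℂ) {r : ℝ} (hr : r ≠ 0) :
    HasDerivAt (fun r : ℝ => ∫ w, ψ (r • w.1 1 + z) ∂W)
      (r * ∫ w, Laplacian.laplacian (ψ : ℂ → ℝ) (r • w.1 1 + z) ∂W) r := by
  have := hW.prob
  have h1 : ContDiff ℝ 1 (ψ : ℂ → ℝ) := (test_c2 ψ).of_le (by norm_num)
  have hd := h1.continuous_fderiv (by simp)
  obtain ⟨C, hC⟩ := hd.bounded_above_of_compact_support (ψ.hasCompactSupport.fderiv ℝ)
  obtain ⟨B, hB⟩ := test_bdd ψ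
  have hm : ∀ r : ℝ, Measurable fun w : Path => r • w.1 1 + z := fun r =>
    ((measurable_eval 1).const_smul r).add_const z
  have h2 := (hasDerivAt_integral_of_dominated_loc_of_deriv_le (μ := W) (x₀ := r) univ_mem
    (F := fun (r : ℝ) (w : Path) => ψ (r • w.1 1 + z))
    (F' := fun (r : ℝ) (w : Path) => fderiv ℝ (ψ : ℂ → ℝ) (r • w.1 1 + z) (w.1 1))
    (bound := fun w => C * (|(w.1 1).re| + |(w.1 1).im|))
    (Eventually.of_forall fun r => (h1.continuous.measurable.comp (hm r)).aestronglyMeasurable)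
    (Integrable.of_bound (h1.continuous.measurable.comp (hm r)).aestronglyMeasurable B
      (ae_of_all _ fun w => hB _))
    (((hd.comp ((continuous_id.const_smul r).add continuous_const)).clm_apply
      continuous_id).measurable.comp (measurable_eval 1)).aestronglyMeasurable
    (ae_of_all _ fun w r _ => (ContinuousLinearMap.le_opNorm _ _).trans (mul_le_mul (hC _)
      (Complex.norm_le_abs_re_add_abs_im _) (norm_nonneg _) ((norm_nonneg _).trans (hC 0))))
    (((hW.re.integrable_eval 1).abs.add (hW.im.integrable_eval 1).abs).const_mul C)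
    (ae_of_all _ fun w r _ => by
      have a := (h1.differentiable one_ne_zero _).hasFDerivAt.comp_hasDerivAt r
        (((hasDerivAt_id r).smul_const (w.1 1)).add_const z)
      rw [one_smul] at a
      exact a)).2
  obtain ⟨χ, hχ⟩ := exists_test_affine ψ hr z
  have h3 := ddynkin_stein hW χ
  simp only [hχ, fderiv_affine h1, lap_affine (test_c2 ψ), integral_const_mul] at h3
  rw [sq, mul_assoc] at h3
  rwa [mul_left_cancel₀ hr h3] at h2

theorem dynkin (hW : IsWiener W) (ψ : Test) (z : ℂ) (t : ℝ≥0) :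
    heat W t ψ z - ψ z = ∫ s in (0 : ℝ)..t,
      heat W s.toNNReal (fun y => 1 / 2 * Laplacian.laplacian (ψ : ℂ → ℝ) y) z := by
  have := hW.prob
  have hc := (test_c2 ψ).continuous
  have hl : Continuous fun y => 1 / 2 * Laplacian.laplacian (ψ : ℂ → ℝ) y :=
    continuous_const.mul (lap_test_cont ψ)
  have hb : Bdd fun y => 1 / 2 * Laplacian.laplacian (ψ : ℂ → ℝ) y := by
    obtain ⟨C, hC⟩ := lap_test_bdd ψ
    exact ⟨|1 / 2| * C, fun y => by
      rw [abs_mul]
      exact mul_le_mul_of_nonneg_left (hC y) (abs_nonneg _)⟩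
  have hp : Continuous fun s : ℝ => (s.toNNReal, z) :=
    continuous_real_toNNReal.prodMk continuous_const
  have hs : ∀ {f : ℂ → ℝ}, Continuous f → ∀ s : ℝ, 0 ≤ s →
      heat W s.toNNReal f z = ∫ w, f (√s • w.1 1 + z) ∂W := fun {f} hf s hs => by
    have h := ddynkin_scale hW (f := fun x => f (z + x)) (hf.comp (continuous_const_add z))
      s.toNNReal
    rw [Real.coe_toNNReal s hs] at h
    simp only [add_comm _ z]
    exact h
  rw [intervalIntegral.integral_eq_sub_of_hasDerivAt_of_le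
    (f := fun s : ℝ => heat W s.toNNReal ψ z) (f' := fun s : ℝ =>
      heat W s.toNNReal (fun y => 1 / 2 * Laplacian.laplacian (ψ : ℂ → ℝ) y) z) t.coe_nonneg
    ((heat_cont hW hc (test_bdd ψ)).comp hp).continuousOn (fun s hs' => ?_)
    (((heat_cont hW hl hb).comp hp).intervalIntegrable _ _)]
  · rw [Real.toNNReal_coe, hs hc 0 le_rfl]
    simp
  · have h0 := Real.sqrt_pos.2 hs'.1
    have h1 := (ddynkin_deriv hW ψ z h0.ne').comp s (Real.hasDerivAt_sqrt hs'.1.ne')
    rw [hs hl s hs'.1.le, integral_const_mul]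
    refine (h1.congr_of_eventuallyEq ?_).congr_deriv ?_
    · filter_upwards [lt_mem_nhds hs'.1] with u hu
      exact hs hc u hu.le
    · field_simp

end Pool.Agent.QL
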