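import Pool.Agent.P.MP_7a6434d8_pr.QL.W.DClock
import Pool.Agent.P.MP_7a6434d8_pr.QL.W.Top

/-! Laplace form of the martingale problem. -/

open MeasureTheory ProbabilityTheory Set Filter Topology Metric
open scoped ENNReal NNReal

namespace Pool.Agent.QL

open Pool.Agent.LGD Pool.Agent.P.MP_7a6434d8_pr

theorem dlap_int {l : ℝ} (hl : 0 < l) (c : ℝ) :
    IntegrableOn (fun q : ℝ => Real.exp (-(l * q))) (Ioi c) := by
  simpa only [neg_mul] using integrableOn_exp_mul_Ioi (a := -l) (by linarith) c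

theorem dlap_val {l : ℝ} (hl : 0 < l) (c : ℝ) :
    ∫ q in Ioi c, Real.exp (-(l * q)) = Real.exp (-(l * c)) / l := by
  have h := integral_exp_mul_Ioi (a := -l) (by linarith) c
  simp only [neg_mul] at h
  rw [h]; field_simp

theorem dlap_int_mul {l C : ℝ} (hl : 0 < l) {k : ℝ → ℝ} (hk : Measurable k)
    (bk : ∀ v, |k v| ≤ C) :
    IntegrableOn (fun q : ℝ => Real.exp (-(l * q)) * k q) (Ioi 0) :=
  Integrable.mul_bdd (c := C) (dlap_int hl 0) hk.aestronglyMeasurable
    (Eventually.of_forall fun v => by simpa only [Real.norm_eq_abs] using bk v)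

theorem dlap_swap_int {l C : ℝ} (hl : 0 < l) {k : ℝ → ℝ} (hk : Measurable k)
    (bk : ∀ v, |k v| ≤ C) :
    Integrable (Function.uncurry fun q v : ℝ =>
        if v ≤ q then l * Real.exp (-(l * q)) * k v else 0)
      ((volume.restrict (Ioi (0 : ℝ))).prod (volume.restrict (Ioi (0 : ℝ)))) := by
  have hC : 0 ≤ C := (abs_nonneg _).trans (bk 0)
  have h2 : 0 < l / 2 := by linarith
  have hd := ((dlap_int h2 0).mul_prod (dlap_int h2 0)).const_mul (l * C)
  refine hd.mono' ?_ (Eventually.of_forall fun p => ?_)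
  · refine Measurable.aestronglyMeasurable ?_
    refine Measurable.ite (measurableSet_le measurable_snd measurable_fst) ?_ measurable_const
    exact (measurable_const.mul (Real.measurable_exp.comp
      (measurable_const.mul measurable_fst).neg)).mul (hk.comp measurable_snd)
  · obtain ⟨q, v⟩ := p
    simp only [Function.uncurry_apply_pair]
    split_ifs with hv
    · rw [Real.norm_eq_abs, abs_mul, abs_of_pos (by positivity), ← Real.exp_add]
      have h1 : Real.exp (-(l * q)) ≤ Real.exp (-(l / 2 * q) + -(l / 2 * v)) :=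
        Real.exp_le_exp.2 (by nlinarith)
      calc l * Real.exp (-(l * q)) * |k v| ≤ l * Real.exp (-(l / 2 * q) + -(l / 2 * v)) * C := by
            gcongr
            exact bk v
        _ = _ := by ring
    · rw [norm_zero]; positivity

theorem dlap_real {φ k : ℝ → ℝ} {a l C : ℝ} (hl : 0 < l) (hk : Measurable k)
    (bk : ∀ v, |k v| ≤ C) (h : ∀ q, 0 < q → φ q = a - ∫ v in (0 : ℝ)..q, k v) :
    a = ∫ q in Ioi (0 : ℝ), Real.exp (-(l * q)) * (l * φ q + k q) := by
  have hF := dlap_swap_int hl hk bk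
  have hsw := integral_integral_swap hF
  have hL : ∀ q ∈ Ioi (0 : ℝ),
      ∫ v in Ioi (0 : ℝ), (if v ≤ q then l * Real.exp (-(l * q)) * k v else 0) =
        l * Real.exp (-(l * q)) * ∫ v in (0 : ℝ)..q, k v := by
    intro q hq
    rw [intervalIntegral.integral_of_le (le_of_lt hq), ← integral_const_mul,
      ← Ioi_inter_Iic, inter_comm, ← Measure.restrict_restrict measurableSet_Iic,
      ← integral_indicator measurableSet_Iic]
    refine integral_congr_ae (Eventually.of_forall fun v => ?_)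
    simp only [indicator, mem_Iic]
  have hR : ∀ v ∈ Ioi (0 : ℝ),
      ∫ q in Ioi (0 : ℝ), (if v ≤ q then l * Real.exp (-(l * q)) * k v else 0) =
        Real.exp (-(l * v)) * k v := by
    intro v hv
    have e1 : (fun q => if v ≤ q then l * Real.exp (-(l * q)) * k v else 0) =
        (Ici v).indicator fun q => (l * k v) * Real.exp (-(l * q)) := by
      funext q
      simp only [indicator, mem_Ici]
      split_ifs
      · ring
      · rfl
    rw [e1, integral_indicator measurableSet_Ici, Measure.restrict_restrict measurableSet_Ici,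
      inter_eq_left.2 (Ici_subset_Ioi.2 hv), integral_Ici_eq_integral_Ioi, integral_const_mul,
      dlap_val hl]
    field_simp
  rw [setIntegral_congr_fun measurableSet_Ioi hL, setIntegral_congr_fun measurableSet_Ioi hR] at hsw
  have hI : IntegrableOn (fun q => l * Real.exp (-(l * q)) * ∫ v in (0 : ℝ)..q, k v)
      (Ioi (0 : ℝ)) :=
    (hF.integral_prod_left).congr ((ae_restrict_iff' measurableSet_Ioi).2
      (Eventually.of_forall hL))
  have hK := dlap_int_mul hl hk bk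
  have hA : IntegrableOn (fun q => (a * l) * Real.exp (-(l * q))) (Ioi (0 : ℝ)) :=
    (dlap_int hl 0).const_mul _
  have e2 : ∀ q ∈ Ioi (0 : ℝ), Real.exp (-(l * q)) * (l * φ q + k q) =
      ((a * l) * Real.exp (-(l * q)) - l * Real.exp (-(l * q)) * ∫ v in (0 : ℝ)..q, k v) +
        Real.exp (-(l * q)) * k q := by
    intro q hq
    rw [h q hq]; ring
  have hAI : IntegrableOn (fun q => (a * l) * Real.exp (-(l * q)) -
      l * Real.exp (-(l * q)) * ∫ v in (0 : ℝ)..q, k v) (Ioi (0 : ℝ)) := hA.sub hI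
  rw [setIntegral_congr_fun measurableSet_Ioi e2, integral_add hAI hK,
    integral_sub hA hI, hsw, integral_const_mul, dlap_val hl]
  field_simp
  simp

theorem dlap_meas {G : ℂ → ℝ} (hG : Measurable G) {ξ : Path → ℝ} (hξ : Measurable ξ) (r : ℝ≥0) :
    Measurable fun p : ℝ × Path => ξ p.2 * G (p.2.1 (r + p.1.toNNReal)) :=
  (hξ.comp measurable_snd).mul (hG.comp (measurable_eval2.comp (measurable_snd.prodMk
    (measurable_const.add (measurable_real_toNNReal.comp measurable_fst)))))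

theorem dlap_bd {G : ℂ → ℝ} {D : ℝ} (bG : ∀ z, |G z| ≤ D) {ξ : Path → ℝ} {C : ℝ}
    (bξ : ∀ b, |ξ b| ≤ C) (b : Path) (z : ℂ) : |ξ b * G z| ≤ C * D := by
  rw [abs_mul]
  exact mul_le_mul (bξ b) (bG z) (abs_nonneg _) ((abs_nonneg _).trans (bξ b))

theorem dlap_integrable (Q : Measure Path) [IsFiniteMeasure Q] {G : ℂ → ℝ} (hG : Measurable G)
    (bG : Bdd G) {ξ : Path → ℝ} (hξ : Measurable ξ) (bξ : Bdd ξ) (t : ℝ≥0) :
    Integrable (fun b => ξ b * G (b.1 t)) Q := by
  obtain ⟨D, hD⟩ := bG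
  obtain ⟨C, hC⟩ := bξ
  exact Integrable.of_bound (hξ.mul (hG.comp (measurable_eval t))).aestronglyMeasurable (C * D)
    (Eventually.of_forall fun b => by simpa only [Real.norm_eq_abs] using dlap_bd hD hC b _)

theorem dlap_K (Q : Measure Path) [IsFiniteMeasure Q] {G : ℂ → ℝ} (hG : Measurable G)
    (bG : Bdd G) {ξ : Path → ℝ} (hξ : Measurable ξ) (bξ : Bdd ξ) (r : ℝ≥0) :
    Measurable (fun q : ℝ => ∫ b, ξ b * G (b.1 (r + q.toNNReal)) ∂Q) ∧
      ∃ E, ∀ q : ℝ, |∫ b, ξ b * G (b.1 (r + q.toNNReal)) ∂Q| ≤ E := by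
  obtain ⟨D, hD⟩ := bG
  obtain ⟨C, hC⟩ := bξ
  refine ⟨((dlap_meas hG hξ r).stronglyMeasurable.integral_prod_right').measurable,
    C * D * Q.real univ, fun q => ?_⟩
  rw [← Real.norm_eq_abs]
  exact norm_integral_le_of_norm_le_const (Eventually.of_forall fun b => by
    simpa only [Real.norm_eq_abs] using dlap_bd hD hC b _)

theorem dlap_occ (Q : Measure Path) [IsFiniteMeasure Q] {H : ℂ → ℝ} (hH : Measurable H)
    (bH : Bdd H) {ξ : Path → ℝ} (hξ : Measurable ξ) (bξ : Bdd ξ) (r : ℝ≥0) {q : ℝ} (hq : 0 ≤ q) :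
    Integrable (fun b => ξ b * occ H b r q) Q ∧ ∫ b, ξ b * occ H b r q ∂Q =
      ∫ v in (0 : ℝ)..q, ∫ b, ξ b * H (b.1 (r + v.toNNReal)) ∂Q := by
  obtain ⟨D, hD⟩ := bH
  obtain ⟨C, hC⟩ := bξ
  have hI : Integrable (Function.uncurry fun (v : ℝ) (b : Path) =>
      ξ b * H (b.1 (r + v.toNNReal))) ((volume.restrict (Ioc 0 q)).prod Q) :=
    Integrable.of_bound (dlap_meas hH hξ r).aestronglyMeasurable (C * D)
      (Eventually.of_forall fun p => by
        rw [Real.norm_eq_abs]; exact dlap_bd hD hC p.2 _)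
  have e : ∀ b, ξ b * occ H b r q = ∫ v in Ioc 0 q, ξ b * H (b.1 (r + v.toNNReal)) := by
    intro b
    rw [occ, intervalIntegral.integral_of_le hq, integral_const_mul]
  refine ⟨?_, ?_⟩
  · simp only [e]
    exact hI.integral_prod_right
  · simp only [e]
    rw [intervalIntegral.integral_of_le hq, integral_integral_swap hI]

theorem BMart.laplace {Q : Measure Path} [IsFiniteMeasure Q] {u H : ℂ → ℝ} (h : BMart Q u H)
    (hu : Continuous u) (bu : Bdd u) (hH : Measurable H) (bH : Bdd H) {l : ℝ} (hl : 0 < l)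
    {r : ℝ≥0} {ξ : Path → ℝ} (hξ : Cyl r ξ) :
    ∫ b, ξ b * u (b.1 r) ∂Q = ∫ q in Ioi (0 : ℝ), Real.exp (-(l * q)) *
      ∫ b, ξ b * (l * u (b.1 (r + q.toNNReal)) + H (b.1 (r + q.toNNReal))) ∂Q := by
  have mξ := hξ.measurable
  have bξ := hξ.bdd
  obtain ⟨mk, E, bk⟩ := dlap_K Q hH bH mξ bξ r
  have iu := dlap_integrable Q hu.measurable bu mξ bξ
  have iH := dlap_integrable Q hH bH mξ bξ
  have key := dlap_real (φ := fun q : ℝ => ∫ b, ξ b * u (b.1 (r + q.toNNReal)) ∂Q)
    (a := ∫ b, ξ b * u (b.1 r) ∂Q) hl mk bk (fun q hq => by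
      have h0 := h r ξ hξ q.toNNReal
      obtain ⟨io, eo⟩ := dlap_occ Q hH bH mξ bξ r hq.le
      rw [Real.coe_toNNReal q hq.le] at h0
      simp only [mul_add, mul_sub] at h0
      have isub : Integrable (fun b : Path => ξ b * u (b.1 (r + q.toNNReal)) - ξ b * u (b.1 r)) Q :=
        (iu _).sub (iu _)
      rw [integral_add isub io, integral_sub (iu _) (iu _), eo] at h0
      linarith)
  rw [key]
  refine integral_congr_ae (Eventually.of_forall fun q => ?_)
  have e : (fun b : Path => ξ b * (l * u (b.1 (r + q.toNNReal)) + H (b.1 (r + q.toNNReal)))) =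
      fun b => l * (ξ b * u (b.1 (r + q.toNNReal))) + ξ b * H (b.1 (r + q.toNNReal)) := by
    funext b; ring
  simp only [e]
  rw [integral_add ((iu _).const_mul l) (iH _), integral_const_mul]

theorem Solves.res {μ : Measure ℂ} {Q : Measure Path} (hQ : Solves μ Q) (r : ℝ≥0) {l θ : ℝ}
    (M C : ℝ) (hl : 1 ≤ l) (hθ : 0 < θ) :
    ∃ η > 0, ∀ (f u : C(Sph, ℝ)) (ρ : ℂ → ℝ) (ξ : Path → ℝ), (∀ z, |f z| ≤ M) →
      ResLim μ l η M f u ρ → Cyl r ξ → (∀ b, |ξ b| ≤ C) →
      |∫ b, ξ b * u (b.1 r) ∂Q - ∫ q in Ioi (0 : ℝ), Real.exp (-(l * q)) *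
        ∫ b, ξ b * f (b.1 (r + q.toNNReal)) ∂Q| ≤ θ := by
  have := hQ.fin
  have hl0 : 0 < l := by linarith
  set K : ℝ := (|C| + 1) * (2 * |M| + 1) with hK
  have hK0 : 0 < K := by positivity
  obtain ⟨η, hη, hac⟩ := hQ.ac r (θ / K) (by positivity)
  refine ⟨η, hη, fun f u ρ ξ hf hR hξ hC => ?_⟩
  have mξ := hξ.measurable
  have bξ := hξ.bdd
  have cu := cont_coe u
  have cf := cont_coe f
  have bfu : ∀ z : ℂ, |f z - l * u z| ≤ 2 * |M| + 1 := fun z => by
    have h1 := abs_sub (f z) (l * u z)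
    have h2 := hf z
    have h3 := hR.bdd z
    have h4 := le_abs_self M
    linarith
  have bρ : ∀ z, |ρ z| ≤ 1 := fun z => by
    rw [abs_of_nonneg (hR.mem z).1]; exact (hR.mem z).2
  have mg : ∀ z, 1 - ρ z ∈ Icc (0 : ℝ) 1 := fun z =>
    ⟨by linarith [(hR.mem z).2], by linarith [(hR.mem z).1]⟩
  have mfu : Measurable fun z : ℂ => f z - l * u z :=
    (cf.sub (continuous_const.mul cu)).measurable
  have mH : Measurable fun z : ℂ => (f z - l * u z) * ρ z := mfu.mul hR.meas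
  have bH : Bdd fun z : ℂ => (f z - l * u z) * ρ z := ⟨(2 * |M| + 1) * 1, fun z => by
    rw [abs_mul]
    exact mul_le_mul (bfu z) (bρ z) (abs_nonneg _) (by positivity)⟩
  have bu : Bdd fun z : ℂ => u z := by
    obtain ⟨D, hD⟩ := cont_bdd u
    exact ⟨D, fun z => hD z⟩
  have bf : Bdd fun z : ℂ => f z := ⟨M, fun z => hf z⟩
  have hlap := (hQ.mart _ _ cu bu mH bH hR.weak).laplace cu bu mH bH hl0 hξ
  have m1 : Measurable fun z => 1 - ρ z := measurable_const.sub hR.meas
  have b1 : Bdd fun z => 1 - ρ z := ⟨1, fun z => by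
    rw [abs_of_nonneg (mg z).1]; exact (mg z).2⟩
  have mD : Measurable fun z : ℂ => (f z - l * u z) * (1 - ρ z) := mfu.mul m1
  have bD : Bdd fun z : ℂ => (f z - l * u z) * (1 - ρ z) := ⟨(2 * |M| + 1) * 1, fun z => by
    rw [abs_mul, abs_of_nonneg (mg z).1]
    exact mul_le_mul (bfu z) (mg z).2 (mg z).1 (by positivity)⟩
  obtain ⟨mF, EF, bF⟩ := dlap_K Q cf.measurable bf mξ bξ r
  obtain ⟨mE, EE, bE⟩ := dlap_K Q mD bD mξ bξ r
  have one_b : Bdd fun _ : Path => (1 : ℝ) := ⟨1, fun _ => by simp⟩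
  obtain ⟨mG, EG, bG⟩ := dlap_K Q m1 b1 measurable_const one_b r
  simp only [one_mul] at mG bG
  have hocc := hac _ m1 mg hR.small
  have e : ∀ q : ℝ, Real.exp (-(l * q)) * ∫ b, ξ b * (l * u (b.1 (r + q.toNNReal)) +
      (f (b.1 (r + q.toNNReal)) - l * u (b.1 (r + q.toNNReal))) * ρ (b.1 (r + q.toNNReal))) ∂Q =
      Real.exp (-(l * q)) * ∫ b, ξ b * f (b.1 (r + q.toNNReal)) ∂Q -
      Real.exp (-(l * q)) * ∫ b, ξ b * ((f (b.1 (r + q.toNNReal)) - l * u (b.1 (r + q.toNNReal))) *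
        (1 - ρ (b.1 (r + q.toNNReal)))) ∂Q := by
    intro q
    rw [← mul_sub, ← integral_sub (dlap_integrable Q cf.measurable bf mξ bξ _)
      (dlap_integrable Q mD bD mξ bξ _)]
    congr 1
    refine integral_congr_ae (Eventually.of_forall fun b => ?_)
    ring
  rw [hlap]
  simp only [e]
  rw [integral_sub (dlap_int_mul hl0 mF bF) (dlap_int_mul hl0 mE bE), sub_sub_cancel_left,
    abs_neg, ← Real.norm_eq_abs]
  have iG : IntegrableOn (fun q : ℝ => Real.exp (-q) *
      ∫ b, (1 - ρ (b.1 (r + q.toNNReal))) ∂Q) (Ioi 0) := by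
    simpa only [one_mul] using dlap_int_mul one_pos mG bG
  have hb : ∀ q ∈ Ioi (0 : ℝ), ‖Real.exp (-(l * q)) * ∫ b, ξ b * ((f (b.1 (r + q.toNNReal)) -
      l * u (b.1 (r + q.toNNReal))) * (1 - ρ (b.1 (r + q.toNNReal)))) ∂Q‖ ≤
      K * (Real.exp (-q) * ∫ b, (1 - ρ (b.1 (r + q.toNNReal))) ∂Q) := by
    intro q hq
    have hq' : 0 < q := hq
    have i1 : Integrable (fun b : Path => 1 - ρ (b.1 (r + q.toNNReal))) Q := by
      simpa only [one_mul] using dlap_integrable Q m1 b1 measurable_const one_b (r + q.toNNReal)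
    have h1 : ‖∫ b, ξ b * ((f (b.1 (r + q.toNNReal)) - l * u (b.1 (r + q.toNNReal))) *
        (1 - ρ (b.1 (r + q.toNNReal)))) ∂Q‖ ≤ ∫ b, K * (1 - ρ (b.1 (r + q.toNNReal))) ∂Q := by
      refine norm_integral_le_of_norm_le (i1.const_mul K) (Eventually.of_forall fun b => ?_)
      rw [Real.norm_eq_abs, abs_mul, abs_mul, abs_of_nonneg (mg _).1, ← mul_assoc]
      refine mul_le_mul_of_nonneg_right ?_ (mg _).1
      exact mul_le_mul ((hC b).trans (by linarith [le_abs_self C])) (bfu _) (abs_nonneg _)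
        (by positivity)
    rw [integral_const_mul] at h1
    have h2 : Real.exp (-(l * q)) ≤ Real.exp (-q) := Real.exp_le_exp.2 (by nlinarith)
    rw [norm_mul, Real.norm_eq_abs, abs_of_pos (Real.exp_pos _)]
    calc _ ≤ Real.exp (-q) * (K * ∫ b, (1 - ρ (b.1 (r + q.toNNReal))) ∂Q) :=
          mul_le_mul h2 h1 (norm_nonneg _) (Real.exp_pos _).le
      _ = _ := by ring
  calc _ ≤ ∫ q in Ioi (0 : ℝ), K * (Real.exp (-q) * ∫ b, (1 - ρ (b.1 (r + q.toNNReal))) ∂Q) :=
        norm_integral_le_of_norm_le (iG.const_mul K)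
          ((ae_restrict_iff' measurableSet_Ioi).2 (Eventually.of_forall hb))
    _ ≤ K * (θ / K) := by
        rw [integral_const_mul]
        exact mul_le_mul_of_nonneg_left hocc hK0.le
    _ = θ := by field_simp

end Pool.Agent.QL
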