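import Pool.Agent.P.MP_7a6434d8_pr.QL.W.DWien

/-! Markov property of Brownian motion with an initial measure. -/

open MeasureTheory ProbabilityTheory Set Filter Topology Metric
open scoped ENNReal NNReal

namespace Pool.Agent.QL

open Pool.Agent.LGD Pool.Agent.P.MP_7a6434d8_pr

variable {W : Measure Path}

theorem dmarkov_incr_tr (s : ℝ≥0) (y : ℂ) (w : Path) : incr s (tr y w) = incr s w := by
  refine Subtype.ext (funext fun t => ?_)
  show -(y + w.1 s) + (y + w.1 (s + t)) = -w.1 s + w.1 (s + t)
  ring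

theorem dmarkov_meas (s : ℝ≥0) :
    Measurable fun q : (Iic s → ℂ) × Path => tr (q.1 ⟨s, self_mem_Iic⟩) q.2 := by
  have h : Measurable fun q : (Iic s → ℂ) × Path => (q.1 ⟨s, self_mem_Iic⟩, q.2) :=
    ((measurable_pi_apply _).comp measurable_fst).prodMk measurable_snd
  exact measurable_tr.comp h

theorem Pm_sfinite (hW : IsWiener W) (m : Measure ℂ) [SFinite m] : SFinite (Pm W m) := by
  have := hW.prob
  unfold Pm
  infer_instance

theorem Pm_finite (hW : IsWiener W) (m : Measure ℂ) [IsFiniteMeasure m] :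
    IsFiniteMeasure (Pm W m) := by
  have := hW.prob
  unfold Pm
  infer_instance

theorem Pm_prob (hW : IsWiener W) (m : Measure ℂ) [IsProbabilityMeasure m] :
    IsProbabilityMeasure (Pm W m) := by
  have := hW.prob
  exact Measure.isProbabilityMeasure_map measurable_tr.aemeasurable

theorem lintegral_Pm (hW : IsWiener W) (m : Measure ℂ) [SFinite m] {Φ : Path → ℝ≥0∞}
    (hΦ : Measurable Φ) : ∫⁻ w, Φ w ∂Pm W m = ∫⁻ y, ∫⁻ w, Φ (tr y w) ∂W ∂m := by
  have := hW.prob
  rw [Pm, lintegral_map hΦ measurable_tr]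
  exact lintegral_prod _ (hΦ.comp measurable_tr).aemeasurable

theorem integral_Pm (hW : IsWiener W) (m : Measure ℂ) [SFinite m] {Φ : Path → ℝ}
    (hΦ : Integrable Φ (Pm W m)) : ∫ w, Φ w ∂Pm W m = ∫ y, ∫ w, Φ (tr y w) ∂W ∂m := by
  have := hW.prob
  rw [Pm, integral_map measurable_tr.aemeasurable hΦ.aestronglyMeasurable]
  exact integral_prod _ (hΦ.comp_measurable measurable_tr)

theorem integrable_Pm (hW : IsWiener W) (m : Measure ℂ) [SFinite m] {Φ : Path → ℝ}
    (hΦ : Integrable Φ (Pm W m)) : Integrable (fun p : ℂ × Path => Φ (tr p.1 p.2)) (m.prod W) := by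
  have := hW.prob
  exact hΦ.comp_measurable measurable_tr

theorem Pm_ae (hW : IsWiener W) (m : Measure ℂ) [SFinite m] {S : Set Path} (hS : MeasurableSet S)
    (h : ∀ᵐ y ∂m, ∀ᵐ w ∂W, tr y w ∈ S) : ∀ᵐ w ∂Pm W m, w ∈ S := by
  have := hW.prob
  exact (ae_map_iff (p := fun w => w ∈ S) measurable_tr.aemeasurable hS).2
    ((Measure.ae_prod_iff_ae_ae (measurable_tr hS)).2 h)

theorem Pm_zero (hW : IsWiener W) (m : Measure ℂ) [SFinite m] :
    (Pm W m).map (fun w => w.1 0) = m := by
  have := hW.prob
  rw [Pm, Measure.map_map (measurable_eval 0) measurable_tr]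
  have h : ((fun w : Path => w.1 0) ∘ fun p : ℂ × Path => tr p.1 p.2) =ᵐ[m.prod W] Prod.fst := by
    filter_upwards [Measure.quasiMeasurePreserving_snd.ae hW.zero] with p hp
    show p.1 + p.2.1 0 = p.1
    rw [hp, add_zero]
  rw [Measure.map_congr h, Measure.map_fst_prod, measure_univ, one_smul]

theorem Pm_markov (hW : IsWiener W) (m : Measure ℂ) [SFinite m] (s : ℝ≥0) :
    (Pm W m).map (fun w => (past s w, incr s w)) = ((Pm W m).map (past s)).prod W := by
  have := hW.prob
  have := Pm_sfinite hW m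
  have hT : Measurable fun (p : ℂ × (Iic s → ℂ)) (r : Iic s) => p.1 + p.2 r :=
    measurable_pi_lambda _ fun r => measurable_fst.add ((measurable_pi_apply r).comp measurable_snd)
  have hF : Measurable fun w : Path => (past s w, incr s w) :=
    (measurable_past s).prodMk (measurable_incr s)
  refine Measure.ext_of_lintegral _ fun f hf => ?_
  have hg : Measurable fun a : Iic s → ℂ => ∫⁻ w', f (a, w') ∂W := hf.lintegral_prod_right'
  rw [lintegral_map hf hF, lintegral_prod _ hf.aemeasurable, lintegral_map hg (measurable_past s),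
    lintegral_Pm hW m (Φ := fun w => f (past s w, incr s w)) (hf.comp hF),
    lintegral_Pm hW m (Φ := fun w => ∫⁻ w', f (past s w, w') ∂W) (hg.comp (measurable_past s))]
  refine lintegral_congr fun y => ?_
  have hy : Measurable fun (a : Iic s → ℂ) (r : Iic s) => y + a r :=
    hT.comp measurable_prodMk_left
  have hG : Measurable fun q : (Iic s → ℂ) × Path => f (fun r => y + q.1 r, q.2) :=
    hf.comp ((hy.comp measurable_fst).prodMk measurable_snd)
  have h1 := lintegral_map (μ := W) hG hF
  rw [hW.markov s, lintegral_prod _ hG.aemeasurable,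
    lintegral_map hG.lintegral_prod_right' (measurable_past s)] at h1
  simp only [dmarkov_incr_tr]
  exact h1.symm

theorem markov_lintegral (hW : IsWiener W) (m : Measure ℂ) [SFinite m] (s : ℝ≥0)
    {Y Φ : Path → ℝ≥0∞} (hY : Measurable[Fil s] Y) (hΦ : Measurable Φ) :
    ∫⁻ w, Y w * Φ (shift s w) ∂Pm W m =
      ∫⁻ w, Y w * ∫⁻ w', Φ (tr (w.1 s) w') ∂W ∂Pm W m := by
  have := hW.prob
  have := Pm_sfinite hW m
  obtain ⟨Y', hY', rfl⟩ := hY.exists_eq_measurable_comp
  have hF : Measurable fun w : Path => (past s w, incr s w) :=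
    (measurable_past s).prodMk (measurable_incr s)
  have h0 := hΦ.comp (dmarkov_meas s)
  have hG : Measurable fun q : (Iic s → ℂ) × Path =>
      Y' q.1 * Φ (tr (q.1 ⟨s, self_mem_Iic⟩) q.2) := (hY'.comp measurable_fst).mul h0
  have h1 := lintegral_map (μ := Pm W m) hG hF
  rw [Pm_markov hW m s, lintegral_prod _ hG.aemeasurable,
    lintegral_map hG.lintegral_prod_right' (measurable_past s)] at h1
  calc _ = ∫⁻ w, Y' (past s w) * Φ (tr (w.1 s) (incr s w)) ∂Pm W m := by
        simp only [tr_incr]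
        rfl
    _ = _ := h1.symm
    _ = _ := lintegral_congr fun w =>
        lintegral_const_mul (f := fun w' => Φ (tr (w.1 s) w')) (Y' (past s w))
          (hΦ.comp (measurable_tr.comp measurable_prodMk_left))

theorem markov_integral (hW : IsWiener W) (m : Measure ℂ) [SFinite m] (s : ℝ≥0)
    {Y Φ : Path → ℝ} (hY : Measurable[Fil s] Y) (hΦ : Measurable Φ)
    (hi : Integrable (fun w => Y w * Φ (shift s w)) (Pm W m)) :
    ∫ w, Y w * Φ (shift s w) ∂Pm W m =
      ∫ w, Y w * ∫ w', Φ (tr (w.1 s) w') ∂W ∂Pm W m := by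
  have := hW.prob
  have := Pm_sfinite hW m
  obtain ⟨Y', hY', rfl⟩ := hY.exists_eq_measurable_comp
  have hF : Measurable fun w : Path => (past s w, incr s w) :=
    (measurable_past s).prodMk (measurable_incr s)
  have h0 := hΦ.comp (dmarkov_meas s)
  have hG : Measurable fun q : (Iic s → ℂ) × Path =>
      Y' q.1 * Φ (tr (q.1 ⟨s, self_mem_Iic⟩) q.2) := (hY'.comp measurable_fst).mul h0
  have e : (fun w : Path => (Y' ∘ fun (w : Path) (r : Iic s) => w.1 r) w * Φ (shift s w)) =
      fun w : Path => Y' (past s w) * Φ (tr (w.1 s) (incr s w)) := by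
    simp only [tr_incr]
    rfl
  rw [e] at hi ⊢
  have h2 := (integrable_map_measure hG.aestronglyMeasurable hF.aemeasurable).2 hi
  have h1 := integral_map (μ := Pm W m) hF.aemeasurable hG.aestronglyMeasurable
  rw [Pm_markov hW m s] at h1 h2
  rw [integral_prod _ h2, integral_map (measurable_past s).aemeasurable
    h2.integral_prod_left.aestronglyMeasurable] at h1
  exact h1.symm.trans (integral_congr_ae (Eventually.of_forall fun w =>
    integral_const_mul (Y' (past s w)) fun w' => Φ (tr (w.1 s) w')))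

theorem Pm_dual (hW : IsWiener W) (s : ℝ≥0) {ψ k : ℂ → ℝ≥0∞} (hψ : Measurable ψ)
    (hk : Measurable k) : ∫⁻ w, ψ (w.1 0) * k (w.1 s) ∂Pm W volume =
      ∫⁻ y, (∫⁻ w, ψ (y + w.1 s) ∂W) * k y := by
  have := hW.prob
  have hs := measurable_eval s
  have hm : Measurable fun w : Path => ψ (w.1 0) * k (w.1 s) :=
    (hψ.comp (measurable_eval 0)).mul (hk.comp hs)
  have h1 : Measurable fun p : ℂ × Path => ψ p.1 * k (p.1 + p.2.1 s) :=
    (hψ.comp measurable_fst).mul (hk.comp (measurable_fst.add (hs.comp measurable_snd)))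
  have h2 : Measurable fun p : Path × ℂ => ψ (p.2 + -p.1.1 s) * k p.2 :=
    (hψ.comp (measurable_snd.add (hs.comp measurable_fst).neg)).mul (hk.comp measurable_snd)
  calc _ = ∫⁻ y, ∫⁻ w, ψ y * k (y + w.1 s) ∂W := by
        rw [lintegral_Pm hW _ hm]
        refine lintegral_congr fun y => lintegral_congr_ae ?_
        filter_upwards [hW.zero] with w hw
        show ψ (y + w.1 0) * k (y + w.1 s) = _
        rw [hw, add_zero]
    _ = ∫⁻ w, (∫⁻ y, ψ y * k (y + w.1 s)) ∂W := lintegral_lintegral_swap h1.aemeasurable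
    _ = ∫⁻ w, (∫⁻ y, ψ (y + -w.1 s) * k y) ∂W := by
        refine lintegral_congr fun w => ?_
        rw [← lintegral_add_right_eq_self (fun y => ψ (y + -w.1 s) * k y) (w.1 s)]
        simp only [add_neg_cancel_right]
    _ = ∫⁻ y, ∫⁻ w, ψ (y + -w.1 s) * k y ∂W := lintegral_lintegral_swap h2.aemeasurable
    _ = _ := by
        refine lintegral_congr fun y => ?_
        have h3 : Measurable fun z : ℂ => ψ (y + z) := hψ.comp (measurable_const_add y)
        have h4 : Measurable fun w : Path => -w.1 s := hs.neg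
        rw [lintegral_mul_const (f := fun w : Path => ψ (y + -w.1 s)) _ (h3.comp h4),
          ← lintegral_map h3 hs, ← hW.law_neg s, lintegral_map h3 h4]

theorem Pm_eval_vol (hW : IsWiener W) (s : ℝ≥0) :
    (Pm W volume).map (fun w => w.1 s) = volume := by
  have := hW.prob
  refine Measure.ext_of_lintegral _ fun f hf => ?_
  have h := Pm_dual hW s (ψ := fun _ => 1) measurable_const hf
  simp only [one_mul, lintegral_const, measure_univ] at h
  rw [lintegral_map hf (measurable_eval s), h]

theorem Pm_shift (hW : IsWiener W) (s : ℝ≥0) : (Pm W volume).map (shift s) = Pm W volume := by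
  have := hW.prob
  refine Measure.ext_of_lintegral _ fun f hf => ?_
  have h := markov_lintegral hW volume s (Y := fun _ => 1) measurable_const hf
  simp only [one_mul] at h
  have hg : Measurable fun y : ℂ => ∫⁻ w', f (tr y w') ∂W :=
    (hf.comp measurable_tr).lintegral_prod_right'
  rw [lintegral_map hf (measurable_shift s), h, ← lintegral_map hg (measurable_eval s),
    Pm_eval_vol hW s, lintegral_Pm hW _ hf]

theorem Pm_eval_le (hW : IsWiener W) (m : Measure ℂ) [IsFiniteMeasure m] {s : ℝ≥0} (hs : 0 < s) :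
    ∃ C : ℝ≥0, (Pm W m).map (fun w => w.1 s) ≤ C • (volume : Measure ℂ) := by
  have := hW.prob
  obtain ⟨C, hC⟩ := hW.law_le hs
  refine ⟨C * measureUnivNNReal m, Measure.le_iff.2 fun A hA => ?_⟩
  have h0 := measurable_eval s
  rw [Measure.map_apply h0 hA, ← lintegral_indicator_one (h0 hA),
    lintegral_Pm hW m (measurable_one.indicator (h0 hA))]
  have h1 : ∀ y : ℂ, ∫⁻ w, ((fun w : Path => w.1 s) ⁻¹' A).indicator 1 (tr y w) ∂W ≤
      C * volume A := fun y => by
    have hA' : MeasurableSet ((fun z => y + z) ⁻¹' A) := measurable_const_add y hA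
    have h2 := Measure.le_iff.1 hC _ hA'
    rw [Measure.map_apply h0 hA', ← lintegral_indicator_one (h0 hA'), Measure.smul_apply,
      measure_preimage_add] at h2
    exact h2
  refine (lintegral_mono h1).trans_eq ?_
  rw [lintegral_const, Measure.smul_apply, ENNReal.smul_def, ENNReal.coe_mul,
    coe_measureUnivNNReal, smul_eq_mul, mul_right_comm]

end Pool.Agent.QL
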