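import Pool.Agent.P.MP_7a6434d8_pr.QL.W.DClock

/-! The time-changed path before the inverse clock is adapted. -/

open MeasureTheory ProbabilityTheory Set Filter Topology Metric
open scoped ENNReal NNReal

namespace Pool.Agent.QL

open Pool.Agent.LGD Pool.Agent.P.MP_7a6434d8_pr

variable {W : Measure Path} {μ : Measure ℂ} {A : Path → ℝ≥0 → ℝ≥0} {Λ : Set Path}
  {B : Path → Path}

/-- the inverse clock, stopped at time `s` -/
theorem dpre_inv (hC : IsClock W μ A Λ B) (t s : ℝ≥0) :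
    ∃ τ : Path → ℝ≥0, Measurable[Fil s] τ ∧ ∀ w ∈ Λ, ∀ v ≤ s, A w v = t → τ w = v := by
  obtain ⟨q, hq⟩ := TopologicalSpace.exists_dense_seq ℝ≥0
  refine ⟨fun w => ⨅ i, if t ≤ A w (min (q i) s) then min (q i) s else s, ?_, fun w hw v hv e => ?_⟩
  · refine Measurable.iInf (δ := Path) (mδ := Fil s) fun i => ?_
    have h : Measurable[Fil s] fun w => A w (min (q i) s) :=
      (hC.adapted _).mono (fil_mono (min_le_right _ _)) le_rfl
    exact Measurable.ite (h measurableSet_Ici) measurable_const measurable_const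
  · refine le_antisymm (not_lt.1 fun h => ?_) (le_ciInf fun i => ?_)
    · obtain ⟨i, hi⟩ := hq.exists_mem_open isOpen_Ioo (nonempty_Ioo.2 h)
      have h1 := ciInf_le (f := fun i => if t ≤ A w (min (q i) s) then min (q i) s else s)
        (OrderBot.bddBelow _) i
      rw [if_pos (e ▸ (hC.mono w hw).1.monotone (le_min hi.1.le hv))] at h1
      exact absurd (h1.trans (min_le_left _ _)) (not_le.2 hi.2)
    · split_ifs with h
      · exact (hC.mono w hw).1.le_iff_le.1 (e ▸ h)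
      · exact hv

theorem dpre_eval (s : ℝ≥0) {τ : Path → ℝ≥0} (hτ : Measurable[Fil s] τ) :
    Measurable[Fil s] fun w : Path => w.1 (min (τ w) s) := by
  have h := measurable_uncurry_of_continuous_of_measurable (m := Fil s)
    (u := fun (v : ℝ≥0) (w : Path) => w.1 (min v s))
    (fun w => w.2.comp (continuous_id.min continuous_const)) fun v => fil_eval (min_le_right _ _)
  exact h.comp (hτ.prodMk (@measurable_id _ (Fil s)))

theorem IsClock.pre (hC : IsClock W μ A Λ B) (t s : ℝ≥0) :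
    ∃ β : Path → ℂ, Measurable[Fil s] β ∧ ∀ w ∈ Λ, t ≤ A w s → β w = (B w).1 t := by
  obtain ⟨τ, h1, h2⟩ := dpre_inv hC t s
  refine ⟨_, dpre_eval s h1, fun w hw h => ?_⟩
  obtain ⟨v, rfl⟩ := (hC.mono w hw).2 t
  have hv : v ≤ s := (hC.mono w hw).1.le_iff_le.1 h
  rw [hC.change w hw, h2 w hw v hv rfl, min_eq_left hv]

theorem IsClock.pre_cyl (hC : IsClock W μ A Λ B) {r : ℝ≥0} {ξ : Path → ℝ} (hξ : Cyl r ξ)
    (s : ℝ≥0) :
    ∃ ζ : Path → ℝ, Measurable[Fil s] ζ ∧ Bdd ζ ∧ ∀ w ∈ Λ, r ≤ A w s → ζ w = ξ (B w) := by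
  obtain ⟨k, t, f, h1, h2, h3, rfl⟩ := hξ
  choose β h4 h5 using fun i => hC.pre (t i) s
  choose C h6 using h3
  refine ⟨fun w => ∏ i, f i (β i w), ?_, ⟨∏ i, C i, fun w => ?_⟩, fun w hw h => ?_⟩
  · exact Finset.measurable_prod (m := Fil s) _ fun i _ => (h2 i).measurable.comp (h4 i)
  · rw [Finset.abs_prod]
    exact Finset.prod_le_prod (fun _ _ => abs_nonneg _) fun i _ => h6 i _
  · exact Finset.prod_congr rfl fun i _ => by rw [h5 i w hw ((h1 i).trans h)]

end Pool.Agent.QL
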