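import Pool.Agent.P.MP_7a6434d8_pr.QL.W.AGreen

/-! Optional stopping for a continuous process with orthogonal increments. -/

open MeasureTheory ProbabilityTheory Set Filter Topology Metric
open scoped ENNReal NNReal

namespace Pool.Agent.QL

open Pool.Agent.LGD Pool.Agent.P.MP_7a6434d8_pr

/-- the grid -/
noncomputable def dstop_g (s₀ T : ℝ≥0) (N i : ℕ) : ℝ≥0 := s₀ + i * ((T - s₀) / (N + 1))

theorem dstop_g_mono (s₀ T : ℝ≥0) (N : ℕ) : Monotone (dstop_g s₀ T N) := fun i j h => by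
  unfold dstop_g
  gcongr

theorem dstop_g_zero (s₀ T : ℝ≥0) (N : ℕ) : dstop_g s₀ T N 0 = s₀ := by simp [dstop_g]

theorem dstop_g_last {s₀ T : ℝ≥0} (h : s₀ ≤ T) (N : ℕ) : dstop_g s₀ T N (N + 1) = T := by
  have h1 : ((N : ℝ≥0) + 1) ≠ 0 := by positivity
  unfold dstop_g
  rw [Nat.cast_add, Nat.cast_one, mul_div_cancel₀ _ h1, add_tsub_cancel_of_le h]

theorem dstop_g_succ (s₀ T : ℝ≥0) (N i : ℕ) :
    dstop_g s₀ T N (i + 1) = dstop_g s₀ T N i + (T - s₀) / (N + 1) := by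
  unfold dstop_g
  rw [Nat.cast_add, Nat.cast_one, add_mul, one_mul, add_assoc]

theorem dstop_g_lt {s₀ T : ℝ≥0} (h : s₀ < T) {N i : ℕ} (hi : i < N + 1) :
    dstop_g s₀ T N i < T := by
  have h1 : dstop_g s₀ T N (i + 1) ≤ T :=
    (dstop_g_mono s₀ T N hi).trans (dstop_g_last h.le N).le
  refine lt_of_lt_of_le ?_ h1
  rw [dstop_g_succ]
  exact lt_add_of_pos_right _ (div_pos (tsub_pos_of_lt h) (by positivity))

theorem dstop_up {s₀ T : ℝ≥0} (N : ℕ) {x : ℝ≥0} (h1 : s₀ ≤ x) (h2 : x ≤ T) :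
    ∃ y : ℝ≥0, x ≤ y ∧ y ≤ T ∧ y ≤ x + (T - s₀) / (N + 1) ∧ ∀ f : ℝ≥0 → ℝ,
      ∑ i ∈ Finset.range (N + 1), (if dstop_g s₀ T N i < x then
        f (dstop_g s₀ T N (i + 1)) - f (dstop_g s₀ T N i) else 0) = f y - f s₀ := by
  have hl := dstop_g_last (h1.trans h2) N
  have hex : ∃ j, x ≤ dstop_g s₀ T N j := ⟨N + 1, h2.trans hl.ge⟩
  have hj := Nat.find_spec hex
  have hjN : Nat.find hex ≤ N + 1 := Nat.find_min' hex (h2.trans hl.ge)
  have hlt : ∀ i, dstop_g s₀ T N i < x ↔ i < Nat.find hex := fun i =>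
    ⟨fun h => by
      by_contra h'
      exact absurd (hj.trans (dstop_g_mono s₀ T N (not_lt.1 h'))) (not_le.2 h),
    fun h => not_le.1 (Nat.find_min hex h)⟩
  generalize Nat.find hex = j at hj hjN hlt
  refine ⟨_, hj, (dstop_g_mono s₀ T N hjN).trans hl.le, ?_, fun f => ?_⟩
  · rcases j with _ | j
    · rw [dstop_g_zero]
      exact h1.trans le_self_add
    · rw [dstop_g_succ]
      exact add_le_add ((hlt j).2 (Nat.lt_succ_self j)).le le_rfl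
  · have h3 := Finset.sum_range_sub (fun i => f (dstop_g s₀ T N i)) j
    rw [dstop_g_zero] at h3
    rw [← h3, ← Finset.sum_filter]
    refine Finset.sum_congr ?_ fun _ _ => rfl
    ext i
    simp only [Finset.mem_filter, Finset.mem_range, hlt]
    omega

theorem dstop_lim {s₀ T x : ℝ≥0} {y : ℕ → ℝ≥0} (h1 : ∀ N, x ≤ y N)
    (h2 : ∀ N : ℕ, y N ≤ x + (T - s₀) / (N + 1)) : Tendsto y atTop (𝓝 x) := by
  have h3 : Tendsto (fun N : ℕ => (T - s₀) / ((N : ℝ≥0) + 1)) atTop (𝓝 0) := by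
    rw [← NNReal.tendsto_coe]
    have h4 := (tendsto_one_div_add_atTop_nhds_zero_nat (𝕜 := ℝ)).const_mul ((T - s₀ : ℝ≥0) : ℝ)
    rw [mul_zero] at h4
    refine h4.congr fun N => ?_
    rw [NNReal.coe_div, mul_one_div]
    simp
  have h5 := h3.const_add x
  rw [add_zero] at h5
  exact tendsto_of_tendsto_of_tendsto_of_le_of_le tendsto_const_nhds h5 h1 h2

theorem dstop_ind {Ω : Type} {σ σ' : Ω → ℝ≥0} {ω : Ω} (h : σ ω ≤ σ' ω) (s : ℝ≥0) (c d : ℝ) :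
    ind {ω | σ ω ≤ s ∧ s < σ' ω} ω * c * d =
      c * ((if s < σ' ω then d else 0) - if s < σ ω then d else 0) := by
  unfold ind
  by_cases h1 : s < σ ω
  · have h2 : ω ∉ {ω | σ ω ≤ s ∧ s < σ' ω} := fun h3 => absurd h3.1 (not_le.2 h1)
    rw [indicator_of_notMem h2, if_pos h1, if_pos (h1.trans_le h)]
    ring
  · by_cases h2 : s < σ' ω
    · have h3 : ω ∈ {ω | σ ω ≤ s ∧ s < σ' ω} := ⟨not_lt.1 h1, h2⟩
      rw [indicator_of_mem h3, if_pos h2, if_neg h1]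
      ring
    · have h3 : ω ∉ {ω | σ ω ≤ s ∧ s < σ' ω} := fun h3 => h2 h3.2
      rw [indicator_of_notMem h3, if_neg h2, if_neg h1]
      ring

theorem dstop_bd {c a b C z : ℝ} (hc : |c| ≤ C) (ha : |a| ≤ z) (hb : |b| ≤ z) :
    ‖c * (a - b)‖ ≤ C * (2 * z) := by
  rw [Real.norm_eq_abs, abs_mul]
  refine mul_le_mul hc ((abs_sub a b).trans (by linarith)) (abs_nonneg _)
    ((abs_nonneg _).trans hc)

theorem opt_stop {Ω : Type} [MeasurableSpace Ω] (Q : Measure Ω) [IsFiniteMeasure Q]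
    (M : ℝ≥0 → Ω → ℝ) (s₀ T : ℝ≥0) (hM : ∀ t, AEStronglyMeasurable (M t) Q)
    (hc : ∀ᵐ ω ∂Q, Continuous fun t => M t ω) (Z : Ω → ℝ) (hZ : Integrable Z Q)
    (hb : ∀ᵐ ω ∂Q, ∀ t, s₀ ≤ t → t ≤ T → |M t ω| ≤ Z ω) (σ σ' : Ω → ℝ≥0) (hσ : Measurable σ)
    (hσ' : Measurable σ') (hle : ∀ᵐ ω ∂Q, s₀ ≤ σ ω ∧ σ ω ≤ σ' ω ∧ σ' ω ≤ T) (ξ : Ω → ℝ)
    (hξ : Measurable ξ) (bξ : Bdd ξ)
    (h0 : ∀ s t, s₀ ≤ s → s ≤ t → t ≤ T → s < T →
      ∫ ω, ind {ω | σ ω ≤ s ∧ s < σ' ω} ω * ξ ω * (M t ω - M s ω) ∂Q = 0) :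
    ∫ ω, ξ ω * (M (σ' ω) ω - M (σ ω) ω) ∂Q = 0 := by
  rcases le_or_gt T s₀ with hT | hT
  · refine integral_eq_zero_of_ae ?_
    filter_upwards [hle] with ω h
    have e : σ' ω = σ ω := le_antisymm (h.2.2.trans (hT.trans h.1)) h.2.1
    simp [e]
  obtain ⟨C, hC⟩ := bξ
  have hZ' : Integrable (fun ω => C * (2 * Z ω)) Q := (hZ.const_mul 2).const_mul C
  set F : ℕ → ℕ → Ω → ℝ := fun N i ω =>
    ind {ω | σ ω ≤ dstop_g s₀ T N i ∧ dstop_g s₀ T N i < σ' ω} ω * ξ ω *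
      (M (dstop_g s₀ T N (i + 1)) ω - M (dstop_g s₀ T N i) ω) with hF
  have hlo : ∀ N i, s₀ ≤ dstop_g s₀ T N i := fun N i => le_self_add
  have hhi : ∀ N i, i ≤ N + 1 → dstop_g s₀ T N i ≤ T := fun N i hi =>
    (dstop_g_mono s₀ T N hi).trans (dstop_g_last hT.le N).le
  have hFm : ∀ N i, AEStronglyMeasurable (F N i) Q := by
    intro N i
    have h1 : MeasurableSet {ω | σ ω ≤ dstop_g s₀ T N i ∧ dstop_g s₀ T N i < σ' ω} :=
      (hσ (measurableSet_Iic (a := dstop_g s₀ T N i))).inter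
        (hσ' (measurableSet_Ioi (a := dstop_g s₀ T N i)))
    exact (((measurable_const.indicator h1).mul hξ).aestronglyMeasurable).mul
      ((hM _).sub (hM _))
  have hFi : ∀ N, ∀ i ∈ Finset.range (N + 1), Integrable (F N i) Q := by
    intro N i hi
    have hi' := Finset.mem_range.1 hi
    refine hZ'.mono' (hFm N i) ?_
    filter_upwards [hb] with ω h
    refine dstop_bd ?_ (h _ (hlo _ _) (hhi _ _ hi')) (h _ (hlo _ _) (hhi _ _ hi'.le))
    rw [abs_mul]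
    refine (mul_le_of_le_one_left (abs_nonneg _) ?_).trans (hC ω)
    unfold ind
    by_cases h1 : ω ∈ {ω | σ ω ≤ dstop_g s₀ T N i ∧ dstop_g s₀ T N i < σ' ω}
    · rw [indicator_of_mem h1, abs_one]
    · rw [indicator_of_notMem h1, abs_zero]
      exact zero_le_one
  have hzero : ∀ N, ∫ ω, ∑ i ∈ Finset.range (N + 1), F N i ω ∂Q = 0 := by
    intro N
    rw [integral_finsetSum _ (hFi N)]
    refine Finset.sum_eq_zero fun i hi => ?_
    have hi' := Finset.mem_range.1 hi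
    exact h0 _ _ (hlo _ _) (dstop_g_mono s₀ T N (Nat.le_succ i)) (hhi _ _ hi')
      (dstop_g_lt hT hi')
  have key : ∀ ω, s₀ ≤ σ ω ∧ σ ω ≤ σ' ω ∧ σ' ω ≤ T → ∃ y y' : ℕ → ℝ≥0,
      (∀ N, s₀ ≤ y N ∧ y N ≤ T ∧ s₀ ≤ y' N ∧ y' N ≤ T) ∧ Tendsto y atTop (𝓝 (σ ω)) ∧
      Tendsto y' atTop (𝓝 (σ' ω)) ∧
      ∀ N, ∑ i ∈ Finset.range (N + 1), F N i ω = ξ ω * (M (y' N) ω - M (y N) ω) := by
    intro ω h
    choose y a1 a2 a3 a4 using fun N => dstop_up N h.1 (h.2.1.trans h.2.2)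
    choose y' b1 b2 b3 b4 using fun N => dstop_up N (h.1.trans h.2.1) h.2.2
    refine ⟨y, y', fun N => ⟨h.1.trans (a1 N), a2 N, (h.1.trans h.2.1).trans (b1 N), b2 N⟩,
      dstop_lim a1 a3, dstop_lim b1 b3, fun N => ?_⟩
    simp only [hF, dstop_ind h.2.1]
    rw [← Finset.mul_sum, Finset.sum_sub_distrib, a4 N fun t => M t ω, b4 N fun t => M t ω]
    ring
  have hlim := tendsto_integral_of_dominated_convergence (μ := Q)
    (F := fun N ω => ∑ i ∈ Finset.range (N + 1), F N i ω)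
    (f := fun ω => ξ ω * (M (σ' ω) ω - M (σ ω) ω)) (fun ω => C * (2 * Z ω))
    (fun N => (integrable_finsetSum _ (hFi N)).aestronglyMeasurable) hZ' ?_ ?_
  · simp only [hzero] at hlim
    exact (tendsto_nhds_unique hlim tendsto_const_nhds)
  · intro N
    filter_upwards [hb, hle] with ω h h'
    obtain ⟨y, y', a1, -, -, a2⟩ := key ω h'
    rw [a2]
    exact dstop_bd (hC ω) (h _ (a1 N).2.2.1 (a1 N).2.2.2) (h _ (a1 N).1 (a1 N).2.1)
  · filter_upwards [hc, hle] with ω h h'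
    obtain ⟨y, y', -, a1, a2, a3⟩ := key ω h'
    simp only [a3]
    exact (((h.tendsto _).comp a2).sub ((h.tendsto _).comp a1)).const_mul _

end Pool.Agent.QL
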