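import Pool.Agent.P.MP_7a6434d8_pr.QL.W.DZero
import Pool.Agent.P.MP_7a6434d8_pr.QL.W.DStop
import Pool.Agent.P.MP_7a6434d8_pr.QL.W.DPre

/-! The martingale problem of the time-changed process. -/

open MeasureTheory ProbabilityTheory Set Filter Topology Metric
open scoped ENNReal NNReal

namespace Pool.Agent.QL

open Pool.Agent.LGD Pool.Agent.P.MP_7a6434d8_pr

/-- the functional in the clock of the time-changed path -/
noncomputable def dmart_K (u H : ℂ → ℝ) (b : Path) (x : ℝ≥0) : ℝ := u (b.1 x) + occ H b 0 x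

/-- the functional in the Brownian clock -/
noncomputable def dmart_N (u H : ℂ → ℝ) (A : Path → ℝ≥0 → ℝ≥0) (B : Path → Path) (t : ℝ≥0)
    (w : Path) : ℝ := u (w.1 t) + occ H (B w) 0 (A w t)

/-- clamp to an interval -/
def dmart_cl (a b x : ℝ≥0) : ℝ≥0 := min (max x a) b

theorem dmart_K_meas {u H : ℂ → ℝ} (hu : Continuous u) (hH : Measurable H) {α : Type}
    [MeasurableSpace α] {b : α → Path} {x : α → ℝ≥0} (hb : Measurable b) (hx : Measurable x) :
    Measurable fun a => dmart_K u H (b a) (x a) :=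
  (hu.measurable.comp (measurable_eval2.comp (hb.prodMk hx))).add
    ((measurable_occ hH).comp
      (hb.prodMk (measurable_const.prodMk (measurable_coe_nnreal_real.comp hx))))

theorem dmart_K_cont {u H : ℂ → ℝ} (hu : Continuous u) (hH : Measurable H) (bH : Bdd H)
    (b : Path) : Continuous (dmart_K u H b) :=
  (hu.comp b.2).add ((occ_cont hH bH b 0).comp NNReal.continuous_coe)

theorem dmart_K_add {u H : ℂ → ℝ} (hH : Measurable H) (bH : Bdd H) (b : Path) (r q : ℝ≥0) :
    dmart_K u H b (r + q) - dmart_K u H b r = u (b.1 (r + q)) - u (b.1 r) + occ H b r q := by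
  have h := occ_add hH bH b 0 r q
  rw [zero_add] at h
  unfold dmart_K
  rw [h]
  ring

theorem dmart_K_bound {u H : ℂ → ℝ} (hH : Measurable H) {Cu CH : ℝ} (hCu : ∀ z, |u z| ≤ Cu)
    (hCH : ∀ z, |H z| ≤ CH) (b : Path) {x y q : ℝ≥0} (h₁ : x ≤ y) (h₂ : y ≤ x + q) :
    |dmart_K u H b y - dmart_K u H b x| ≤ 2 * Cu + CH * q := by
  obtain ⟨d, rfl⟩ := exists_add_of_le h₁
  have hd : (d : ℝ) ≤ q := by exact_mod_cast le_of_add_le_add_left h₂
  have h0 : 0 ≤ CH := (abs_nonneg _).trans (hCH 0)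
  rw [dmart_K_add hH ⟨CH, hCH⟩]
  have h3 := abs_occ_le hCH b x d
  rw [abs_of_nonneg d.coe_nonneg] at h3
  have h4 := mul_le_mul_of_nonneg_left hd h0
  have h5 := abs_le.1 (hCu (b.1 (x + d)))
  have h6 := abs_le.1 (hCu (b.1 x))
  have h7 := abs_le.1 h3
  rw [abs_le]
  constructor <;> linarith [h5.1, h5.2, h6.1, h6.2, h7.1, h7.2]

theorem dmart_cl_mono (a b : ℝ≥0) {x y : ℝ≥0} (h : x ≤ y) : dmart_cl a b x ≤ dmart_cl a b y :=
  min_le_min (max_le_max h le_rfl) le_rfl

theorem dmart_cl_add (a b x q : ℝ≥0) : dmart_cl a b (x + q) ≤ dmart_cl a b x + q := by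
  unfold dmart_cl
  rw [← min_add_add_right, ← max_add_add_right]
  exact min_le_min (max_le_max le_rfl le_self_add) le_self_add

theorem dmart_cl_map {f : ℝ≥0 → ℝ≥0} (hf : Monotone f) (a b x : ℝ≥0) :
    f (dmart_cl a b x) = dmart_cl (f a) (f b) (f x) := by
  unfold dmart_cl
  rw [hf.map_min, hf.map_max]

theorem dmart_cl_tendsto (x : ℝ≥0) :
    Tendsto (fun j : ℕ => dmart_cl (1 / ((j : ℝ≥0) + 1)) ((j : ℝ≥0) + 1) x) atTop (𝓝 x) := by
  have h1 : Tendsto (fun j : ℕ => (1 / ((j : ℝ≥0) + 1))) atTop (𝓝 0) :=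
    tendsto_one_div_add_atTop_nhds_zero_nat
  have h2 : Tendsto (fun j : ℕ => max x (1 / ((j : ℝ≥0) + 1))) atTop (𝓝 x) := by
    simpa using (tendsto_const_nhds (x := x)).max h1
  refine h2.congr' ?_
  obtain ⟨n, hn⟩ := exists_nat_ge x
  filter_upwards [eventually_ge_atTop n] with j hj
  have h3 : x ≤ (j : ℝ≥0) + 1 := (hn.trans (by exact_mod_cast hj)).trans le_self_add
  have h4 : 1 / ((j : ℝ≥0) + 1) ≤ (j : ℝ≥0) + 1 :=
    (div_le_one_of_le₀ le_add_self zero_le).trans le_add_self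
  exact (min_eq_left (max_le h3 h4)).symm

variable {W : Measure Path} {μ : Measure ℂ} {A : Path → ℝ≥0 → ℝ≥0} {Λ : Set Path}
  {B : Path → Path} {u H : ℂ → ℝ}

theorem dmart_N_eq (hC : IsClock W μ A Λ B) {w : Path} (hw : w ∈ Λ) (t : ℝ≥0) :
    dmart_N u H A B t w = dmart_K u H (B w) (A w t) := by
  unfold dmart_N dmart_K
  rw [hC.change w hw]

theorem dmart_N_meas (hC : IsClock W μ A Λ B) (hu : Continuous u) (hH : Measurable H) (t : ℝ≥0) :
    Measurable (dmart_N u H A B t) :=
  (hu.measurable.comp (measurable_eval t)).add (hC.meas_occ hH t)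

/-- increments have conditional mean zero after a positive time -/
theorem dmart_incr (hC : IsClock W μ A Λ B) (hW : IsWiener W) [IsProbabilityMeasure μ]
    (m : Measure ℂ) [IsFiniteMeasure m] (hm : m ≪ volume + μ) (hu : Continuous u) (bu : Bdd u)
    (hH : Measurable H) (bH : Bdd H) (hw : Weak μ u H) {s : ℝ≥0} (hs : 0 < s) (d : ℝ≥0)
    {Y : Path → ℝ} (hY : Measurable[Fil s] Y) (bY : Bdd Y) :
    ∫ w, Y w * (dmart_N u H A B (s + d) w - dmart_N u H A B s w) ∂Pm W m = 0 := by
  have := Pm_finite hW m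
  obtain ⟨Cu, hCu⟩ := id bu
  obtain ⟨CH, hCH⟩ := id bH
  obtain ⟨CY, hCY⟩ := bY
  set Φ : Path → ℝ := fun w => u (w.1 d) - u (w.1 0) + occ H (B w) 0 (A w d) with hΦ
  have mΦ : Measurable Φ :=
    ((hu.measurable.comp (measurable_eval d)).sub (hu.measurable.comp (measurable_eval 0))).add
      (hC.meas_occ hH d)
  have mY : Measurable Y := hY.mono (fil_le s) le_rfl
  have iΦ : Integrable (fun w => Φ (shift s w)) (Pm W m) := by
    refine Integrable.mono' ((integrable_const (2 * Cu)).add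
      ((hC.integrable_incr hW m hs d).const_mul CH))
      (mΦ.comp (measurable_shift s)).aestronglyMeasurable (ae_of_all _ fun w => ?_)
    have h3 := abs_occ_le hCH (B (shift s w)) 0 (A (shift s w) d)
    rw [abs_of_nonneg (A (shift s w) d).coe_nonneg] at h3
    have h5 := abs_le.1 (hCu ((shift s w).1 d))
    have h6 := abs_le.1 (hCu ((shift s w).1 0))
    have h7 := abs_le.1 h3
    simp only [hΦ, Real.norm_eq_abs, Pi.add_apply]
    rw [abs_le]
    constructor <;> linarith [h5.1, h5.2, h6.1, h6.2, h7.1, h7.2]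
  have hi : Integrable (fun w => Y w * Φ (shift s w)) (Pm W m) :=
    iΦ.bdd_mul mY.aestronglyMeasurable (c := CY) (ae_of_all _ fun w => hCY w)
  have e1 : ∫ w, Y w * (dmart_N u H A B (s + d) w - dmart_N u H A B s w) ∂Pm W m =
      ∫ w, Y w * Φ (shift s w) ∂Pm W m := by
    refine integral_congr_ae ?_
    filter_upwards [hC.ae_mem hW m hm] with w hw
    have h := hC.occ_add hw hH bH s d
    have h0 : (shift s w).1 0 = w.1 s := by simp [shift]
    have hd : (shift s w).1 d = w.1 (s + d) := rfl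
    simp only [hΦ, dmart_N, h, h0, hd]
    ring
  rw [e1, markov_integral hW m s hY mΦ hi]
  obtain ⟨C, hle⟩ := Pm_eval_le hW m hs
  have hac : (Pm W m).map (fun w => w.1 s) ≪ (volume : Measure ℂ) :=
    (Measure.absolutelyContinuous_of_le hle).trans Measure.smul_absolutelyContinuous
  have hz := ae_of_ae_map (measurable_eval s).aemeasurable
    (hac.ae_le (hC.zero_mean hW hu bu hH bH hw d))
  refine integral_eq_zero_of_ae ?_
  filter_upwards [hz] with w hw
  simp only [hΦ, Pi.zero_apply]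
  rw [hw, mul_zero]

/-- optional stopping inside a compact time interval -/
theorem dmart_stop (hC : IsClock W μ A Λ B) (hW : IsWiener W) [IsProbabilityMeasure μ]
    (m : Measure ℂ) [IsFiniteMeasure m] (hm : m ≪ volume + μ) (hu : Continuous u) (bu : Bdd u)
    (hH : Measurable H) (bH : Bdd H) (hw : Weak μ u H) {r : ℝ≥0} {ξ : Path → ℝ} (hξ : Cyl r ξ)
    (q : ℝ≥0) {s₀ T : ℝ≥0} (h₀ : 0 < s₀) (hT : s₀ ≤ T) :
    ∫ w, ξ (B w) * (dmart_K u H (B w) (dmart_cl (A w s₀) (A w T) (r + q)) -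
      dmart_K u H (B w) (dmart_cl (A w s₀) (A w T) r)) ∂Pm W m = 0 := by
  have := Pm_finite hW m
  obtain ⟨τ, mτ, hτ⟩ := hC.exists_inv
  obtain ⟨Cu, hCu⟩ := id bu
  obtain ⟨CH, hCH⟩ := id bH
  have hCH0 : 0 ≤ CH := (abs_nonneg _).trans (hCH 0)
  have hΛ := hC.ae_mem hW m hm
  have mcl : ∀ x, Measurable fun w => dmart_cl s₀ T (τ x w) := fun x =>
    ((mτ x).max measurable_const).min measurable_const
  have key := opt_stop (Pm W m)
    (fun t w => dmart_N u H A B t w - occ H (B w) 0 (A w s₀)) s₀ T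
    (fun t => ((dmart_N_meas hC hu hH t).sub (hC.meas_occ hH s₀)).aestronglyMeasurable)
    ?_ (fun w => Cu + CH * A (shift s₀ w) (T - s₀))
    ((integrable_const Cu).add ((hC.integrable_incr hW m h₀ (T - s₀)).const_mul CH)) ?_
    (fun w => dmart_cl s₀ T (τ r w)) (fun w => dmart_cl s₀ T (τ (r + q) w)) (mcl r) (mcl (r + q))
    ?_ (fun w => ξ (B w)) (hξ.measurable.comp hC.measB)
    (hξ.bdd.imp fun C h w => h (B w)) ?_
  · rw [← key]
    refine integral_congr_ae ?_
    filter_upwards [hΛ] with w hw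
    have hmono := (hC.mono w hw).1.monotone
    simp only [dmart_N_eq hC hw, dmart_cl_map hmono, hτ w hw]
    ring
  · filter_upwards [hΛ] with w hw
    simp only [dmart_N_eq hC hw]
    exact ((dmart_K_cont hu hH bH (B w)).comp (hC.cont hw)).sub continuous_const
  · filter_upwards [hΛ] with w hw t h1 h2
    obtain ⟨d, rfl⟩ := exists_add_of_le h1
    have hd : d ≤ T - s₀ := le_tsub_of_add_le_left h2
    have h4 : (A (shift s₀ w) d : ℝ) ≤ A (shift s₀ w) (T - s₀) := by
      exact_mod_cast (hC.mono _ (hC.shift_mem w hw s₀)).1.monotone hd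
    have h3 := abs_occ_le hCH (B (shift s₀ w)) 0 (A (shift s₀ w) d)
    rw [abs_of_nonneg (A (shift s₀ w) d).coe_nonneg] at h3
    have h5 := abs_le.1 (hCu (w.1 (s₀ + d)))
    have h6 := mul_le_mul_of_nonneg_left h4 hCH0
    have h7 := abs_le.1 h3
    simp only [dmart_N, hC.occ_add hw hH bH s₀ d]
    rw [abs_le]
    constructor <;> linarith [h5.1, h5.2, h7.1, h7.2]
  · filter_upwards [hΛ] with w hw
    refine ⟨le_min (le_max_right _ _) hT, dmart_cl_mono _ _ ?_, min_le_right _ _⟩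
    rw [← (hC.mono w hw).1.le_iff_le, hτ w hw, hτ w hw]
    exact le_self_add
  · intro s t h1 h2 _ h4
    obtain ⟨d, rfl⟩ := exists_add_of_le h2
    obtain ⟨ζ, mζ, ⟨Cζ, bζ⟩, hζ⟩ := hC.pre_cyl hξ s
    have mS : MeasurableSet[Fil s] {w : Path | r ≤ A w s ∧ A w s < r + q} :=
      hC.adapted s (measurableSet_Ico (a := r) (b := r + q))
    have mY : Measurable[Fil s] fun w => ind {w : Path | r ≤ A w s ∧ A w s < r + q} w * ζ w :=
      (Measurable.indicator (f := fun _ => (1 : ℝ)) measurable_const mS).mul mζ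
    have bY : Bdd fun w => ind {w : Path | r ≤ A w s ∧ A w s < r + q} w * ζ w := by
      refine ⟨Cζ, fun w => ?_⟩
      by_cases h : w ∈ {w : Path | r ≤ A w s ∧ A w s < r + q}
      · simpa only [ind, indicator_of_mem h, one_mul] using bζ w
      · simpa only [ind, indicator_of_notMem h, zero_mul, abs_zero] using
          (abs_nonneg _).trans (bζ w)
    rw [← dmart_incr hC hW m hm hu bu hH bH hw (h₀.trans_le h1) d mY bY]
    refine integral_congr_ae ?_
    filter_upwards [hΛ] with w hw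
    have hs := (hC.mono w hw).1
    have e : w ∈ {w | dmart_cl s₀ T (τ r w) ≤ s ∧ s < dmart_cl s₀ T (τ (r + q) w)} ↔
        w ∈ {w : Path | r ≤ A w s ∧ A w s < r + q} := by
      have e1 : τ r w ≤ s ↔ r ≤ A w s := by rw [← hs.le_iff_le, hτ w hw]
      have e2 : s < τ (r + q) w ↔ A w s < r + q := by rw [← hs.lt_iff_lt, hτ w hw]
      simp only [mem_ofPred_eq, dmart_cl, min_le_iff, max_le_iff, lt_min_iff, lt_max_iff, e1, e2,
        h1, h4, h4.not_ge, h1.not_gt, and_true, or_false]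
    by_cases h : w ∈ {w : Path | r ≤ A w s ∧ A w s < r + q}
    · simp only [ind, indicator_of_mem h, indicator_of_mem (e.2 h), hζ w hw h.1]
      ring
    · simp only [ind, indicator_of_notMem h, indicator_of_notMem (mt e.1 h), zero_mul]

theorem IsClock.bmart {W : Measure Path} {μ : Measure ℂ} {A : Path → ℝ≥0 → ℝ≥0}
    {Λ : Set Path} {B : Path → Path} (hC : IsClock W μ A Λ B) (hW : IsWiener W)
    [IsProbabilityMeasure μ] (m : Measure ℂ) [IsFiniteMeasure m] (hm : m ≪ volume + μ)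
    {u H : ℂ → ℝ} (hu : Continuous u) (bu : Bdd u) (hH : Measurable H) (bH : Bdd H)
    (hw : Weak μ u H) : BMart ((Pm W m).map B) u H := by
  intro r ξ hξ q
  have := Pm_finite hW m
  obtain ⟨τ, -, hτ⟩ := hC.exists_inv
  obtain ⟨Cu, hCu⟩ := id bu
  obtain ⟨CH, hCH⟩ := id bH
  obtain ⟨Cξ, hCξ⟩ := hξ.bdd
  have hΛ := hC.ae_mem hW m hm
  have mK : ∀ x : ℝ≥0, Measurable fun b : Path => dmart_K u H b x := fun x =>
    dmart_K_meas hu hH measurable_id measurable_const
  simp only [← dmart_K_add hH bH]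
  have mF : Measurable fun b : Path => ξ b * (dmart_K u H b (r + q) - dmart_K u H b r) :=
    hξ.measurable.mul ((mK (r + q)).sub (mK r))
  rw [integral_map hC.measB.aemeasurable mF.aestronglyMeasurable]
  have mcl : ∀ a b x : ℝ≥0, Measurable fun w => dmart_K u H (B w) (dmart_cl (A w a) (A w b) x) :=
    fun a b x => dmart_K_meas hu hH hC.measB
      ((measurable_const.max (hC.measA a)).min (hC.measA b))
  have lim := tendsto_integral_of_dominated_convergence (μ := Pm W m)
    (F := fun (j : ℕ) w => ξ (B w) *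
      (dmart_K u H (B w) (dmart_cl (A w (1 / ((j : ℝ≥0) + 1))) (A w ((j : ℝ≥0) + 1)) (r + q)) -
        dmart_K u H (B w) (dmart_cl (A w (1 / ((j : ℝ≥0) + 1))) (A w ((j : ℝ≥0) + 1)) r)))
    (f := fun w => ξ (B w) * (dmart_K u H (B w) (r + q) - dmart_K u H (B w) r))
    (fun _ => Cξ * (2 * Cu + CH * q))
    (fun j => ((hξ.measurable.comp hC.measB).mul
      ((mcl _ _ _).sub (mcl _ _ _))).aestronglyMeasurable)
    (integrable_const _) (fun j => ae_of_all _ fun w => ?_) ?_
  · refine tendsto_nhds_unique lim (tendsto_const_nhds.congr fun j => ?_)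
    refine (dmart_stop hC hW m hm hu bu hH bH hw hξ q (by positivity) ?_).symm
    exact (div_le_one_of_le₀ le_add_self zero_le).trans le_add_self
  · rw [Real.norm_eq_abs, abs_mul]
    exact mul_le_mul (hCξ _) (dmart_K_bound hH hCu hCH _ (dmart_cl_mono _ _ le_self_add)
      (dmart_cl_add _ _ _ _)) (abs_nonneg _) ((abs_nonneg _).trans (hCξ (B w)))
  · filter_upwards [hΛ] with w hw
    have hmono := (hC.mono w hw).1.monotone
    have t1 : ∀ x : ℝ≥0, Tendsto (fun j : ℕ => dmart_K u H (B w)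
        (dmart_cl (A w (1 / ((j : ℝ≥0) + 1))) (A w ((j : ℝ≥0) + 1)) x)) atTop
        (𝓝 (dmart_K u H (B w) x)) := fun x => by
      have h := (((dmart_K_cont hu hH bH (B w)).comp (hC.cont hw)).tendsto _).comp
        (dmart_cl_tendsto (τ x w))
      simpa only [Function.comp_def, dmart_cl_map hmono, hτ w hw] using h
    exact ((t1 (r + q)).sub (t1 r)).const_mul _

end Pool.Agent.QL
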