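import Pool.Agent.P.MP_7a6434d8_pr.QL.W.Base

/-! Measurability on path space and one-time laws of planar Brownian motion. -/

open MeasureTheory ProbabilityTheory Set Filter Topology Metric
open scoped ENNReal NNReal

namespace Pool.Agent.QL

open Pool.Agent.LGD Pool.Agent.P.MP_7a6434d8_pr

variable {W : Measure Path}

theorem dmeas_mk : Measurable fun p : ℝ × ℝ => (⟨p.1, p.2⟩ : ℂ) :=
  Complex.measurableEquivRealProd.symm.measurable

theorem dmeas_gauss_le {t : ℝ≥0} (ht : 0 < t) :
    ∃ c : ℝ≥0, gaussianReal 0 t ≤ c • (volume : Measure ℝ) := by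
  refine ⟨Real.toNNReal (√(2 * Real.pi * t))⁻¹, ?_⟩
  rw [gaussianReal_of_var_ne_zero _ ht.ne']
  have h1 : ∀ x, gaussianPDF 0 t x ≤
      ((Real.toNNReal (√(2 * Real.pi * t))⁻¹ : ℝ≥0) : ℝ≥0∞) := by
    intro x
    rw [gaussianPDF]
    apply ENNReal.ofReal_le_ofReal
    rw [gaussianPDFReal]
    have h2 : Real.exp (-(x - 0) ^ 2 / (2 * (t : ℝ))) ≤ 1 := by
      rw [Real.exp_le_one_iff]
      have : (0 : ℝ) < t := ht
      exact div_nonpos_of_nonpos_of_nonneg (neg_nonpos.2 (sq_nonneg _)) (by positivity)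
    exact mul_le_of_le_one_right (by positivity) h2
  refine (withDensity_mono (ae_of_all _ h1)).trans (le_of_eq ?_)
  rw [withDensity_const]
  rfl

theorem measurable_eval (t : ℝ≥0) : Measurable fun w : Path => w.1 t :=
  (measurable_pi_apply t).comp measurable_subtype_coe

theorem measurable_eval2 : Measurable fun p : Path × ℝ≥0 => p.1.1 p.2 :=
  (measurable_uncurry_of_continuous_of_measurable (u := fun (t : ℝ≥0) (w : Path) => w.1 t)
    (fun w => w.2) measurable_eval).comp measurable_swap

theorem measurable_path {α : Type} {m : MeasurableSpace α} {F : α → Path}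
    (h : ∀ t, Measurable fun a => (F a).1 t) : Measurable F := by
  have h1 : Measurable fun a => (F a).1 := measurable_pi_lambda _ h
  exact h1.subtype_mk

theorem measurable_tr : Measurable fun p : ℂ × Path => tr p.1 p.2 :=
  measurable_path fun t => measurable_fst.add ((measurable_eval t).comp measurable_snd)

theorem measurable_shift (s : ℝ≥0) : Measurable (shift s) :=
  measurable_path fun t => measurable_eval (s + t)

theorem measurable_incr (s : ℝ≥0) : Measurable (incr s) :=
  measurable_path fun t => (measurable_eval s).neg.add (measurable_eval (s + t))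

theorem measurable_past (s : ℝ≥0) : Measurable (past s) :=
  measurable_pi_lambda _ fun r => measurable_eval r.1

theorem tr_incr (s : ℝ≥0) (w : Path) : tr (w.1 s) (incr s w) = shift s w := by
  apply Subtype.ext
  funext t
  simp [tr, incr, shift]

theorem fil_le (s : ℝ≥0) : Fil s ≤ (inferInstance : MeasurableSpace Path) :=
  (measurable_past s).comap_le

theorem fil_mono {s t : ℝ≥0} (h : s ≤ t) : Fil s ≤ Fil t := by
  have h1 : Measurable[Fil t] fun (w : Path) (r : Iic s) => w.1 r := by
    refine @measurable_pi_lambda Path (Iic s) (fun _ => ℂ) (Fil t) _ _ fun r => ?_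
    exact (measurable_pi_apply (⟨r.1, le_trans r.2 h⟩ : Iic t)).comp
      (comap_measurable fun (w : Path) (r : Iic t) => w.1 r)
  exact h1.comap_le

theorem fil_eval {s t : ℝ≥0} (h : t ≤ s) : Measurable[Fil s] fun w : Path => w.1 t :=
  (measurable_pi_apply (⟨t, h⟩ : Iic s)).comp
    (comap_measurable fun (w : Path) (r : Iic s) => w.1 r)

theorem IsWiener.prob (hW : IsWiener W) : IsProbabilityMeasure W :=
  hW.re.isGaussianProcess.isProbabilityMeasure

theorem IsWiener.zero (hW : IsWiener W) : ∀ᵐ w ∂W, w.1 0 = 0 := by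
  filter_upwards [hW.re.eval_zero_ae_eq_zero, hW.im.eval_zero_ae_eq_zero] with w h1 h2
  exact Complex.ext h1 h2

theorem IsWiener.law (hW : IsWiener W) (t : ℝ≥0) : W.map (fun w => w.1 t) =
    ((gaussianReal 0 t).prod (gaussianReal 0 t)).map fun p => (⟨p.1, p.2⟩ : ℂ) := by
  have := hW.prob
  have hre : Measurable fun w : Path => (w.1 t).re := Complex.measurable_re.comp (measurable_eval t)
  have him : Measurable fun w : Path => (w.1 t).im := Complex.measurable_im.comp (measurable_eval t)
  have hi : IndepFun (fun w : Path => (w.1 t).re) (fun w : Path => (w.1 t).im) W :=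
    hW.indep.comp (measurable_pi_apply t) (measurable_pi_apply t)
  have h1 := (indepFun_iff_map_prod_eq_prod_map_map hre.aemeasurable him.aemeasurable).1 hi
  have h2 : W.map (fun w : Path => (w.1 t).re) = gaussianReal 0 t := (hW.re.hasLaw_eval t).map_eq
  have h3 : W.map (fun w : Path => (w.1 t).im) = gaussianReal 0 t := (hW.im.hasLaw_eval t).map_eq
  rw [h2, h3] at h1
  rw [← h1, Measure.map_map dmeas_mk (hre.prodMk him)]
  rfl

theorem IsWiener.law_neg (hW : IsWiener W) (t : ℝ≥0) :
    W.map (fun w => -w.1 t) = W.map fun w => w.1 t := by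
  have h1 : W.map (fun w => -w.1 t) = (W.map fun w => w.1 t).map fun z : ℂ => -z := by
    rw [Measure.map_map measurable_neg (measurable_eval t)]
    rfl
  rw [h1, hW.law t, Measure.map_map measurable_neg dmeas_mk]
  have h2 : ((fun z : ℂ => -z) ∘ fun p : ℝ × ℝ => (⟨p.1, p.2⟩ : ℂ)) =
      (fun p : ℝ × ℝ => (⟨p.1, p.2⟩ : ℂ)) ∘ Prod.map (fun x : ℝ => -x) (fun x : ℝ => -x) := by
    funext p
    apply Complex.ext <;> simp
  rw [h2, ← Measure.map_map dmeas_mk (measurable_neg.prodMap measurable_neg),
    ← Measure.map_prod_map _ _ measurable_neg measurable_neg, gaussianReal_map_neg, neg_zero]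

theorem IsWiener.law_le (hW : IsWiener W) {t : ℝ≥0} (ht : 0 < t) :
    ∃ C : ℝ≥0, W.map (fun w => w.1 t) ≤ C • (volume : Measure ℂ) := by
  obtain ⟨c, hc⟩ := dmeas_gauss_le ht
  refine ⟨c * c, ?_⟩
  rw [hW.law t]
  have h1 : (gaussianReal 0 t).prod (gaussianReal 0 t) ≤
      (c * c) • ((volume : Measure ℝ).prod (volume : Measure ℝ)) := by
    refine (Measure.prod_mono hc hc).trans (le_of_eq ?_)
    rw [Measure.prod_smul_left, Measure.prod_smul_right, smul_smul]
  refine (Measure.map_mono h1 dmeas_mk).trans (le_of_eq ?_)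
  rw [Measure.map_smul]
  congr 1
  exact Complex.volume_preserving_equiv_real_prod.symm.map_eq

theorem Cyl.measurable {r : ℝ≥0} {ξ : Path → ℝ} (h : Cyl r ξ) : Measurable ξ := by
  obtain ⟨k, t, f, -, hf, -, rfl⟩ := h
  exact Finset.measurable_prod _ fun i _ => (hf i).measurable.comp (measurable_eval (t i))

theorem Cyl.bdd {r : ℝ≥0} {ξ : Path → ℝ} (h : Cyl r ξ) : Bdd ξ := by
  obtain ⟨k, t, f, -, -, hf, rfl⟩ := h
  choose C hC using hf
  refine ⟨∏ i, C i, fun b => ?_⟩
  rw [Finset.abs_prod]
  exact Finset.prod_le_prod (fun i _ => abs_nonneg _) fun i _ => hC i _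

theorem cyl_one (r : ℝ≥0) : Cyl r fun _ => 1 :=
  ⟨0, Fin.elim0, Fin.elim0, fun i => i.elim0, fun i => i.elim0, fun i => i.elim0, by
    funext b
    simp⟩

end Pool.Agent.QL
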