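import Pool.Agent.P.MP_7a6434d8_pr.QL.W.DClock
import Pool.Agent.P.MP_7a6434d8_pr.QL.W.DDynkin

/-! The Revuz formula with an initial density. -/

open MeasureTheory ProbabilityTheory Set Filter Topology Metric
open scoped ENNReal NNReal

namespace Pool.Agent.QL

open Pool.Agent.LGD Pool.Agent.P.MP_7a6434d8_pr

section

variable {W : Measure Path} {μ : Measure ℂ} {A : Path → ℝ≥0 → ℝ≥0} {Λ : Set Path}
  {B : Path → Path} {w : Path} {ψ g H : ℂ → ℝ}

theorem docc_dual (hW : IsWiener W) (s : ℝ≥0) (hψ : Measurable ψ) (bψ : Bdd ψ) {k : ℂ → ℝ}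
    (ik : Integrable k) :
    ∫ w, ψ (w.1 0) * k (w.1 s) ∂Pm W volume = ∫ y, heat W s ψ y * k y := by
  have := hW.prob
  obtain ⟨C, hC⟩ := bψ
  have mp : MeasurePreserving (fun w : Path => w.1 s) (Pm W volume) volume :=
    ⟨measurable_eval s, Pm_eval_vol hW s⟩
  have i1 : Integrable (fun w : Path => ψ (w.1 0) * k (w.1 s)) (Pm W volume) :=
    (mp.integrable_comp_of_integrable ik).bdd_mul
      (hψ.comp (measurable_eval 0)).aestronglyMeasurable (Eventually.of_forall fun w => hC _)
  have m2 : Measurable fun p : Path × ℂ => ψ (p.2 + -p.1.1 s) :=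
    hψ.comp (measurable_snd.add ((measurable_eval s).comp measurable_fst).neg)
  have i2 : Integrable (Function.uncurry fun (w : Path) (y : ℂ) => ψ (y + -w.1 s) * k y)
      (W.prod volume) :=
    (ik.comp_snd W).bdd_mul m2.aestronglyMeasurable (Eventually.of_forall fun p => hC _)
  rw [integral_Pm hW volume i1,
    integral_integral_swap (f := fun y w => ψ ((tr y w).1 0) * k ((tr y w).1 s))
      (integrable_Pm hW volume i1)]
  have e1 : ∫ w, ∫ y, ψ ((tr y w).1 0) * k ((tr y w).1 s) ∂volume ∂W =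
      ∫ w, ∫ y, ψ (y + -w.1 s) * k y ∂volume ∂W := by
    refine integral_congr_ae ?_
    filter_upwards [hW.zero] with w hw
    rw [← integral_add_right_eq_self (fun y => ψ (y + -w.1 s) * k y) (w.1 s)]
    simp [tr, hw]
  rw [e1, integral_integral_swap i2]
  refine integral_congr_ae (Eventually.of_forall fun y => ?_)
  have my : Measurable fun x : ℂ => ψ (y + x) := hψ.comp (measurable_const_add y)
  have e2 := integral_map (μ := W) (measurable_eval s).fun_neg.aemeasurable my.aestronglyMeasurable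
  have e3 := integral_map (μ := W) (measurable_eval s).aemeasurable my.aestronglyMeasurable
  simp only [integral_mul_const, heat]
  rw [← e2, ← e3, hW.law_neg]

theorem docc_key (hW : IsWiener W) (s : ℝ≥0) (hψ : Continuous ψ) (bψ : Bdd ψ) {Φ : Path → ℝ}
    (hΦ : Measurable Φ) (iΦ : Integrable Φ (Pm W volume)) :
    ∫ w, ψ (w.1 0) * Φ (shift s w) ∂Pm W volume =
      ∫ w, heat W s ψ (w.1 0) * Φ w ∂Pm W volume := by
  have := hW.prob
  have hg : Measurable (heat W s ψ) :=
    ((heat_cont hW hψ bψ).comp (continuous_const.prodMk continuous_id)).measurable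
  have hk : Measurable fun y => ∫ w', Φ (tr y w') ∂W :=
    ((hΦ.comp measurable_tr).stronglyMeasurable.integral_prod_right'
      (f := fun p : ℂ × Path => Φ (tr p.1 p.2))).measurable
  have ik : Integrable fun y => ∫ w', Φ (tr y w') ∂W :=
    (integrable_Pm hW volume iΦ).integral_prod_left
  obtain ⟨C, hC⟩ := id bψ
  have mp : ∀ r, MeasurePreserving (shift r) (Pm W volume) (Pm W volume) := fun r =>
    ⟨measurable_shift r, Pm_shift hW r⟩
  have e0 : ∀ w : Path, shift 0 w = w := fun w => Subtype.ext (funext fun r => by simp [shift])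
  have e1 := markov_integral hW volume s (Y := fun w => ψ (w.1 0))
    (hψ.measurable.comp (fil_eval zero_le)) hΦ
    (((mp s).integrable_comp_of_integrable iΦ).bdd_mul
      (hψ.measurable.comp (measurable_eval 0)).aestronglyMeasurable
      (Eventually.of_forall fun w => hC _))
  have e2 := markov_integral hW volume 0 (Y := fun w => heat W s ψ (w.1 0))
    (hg.comp (fil_eval le_rfl)) hΦ
    (((mp 0).integrable_comp_of_integrable iΦ).bdd_mul
      (hg.comp (measurable_eval 0)).aestronglyMeasurable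
      (Eventually.of_forall fun w => abs_heat_le hW hC s _))
  simp only [e0] at e2
  have e3 := integral_map (μ := Pm W volume) (measurable_eval 0).aemeasurable
    (hg.fun_mul hk).aestronglyMeasurable
  rw [e1, e2, docc_dual hW s hψ.measurable bψ ik, ← e3, Pm_eval_vol hW 0]

theorem docc_ii (hH : Measurable H) (bH : Bdd H) (b : Path) (r : ℝ≥0) (q : ℝ) :
    IntervalIntegrable (fun v : ℝ => H (b.1 (r + v.toNNReal))) volume 0 q := by
  obtain ⟨C, hC⟩ := bH
  refine (intervalIntegrable_const (c := C)).mono_fun' ?_ (Eventually.of_forall fun v => hC _)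
  exact (hH.comp (b.2.comp
    (continuous_const.add continuous_real_toNNReal)).measurable).aestronglyMeasurable

theorem docc_bdd (bg : Bdd g) (bH : Bdd H) : Bdd fun z => g z * H z := by
  obtain ⟨C, hC⟩ := bg
  obtain ⟨D, hD⟩ := bH
  refine ⟨C * D, fun z => ?_⟩
  rw [abs_mul]
  exact mul_le_mul (hC z) (hD z) (abs_nonneg _) ((abs_nonneg _).trans (hC z))

theorem docc_int (hC : IsClock W μ A Λ B) (hW : IsWiener W) [IsProbabilityMeasure μ]
    (hH : Measurable H) (bH : Bdd H) (t : ℝ≥0) :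
    Integrable (fun w => occ H (B w) 0 (A w t)) (Pm W volume) := by
  obtain ⟨D, hD⟩ := bH
  refine ((hC.integrable_A hW t).const_mul D).mono' (hC.meas_occ hH t).aestronglyMeasurable
    (Eventually.of_forall fun w => ?_)
  simpa using abs_occ_le hD (B w) 0 (A w t)

/-- the error made by freezing `g` at the starting point -/
noncomputable def doccZ (A : Path → ℝ≥0 → ℝ≥0) (B : Path → Path) (g H : ℂ → ℝ) (δ : ℝ≥0)
    (w : Path) : ℝ :=
  g (w.1 0) * occ H (B w) 0 (A w δ) - occ (fun z => g z * H z) (B w) 0 (A w δ)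

theorem docc_pt (hC : IsClock W μ A Λ B) (hw : w ∈ Λ) (hg : Measurable g) (bg : Bdd g)
    (hH : Measurable H) {D : ℝ} (hD : ∀ z, |H z| ≤ D) {δ : ℝ≥0} {ε : ℝ}
    (h : ∀ r ≤ δ, |g (w.1 0) - g (w.1 r)| ≤ ε) : |doccZ A B g H δ w| ≤ ε * D * A w δ := by
  have h0 : 0 ≤ ε := (abs_nonneg _).trans (h 0 zero_le)
  unfold doccZ occ
  rw [← intervalIntegral.integral_const_mul, ← intervalIntegral.integral_sub
    ((docc_ii hH ⟨D, hD⟩ _ _ _).const_mul _)
    (docc_ii (hg.fun_mul hH) (docc_bdd bg ⟨D, hD⟩) _ _ _)]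
  have e : |(A w δ : ℝ) - 0| = A w δ := by rw [sub_zero, NNReal.abs_eq]
  rw [← e, ← Real.norm_eq_abs, e]
  refine (intervalIntegral.norm_integral_le_of_norm_le_const (C := ε * D)
    fun v hv => ?_).trans (le_of_eq (congrArg _ e))
  rw [uIoc_of_le (NNReal.coe_nonneg _)] at hv
  obtain ⟨r, hr⟩ := (hC.mono w hw).2 v.toNNReal
  have hle : r ≤ δ := by
    rw [← (hC.mono w hw).1.le_iff_le, hr]
    exact Real.toNNReal_le_iff_le_coe.2 hv.2
  rw [zero_add, ← hr, hC.change w hw, ← sub_mul, Real.norm_eq_abs, abs_mul]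
  exact mul_le_mul (h r hle) (hD _) (abs_nonneg _) h0

theorem docc_tel (hC : IsClock W μ A Λ B) (hw : w ∈ Λ) (δ : ℝ≥0) (N : ℕ) :
    ∑ l ∈ Finset.range N, (A (shift (l * δ) w) δ : ℝ) = A w (N * δ) := by
  induction N with
  | zero => simp [hC.zero hw]
  | succ N ih =>
    rw [Finset.sum_range_succ, ih, Nat.cast_succ, add_mul, one_mul, hC.add w hw, NNReal.coe_add]

theorem docc_sum (hC : IsClock W μ A Λ B) (hw : w ∈ Λ) (hg : Measurable g) (bg : Bdd g)
    (hH : Measurable H) {D : ℝ} (hD : ∀ z, |H z| ≤ D) {δ : ℝ≥0} {N : ℕ} (hN : N * δ ≤ 2) {ε : ℝ}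
    (h0 : 0 ≤ ε) (h : ∀ r ≤ 2, ∀ r' ≤ 2, dist r r' ≤ δ → |g (w.1 r) - g (w.1 r')| ≤ ε) :
    |∑ l ∈ Finset.range N, doccZ A B g H δ (shift (l * δ) w)| ≤ ε * D * A w 2 := by
  have hD0 : 0 ≤ D := (abs_nonneg _).trans (hD 0)
  refine (Finset.abs_sum_le_sum_abs _ _).trans ((Finset.sum_le_sum (g := fun l : ℕ =>
    ε * D * A (shift (l * δ) w) δ) fun l hl => ?_).trans ?_)
  · refine docc_pt hC (hC.shift_mem w hw _) hg bg hH hD fun r hr => ?_
    have hl' : ((l + 1 : ℕ) : ℝ≥0) ≤ N := Nat.cast_le.2 (Finset.mem_range.1 hl)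
    have h2 : l * δ + r ≤ 2 := by
      refine le_trans ?_ ((mul_le_mul_left hl' δ).trans hN)
      rw [Nat.cast_succ, add_mul, one_mul]
      gcongr
    refine h _ (le_trans (by gcongr; exact zero_le) h2) _ h2 ?_
    rw [NNReal.dist_eq]
    simpa using hr
  · rw [← Finset.mul_sum, docc_tel hC hw]
    exact mul_le_mul_of_nonneg_left (NNReal.coe_le_coe.2 ((hC.mono w hw).1.monotone hN))
      (mul_nonneg h0 hD0)

theorem docc_lim (hC : IsClock W μ A Λ B) (hW : IsWiener W) [IsProbabilityMeasure μ]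
    (hg : Continuous g) (bg : Bdd g) (hH : Measurable H) (bH : Bdd H) :
    Tendsto (fun δ : ℝ≥0 => (∫ w, g (w.1 0) * occ H (B w) 0 (A w δ) ∂Pm W volume) / δ) (𝓝[>] 0)
      (𝓝 (∫ z, g z * H z ∂μ)) := by
  obtain ⟨C, hg'⟩ := id bg
  obtain ⟨D, hD⟩ := id bH
  have hC0 : 0 ≤ C := (abs_nonneg _).trans (hg' 0)
  have hD0 : 0 ≤ D := (abs_nonneg _).trans (hD 0)
  have hΛ := hC.ae_mem hW volume (Measure.absolutelyContinuous_of_le (Measure.le_add_right le_rfl))
  have iX : ∀ δ, Integrable (fun w => g (w.1 0) * occ H (B w) 0 (A w δ)) (Pm W volume) :=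
    fun δ => (docc_int hC hW hH bH δ).bdd_mul
      (hg.measurable.comp (measurable_eval 0)).aestronglyMeasurable
      (Eventually.of_forall fun w => hg' _)
  have iY := docc_int hC hW (hg.measurable.fun_mul hH) (docc_bdd bg bH)
  have iZ : ∀ δ, Integrable (doccZ A B g H δ) (Pm W volume) := fun δ => (iX δ).sub (iY δ)
  have mp : ∀ r, MeasurePreserving (shift r) (Pm W volume) (Pm W volume) := fun r =>
    ⟨measurable_shift r, Pm_shift hW r⟩
  have iS : ∀ δ r, Integrable (fun w => doccZ A B g H δ (shift r w)) (Pm W volume) :=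
    fun δ r => (mp r).integrable_comp_of_integrable (iZ δ)
  have eS : ∀ (δ : ℝ≥0) (N : ℕ),
      ∫ w, ∑ l ∈ Finset.range N, doccZ A B g H δ (shift (l * δ) w) ∂Pm W volume =
        N * ∫ w, doccZ A B g H δ w ∂Pm W volume := fun δ N => by
    rw [integral_finsetSum _ fun l _ => iS δ _]
    refine (Finset.sum_congr rfl fun l _ => ?_).trans (by rw [Finset.sum_const, Finset.card_range,
      nsmul_eq_mul])
    have e := integral_map (μ := Pm W volume) (measurable_shift (l * δ)).aemeasurable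
      (f := doccZ A B g H δ) (by rw [Pm_shift hW]; exact (iZ δ).aestronglyMeasurable)
    rw [← e, Pm_shift hW]
  have hsm : ∀ᶠ δ : ℝ≥0 in 𝓝[>] 0, 0 < δ ∧ (⌈δ⁻¹⌉₊ : ℝ≥0) * δ ≤ 2 := by
    filter_upwards [Ioc_mem_nhdsGT zero_lt_one] with δ hδ
    refine ⟨hδ.1, ?_⟩
    calc (⌈δ⁻¹⌉₊ : ℝ≥0) * δ ≤ (δ⁻¹ + 1) * δ := by
          gcongr
          exact (Nat.ceil_lt_add_one zero_le).le
      _ = 1 + δ := by rw [add_mul, inv_mul_cancel₀ hδ.1.ne', one_mul]
      _ ≤ 1 + 1 := by gcongr; exact hδ.2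
      _ = 2 := one_add_one_eq_two
  have hT : Tendsto (fun δ : ℝ≥0 => ∫ w, ∑ l ∈ Finset.range ⌈δ⁻¹⌉₊,
      doccZ A B g H δ (shift (l * δ) w) ∂Pm W volume) (𝓝[>] 0) (𝓝 (∫ _, (0 : ℝ) ∂Pm W volume)) := by
    refine tendsto_integral_filter_of_dominated_convergence (fun w => (C + C) * D * A w 2)
      (Eventually.of_forall fun δ =>
        (integrable_finsetSum _ fun l _ => iS δ _).aestronglyMeasurable) ?_
      ((hC.integrable_A hW 2).const_mul _) ?_
    · filter_upwards [hsm] with δ hδ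
      filter_upwards [hΛ] with w hw
      exact docc_sum hC hw hg.measurable bg hH hD hδ.2 (add_nonneg hC0 hC0) fun r _ r' _ _ =>
        (abs_sub _ _).trans (add_le_add (hg' _) (hg' _))
    · filter_upwards [hΛ] with w hw
      refine Metric.tendsto_nhds.2 fun ε hε => ?_
      have hp : 0 < D * A w 2 + 1 := by positivity
      obtain ⟨η, hη, hu⟩ := Metric.uniformContinuousOn_iff.1
        ((isCompact_Icc (a := (0 : ℝ≥0)) (b := 2)).uniformContinuousOn_of_continuous
          (hg.comp w.2).continuousOn) _ (div_pos hε hp)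
      have hη' : ∀ᶠ δ : ℝ≥0 in 𝓝[>] 0, (δ : ℝ) < η :=
        nhdsWithin_le_nhds (NNReal.continuous_coe.continuousAt.eventually_lt continuousAt_const
          (by simpa using hη))
      filter_upwards [hsm, hη'] with δ hδ hδ'
      rw [Real.dist_0_eq_abs]
      refine (docc_sum hC hw hg.measurable bg hH hD hδ.2 (div_pos hε hp).le fun r hr r' hr' hd =>
        (hu r ⟨zero_le, hr⟩ r' ⟨zero_le, hr'⟩ (hd.trans_lt hδ')).le).trans_lt ?_
      rw [mul_assoc, div_mul_eq_mul_div, div_lt_iff₀ hp]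
      nlinarith
  rw [integral_zero] at hT
  have hZ : Tendsto (fun δ : ℝ≥0 => (∫ w, doccZ A B g H δ w ∂Pm W volume) / δ) (𝓝[>] 0)
      (𝓝 0) := by
    refine squeeze_zero_norm' ?_ (tendsto_zero_iff_norm_tendsto_zero.1 hT)
    filter_upwards [hsm] with δ hδ
    rw [eS, norm_div, norm_mul, div_eq_inv_mul, Real.norm_natCast, NNReal.norm_eq]
    gcongr
    exact_mod_cast Nat.le_ceil δ⁻¹
  have hs := hZ.add_const (∫ z, g z * H z ∂μ)
  rw [zero_add] at hs
  refine hs.congr' ?_
  filter_upwards [hsm] with δ hδ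
  have hδ' : (δ : ℝ) ≠ 0 := NNReal.coe_ne_zero.2 hδ.1.ne'
  unfold doccZ
  rw [integral_sub (iX δ) (iY δ), hC.revuz_real hW (hg.measurable.fun_mul hH) (docc_bdd bg bH)]
  field_simp
  ring

end

theorem IsClock.occ_dual {W : Measure Path} {μ : Measure ℂ} {A : Path → ℝ≥0 → ℝ≥0} {Λ : Set Path}
    {B : Path → Path} (hC : IsClock W μ A Λ B) (hW : IsWiener W) [IsProbabilityMeasure μ]
    {ψ H : ℂ → ℝ} (hψ : Continuous ψ) (hs : HasCompactSupport ψ) (hH : Measurable H) (bH : Bdd H)
    (t : ℝ≥0) :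
    ∫ w, ψ (w.1 0) * occ H (B w) 0 (A w t) ∂Pm W volume =
      ∫ s in (0 : ℝ)..t, ∫ z, heat W s.toNNReal ψ z * H z ∂μ := by
  obtain ⟨C, hψ'⟩ := hψ.bounded_above_of_compact_support hs
  have bψ : Bdd ψ := ⟨C, hψ'⟩
  obtain ⟨D, hD⟩ := id bH
  have hC0 : 0 ≤ C := (abs_nonneg _).trans (hψ' 0)
  have hD0 : 0 ≤ D := (abs_nonneg _).trans (hD 0)
  have hΛ := hC.ae_mem hW volume (Measure.absolutelyContinuous_of_le (Measure.le_add_right le_rfl))
  have m0 := (hψ.measurable.comp (measurable_eval 0)).aestronglyMeasurable (μ := Pm W volume)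
  have iX : ∀ s, Integrable (fun w => ψ (w.1 0) * occ H (B w) 0 (A w s)) (Pm W volume) :=
    fun s => (docc_int hC hW hH bH s).bdd_mul m0 (Eventually.of_forall fun w => hψ' _)
  have hh := heat_cont hW hψ bψ
  have hG : Continuous fun s : ℝ => ∫ z, heat W s.toNNReal ψ z * H z ∂μ := by
    refine continuous_of_dominated (bound := fun _ => C * D) (fun s => ?_)
      (fun s => Eventually.of_forall fun z => ?_) (integrable_const _)
      (Eventually.of_forall fun z => ?_)
    · exact ((hh.comp (continuous_const.prodMk continuous_id)).measurable.mul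
        hH).aestronglyMeasurable
    · rw [Real.norm_eq_abs, abs_mul]
      exact mul_le_mul (abs_heat_le hW hψ' _ _) (hD z) (abs_nonneg _) hC0
    · exact (hh.comp (continuous_real_toNNReal.prodMk continuous_const)).mul continuous_const
  rw [intervalIntegral.integral_eq_sub_of_hasDeriv_right_of_le
    (f := fun s : ℝ => ∫ w, ψ (w.1 0) * occ H (B w) 0 (A w s.toNNReal) ∂Pm W volume)
    t.coe_nonneg ?_ ?_ (hG.intervalIntegrable _ _)]
  · have e : ∫ w, ψ (w.1 0) * occ H (B w) 0 (A w (0 : ℝ).toNNReal) ∂Pm W volume = 0 := by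
      refine integral_eq_zero_of_ae ?_
      filter_upwards [hΛ] with w hw
      simp [hC.zero hw, occ]
    simp only [e, Real.toNNReal_coe, sub_zero]
  · refine continuousOn_of_dominated (bound := fun w => C * (D * A w t))
      (fun s _ => (iX _).aestronglyMeasurable) (fun s hs => ?_)
      (((hC.integrable_A hW t).const_mul _).const_mul _) ?_
    · filter_upwards [hΛ] with w hw
      rw [Real.norm_eq_abs, abs_mul]
      refine mul_le_mul (hψ' _) ((abs_occ_le hD _ _ _).trans ?_) (abs_nonneg _) hC0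
      rw [NNReal.abs_eq]
      exact mul_le_mul_of_nonneg_left (NNReal.coe_le_coe.2
        ((hC.mono w hw).1.monotone (Real.toNNReal_le_iff_le_coe.2 hs.2))) hD0
    · filter_upwards [hΛ] with w hw
      exact (continuous_const.mul ((occ_cont hH bH _ _).comp (NNReal.continuous_coe.comp
        ((hC.cont hw).comp continuous_real_toNNReal)))).continuousOn
  · intro x hx
    rw [hasDerivWithinAt_iff_tendsto_slope' self_notMem_Ioi]
    have hd : Tendsto (fun y : ℝ => (y - x).toNNReal) (𝓝[>] x) (𝓝[>] 0) := by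
      refine tendsto_nhdsWithin_iff.2 ⟨?_, ?_⟩
      · refine Tendsto.mono_left ?_ nhdsWithin_le_nhds
        exact (continuous_real_toNNReal.comp (continuous_sub_right x)).tendsto' x 0 (by simp)
      · filter_upwards [self_mem_nhdsWithin] with y hy
        exact Real.toNNReal_pos.2 (sub_pos.2 hy)
    refine ((docc_lim hC hW (hh.comp (continuous_const.prodMk continuous_id))
      ⟨C, abs_heat_le hW hψ' x.toNNReal⟩ hH bH).comp hd).congr' ?_
    filter_upwards [self_mem_nhdsWithin] with y hy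
    have hy' : 0 ≤ y - x := sub_nonneg.2 (le_of_lt hy)
    have e : y.toNNReal = x.toNNReal + (y - x).toNNReal := by
      rw [← Real.toNNReal_add hx.1.le hy', add_sub_cancel]
    have k := docc_key hW x.toNNReal hψ bψ (hC.meas_occ hH (y - x).toNNReal)
      (docc_int hC hW hH bH _)
    rw [slope_def_field, ← integral_sub (iX _) (iX _), Function.comp_apply, Real.coe_toNNReal _ hy']
    refine congrArg (· / (y - x)) (k.symm.trans (integral_congr_ae ?_))
    filter_upwards [hΛ] with w hw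
    rw [e, hC.occ_add hw hH bH]
    ring

end Pool.Agent.QL
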