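import Pool.Agent.P.MP_7a6434d8_pr.QL.W.Lap

/-! Sub-mean value inequality for weak subsolutions. -/

open MeasureTheory ProbabilityTheory Set Filter Topology Metric
open scoped ENNReal NNReal

namespace Pool.Agent.QL

open Pool.Agent.LGD Pool.Agent.P.MP_7a6434d8_pr

theorem dsmv_smooth {e : ℝ} (he : 0 < e) (c : ℝ) :
    ContDiff ℝ (⊤ : ℕ∞) (fun y => c - Real.log (potQ 0 e y)) := by
  refine contDiff_const.sub (ContDiff.log ?_ fun y => (potQ_pos 0 he y).ne')
  have h1 : ContDiff ℝ (⊤ : ℕ∞) fun y : ℂ => y.re := Complex.reCLM.contDiff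
  have h2 : ContDiff ℝ (⊤ : ℕ∞) fun y : ℂ => y.im := Complex.imCLM.contDiff
  exact (((h1.sub contDiff_const).pow 2).add ((h2.sub contDiff_const).pow 2)).add contDiff_const

theorem dsmv_lap {e : ℝ} (he : 0 < e) (c : ℝ) (y : ℂ) :
    Laplacian.laplacian (fun y => c - Real.log (potQ 0 e y)) y =
      -(4 * e ^ 2 / (potQ 0 e y) ^ 2) := by
  have h := (contDiff_const (c := c)).contDiffAt.laplacian_sub
    ((potL_contDiff 0 he).contDiffAt (x := y))
  rw [potL_laplacian 0 he] at h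
  rw [show (fun y => c - Real.log (potQ 0 e y)) =
    (fun _ : ℂ => c) - fun y => Real.log (potQ 0 e y) from rfl, h]
  simp

theorem dsmv_fderiv {e : ℝ} (he : 0 < e) (c : ℝ) (y v : ℂ) :
    fderiv ℝ (fun y => c - Real.log (potQ 0 e y)) y v =
      -((2 * y.re * v.re + 2 * y.im * v.im) * (potQ 0 e y)⁻¹) := by
  rw [fderiv_const_sub, neg_apply, potL_fderiv 0 he]
  simp

theorem dsmv_Q (e : ℝ) (y : ℂ) : potQ 0 e y = ‖y‖ ^ 2 + e ^ 2 := by
  rw [potQ_eq, zero_sub, norm_neg]

theorem dsmv_nonneg {r e : ℝ} (he : 0 < e) (he1 : e ≤ 1) {y : ℂ} (hy : ‖y‖ ≤ r) :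
    0 ≤ Real.log (r ^ 2 + 1) - Real.log (potQ 0 e y) := by
  refine sub_nonneg.2 (Real.log_le_log (potQ_pos 0 he y) ?_)
  rw [dsmv_Q]
  nlinarith [norm_nonneg y]

/-- the error term is bounded uniformly in the regularisation -/
theorem dsmv_bound {r : ℝ} (hr : 0 < r) (χ : ContDiffBump (0 : ℂ)) (h1 : χ.rIn = r / 4)
    (h2 : χ.rOut = r / 2) : ∃ M : ℝ, 0 ≤ M ∧ ∀ e, 0 < e → e ≤ 1 → ∀ y,
      |Laplacian.laplacian (fun y => χ y * (Real.log (r ^ 2 + 1) - Real.log (potQ 0 e y))) y +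
        χ y * (4 * e ^ 2 / (potQ 0 e y) ^ 2)| ≤ M := by
  have hχ : ContDiff ℝ 2 (χ : ℂ → ℝ) := χ.contDiff
  obtain ⟨B₀, hB₀⟩ := (pot_laplacian_continuous hχ).bounded_above_of_compact_support
    (pot_laplacian_compact χ.hasCompactSupport)
  obtain ⟨B₁, hB₁⟩ := (hχ.continuous_fderiv (by simp)).bounded_above_of_compact_support
    (χ.hasCompactSupport.fderiv ℝ)
  have p₀ : 0 ≤ B₀ := (norm_nonneg _).trans (hB₀ 0)
  have p₁ : 0 ≤ B₁ := (norm_nonneg _).trans (hB₁ 0)
  have pL : 0 ≤ Real.log (r ^ 2 + 1) - Real.log (r ^ 2 / 16) :=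
    sub_nonneg.2 (Real.log_le_log (by positivity) (by nlinarith))
  refine ⟨(Real.log (r ^ 2 + 1) - Real.log (r ^ 2 / 16)) * B₀ +
    2 * (B₁ * (r * (r ^ 2 / 16)⁻¹) + B₁ * (r * (r ^ 2 / 16)⁻¹)), by positivity,
    fun e he he1 y => ?_⟩
  rw [lap_mul hχ ((dsmv_smooth he _).of_le (by norm_cast)), dsmv_lap he]
  have hconst : ∀ c : ℝ, (χ : ℂ → ℝ) =ᶠ[𝓝 y] (fun _ => c) →
      Laplacian.laplacian (χ : ℂ → ℝ) y = 0 ∧ fderiv ℝ (χ : ℂ → ℝ) y = 0 := fun c hc =>
    ⟨by rw [(InnerProductSpace.laplacian_congr_nhds hc).eq_of_nhds]; simp, by rw [hc.fderiv_eq]; simp⟩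
  by_cases hy : r / 4 ≤ ‖y‖ ∧ ‖y‖ ≤ r / 2
  · have hQ : r ^ 2 / 16 ≤ potQ 0 e y := by
      rw [dsmv_Q]
      nlinarith [hy.1, sq_nonneg e]
    have hQ' : (potQ 0 e y)⁻¹ ≤ (r ^ 2 / 16)⁻¹ := inv_anti₀ (by positivity) hQ
    have hQ0 : 0 ≤ (potQ 0 e y)⁻¹ := inv_nonneg.2 (potQ_pos 0 he y).le
    have g0 := dsmv_nonneg he he1 (show ‖y‖ ≤ r by linarith [hy.2])
    have g1 : Real.log (r ^ 2 + 1) - Real.log (potQ 0 e y) ≤
        Real.log (r ^ 2 + 1) - Real.log (r ^ 2 / 16) :=
      sub_le_sub_left (Real.log_le_log (by positivity) hQ) _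
    have d : ∀ v : ℂ, ‖v‖ = 1 → |2 * y.re * v.re + 2 * y.im * v.im| ≤ r →
        |fderiv ℝ (χ : ℂ → ℝ) y v *
          fderiv ℝ (fun y => Real.log (r ^ 2 + 1) - Real.log (potQ 0 e y)) y v| ≤
            B₁ * (r * (r ^ 2 / 16)⁻¹) := by
      intro v hv hv'
      rw [dsmv_fderiv he, abs_mul, abs_neg, abs_mul, abs_of_nonneg hQ0]
      refine mul_le_mul ?_ (mul_le_mul hv' hQ' hQ0 hr.le) (by positivity) p₁
      have := (fderiv ℝ (χ : ℂ → ℝ) y).le_opNorm v
      rw [hv, mul_one] at this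
      exact this.trans (hB₁ y)
    have d1 := d 1 norm_one (by
      have := Complex.abs_re_le_norm y
      simp only [Complex.one_re, Complex.one_im, mul_one, mul_zero, add_zero, abs_mul, abs_two]
      linarith [hy.2])
    have d2 := d Complex.I Complex.norm_I (by
      have := Complex.abs_im_le_norm y
      simp only [Complex.I_re, Complex.I_im, mul_one, mul_zero, zero_add, abs_mul, abs_two]
      linarith [hy.2])
    have d0 : |(Real.log (r ^ 2 + 1) - Real.log (potQ 0 e y)) *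
        Laplacian.laplacian (χ : ℂ → ℝ) y| ≤
        (Real.log (r ^ 2 + 1) - Real.log (r ^ 2 / 16)) * B₀ := by
      rw [abs_mul, abs_of_nonneg g0]
      exact mul_le_mul g1 (hB₀ y) (abs_nonneg _) pL
    rw [abs_le] at d0 d1 d2 ⊢
    constructor <;> linarith [d0.1, d0.2, d1.1, d1.2, d2.1, d2.2]
  · have h0 : Laplacian.laplacian (χ : ℂ → ℝ) y = 0 ∧ fderiv ℝ (χ : ℂ → ℝ) y = 0 := by
      rcases not_and_or.1 hy with h | h
      · refine hconst 1 (χ.eventuallyEq_one_of_mem_ball ?_)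
        rw [h1, mem_ball_zero_iff]
        exact not_le.1 h
      · refine hconst 0 (notMem_tsupport_iff_eventuallyEq.1 ?_)
        rw [χ.tsupport_eq, h2, mem_closedBall_zero_iff]
        exact h
    rw [h0.1, h0.2]
    simp only [mul_neg, mul_zero, add_zero, zero_apply, zero_mul,
      neg_add_cancel, abs_zero]
    positivity

/-- the approximate identity -/
theorem dsmv_tendsto {f : ℂ → ℝ} (hf : Continuous f) (hc : HasCompactSupport f) :
    Tendsto (fun n : ℕ => ∫ y, f y * (4 * (1 / ((n : ℝ) + 1)) ^ 2 /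
      (potQ 0 (1 / ((n : ℝ) + 1)) y) ^ 2)) atTop (𝓝 (f 0 * (4 * Real.pi))) := by
  have he0 : Tendsto (fun n : ℕ => 1 / ((n : ℝ) + 1)) atTop (𝓝 0) :=
    tendsto_one_div_add_atTop_nhds_zero_nat
  obtain ⟨M, hM⟩ := hf.bounded_above_of_compact_support hc
  have t1 : Tendsto (fun n : ℕ => ∫ w, f (0 + (1 / ((n : ℝ) + 1)) • w) * (4 / (‖w‖ ^ 2 + 1) ^ 2))
      atTop (𝓝 (∫ w : ℂ, f 0 * (4 / (‖w‖ ^ 2 + 1) ^ 2))) := by
    refine tendsto_integral_of_dominated_convergence (fun w => M * (4 / (‖w‖ ^ 2 + 1) ^ 2))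
      (fun n => ?_) (pot_kernel_integrable.const_mul M) (fun n => Eventually.of_forall fun w => ?_)
      (Eventually.of_forall fun w => ?_)
    · exact (hf.comp (by fun_prop)).aestronglyMeasurable.mul
        pot_kernel_integrable.aestronglyMeasurable
    · rw [norm_mul, Real.norm_of_nonneg (by positivity : (0 : ℝ) ≤ 4 / (‖w‖ ^ 2 + 1) ^ 2)]
      exact mul_le_mul_of_nonneg_right (hM _) (by positivity)
    · refine Tendsto.mul_const _ ((hf.tendsto 0).comp ?_)
      simpa using (he0.smul_const w).const_add 0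
  rw [integral_const_mul, pot_kernel_integral] at t1
  refine t1.congr fun n => ?_
  rw [pot_approx 0 (Nat.one_div_pos_of_nat (n := n))]

/-- the inequality at the origin -/
theorem dsmv_zero {r : ℝ} (hr : 0 < r) : ∃ C : ℝ, 0 ≤ C ∧ ∀ u : ℂ → ℝ, Continuous u →
    (∀ φ : Test, (∀ z, 0 ≤ φ z) → tsupport φ ⊆ ball 0 r →
      0 ≤ ∫ z, u z * Laplacian.laplacian (φ : ℂ → ℝ) z) →
    u 0 ≤ C * ∫ z in ball 0 r, |u z| := by
  let χ : ContDiffBump (0 : ℂ) := ⟨r / 4, r / 2, by positivity, by linarith⟩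
  obtain ⟨M, hM0, hM⟩ := dsmv_bound hr χ rfl rfl
  refine ⟨M / (4 * Real.pi), by positivity, fun u hu h => ?_⟩
  have hsub : tsupport (χ : ℂ → ℝ) ⊆ ball 0 r := by
    rw [χ.tsupport_eq]
    exact closedBall_subset_ball (show r / 2 < r by linarith)
  have hint : IntegrableOn (fun z => M * |u z|) (ball 0 r) :=
    ((continuous_const.mul hu.abs).continuousOn.integrableOn_compact
      (isCompact_closedBall 0 r)).mono_set ball_subset_closedBall
  have key : ∀ e, 0 < e → e ≤ 1 →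
      ∫ y, u y * χ y * (4 * e ^ 2 / (potQ 0 e y) ^ 2) ≤ M * ∫ z in ball 0 r, |u z| := by
    intro e he he1
    let φ : Test := mkTest (fun y => χ y * (Real.log (r ^ 2 + 1) - Real.log (potQ 0 e y)))
      (χ.contDiff.mul (dsmv_smooth he _)) χ.hasCompactSupport.mul_right
    have hφ : tsupport φ ⊆ ball 0 r := (tsupport_mul_subset_left).trans hsub
    have h1 := h φ (fun z => by
      by_cases hz : z ∈ ball (0 : ℂ) r
      · exact mul_nonneg χ.nonneg (dsmv_nonneg he he1 (mem_ball_zero_iff.1 hz).le)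
      · exact (image_eq_zero_of_notMem_tsupport fun h' => hz (hφ h')).ge) hφ
    have i1 : Integrable fun z => u z * Laplacian.laplacian (φ : ℂ → ℝ) z :=
      (hu.mul (lap_test_cont φ)).integrable_of_hasCompactSupport (lap_test_compact φ).mul_left
    have cK : Continuous fun y => 4 * e ^ 2 / (potQ 0 e y) ^ 2 :=
      continuous_const.div ((potQ_contDiff 0 e).continuous.pow 2)
        fun y => (pow_pos (potQ_pos 0 he y) 2).ne'
    have i2 : Integrable fun y => u y * χ y * (4 * e ^ 2 / (potQ 0 e y) ^ 2) :=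
      ((hu.mul χ.continuous).mul cK).integrable_of_hasCompactSupport
        χ.hasCompactSupport.mul_left.mul_right
    have h2 : ∫ y, (u y * Laplacian.laplacian (φ : ℂ → ℝ) y +
        u y * χ y * (4 * e ^ 2 / (potQ 0 e y) ^ 2)) ≤
        ∫ y, (ball (0 : ℂ) r).indicator (fun z => M * |u z|) y := by
      refine integral_mono (i1.add i2) ((integrable_indicator_iff measurableSet_ball).2 hint)
        fun y => ?_
      by_cases hy : y ∈ ball (0 : ℂ) r
      · have h3 : |Laplacian.laplacian (φ : ℂ → ℝ) y +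
            χ y * (4 * e ^ 2 / (potQ 0 e y) ^ 2)| ≤ M := hM e he he1 y
        simp only [indicator_of_mem hy]
        rw [mul_assoc, ← mul_add, mul_comm M]
        refine (le_abs_self _).trans ?_
        rw [abs_mul]
        exact mul_le_mul_of_nonneg_left h3 (abs_nonneg _)
      · have h3 : Laplacian.laplacian (φ : ℂ → ℝ) y = 0 :=
          image_eq_zero_of_notMem_tsupport fun h' => hy (hφ (pot_laplacian_tsupport _ h'))
        have h4 : χ y = 0 := image_eq_zero_of_notMem_tsupport fun h' => hy (hsub h')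
        simp [indicator_of_notMem hy, h3, h4]
    rw [integral_add i1 i2, integral_indicator measurableSet_ball, integral_const_mul] at h2
    linarith
  have h3 := le_of_tendsto' (dsmv_tendsto (hu.mul χ.continuous) χ.hasCompactSupport.mul_left)
    fun n => key _ Nat.one_div_pos_of_nat
      (div_le_one_of_le₀ (by linarith [Nat.cast_nonneg (α := ℝ) n]) (by positivity))
  have h4 : χ 0 = 1 := χ.one_of_mem_closedBall (mem_closedBall_self χ.rIn_pos.le)
  rw [Pi.mul_apply, h4, mul_one] at h3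
  rw [div_mul_eq_mul_div, le_div_iff₀ (by positivity)]
  exact h3

theorem smv {r : ℝ} (hr : 0 < r) : ∃ C : ℝ, 0 ≤ C ∧ ∀ (u : ℂ → ℝ) (x : ℂ), Continuous u →
    (∀ φ : Test, (∀ z, 0 ≤ φ z) → tsupport φ ⊆ ball x r →
      0 ≤ ∫ z, u z * Laplacian.laplacian (φ : ℂ → ℝ) z) →
    u x ≤ C * ∫ z in ball x r, |u z| := by
  obtain ⟨C, hC, h⟩ := dsmv_zero hr
  refine ⟨C, hC, fun u x hu hx => ?_⟩
  have h1 := h (fun z => u (z + x)) (hu.comp (continuous_id.add continuous_const)) (by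
    intro φ h0 hφ
    obtain ⟨χ, hχ⟩ := exists_test_affine φ one_ne_zero (-x)
    have h2 := hx χ (fun z => by rw [hχ]; exact h0 _) (by
      rw [hχ]
      intro z hz
      have h3 : (1 : ℝ) • z + -x ∈ tsupport φ :=
        tsupport_comp_subset_preimage (φ : ℂ → ℝ) (f := fun z : ℂ => (1 : ℝ) • z + -x)
          (by fun_prop) hz
      have h4 := hφ h3
      rwa [mem_ball_zero_iff, one_smul, ← sub_eq_add_neg, ← dist_eq_norm] at h4)
    rw [hχ, ← integral_add_right_eq_self _ x] at h2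
    simp only [lap_affine (test_c2 φ)] at h2
    simpa using h2)
  rw [zero_add] at h1
  refine h1.trans_eq ?_
  congr 1
  rw [← integral_indicator measurableSet_ball, ← integral_indicator measurableSet_ball,
    ← integral_add_right_eq_self ((ball x r).indicator fun z => |u z|) x]
  refine integral_congr_ae (Eventually.of_forall fun z => ?_)
  by_cases hz : z ∈ ball (0 : ℂ) r
  · have h2 : z + x ∈ ball x r := by simpa using hz
    simp only [indicator_of_mem hz, indicator_of_mem h2]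
  · have h2 : z + x ∉ ball x r := by simpa using hz
    simp only [indicator_of_notMem hz, indicator_of_notMem h2]

end Pool.Agent.QL
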