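import Pool.Agent.P.MP_7a6434d8_pr.QL.W.DMeas

/-! Uniqueness of Wiener measure and independence of the increments. -/

open MeasureTheory ProbabilityTheory Set Filter Topology Metric
open scoped ENNReal NNReal

namespace Pool.Agent.QL

open Pool.Agent.LGD Pool.Agent.P.MP_7a6434d8_pr

/-- the real part of a path -/
def dwien_re (w : Path) (t : ℝ≥0) : ℝ := (w.1 t).re

/-- the imaginary part of a path -/
def dwien_im (w : Path) (t : ℝ≥0) : ℝ := (w.1 t).im

theorem dwien_mre : Measurable dwien_re :=
  measurable_pi_lambda _ fun t => Complex.measurable_re.comp (measurable_eval t)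

theorem dwien_mim : Measurable dwien_im :=
  measurable_pi_lambda _ fun t => Complex.measurable_im.comp (measurable_eval t)

theorem dwien_cb {ι : Type} :
    Measurable fun (p : (ι → ℝ) × (ι → ℝ)) (t : ι) => (⟨p.1 t, p.2 t⟩ : ℂ) :=
  measurable_pi_lambda _ fun t => Complex.measurableEquivRealProd.symm.measurable.comp
    (f := fun p : (ι → ℝ) × (ι → ℝ) => (p.1 t, p.2 t)) (by fun_prop)

theorem dwien_set {S : Set Path} (hS : MeasurableSet S) :
    ∃ T, MeasurableSet T ∧ S = (fun w => (dwien_re w, dwien_im w)) ⁻¹' T := by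
  obtain ⟨T, hT, rfl⟩ := hS
  exact ⟨_, dwien_cb hT, rfl⟩

theorem dwien_law {W W' : Measure Path} {X X' : Path → ℝ≥0 → ℝ} (hX : Measurable X)
    (hX' : Measurable X') (h : IsPreBrownianReal (fun t w => X w t) W)
    (h' : IsPreBrownianReal (fun t w => X' w t) W') : W.map X = W'.map X' := by
  refine IsProjectiveLimit.unique (P := BrownianReal.projectiveFamily) (fun I => ?_) fun I => ?_
  · rw [Measure.map_map (Finset.measurable_restrict I) hX]
    exact (h.hasLaw I).map_eq
  · rw [Measure.map_map (Finset.measurable_restrict I) hX']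
    exact (h'.hasLaw I).map_eq

theorem IsWiener.unique {W W' : Measure Path} (hW : IsWiener W) (hW' : IsWiener W') : W = W' := by
  have := hW.prob
  have := hW'.prob
  ext S hS
  obtain ⟨T, hT, rfl⟩ := dwien_set hS
  rw [← Measure.map_apply (dwien_mre.prodMk dwien_mim) hT,
    ← Measure.map_apply (dwien_mre.prodMk dwien_mim) hT,
    (indepFun_iff_map_prod_eq_prod_map_map dwien_mre.aemeasurable dwien_mim.aemeasurable).1
      hW.indep,
    (indepFun_iff_map_prod_eq_prod_map_map dwien_mre.aemeasurable dwien_mim.aemeasurable).1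
      hW'.indep,
    dwien_law dwien_mre dwien_mre hW.re hW'.re, dwien_law dwien_mim dwien_mim hW.im hW'.im]

theorem dwien_four {Ω α β γ δ : Type} [MeasurableSpace Ω] [MeasurableSpace α] [MeasurableSpace β]
    [MeasurableSpace γ] [MeasurableSpace δ] {P : Measure Ω} [IsProbabilityMeasure P] {a : Ω → α}
    {b : Ω → β} {c : Ω → γ} {d : Ω → δ} (ha : Measurable a) (hb : Measurable b)
    (hc : Measurable c) (hd : Measurable d)
    (h : IndepFun (fun w => (a w, b w)) (fun w => (c w, d w)) P) (h₁ : IndepFun a b P)
    (h₂ : IndepFun c d P) : IndepFun (fun w => (a w, c w)) (fun w => (b w, d w)) P := by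
  have i₁ := Measure.isProbabilityMeasure_map (μ := P) ha.aemeasurable
  have i₂ := Measure.isProbabilityMeasure_map (μ := P) hb.aemeasurable
  have i₃ := Measure.isProbabilityMeasure_map (μ := P) hc.aemeasurable
  have i₄ := Measure.isProbabilityMeasure_map (μ := P) hd.aemeasurable
  have h₃ : IndepFun a c P := h.comp measurable_fst measurable_fst
  have h₄ : IndepFun b d P := h.comp measurable_snd measurable_snd
  rw [indepFun_iff_map_prod_eq_prod_map_map (by fun_prop) (by fun_prop)] at h h₁ h₂ h₃ h₄ ⊢
  rw [h₁, h₂] at h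
  have m := (measurePreserving_prodAssoc (P.map a) (P.map c) ((P.map b).prod (P.map d))).symm.comp
    (((MeasurePreserving.id (P.map a)).prod
      ((measurePreserving_prodAssoc (P.map c) (P.map b) (P.map d)).comp
        ((Measure.measurePreserving_swap.prod (MeasurePreserving.id (P.map d))).comp
          (measurePreserving_prodAssoc (P.map b) (P.map c) (P.map d)).symm))).comp
      (measurePreserving_prodAssoc (P.map a) (P.map b) ((P.map c).prod (P.map d))))
  rw [h₃, h₄, ← m.map_eq, ← h, Measure.map_map m.measurable (by fun_prop)]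
  rfl

theorem dwien_re_incr (s : ℝ≥0) (w : Path) (t : ℝ≥0) :
    dwien_re (incr s w) t = dwien_re w (s + t) - dwien_re w s := by
  simp [dwien_re, incr, tr, shift, sub_eq_neg_add]

theorem dwien_im_incr (s : ℝ≥0) (w : Path) (t : ℝ≥0) :
    dwien_im (incr s w) t = dwien_im w (s + t) - dwien_im w s := by
  simp [dwien_im, incr, tr, shift, sub_eq_neg_add]

theorem dwien_pre {W : Measure Path} {X : Path → ℝ≥0 → ℝ} (hX : Measurable X) {f : Path → Path}
    (hf : Measurable f) (h : IsPreBrownianReal (fun t w => X (f w) t) W) :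
    IsPreBrownianReal (fun t w => X w t) (W.map f) where
  hasLaw I := by
    have m : Measurable fun w => I.restrict (X w) := (Finset.measurable_restrict I).comp hX
    refine ⟨m.aemeasurable, ?_⟩
    rw [Measure.map_map m hf]
    exact (h.hasLaw I).map_eq

theorem dwien_incr {W : Measure Path} (hW : IsWiener W) (s : ℝ≥0) : W.map (incr s) = W := by
  have := hW.prob
  have hm := measurable_incr s
  have := Measure.isProbabilityMeasure_map (μ := W) hm.aemeasurable
  refine IsWiener.unique ⟨dwien_pre dwien_mre hm ?_, dwien_pre dwien_mim hm ?_, ?_⟩ hW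
  · simp only [dwien_re_incr]
    exact hW.re.shift s
  · simp only [dwien_im_incr]
    exact hW.im.shift s
  · have k : Measurable fun (x : ℝ≥0 → ℝ) t => x (s + t) - x s := by fun_prop
    have h : IndepFun (dwien_re ∘ incr s) (dwien_im ∘ incr s) W := by
      rw [show dwien_re ∘ incr s = _ from funext fun w => funext (dwien_re_incr s w),
        show dwien_im ∘ incr s = _ from funext fun w => funext (dwien_im_incr s w)]
      exact hW.indep.comp k k
    rw [indepFun_iff_map_prod_eq_prod_map_map (dwien_mre.comp hm).aemeasurable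
      (dwien_mim.comp hm).aemeasurable] at h
    refine (indepFun_iff_map_prod_eq_prod_map_map dwien_mre.aemeasurable
      dwien_mim.aemeasurable).2 ?_
    rw [Measure.map_map (dwien_mre.prodMk dwien_mim) hm, Measure.map_map dwien_mre hm,
      Measure.map_map dwien_mim hm]
    exact h

theorem IsWiener.markov {W : Measure Path} (hW : IsWiener W) (s : ℝ≥0) :
    W.map (fun w => (past s w, incr s w)) = (W.map (past s)).prod W := by
  have := hW.prob
  have k : Measurable fun (x : ℝ≥0 → ℝ) t => x (s + t) - x s := by fun_prop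
  have k' : Measurable fun (x : ℝ≥0 → ℝ) (t : Iic s) => x t := by fun_prop
  have h := (dwien_four (k'.comp dwien_mre) (k.comp dwien_mre) (k'.comp dwien_mim)
    (k.comp dwien_mim) (hW.indep.comp (k'.prodMk k) (k'.prodMk k)) (hW.re.indepFun_shift s).symm
    (hW.im.indepFun_shift s).symm).comp dwien_cb measurable_id
  have h' : IndepFun (past s) (incr s) W := by
    rw [indepFun_iff_measure_inter_preimage_eq_mul] at h ⊢
    intro A S hA hS
    obtain ⟨T, hT, rfl⟩ := dwien_set hS
    have e : incr s ⁻¹' ((fun w => (dwien_re w, dwien_im w)) ⁻¹' T) =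
        (fun w => (fun t => dwien_re w (s + t) - dwien_re w s,
          fun t => dwien_im w (s + t) - dwien_im w s)) ⁻¹' T := by
      ext w
      simp only [mem_preimage, ← dwien_re_incr, ← dwien_im_incr]
    rw [e]
    exact h A T hA hT
  rw [(indepFun_iff_map_prod_eq_prod_map_map (measurable_past s).aemeasurable
    (measurable_incr s).aemeasurable).1 h', dwien_incr hW]

end Pool.Agent.QL
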