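import Pool.Agent.P.MP_7a6434d8_pr.QL.W.DOcc

/-! Weak solutions give mean zero increments from almost every point. -/

open MeasureTheory ProbabilityTheory Set Filter Topology Metric
open scoped ENNReal NNReal

namespace Pool.Agent.QL

open Pool.Agent.LGD Pool.Agent.P.MP_7a6434d8_pr

theorem dzero_int {α : Type} [MeasurableSpace α] (ν : Measure α) [IsFiniteMeasure ν]
    {X : α → ℂ} (hX : Measurable X) {u g : ℂ → ℝ} (hu : Measurable u) (bu : Bdd u)
    (hg : Measurable g) (ig : Integrable g) :
    Integrable (fun p : α × ℂ => u p.2 * g (p.2 + X p.1)) (ν.prod volume) := by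
  obtain ⟨C, hC⟩ := bu
  have hm : Measurable fun p : α × ℂ => u p.2 * g (p.2 + X p.1) :=
    (hu.comp measurable_snd).mul (hg.comp (measurable_snd.add (hX.comp measurable_fst)))
  have h1 : ∀ a, Integrable fun z => u z * g (z + X a) := fun a =>
    (ig.comp_add_right (X a)).bdd_mul (c := C) hu.aestronglyMeasurable
      (Eventually.of_forall fun z => by simpa using hC z)
  rw [integrable_prod_iff hm.aestronglyMeasurable]
  refine ⟨Eventually.of_forall h1, ?_⟩
  refine Integrable.of_bound (hm.norm.stronglyMeasurable.integral_prod_right').aestronglyMeasurable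
    (C * ∫ z, ‖g z‖) (Eventually.of_forall fun a => ?_)
  rw [Real.norm_of_nonneg (integral_nonneg fun z => norm_nonneg _),
    ← integral_add_right_eq_self (fun z => ‖g z‖) (X a), ← integral_const_mul]
  refine integral_mono (h1 a).norm ((ig.comp_add_right (X a)).norm.const_mul C) fun z => ?_
  simp only [norm_mul, Real.norm_eq_abs]
  exact mul_le_mul_of_nonneg_right (hC z) (abs_nonneg _)

theorem dzero_swap {W : Measure Path} (hW : IsWiener W) {u g : ℂ → ℝ} (hu : Measurable u)
    (bu : Bdd u) (hg : Measurable g) (ig : Integrable g) (s : ℝ≥0) :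
    Integrable (fun z => u z * heat W s g z) ∧
    ∫ z, u z * heat W s g z = ∫ w, (∫ z, u z * g (z + w.1 s)) ∂W := by
  have := hW.prob
  have h := dzero_int W (measurable_eval s) hu bu hg ig
  have e : ∀ z, u z * heat W s g z = ∫ w, u z * g (z + w.1 s) ∂W := fun z => by
    rw [integral_const_mul]; rfl
  simp_rw [e]
  exact ⟨h.integral_prod_right, (integral_integral_swap h).symm⟩

theorem dzero_symm {W : Measure Path} (hW : IsWiener W) {u g : ℂ → ℝ} (hu : Measurable u)
    (bu : Bdd u) (hg : Measurable g) (ig : Integrable g) (s : ℝ≥0) :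
    ∫ y, g y * heat W s u y = ∫ z, u z * heat W s g z := by
  have := hW.prob
  rw [(dzero_swap hW hu bu hg ig s).2]
  have hn : Measurable fun w : Path => -w.1 s := (measurable_eval s).neg
  have hm : Measurable fun p : ℂ × ℂ => u p.2 * g (p.2 + p.1) :=
    (hu.comp measurable_snd).mul (hg.comp (measurable_snd.add measurable_fst))
  have hG : StronglyMeasurable fun c : ℂ => ∫ z, u z * g (z + c) :=
    hm.stronglyMeasurable.integral_prod_right'
  have e1 : ∫ w, (∫ z, u z * g (z + w.1 s)) ∂W = ∫ w, (∫ z, u z * g (z + -w.1 s)) ∂W := by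
    rw [← integral_map (measurable_eval s).aemeasurable hG.aestronglyMeasurable,
      ← integral_map hn.aemeasurable hG.aestronglyMeasurable, hW.law_neg]
  rw [e1]
  have e2 : ∀ w : Path, ∫ z, u z * g (z + -w.1 s) = ∫ y, g y * u (y + w.1 s) := fun w => by
    rw [← integral_add_right_eq_self (fun z => u z * g (z + -w.1 s)) (w.1 s)]
    simp [mul_comm]
  simp_rw [e2]
  have e : ∀ y, g y * heat W s u y = ∫ w, g y * u (y + w.1 s) ∂W := fun z => by
    rw [integral_const_mul]; rfl
  simp_rw [e]
  obtain ⟨C, hC⟩ := bu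
  refine (integral_integral_swap ?_).symm
  have hm2 : Measurable fun p : Path × ℂ => u (p.2 + p.1.1 s) :=
    hu.comp (measurable_snd.add ((measurable_eval s).comp measurable_fst))
  have i2 : Integrable (fun p : Path × ℂ => g p.2) (W.prod volume) := ig.comp_snd W
  exact i2.mul_bdd (c := C) hm2.aestronglyMeasurable
    (Eventually.of_forall fun p => by simpa using hC _)

theorem dzero_time {W : Measure Path} (hW : IsWiener W) {u g : ℂ → ℝ} (hu : Continuous u)
    (bu : Bdd u) (hg : Continuous g) (bg : Bdd g) (ig : Integrable g) (t : ℝ≥0) :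
    ∫ z, u z * ∫ s in (0 : ℝ)..t, heat W s.toNNReal g z =
      ∫ s in (0 : ℝ)..t, ∫ z, u z * heat W s.toNNReal g z := by
  have := hW.prob
  simp_rw [intervalIntegral.integral_of_le t.coe_nonneg, ← integral_const_mul (u _)]
  refine (integral_integral_swap ?_).symm
  have hc : Continuous fun p : ℝ × ℂ => u p.2 * heat W p.1.toNNReal g p.2 :=
    (hu.comp continuous_snd).mul ((heat_cont hW hg bg).comp
      ((continuous_real_toNNReal.comp continuous_fst).prodMk continuous_snd))
  change Integrable (fun p : ℝ × ℂ => u p.2 * heat W p.1.toNNReal g p.2) _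
  rw [integrable_prod_iff hc.aestronglyMeasurable]
  refine ⟨Eventually.of_forall fun s =>
    (dzero_swap hW hu.measurable bu hg.measurable ig s.toNNReal).1, ?_⟩
  obtain ⟨C, hC⟩ := bu
  refine Integrable.of_bound
    (hc.norm.stronglyMeasurable.integral_prod_right').aestronglyMeasurable
    (C * ∫ z, ‖g z‖) (Eventually.of_forall fun s => ?_)
  obtain ⟨i1, e1⟩ := dzero_swap hW (u := fun _ => C) (g := fun z => ‖g z‖) measurable_const
    ⟨|C|, fun _ => le_rfl⟩ hg.norm.measurable ig.norm s.toNNReal
  have e2 : ∀ w : Path, ∫ z, C * ‖g (z + w.1 s.toNNReal)‖ = C * ∫ z, ‖g z‖ := fun w => by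
    rw [integral_const_mul, integral_add_right_eq_self (fun z => ‖g z‖)]
  simp_rw [e2] at e1
  rw [integral_const, probReal_univ, one_smul] at e1
  rw [Real.norm_of_nonneg (integral_nonneg fun z => norm_nonneg _), ← e1]
  refine integral_mono
    (dzero_swap hW hu.measurable ⟨C, hC⟩ hg.measurable ig s.toNNReal).1.norm i1 fun z => ?_
  simp only [norm_mul]
  exact mul_le_mul (hC z) (norm_integral_le_integral_norm _) (norm_nonneg _)
    ((abs_nonneg _).trans (hC z))

theorem dzero_weak {W : Measure Path} (hW : IsWiener W) {μ : Measure ℂ} [IsProbabilityMeasure μ]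
    {u H : ℂ → ℝ} (hu : Continuous u) (bu : Bdd u) (hH : Measurable H) (bH : Bdd H)
    (hw : Weak μ u H) (ψ : Test) (s : ℝ≥0) :
    ∫ z, u z * heat W s (fun y => 1 / 2 * Laplacian.laplacian (ψ : ℂ → ℝ) y) z =
      -∫ z, heat W s ψ z * H z ∂μ := by
  have := hW.prob
  have hg : Continuous fun y => 1 / 2 * Laplacian.laplacian (ψ : ℂ → ℝ) y :=
    continuous_const.mul (lap_test_cont ψ)
  have ig : Integrable fun y => 1 / 2 * Laplacian.laplacian (ψ : ℂ → ℝ) y :=
    ((lap_test_cont ψ).integrable_of_hasCompactSupport (lap_test_compact ψ)).const_mul _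
  rw [(dzero_swap hW hu.measurable bu hg.measurable ig s).2]
  have e : ∀ c : ℂ, ∫ z, u z * (1 / 2 * Laplacian.laplacian (ψ : ℂ → ℝ) (z + c)) =
      -∫ z, ψ (z + c) * H z ∂μ := fun c => by
    obtain ⟨χ, hχ⟩ := exists_test_affine ψ one_ne_zero c
    have h := hw χ
    rw [hχ] at h
    simp_rw [lap_affine (test_c2 ψ), one_smul, one_pow, one_mul] at h
    rw [← h, neg_mul, neg_neg, ← integral_const_mul]
    congr 1; ext z; ring
  simp_rw [e]
  rw [integral_neg]
  congr 1
  have e2 : ∀ z, heat W s ψ z * H z = ∫ w, ψ (z + w.1 s) * H z ∂W := fun z => by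
    rw [integral_mul_const]; rfl
  simp_rw [e2]
  refine integral_integral_swap ?_
  obtain ⟨C, hC⟩ := test_bdd ψ
  obtain ⟨D, hD⟩ := bH
  have hm : Measurable fun p : Path × ℂ => ψ (p.2 + p.1.1 s) * H p.2 :=
    ((test_c2 ψ).continuous.measurable.comp
      (measurable_snd.add ((measurable_eval s).comp measurable_fst))).mul (hH.comp measurable_snd)
  refine Integrable.of_bound hm.aestronglyMeasurable (C * D) (Eventually.of_forall fun p => ?_)
  simp only [Function.uncurry, norm_mul, Real.norm_eq_abs]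
  exact mul_le_mul (hC _) (hD _) (abs_nonneg _) ((abs_nonneg _).trans (hC 0))

theorem dzero_heat {W : Measure Path} (hW : IsWiener W) {μ : Measure ℂ} [IsProbabilityMeasure μ]
    {u H : ℂ → ℝ} (hu : Continuous u) (bu : Bdd u) (hH : Measurable H) (bH : Bdd H)
    (hw : Weak μ u H) (ψ : Test) (t : ℝ≥0) :
    ∫ y, ψ y * (heat W t u y - u y) =
      -∫ s in (0 : ℝ)..t, ∫ z, heat W s.toNNReal ψ z * H z ∂μ := by
  have cψ : Continuous (ψ : ℂ → ℝ) := (test_c2 ψ).continuous
  have iψ : Integrable (ψ : ℂ → ℝ) := cψ.integrable_of_hasCompactSupport ψ.hasCompactSupport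
  have hg : Continuous fun y => 1 / 2 * Laplacian.laplacian (ψ : ℂ → ℝ) y :=
    continuous_const.mul (lap_test_cont ψ)
  have ig : Integrable fun y => 1 / 2 * Laplacian.laplacian (ψ : ℂ → ℝ) y :=
    ((lap_test_cont ψ).integrable_of_hasCompactSupport (lap_test_compact ψ)).const_mul _
  have bg : Bdd fun y => 1 / 2 * Laplacian.laplacian (ψ : ℂ → ℝ) y := by
    obtain ⟨C, hC⟩ := lap_test_bdd ψ
    exact ⟨1 / 2 * C, fun y => by
      rw [abs_mul, abs_of_pos (by norm_num : (0 : ℝ) < 1 / 2)]
      exact mul_le_mul_of_nonneg_left (hC y) (by norm_num)⟩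
  obtain ⟨C, hC⟩ := bu
  have ch : Continuous (heat W t u) :=
    (heat_cont hW hu ⟨C, hC⟩).comp (continuous_const.prodMk continuous_id)
  have i1 : Integrable fun y => ψ y * heat W t u y :=
    iψ.mul_bdd (c := C) ch.aestronglyMeasurable
      (Eventually.of_forall fun y => abs_heat_le hW hC t y)
  have i2 : Integrable fun y => ψ y * u y :=
    iψ.mul_bdd (c := C) hu.aestronglyMeasurable (Eventually.of_forall fun y => hC y)
  simp_rw [mul_sub]
  rw [integral_sub i1 i2, dzero_symm hW hu.measurable ⟨C, hC⟩ cψ.measurable iψ t]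
  simp_rw [mul_comm (ψ _) (u _)] at i2 ⊢
  rw [← integral_sub (dzero_swap hW hu.measurable ⟨C, hC⟩ cψ.measurable iψ t).1 i2]
  simp_rw [← mul_sub, dynkin hW ψ]
  rw [dzero_time hW hu ⟨C, hC⟩ hg bg ig t, ← intervalIntegral.integral_neg]
  simp_rw [dzero_weak hW hu ⟨C, hC⟩ hH bH hw ψ]

theorem IsClock.zero_mean {W : Measure Path} {μ : Measure ℂ} {A : Path → ℝ≥0 → ℝ≥0}
    {Λ : Set Path} {B : Path → Path} (hC : IsClock W μ A Λ B) (hW : IsWiener W)
    [IsProbabilityMeasure μ] {u H : ℂ → ℝ} (hu : Continuous u) (bu : Bdd u) (hH : Measurable H)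
    (bH : Bdd H) (hw : Weak μ u H) (t : ℝ≥0) :
    ∀ᵐ y ∂(volume : Measure ℂ), ∫ w, (u ((tr y w).1 t) - u ((tr y w).1 0) +
      occ H (B (tr y w)) 0 (A (tr y w) t)) ∂W = 0 := by
  have := hW.prob
  obtain ⟨D, hD⟩ := id bH
  obtain ⟨C, hCu⟩ := id bu
  have io : Integrable (fun w => occ H (B w) 0 (A w t)) (Pm W volume) := by
    refine ((hC.integrable_A hW t).const_mul D).mono' (hC.meas_occ hH t).aestronglyMeasurable
      (Eventually.of_forall fun w => ?_)
    simpa using abs_occ_le hD (B w) 0 (A w t)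
  have ip := integrable_Pm hW volume io
  have ch : Continuous fun y => heat W t u y - u y :=
    ((heat_cont hW hu bu).comp (continuous_const.prodMk continuous_id)).sub hu
  have iF := ip.integral_prod_left
  have key : ∀ᵐ y ∂(volume : Measure ℂ), heat W t u y - u y +
      ∫ w, occ H (B (tr y w)) 0 (A (tr y w) t) ∂W = 0 := by
    refine ae_eq_zero_of_integral_contDiff_smul_eq_zero
      (ch.locallyIntegrable.add iF.locallyIntegrable) fun g hg hs => ?_
    obtain ⟨E, hE⟩ := test_bdd (mkTest g hg hs)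
    have i1 : Integrable fun y => g y * (heat W t u y - u y) :=
      (hg.continuous.mul ch).integrable_of_hasCompactSupport hs.mul_right
    have i2 : Integrable fun y => g y * ∫ w, occ H (B (tr y w)) 0 (A (tr y w) t) ∂W :=
      iF.bdd_mul (c := E) hg.continuous.aestronglyMeasurable (Eventually.of_forall fun y => hE y)
    have i3 : Integrable (fun w => g (w.1 0) * occ H (B w) 0 (A w t)) (Pm W volume) :=
      io.bdd_mul (c := E) (hg.continuous.measurable.comp (measurable_eval 0)).aestronglyMeasurable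
        (Eventually.of_forall fun w => hE _)
    have e1 := dzero_heat hW hu bu hH bH hw (mkTest g hg hs) t
    have e2 := hC.occ_dual hW hg.continuous hs hH bH t
    rw [integral_Pm hW volume i3] at e2
    have e3 : ∀ y, ∫ w, g ((tr y w).1 0) * occ H (B (tr y w)) 0 (A (tr y w) t) ∂W =
        g y * ∫ w, occ H (B (tr y w)) 0 (A (tr y w) t) ∂W := fun y => by
      rw [← integral_const_mul]
      refine integral_congr_ae (hW.zero.mono fun w h0 => ?_)
      simp [tr, h0]
    simp_rw [e3] at e2
    simp only [smul_eq_mul, mul_add]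
    rw [integral_add i1 i2, e2]
    rw [mkTest_coe] at e1
    rw [e1, neg_add_cancel]
  filter_upwards [key, ip.prod_right_ae] with y hy iy
  have b : ∀ s : ℝ≥0, Integrable (fun w : Path => u ((tr y w).1 s)) W := fun s =>
    Integrable.of_bound (hu.measurable.comp
      (measurable_const.add (measurable_eval s))).aestronglyMeasurable C
      (Eventually.of_forall fun w => hCu _)
  have e0 : ∫ w, u ((tr y w).1 0) ∂W = u y := by
    rw [integral_congr_ae (g := fun _ => u y) (hW.zero.mono fun w h0 => by simp [tr, h0])]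
    simp
  have b2 : Integrable (fun w : Path => u ((tr y w).1 t) - u ((tr y w).1 0)) W := (b t).sub (b 0)
  rw [integral_add b2 iy, integral_sub (b t) (b 0), e0]
  exact hy

end Pool.Agent.QL
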