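import Pool.Agent.P.MP_7a6434d8_pr.QL.W.Deg
import Pool.Agent.P.MP_7a6434d8_pr.QL.W.CBasic

/-! The degree measure converges. -/

open MeasureTheory ProbabilityTheory Set Filter Topology Metric
open scoped ENNReal NNReal

namespace Pool.Agent.QL

open Pool.Agent.LGD Pool.Agent.P.MP_7a6434d8_pr

theorem degnet_card {α : Type} [Fintype α] (S : Set α) : ∑ x, ind S x = S.ncard := by
  classical
  simp [ind, Set.indicator_apply, Set.ncard_eq_toFinset_card', Set.toFinset]

theorem degnet_layer {n : ℕ} (q : Quad n) {u : q.Vertex → ℝ} {e : ℝ} (he : 0 ≤ e)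
    (h0 : ∀ x, 0 ≤ u x) (h : ∀ x y, q.graph.dist x y ≤ 2 → u x ≤ u y + e) (J : ℕ) :
    (∑ x, min (u x) (J * e)) / n ≤
      J * e * (2 / n) + avg q fun y => min (u y + 2 * e) (J * e) := by
  induction J with
  | zero =>
    have h1 : ∀ x, min (u x + 2 * e) 0 = 0 := fun x => min_eq_right (by linarith [h0 x])
    simp [h0, h1, avg_const]
  | succ J ih =>
    have h1 := mul_le_mul_of_nonneg_left (card_le_avg q {x | J * e ≤ u x}) he
    have h2 : ∑ x, min (u x) ((J + 1) * e) ≤
        ∑ x, min (u x) (J * e) + e * {x | J * e ≤ u x}.ncard := by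
      rw [← degnet_card, Finset.mul_sum, ← Finset.sum_add_distrib]
      refine Finset.sum_le_sum fun x _ => ?_
      by_cases hx : J * e ≤ u x
      · rw [ind_of_mem (G := {x | J * e ≤ u x}) hx, min_eq_right hx]
        linarith [min_le_right (u x) ((J + 1) * e)]
      · rw [ind_of_notMem (G := {x | J * e ≤ u x}) hx, min_eq_left (not_le.1 hx).le]
        linarith [min_le_left (u x) ((J + 1) * e)]
    have h3 : (avg q fun y => min (u y + 2 * e) (J * e)) +
        e * avg q (ind {y | ∃ x ∈ {x | J * e ≤ u x}, q.graph.dist x y ≤ 2}) ≤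
        avg q fun y => min (u y + 2 * e) ((J + 1) * e) := by
      rw [← avg_mul, ← avg_add]
      refine avg_mono q fun y => ?_
      by_cases hy : y ∈ {y | ∃ x ∈ {x | J * e ≤ u x}, q.graph.dist x y ≤ 2}
      · rw [ind_of_mem hy]
        obtain ⟨x, h4, h5⟩ := hy
        have h6 : J * e ≤ u x := h4
        have h7 := min_le_right (u y + 2 * e) (J * e)
        exact le_min (by linarith [h x y h5]) (by linarith)
      · rw [ind_of_notMem hy, mul_zero, add_zero]
        exact min_le_min_left _ (by linarith)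
    have h4 := div_le_div_of_nonneg_right h2 (Nat.cast_nonneg n)
    rw [add_div, mul_div_assoc] at h4
    push_cast
    linarith

theorem degnet_lower {d : Sph → Sph → ℝ} {μ : Measure ℂ} {N : Net} (hd : IsMet d)
    (h : N.Geo d μ) (g : C(Sph, ℝ)) (h0 : ∀ z, 0 ≤ g z) {e : ℝ} (he : 0 < e) :
    ∀ᶠ m in (N.U : Filter ℕ), ∫ z : ℂ, g z ∂μ - 4 * e < avg (N.q m) fun x => g (N.p m x) := by
  obtain ⟨θ, hθ, h1⟩ := hd.unif_cont g he
  obtain ⟨C, hC⟩ := cont_bdd g
  obtain ⟨J, hJ⟩ := exists_nat_ge (C / e)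
  rw [div_le_iff₀ he] at hJ
  have h2 : Tendsto (fun m => J * e * (2 / (N.n m : ℝ))) N.U (𝓝 0) := by
    simpa using ((tendsto_const_div_atTop_nhds_zero_nat 2).comp h.n_top).const_mul (J * e)
  filter_upwards [h.dist _ (half_pos hθ), h.cn_le (half_pos (half_pos hθ)),
    h2.eventually_le_const he, (h.meas g).eventually_const_lt (sub_lt_self _ he)]
    with m a1 a2 a3 a4
  have a5 := degnet_layer (N.q m) he.le (fun x => h0 (N.p m x)) (fun x y hxy => by
    have b1 : ((N.q m).graph.dist x y : ℝ) ≤ 2 := by exact_mod_cast hxy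
    have b2 := mul_le_mul_of_nonneg_left b1 (cn_nonneg (N.n m))
    linarith [(abs_le.1 (h1 _ _ (show d (N.p m x) (N.p m y) ≤ θ by
      linarith [(abs_le.1 (a1 x y)).1]))).2]) J
  have a6 : (avg (N.q m) fun y => min (g (N.p m y) + 2 * e) (J * e)) ≤
      (avg (N.q m) fun y => g (N.p m y)) + 2 * e := by
    rw [← avg_const (N.q m) (2 * e), ← avg_add]
    exact avg_mono _ fun y => by rw [avg_const]; exact min_le_left _ _
  rw [Finset.sum_congr rfl fun x _ => min_eq_left (((le_abs_self _).trans (hC _)).trans hJ),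
    div_eq_inv_mul, ← finsum_eq_sum_of_fintype] at a5
  linarith

theorem Net.Geo.avg_tendsto {d : Sph → Sph → ℝ} {μ : Measure ℂ} [IsProbabilityMeasure μ] {N : Net}
    (hd : IsMet d) (h : N.Geo d μ) (g : C(Sph, ℝ)) :
    Tendsto (fun m => avg (N.q m) fun x => g (N.p m x)) N.U (𝓝 (∫ z : ℂ, g z ∂μ)) := by
  obtain ⟨C, hC⟩ := cont_bdd g
  have hi : Integrable (fun z : ℂ => g z) μ :=
    .of_bound (cont_coe g).aestronglyMeasurable C (Eventually.of_forall fun z => hC z)
  refine Metric.tendsto_nhds.2 fun ε hε => ?_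
  filter_upwards [degnet_lower hd h (g + .const _ C)
      (fun z => by simpa using by linarith [(abs_le.1 (hC z)).1]) (e := ε / 4) (by positivity),
    degnet_lower hd h (.const _ C - g)
      (fun z => by simpa using (abs_le.1 (hC z)).2) (e := ε / 4) (by positivity)] with m a1 a2
  simp only [ContinuousMap.add_apply, ContinuousMap.sub_apply, ContinuousMap.const_apply] at a1 a2
  rw [integral_add hi (integrable_const C), avg_add] at a1
  rw [integral_sub (integrable_const C) hi, avg_sub] at a2
  simp only [avg_const, integral_const, probReal_univ, one_smul] at a1 a2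
  rw [Real.dist_eq, abs_lt]
  constructor <;> linarith

end Pool.Agent.QL
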