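import Pool.Agent.P.MP_7a6434d8_pr.QL.W.FWalk

/-! Oscillations of a finite chain from barriers. -/

open MeasureTheory ProbabilityTheory Set Filter Topology Metric
open scoped ENNReal NNReal

namespace Pool.Agent.QL

open Pool.Agent.LGD Pool.Agent.P.MP_7a6434d8_pr

/-- sets that depend on the darts up to time `j` -/
def echain_Det {n : ℕ} (j : ℕ) (S : Set (DP n)) : Prop :=
  ∀ e e' : DP n, (∀ i ≤ j, e i = e' i) → e ∈ S → e' ∈ S

theorem echain_meas {n j : ℕ} {S : Set (DP n)} (h : echain_Det j S) : MeasurableSet S := by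
  have : Measurable fun e : DP n => e ∈ S :=
    measurable_of_fin j fun e e' he =>
      propext ⟨h e e' he, h e' e fun i hi => (he i hi).symm⟩
  exact measurableSet_setOfPred.2 this

/-- first exit from `U` at a time `j ≤ m`, followed by `C (m - j)` -/
def echain_F {n : ℕ} (q : Quad n) (U : Set q.Vertex) (C : ℕ → Set (DP n)) (m : ℕ) : Set (DP n) :=
  {e | ∃ j ≤ m, (∀ i < j, q.tail (e i) ∈ U) ∧ q.tail (e j) ∉ U ∧ dshift j e ∈ C (m - j)}

theorem echain_F_det {n : ℕ} (q : Quad n) (U : Set q.Vertex) {C : ℕ → Set (DP n)} {D : ℕ}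
    (hC : ∀ m, echain_Det (m + D) (C m)) (m : ℕ) : echain_Det (m + D) (echain_F q U C m) := by
  rintro e e' he ⟨j, hj, h1, h2, h3⟩
  refine ⟨j, hj, fun i hi => ?_, ?_, hC _ _ _ (fun i hi => ?_) h3⟩
  · rw [← he i (by omega)]; exact h1 i hi
  · rw [← he j (by omega)]; exact h2
  · exact he _ (by omega)

theorem echain_avg {n : ℕ} (q : Quad n) {a l : ℝ} (ha : 0 < a) {S : Set q.Vertex}
    {h : q.Vertex → ℝ} (hb : Barrier q a l S h) (x : q.Vertex) :
    (∑ e ∈ q.out x, h (q.head e)) / (q.out x).card ≤ (1 + l / a) * h x := by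
  have h1 := hb.2.1 x
  rw [lap_eq] at h1
  have h2 : (1 + l / a) * h x = (a * h x + l * h x) / a := by field_simp
  rw [h2, le_div_iff₀ ha]
  linarith

theorem echain_step {n : ℕ} (q : Quad n) {a l κ : ℝ} (ha : 0 < a) (hκ : 0 ≤ κ)
    {U : Set q.Vertex} {h : q.Vertex → ℝ} (hb : Barrier q a l Uᶜ h) {C : ℕ → Set (DP n)} {D : ℕ}
    (hC : ∀ m, echain_Det (m + D) (C m)) {m : ℕ}
    (ih : ∀ x, walkLaw q x (echain_F q U C m) ≤ ENNReal.ofReal (κ * h x)) {x : q.Vertex}
    (hx : x ∈ U) :
    walkLaw q x (echain_F q U C (m + 1)) ≤ ENNReal.ofReal (κ * (1 + l / a) * h x) := by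
  have hm := echain_meas (echain_F_det q U hC (m + 1))
  have hc := card_out_pos q x
  rw [walk_step, Measure.finsetSum_apply]
  calc ∑ e ∈ q.out x, (((q.out x).card : ℝ≥0∞)⁻¹ • (walkLaw q (q.head e)).map (dcons e))
        (echain_F q U C (m + 1))
      ≤ ∑ e ∈ q.out x, ENNReal.ofReal (((q.out x).card : ℝ)⁻¹ * (κ * h (q.head e))) := by
        refine Finset.sum_le_sum fun e he => ?_
        rw [Measure.smul_apply, smul_eq_mul, Measure.map_apply (measurable_dcons e) hm,
          ENNReal.ofReal_mul (inv_nonneg.2 hc.le), ENNReal.ofReal_inv_of_pos hc,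
          ENNReal.ofReal_natCast]
        refine mul_le_mul_right ((measure_mono ?_).trans (ih _)) _
        rintro w ⟨j, hj, h1, h2, h3⟩
        cases j with
        | zero =>
          exact absurd (show q.tail e ∈ U by rw [(mem_out q).1 he]; exact hx) h2
        | succ j =>
          refine ⟨j, by omega, fun i hi => h1 (i + 1) (by omega), h2, ?_⟩
          have e1 : dshift (j + 1) (dcons e w) = dshift j w := by
            funext i
            show dcons e w (j + 1 + i) = w (j + i)
            rw [show j + 1 + i = (j + i) + 1 by omega]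
            rfl
          rwa [e1, show m + 1 - (j + 1) = m - j by omega] at h3
    _ = ENNReal.ofReal (κ * ((∑ e ∈ q.out x, h (q.head e)) / (q.out x).card)) := by
        rw [← ENNReal.ofReal_sum_of_nonneg fun e _ =>
          mul_nonneg (inv_nonneg.2 hc.le) (mul_nonneg hκ (hb.1 _))]
        congr 1
        rw [← Finset.mul_sum, ← Finset.mul_sum]
        field_simp
    _ ≤ _ := by
        refine ENNReal.ofReal_le_ofReal ?_
        rw [mul_assoc]
        exact mul_le_mul_of_nonneg_left (echain_avg q ha hb x) hκ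

theorem echain_first {n : ℕ} (q : Quad n) {a l κ : ℝ} (ha : 0 < a) (hl : 0 ≤ l) (hκ : 0 ≤ κ)
    {U : Set q.Vertex} {h : q.Vertex → ℝ} (hb : Barrier q a l Uᶜ h) {C : ℕ → Set (DP n)} {D : ℕ}
    (hC : ∀ m, echain_Det (m + D) (C m)) (m : ℕ)
    (hb' : ∀ m' ≤ m, ∀ z, walkLaw q z (C m') ≤ ENNReal.ofReal (κ * (1 + l / a) ^ m'))
    (x : q.Vertex) :
    walkLaw q x (echain_F q U C m) ≤ ENNReal.ofReal (κ * (1 + l / a) ^ m * h x) := by
  have hβ : 0 ≤ 1 + l / a := by positivity
  have out : ∀ m, (∀ z, walkLaw q z (C m) ≤ ENNReal.ofReal (κ * (1 + l / a) ^ m)) → ∀ x, x ∉ U →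
      walkLaw q x (echain_F q U C m) ≤ ENNReal.ofReal (κ * (1 + l / a) ^ m * h x) := by
    intro m hm x hx
    have h1 : walkLaw q x (echain_F q U C m) ≤ walkLaw q x (C m) := by
      refine measure_mono_ae ?_
      filter_upwards [walk_start q x] with e he
      rintro ⟨j, hj, h1, h2, h3⟩
      cases j with
      | zero =>
        have e1 : dshift 0 e = e := by
          funext i
          show e (0 + i) = e i
          rw [Nat.zero_add]
        rwa [e1] at h3
      | succ j => exact absurd (he ▸ h1 0 (by omega)) hx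
    refine h1.trans ((hm x).trans (ENNReal.ofReal_le_ofReal ?_))
    exact le_mul_of_one_le_right (by positivity) (hb.2.2 x hx)
  induction m generalizing x with
  | zero =>
    by_cases hx : x ∈ U
    · have h1 : walkLaw q x (echain_F q U C 0) ≤ walkLaw q x ∅ := by
        refine measure_mono_ae ?_
        filter_upwards [walk_start q x] with e he
        rintro ⟨j, hj, -, h2, -⟩
        obtain rfl : j = 0 := by omega
        exact h2 (he ▸ hx)
      rw [measure_empty] at h1
      exact h1.trans zero_le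
    · exact out 0 (hb' 0 le_rfl) x hx
  | succ m ih =>
    by_cases hx : x ∈ U
    · have := echain_step q ha (κ := κ * (1 + l / a) ^ m) (by positivity) hb hC
        (ih fun m' hm' => hb' m' (by omega)) hx
      rwa [mul_assoc κ, ← pow_succ] at this
    · exact out _ (hb' _ le_rfl) x hx

/-- an exit from the initial ball up to time `D`, or an oscillation up to time `m` -/
def echain_Bad {n : ℕ} (q : Quad n) (ρ : q.Vertex → q.Vertex → ℝ) (R : ℝ) (D m : ℕ) :
    Set (DP n) :=
  {e | ∃ j ≤ D, R ≤ ρ (q.tail (e 0)) (q.tail (e j))} ∪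
    {e | ∃ i j : ℕ, i ≤ j ∧ j ≤ m ∧ j ≤ i + D ∧ 4 * R ≤ ρ (q.tail (e i)) (q.tail (e j))}

theorem echain_Bad_det {n : ℕ} (q : Quad n) (ρ : q.Vertex → q.Vertex → ℝ) (R : ℝ) (D m : ℕ) :
    echain_Det (m + D) (echain_Bad q ρ R D m) := by
  rintro e e' he (⟨j, hj, h⟩ | ⟨i, j, h1, h2, h3, h⟩)
  · refine .inl ⟨j, hj, ?_⟩
    rwa [← he 0 (by omega), ← he j (by omega)]
  · refine .inr ⟨i, j, h1, h2, h3, ?_⟩
    rwa [← he i (by omega), ← he j (by omega)]

theorem echain_time {α : Type} (X : ℕ → α) (U : Set α) {j : ℕ} (hj : X j ∉ U) :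
    ∃ t ≤ j, (∀ i < t, X i ∈ U) ∧ X t ∉ U := by
  classical
  have hex : ∃ t, X t ∉ U := ⟨j, hj⟩
  exact ⟨Nat.find hex, Nat.find_min' hex hj, fun i hi => not_not.1 (Nat.find_min hex hi),
    Nat.find_spec hex⟩

theorem chain_osc {n : ℕ} (q : Quad n) {a l₁ l₂ R θ : ℝ} (ha : 0 < a) (h₁ : 0 ≤ l₁) (h₂ : 0 ≤ l₂)
    (hθ : 0 ≤ θ) (ρ : q.Vertex → q.Vertex → ℝ) (symm : ∀ x y, ρ x y = ρ y x)
    (tri : ∀ x y z, ρ x z ≤ ρ x y + ρ y z) (self : ∀ x, ρ x x < R)
    (step : ∀ e, ρ (q.tail e) (q.head e) ≤ R)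
    (H₁ : ∀ y, ∃ h, Barrier q a l₁ {z | R ≤ ρ y z} h ∧ h y ≤ 1 / 2)
    (H₂ : ∀ y, ∃ h, Barrier q a l₂ {z | R ≤ ρ y z} h ∧ h y ≤ θ) (M D : ℕ) :
    statLaw q {e | ∃ i j : ℕ, i ≤ j ∧ j ≤ M ∧ j ≤ i + D ∧
        4 * R ≤ ρ (q.tail (e i)) (q.tail (e j))} ≤
      ENNReal.ofReal (2 * θ * (1 + l₁ / a) ^ M * (1 + l₂ / a) ^ D) := by
  have hβ₁ : 1 ≤ 1 + l₁ / a := le_add_of_nonneg_right (by positivity)
  have hβ₂ : 1 ≤ 1 + l₂ / a := le_add_of_nonneg_right (by positivity)
  have hU : ∀ y, {z | R ≤ ρ y z} = {z | ρ y z < R}ᶜ := fun y => by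
    ext z; simp
  obtain ⟨π, hπ⟩ : ∃ π, π = θ * (1 + l₂ / a) ^ D := ⟨_, rfl⟩
  have hπ0 : 0 ≤ π := by rw [hπ]; positivity
  have hex : ∀ y, walkLaw q y {e | ∃ j ≤ D, R ≤ ρ (q.tail (e 0)) (q.tail (e j))} ≤
      ENNReal.ofReal π := by
    intro y
    obtain ⟨h, hb, hy⟩ := H₂ y
    rw [hU] at hb
    have h1 := echain_first q ha h₂ zero_le_one hb (C := fun _ => univ) (D := 0)
      (fun _ _ _ _ _ => mem_univ _) D (fun m' _ z => by
        rw [measure_univ, one_mul]
        exact ENNReal.one_le_ofReal.2 (one_le_pow₀ hβ₂)) y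
    refine le_trans (measure_mono_ae ?_) (h1.trans (ENNReal.ofReal_le_ofReal ?_))
    · filter_upwards [walk_start q y] with e he
      rintro ⟨j, hj, h3⟩
      rw [he] at h3
      obtain ⟨t, ht, t1, t2⟩ := echain_time (fun i => q.tail (e i)) {z | ρ y z < R} (j := j)
        (not_lt.2 h3)
      exact ⟨t, by omega, t1, t2, mem_univ _⟩
    · rw [one_mul, hπ, mul_comm]
      exact mul_le_mul_of_nonneg_right hy (by positivity)
  have key : ∀ m, ∀ y, walkLaw q y (echain_Bad q ρ R D m) ≤
      ENNReal.ofReal (2 * π * (1 + l₁ / a) ^ m) := by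
    intro m
    induction m using Nat.strong_induction_on with
    | _ m ih =>
      intro y
      have hR : 0 < R := by linarith [tri y y y, self y]
      cases m with
      | zero =>
        refine le_trans (measure_mono ?_) ((hex y).trans (ENNReal.ofReal_le_ofReal ?_))
        · rintro e (h | ⟨i, j, h1, h2, h3, h⟩)
          · exact h
          · obtain rfl : j = 0 := by omega
            obtain rfl : i = 0 := by omega
            linarith [self (q.tail (e 0))]
        · rw [pow_zero]; linarith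
      | succ m =>
        obtain ⟨h, hb, hy⟩ := H₁ y
        rw [hU] at hb
        have h1 := echain_step q ha (κ := 2 * π * (1 + l₁ / a) ^ m) (by positivity) hb
          (echain_Bad_det q ρ R D)
          (echain_first q ha h₁ (κ := 2 * π) (by positivity) hb (echain_Bad_det q ρ R D) m
            fun m' hm' => ih m' (by omega)) (x := y) (self y)
        have h2 : walkLaw q y (echain_Bad q ρ R D (m + 1)) ≤
            walkLaw q y ({e | ∃ j ≤ D, R ≤ ρ (q.tail (e 0)) (q.tail (e j))} ∪
              echain_F q {z | ρ y z < R} (echain_Bad q ρ R D) (m + 1)) := by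
          refine measure_mono_ae ?_
          filter_upwards [walk_cons q y] with e hc
          rintro (h | ⟨i, j, g1, g2, g3, h⟩)
          · exact .inl h
          refine .inr ?_
          have g4 : ∃ k ≤ j, q.tail (e k) ∉ {z | ρ y z < R} := by
            by_contra hn
            push Not at hn
            have a1 : ρ y (q.tail (e i)) < R := hn i g1
            have a2 : ρ y (q.tail (e j)) < R := hn j le_rfl
            linarith [tri (q.tail (e i)) y (q.tail (e j)), symm y (q.tail (e i))]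
          obtain ⟨k, hk, g5⟩ := g4
          obtain ⟨t, ht, t1, t2⟩ := echain_time (fun i => q.tail (e i)) {z | ρ y z < R} g5
          refine ⟨t, by omega, t1, t2, ?_⟩
          rcases le_or_gt t i with hti | hti
          · refine .inr ⟨i - t, j - t, by omega, by omega, by omega, ?_⟩
            show 4 * R ≤ ρ (q.tail (e (t + (i - t)))) (q.tail (e (t + (j - t))))
            rwa [show t + (i - t) = i by omega, show t + (j - t) = j by omega]
          · refine .inl ⟨j - t, by omega, ?_⟩
            show R ≤ ρ (q.tail (e (t + 0))) (q.tail (e (t + (j - t))))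
            rw [show t + (j - t) = j by omega, Nat.add_zero]
            obtain ⟨s, rfl⟩ : ∃ s, t = s + 1 := ⟨t - 1, by omega⟩
            have a1 : ρ y (q.tail (e i)) < R := t1 i hti
            have a2 : ρ y (q.tail (e s)) < R := t1 s (by omega)
            have a3 := step (e s)
            rw [← hc s] at a3
            linarith [tri (q.tail (e i)) y (q.tail (e s)), symm y (q.tail (e i)),
              tri (q.tail (e i)) (q.tail (e s)) (q.tail (e (s + 1))),
              tri (q.tail (e i)) (q.tail (e (s + 1))) (q.tail (e j))]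
        refine h2.trans ((measure_union_le _ _).trans ((add_le_add (hex y) h1).trans ?_))
        have hp : 1 ≤ (1 + l₁ / a) ^ (m + 1) := one_le_pow₀ hβ₁
        rw [← ENNReal.ofReal_add hπ0 (mul_nonneg (by positivity) (hb.1 y)), mul_assoc (2 * π),
          ← pow_succ]
        refine ENNReal.ofReal_le_ofReal ?_
        have b1 : 2 * π * (1 + l₁ / a) ^ (m + 1) * h y ≤
            2 * π * (1 + l₁ / a) ^ (m + 1) * (1 / 2) :=
          mul_le_mul_of_nonneg_left hy (by positivity)
        have b2 : π ≤ π * (1 + l₁ / a) ^ (m + 1) := le_mul_of_one_le_right hπ0 hp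
        linarith
  have hn : ((4 * n : ℕ) : ℝ≥0∞) ≠ 0 := by
    have := n_pos q
    exact Nat.cast_ne_zero.2 (by omega)
  rw [statLaw_eq, Measure.finsetSum_apply]
  calc ∑ e : Fin (4 * n), (((4 * n : ℕ) : ℝ≥0∞)⁻¹ • walkLaw q (q.tail e)) _
      ≤ ∑ _e : Fin (4 * n), ((4 * n : ℕ) : ℝ≥0∞)⁻¹ *
        ENNReal.ofReal (2 * π * (1 + l₁ / a) ^ M) := by
        refine Finset.sum_le_sum fun e _ => ?_
        rw [Measure.smul_apply, smul_eq_mul]
        exact mul_le_mul_right ((measure_mono subset_union_right).trans (key M _)) _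
    _ = _ := by
        rw [Finset.sum_const, Finset.card_univ, Fintype.card_fin, nsmul_eq_mul, ← mul_assoc,
          ENNReal.mul_inv_cancel hn (ENNReal.natCast_ne_top _), one_mul, hπ]
        congr 1
        ring

end Pool.Agent.QL
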