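import Pool.Agent.P.MP_7a6434d8_pr.QL.W.DLap
import Pool.Agent.P.MP_7a6434d8_pr.QL.W.DSmv

/-! The limit resolvent is small where the data vanish. -/

open MeasureTheory ProbabilityTheory Set Filter Topology Metric
open scoped ENNReal NNReal

namespace Pool.Agent.QL

open Pool.Agent.LGD Pool.Agent.P.MP_7a6434d8_pr

theorem econt_abel {φ : ℝ → ℝ} (hφ : Continuous φ) {M : ℝ} (hM : ∀ q, |φ q| ≤ M) (h0 : φ 0 = 0) :
    Tendsto (fun l : ℝ => l * ∫ q in Ioi (0 : ℝ), Real.exp (-(l * q)) * φ q) atTop (𝓝 0) := by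
  have h1 : Tendsto (fun l : ℝ => ∫ s in Ioi (0 : ℝ), Real.exp (-s) * φ (s / l)) atTop
      (𝓝 (∫ s in Ioi (0 : ℝ), (0 : ℝ))) := by
    refine tendsto_integral_filter_of_dominated_convergence (fun s => Real.exp (-s) * M)
      (Eventually.of_forall fun l => ?_) (Eventually.of_forall fun l => ae_of_all _ fun s => ?_)
      ((integrableOn_exp_neg_Ioi 0).mul_const M) (ae_of_all _ fun s => ?_)
    · exact Continuous.aestronglyMeasurable (by fun_prop)
    · rw [Real.norm_eq_abs, abs_mul, abs_of_pos (Real.exp_pos _)]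
      exact mul_le_mul_of_nonneg_left (hM _) (Real.exp_pos _).le
    · have := ((hφ.tendsto 0).comp (tendsto_const_nhds (x := s).div_atTop tendsto_id)).const_mul
        (Real.exp (-s))
      rwa [h0, mul_zero] at this
  rw [integral_zero] at h1
  refine h1.congr' ?_
  filter_upwards [eventually_gt_atTop 0] with l hl
  have h2 := integral_comp_mul_left_Ioi (fun s => Real.exp (-s) * φ (s / l)) 0 hl
  simp only [mul_zero, mul_div_cancel_left₀ _ hl.ne', smul_eq_mul] at h2
  rw [h2, mul_inv_cancel_left₀ hl.ne']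

theorem small_cont {μ : Measure ℂ} {L : Measure Path} (hL : Cont μ L) (g : C(Sph, ℝ))
    (hg : ∀ z, g z ∈ Icc (0 : ℝ) 1) {K : Set ℂ} (hK : IsCompact K) {r : ℝ} (hr : 0 < r)
    (h0 : ∀ z ∈ cthickening r K, g z = 0) {θ : ℝ} (hθ : 0 < θ) :
    ∃ l₀ : ℝ, ∀ l, l₀ ≤ l → ∃ η > 0, ∀ (u : C(Sph, ℝ)) (ρ : ℂ → ℝ), ResLim μ l η 1 g u ρ →
      (∀ z, 0 ≤ u z) → ∀ x ∈ K, l * u x ≤ θ := by
  obtain ⟨C, hC, hs⟩ := smv hr
  have hK' : IsCompact (cthickening r K) := hK.cthickening
  obtain ⟨Q, hQ, hQ0⟩ := hL.leb _ hK'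
  have := hQ.fin
  have hint : ∀ f : C(Sph, ℝ), ∫ b, f (b.1 0) ∂Q = ∫ z in cthickening r K, f z := fun f => by
    rw [← hQ0, integral_map (measurable_eval 0).aemeasurable (cont_coe f).aestronglyMeasurable]
  have hb : ∀ z, ‖g z‖ ≤ 1 := fun z => by
    rw [Real.norm_eq_abs, abs_of_nonneg (hg z).1]
    exact (hg z).2
  have hlim := econt_abel (φ := fun q : ℝ => ∫ b, 1 * g (b.1 (0 + q.toNNReal)) ∂Q)
    (M := 1 * Q.real univ) ?_ (fun q => ?_) ?_
  rotate_left
  · simp only [one_mul]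
    refine continuous_of_dominated (bound := fun _ => 1) (fun q => ?_)
      (fun q => ae_of_all _ fun b => hb _) (integrable_const _) (ae_of_all _ fun b => ?_)
    · exact ((cont_coe g).measurable.comp (measurable_eval _)).aestronglyMeasurable
    · exact (cont_coe g).comp (b.2.comp (continuous_const.add continuous_real_toNNReal))
  · rw [← Real.norm_eq_abs]
    refine norm_integral_le_of_norm_le_const (ae_of_all _ fun b => ?_)
    rw [one_mul]
    exact hb _
  · simp only [one_mul, Real.toNNReal_zero, add_zero]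
    rw [hint]
    exact setIntegral_eq_zero_of_forall_eq_zero h0
  have hC1 : 0 < C + 1 := by linarith
  obtain ⟨l₁, hl₁⟩ := eventually_atTop.1
    (hlim.eventually (eventually_le_nhds (show 0 < θ / (2 * (C + 1)) by positivity)))
  refine ⟨max l₁ 1, fun l hl => ?_⟩
  have hl1 : 1 ≤ l := (le_max_right _ _).trans hl
  have hl0 : 0 < l := by linarith
  obtain ⟨η, hη, hres⟩ := hQ.res 0 1 1 hl1 (show 0 < θ / (2 * (C + 1)) / l by positivity)
  refine ⟨η, hη, fun u ρ hu hu0 x hx => ?_⟩
  have hsub : ball x r ⊆ cthickening r K :=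
    ball_subset_closedBall.trans (closedBall_subset_cthickening hx r)
  have h1 := hs (fun z => u z) x (cont_coe u) fun φ hφ hφs => by
    have h2 := hu.weak φ
    have h3 : ∫ z, φ z * ((g z - l * u z) * ρ z) ∂μ ≤ 0 := integral_nonpos fun z => by
      by_cases hz : φ z = 0
      · simp [hz]
      · have h4 := h0 z (hsub (hφs (subset_tsupport _ hz)))
        refine mul_nonpos_of_nonneg_of_nonpos (hφ z)
          (mul_nonpos_of_nonpos_of_nonneg ?_ (hu.mem z).1)
        rw [h4, zero_sub, neg_nonpos]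
        exact mul_nonneg hl0.le (hu0 _)
    linarith
  have h2 : ∫ z in ball x r, |u z| ≤ ∫ z in cthickening r K, u z := by
    simp only [fun z : ℂ => abs_of_nonneg (hu0 z)]
    exact setIntegral_mono_set ((cont_coe u).continuousOn.integrableOn_compact hK')
      (ae_of_all _ fun z => hu0 _) hsub.eventuallyLE
  have h3 := (abs_le.1 (hres g u ρ (fun _ => 1) hb hu (cyl_one 0) fun _ => by simp)).2
  have h4 := hl₁ l ((le_max_left _ _).trans hl)
  rw [← hint] at h2
  simp only [one_mul] at h3 h4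
  have h5 := mul_le_mul_of_nonneg_left h3 hl0.le
  rw [mul_div_cancel₀ _ hl0.ne', mul_sub] at h5
  have h6 : l * ∫ z in ball x r, |u z| ≤ θ / (C + 1) := by
    have e : θ / (C + 1) = θ / (2 * (C + 1)) + θ / (2 * (C + 1)) := by
      field_simp
      ring
    linarith [mul_le_mul_of_nonneg_left h2 hl0.le]
  calc l * u x ≤ l * (C * ∫ z in ball x r, |u z|) := mul_le_mul_of_nonneg_left h1 hl0.le
    _ = C * (l * ∫ z in ball x r, |u z|) := by ring
    _ ≤ C * (θ / (C + 1)) := mul_le_mul_of_nonneg_left h6 hC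
    _ ≤ (C + 1) * (θ / (C + 1)) := by gcongr; linarith
    _ = θ := by field_simp

end Pool.Agent.QL
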