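import Pool.Agent.P.MP_7a6434d8_pr.QL.W.ENet

/-! Barriers for exit times. -/

open MeasureTheory ProbabilityTheory Set Filter Topology Metric
open scoped ENNReal NNReal

namespace Pool.Agent.QL

open Pool.Agent.LGD Pool.Agent.P.MP_7a6434d8_pr

theorem eexit_min {α : Type} (s : Finset α) (f : α → ℝ) (hf : ∀ z, 0 < f z) :
    ∃ η > 0, η < 1 ∧ ∀ z ∈ s, η ≤ f z := by
  classical
  induction s using Finset.induction_on with
  | empty => exact ⟨1 / 2, by norm_num, by norm_num, by simp⟩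
  | insert a s _ ih =>
    obtain ⟨η, h0, h1, h2⟩ := ih
    refine ⟨min η (f a), lt_min h0 (hf a), (min_le_left _ _).trans_lt h1, fun z hz => ?_⟩
    rcases Finset.mem_insert.1 hz with rfl | hz
    · exact min_le_right _ _
    · exact (min_le_left _ _).trans (h2 z hz)

theorem exit_bound {d : Sph → Sph → ℝ} {μ : Measure ℂ} [IsProbabilityMeasure μ] {L : Measure Path}
    (hd : IsMet d) (h0 : μ {0} = 0) (h1 : μ {1} = 0) (hL : Cont μ L) {R θ : ℝ} (hR : 0 < R)
    (hθ : 0 < θ) : ∃ l > 0, ∀ N : Net, N.Geo d μ → N.En d → N.Trap →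
      ∀ᶠ m in (N.U : Filter ℕ), ∀ y, ∃ h : (N.q m).Vertex → ℝ,
        Barrier (N.q m) (N.a m) l {z | R ≤ d (N.p m y) (N.p m z)} h ∧ h y ≤ θ := by
  set t : ℝ := min (θ / 2) (1 / 2) with ht
  have ht0 : 0 < t := lt_min (by positivity) (by norm_num)
  have ht1 : t ≤ 1 / 2 := min_le_right _ _
  have ht2 : t ≤ θ / 2 := min_le_left _ _
  obtain ⟨s, hs⟩ := hd.net (show 0 < R / 5 by positivity)
  choose g hg hg0 hg1 using fun z => hd.bump z (show 2 * R / 5 < 3 * R / 5 by linarith)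
  have A : ∀ z, ∃ l₀ : ℝ, ∀ l, l₀ ≤ l → 0 < l → ∃ η > 0, ∀ N : Net, N.Geo d μ → N.En d →
      ∀ G, N.Good η G → ∀ u, N.Res l G (g z) u →
        ∀ᶠ m in (N.U : Filter ℕ), ∀ x, N.p m x ∈ {w | d z w ≤ R / 5} → l * u m x ≤ t := fun z =>
    small_net hd h0 h1 hL (g z) (hg z) (O := {w | d z w < 2 * R / 5})
      (isClosed_le (hd.cont_right z) continuous_const)
      (isOpen_lt (hd.cont_right z) continuous_const)
      (fun w hw => by simp only [mem_ofPred_eq] at hw ⊢; linarith)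
      (fun w hw => hg0 z w (le_of_lt hw)) ht0
  have B : ∀ z, ∃ l₀ : ℝ, ∀ l, l₀ ≤ l → 0 < l → ∃ η > 0, ∀ N : Net, N.Geo d μ → N.En d →
      ∀ G, N.Good η G → ∀ u, N.Res l G (1 - g z) u →
        ∀ᶠ m in (N.U : Filter ℕ), ∀ x, N.p m x ∈ {w | 4 * R / 5 ≤ d z w} → l * u m x ≤ t :=
    fun z =>
    small_net hd h0 h1 hL (1 - g z)
      (fun w => by
        have := hg z w
        simp only [ContinuousMap.sub_apply, ContinuousMap.one_apply, mem_Icc] at this ⊢
        constructor <;> linarith [this.1, this.2])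
      (O := {w | 3 * R / 5 < d z w})
      (isClosed_le continuous_const (hd.cont_right z))
      (isOpen_lt continuous_const (hd.cont_right z))
      (fun w hw => by simp only [mem_ofPred_eq] at hw ⊢; linarith)
      (fun w hw => by
        simp only [ContinuousMap.sub_apply, ContinuousMap.one_apply]
        rw [hg1 z w (le_of_lt hw), sub_self]) ht0
  choose la hla using A
  choose lb hlb using B
  set l : ℝ := 1 + ∑ z ∈ s, (|la z| + |lb z|) with hl
  have hsum : 0 ≤ ∑ z ∈ s, (|la z| + |lb z|) := Finset.sum_nonneg fun z _ => by positivity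
  have hl0 : 0 < l := by linarith
  have hle : ∀ z ∈ s, |la z| + |lb z| ≤ l := fun z hz => by
    have := Finset.single_le_sum (f := fun z => |la z| + |lb z|) (fun z _ => by positivity) hz
    linarith
  have A' : ∀ z, ∃ η > 0, z ∈ s → ∀ N : Net, N.Geo d μ → N.En d →
      ∀ G, N.Good η G → ∀ u, N.Res l G (g z) u →
        ∀ᶠ m in (N.U : Filter ℕ), ∀ x, N.p m x ∈ {w | d z w ≤ R / 5} → l * u m x ≤ t := fun z => by
    by_cases hz : z ∈ s
    · obtain ⟨η, h, h'⟩ := hla z l
        (by linarith [hle z hz, le_abs_self (la z), abs_nonneg (lb z)]) hl0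
      exact ⟨η, h, fun _ => h'⟩
    · exact ⟨1, one_pos, fun h => absurd h hz⟩
  have B' : ∀ z, ∃ η > 0, z ∈ s → ∀ N : Net, N.Geo d μ → N.En d →
      ∀ G, N.Good η G → ∀ u, N.Res l G (1 - g z) u →
        ∀ᶠ m in (N.U : Filter ℕ), ∀ x, N.p m x ∈ {w | 4 * R / 5 ≤ d z w} → l * u m x ≤ t :=
    fun z => by
    by_cases hz : z ∈ s
    · obtain ⟨η, h, h'⟩ := hlb z l
        (by linarith [hle z hz, le_abs_self (lb z), abs_nonneg (la z)]) hl0
      exact ⟨η, h, fun _ => h'⟩
    · exact ⟨1, one_pos, fun h => absurd h hz⟩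
  choose ea hea0 hea using A'
  choose eb heb0 heb using B'
  obtain ⟨η, hη0, hη1, hη⟩ := eexit_min s (fun z => min (ea z) (eb z))
    fun z => lt_min (hea0 z) (heb0 z)
  refine ⟨l, hl0, fun N hG hE hT => ?_⟩
  obtain ⟨G, hgood⟩ := hT.good hη0
  choose u hu using fun z => Net.exists_res hE hη1 hl0 hgood (g z)
  have hu' : ∀ z, N.Res l G (1 - g z) (fun m x => 1 / l - u z m x) := fun z => by
    filter_upwards [hu z] with m hm
    exact hm.compl hl0
  have hall : ∀ᶠ m in (N.U : Filter ℕ), ∀ z ∈ s,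
      IsRes (N.q m) (N.a m) l (G m) (fun x => g z (N.p m x)) (u z m) ∧
      (∀ x, N.p m x ∈ {w | d z w ≤ R / 5} → l * u z m x ≤ t) ∧
      ∀ x, N.p m x ∈ {w | 4 * R / 5 ≤ d z w} → l * (1 / l - u z m x) ≤ t := by
    rw [Filter.eventually_all_finset]
    intro z hz
    exact (hu z).and ((hea z hz N hG hE G (hgood.mono ((hη z hz).trans (min_le_left _ _))) _
      (hu z)).and (heb z hz N hG hE G (hgood.mono ((hη z hz).trans (min_le_right _ _))) _ (hu' z)))
  filter_upwards [hall, hE.pos, hgood.nonempty hη1] with m hm ha hne y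
  obtain ⟨z, hz, hzy⟩ := hs (N.p m y)
  obtain ⟨hres, hlo, hhi⟩ := hm z hz
  have h1t : 0 < 1 - t := by linarith
  have hc : 0 ≤ l / (1 - t) := by positivity
  have hres' := hres.cmul (l / (1 - t))
  have hf : ∀ x, 0 ≤ l / (1 - t) * g z (N.p m x) := fun x => mul_nonneg hc (hg z _).1
  have hcu : ∀ x, l / (1 - t) * u z m x = l * u z m x / (1 - t) := fun x => by ring
  refine ⟨fun x => l / (1 - t) * u z m x,
    ⟨hres'.nonneg ha hl0 hne hf, hres'.super ha hl0 hne hf, fun w hw => ?_⟩, ?_⟩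
  · have hw' : R ≤ d (N.p m y) (N.p m w) := hw
    have htri := hd.triangle (N.p m y) z (N.p m w)
    rw [hd.symm (N.p m y) z] at htri
    have := hhi w (show 4 * R / 5 ≤ d z (N.p m w) by linarith)
    rw [mul_sub, mul_one_div_cancel hl0.ne'] at this
    show 1 ≤ l / (1 - t) * u z m w
    rw [hcu, le_div_iff₀ h1t]
    linarith
  · have := hlo y (le_of_lt hzy)
    show l / (1 - t) * u z m y ≤ θ
    rw [hcu, div_le_iff₀ h1t]
    nlinarith

end Pool.Agent.QL
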