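import Pool.Agent.P.MP_7a6434d8_pr.QL.W.ECont
import Pool.Agent.P.MP_7a6434d8_pr.QL.W.CLim

/-! The discrete resolvent is small where the data vanish. -/

open MeasureTheory ProbabilityTheory Set Filter Topology Metric
open scoped ENNReal NNReal

namespace Pool.Agent.QL

open Pool.Agent.LGD Pool.Agent.P.MP_7a6434d8_pr

theorem enet_geo {d : Sph → Sph → ℝ} (hd : IsMet d) {K O : Set Sph} (hK : IsClosed K)
    (hO : IsOpen O) (hKO : K ⊆ O) : ∃ (K' : Set ℂ) (V : Set Sph) (r : ℝ), 0 < r ∧ IsCompact K' ∧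
      (∀ z ∈ K', (z : Sph) ∈ O) ∧ V ⊆ O ∧ (∀ x ∈ K, x ∉ V → ∃ z ∈ K', x = z) ∧
      (∀ x ∈ V, ∀ y, d x y ≤ r → y ∉ V → ∃ z ∈ K', y = z) ∧ ∃ z, ∀ y, d z y ≤ r → y ∉ V := by
  by_cases hi : OnePoint.infty ∈ O
  · obtain ⟨R, hR0, hR⟩ := ((OnePoint.isOpen_iff_of_mem hi).1 hO).2.isBounded.subset_ball_lt 0 0
    have hout : ∀ z : ℂ, R ≤ ‖z‖ → (z : Sph) ∈ O := fun z hz => by
      by_contra hc
      exact not_lt.2 hz (mem_ball_zero_iff.1 (hR hc))
    have hcl : ∀ s : ℝ, IsClosed ((fun z : ℂ => (z : Sph)) '' closedBall 0 s) := fun s =>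
      ((isCompact_closedBall (0 : ℂ) s).image OnePoint.continuous_coe).isClosed
    have hop : IsOpen ((fun z : ℂ => (z : Sph)) '' ball 0 (R + 1)) :=
      OnePoint.isOpenMap_coe _ isOpen_ball
    obtain ⟨r₁, hr₁, h₁⟩ := hd.thick hop.isClosed_compl (hcl R).isOpen_compl
      (compl_subset_compl.2 (image_mono (closedBall_subset_ball (by linarith))))
    obtain ⟨r₂, hr₂, h₂⟩ := hd.ball_sub (z := ((0 : ℂ) : Sph))
      (hop.mem_nhds ⟨0, mem_ball_self (by linarith), rfl⟩)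
    refine ⟨closedBall 0 (R + 1) ∩ ((fun z : ℂ => (z : Sph)) ⁻¹' K ∪ {z | R ≤ ‖z‖}),
      ((fun z : ℂ => (z : Sph)) '' closedBall 0 (R + 1))ᶜ, min r₁ (r₂ / 2),
      lt_min hr₁ (by linarith), (isCompact_closedBall _ _).inter_right
        ((hK.preimage OnePoint.continuous_coe).union (isClosed_le continuous_const continuous_norm)),
      fun z hz => hz.2.elim (fun h => hKO h) (hout z), fun x hx => ?_, fun x hx hV => ?_,
      fun x hx y hy hV => ?_, ((0 : ℂ) : Sph), fun y hy hV => ?_⟩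
    · induction x using OnePoint.rec with
      | infty => exact hi
      | coe z =>
        refine hout z ?_
        by_contra hc
        exact hx ⟨z, mem_closedBall_zero_iff.2 (by linarith), rfl⟩
    · obtain ⟨z, hz, rfl⟩ := not_not.1 hV
      exact ⟨z, ⟨hz, .inl hx⟩, rfl⟩
    · obtain ⟨z, hz, rfl⟩ := not_not.1 hV
      refine ⟨z, ⟨hz, .inr ?_⟩, rfl⟩
      have := h₁ x (fun h => hx (image_mono ball_subset_closedBall h)) _
        (hy.trans (min_le_left _ _))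
      by_contra hc
      exact this ⟨z, mem_closedBall_zero_iff.2 (not_le.1 hc).le, rfl⟩
    · exact hV (image_mono ball_subset_closedBall
        (h₂ y (by linarith [hy.trans (min_le_right _ _)])))
  · refine ⟨(fun z : ℂ => (z : Sph)) ⁻¹' K, ∅, 1, one_pos,
      ((OnePoint.isClosed_iff_of_notMem fun h => hi (hKO h)).1 hK).2, fun z hz => hKO hz,
      empty_subset _, fun x hx _ => ?_, fun _ h => h.elim, OnePoint.infty, fun _ _ h => h⟩
    induction x using OnePoint.rec with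
    | infty => exact absurd (hKO hx) hi
    | coe z => exact ⟨z, hx, rfl⟩

theorem small_net {d : Sph → Sph → ℝ} {μ : Measure ℂ} [IsProbabilityMeasure μ] {L : Measure Path}
    (hd : IsMet d) (h0 : μ {0} = 0) (h1 : μ {1} = 0) (hL : Cont μ L) (g : C(Sph, ℝ))
    (hg : ∀ z, g z ∈ Icc (0 : ℝ) 1) {K O : Set Sph} (hK : IsClosed K) (hO : IsOpen O)
    (hKO : K ⊆ O) (hz : ∀ z ∈ O, g z = 0) {θ : ℝ} (hθ : 0 < θ) :
    ∃ l₀ : ℝ, ∀ l, l₀ ≤ l → 0 < l → ∃ η > 0, ∀ N : Net, N.Geo d μ → N.En d →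
      ∀ G, N.Good η G → ∀ u, N.Res l G g u →
        ∀ᶠ m in (N.U : Filter ℕ), ∀ x, N.p m x ∈ K → l * u m x ≤ θ := by
  obtain ⟨K', V, r, hr, hK', hK'O, hVO, hKV, hstep, z₀, hz₀⟩ := enet_geo hd hK hO hKO
  obtain ⟨δ, hδ, hth⟩ := hK'.exists_cthickening_subset_open
    (hO.preimage OnePoint.continuous_coe) hK'O
  obtain ⟨l₀, hl₀⟩ := small_cont hL g hg hK' hδ (fun z h => hz _ (hth h)) (half_pos hθ)
  refine ⟨l₀, fun l hl hl0 => ?_⟩
  obtain ⟨η, hη, hs⟩ := hl₀ l hl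
  refine ⟨min η (1 / 2), lt_min hη (by norm_num), fun N hG hE G hGd u hu => ?_⟩
  have hη1 : min η (1 / 2) < 1 := (min_le_right _ _).trans_lt (by norm_num)
  have hg1 : ∀ z, |g z| ≤ 1 := fun z => abs_le.2 ⟨by linarith [(hg z).1], (hg z).2⟩
  obtain ⟨v, ρ, hv, hU⟩ := res_lim hd h0 h1 hG hE hη1 hl0 hGd hg1 hu
  have hb : ∀ᶠ m in (N.U : Filter ℕ), ∀ x, u m x ∈ Icc 0 (1 / l) := by
    filter_upwards [hu, hE.pos, hGd.nonempty hη1] with m h ha hne x
    refine ⟨h.nonneg ha hl0 hne (fun y => (hg _).1) x, ?_⟩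
    rw [le_div_iff₀' hl0]
    exact (le_abs_self _).trans (h.bound ha hl0 hne (fun y => hg1 _) x)
  have hv2 := hs v ρ ⟨hv.meas, hv.mem, hv.small.trans (min_le_left _ _), hv.bdd, hv.weak⟩
    fun z => (hU.mem_Icc hd hG hb z).1
  filter_upwards [hu, hE.pos, hb, hU (θ / 2 / l) (by positivity), hG.step hr, hG.dense r hr]
    with m h ha hb hU hst hde x hx
  have key : ∀ y, (∃ z ∈ K', N.p m y = z) → u m y ≤ θ / l := by
    rintro y ⟨z, hz, e⟩
    have h2 := (abs_le.1 (hU y)).2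
    rw [e, sub_le_iff_le_add] at h2
    have h3 : v z ≤ θ / 2 / l := (le_div_iff₀' hl0).2 (hv2 z hz)
    calc u m y ≤ θ / 2 / l + θ / 2 / l := by linarith
      _ = θ / l := by ring
  rw [← le_div_iff₀' hl0]
  by_cases hV : N.p m x ∈ V
  · obtain ⟨y₀, hy₀⟩ := hde z₀
    refine max_boundary (N.q m) {y | N.p m y ∈ V} ⟨y₀, hz₀ _ hy₀⟩ (u m) (fun y hy => ?_)
      (fun e h1 h2 => key _ (hstep _ h1 _ (hst e) h2)) x hV
    have e := h y
    simp only [hz _ (hVO hy), mul_zero] at e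
    have : 0 ≤ N.a m * lap (N.q m) (u m) y := by
      rw [← sub_eq_zero.1 e]
      exact mul_nonneg (mul_nonneg hl0.le (ind_nonneg _ _)) (hb y).1
    exact (mul_nonneg_iff_of_pos_left ha).1 this
  · exact key x (hKV _ hx hV)

end Pool.Agent.QL
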