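import Pool.Agent.P.MP_7a6434d8_pr.QL.W.EExit
import Pool.Agent.P.MP_7a6434d8_pr.QL.W.EChain

/-! Tightness. -/

open MeasureTheory ProbabilityTheory Set Filter Topology Metric
open scoped ENNReal NNReal

namespace Pool.Agent.QL

open Pool.Agent.LGD Pool.Agent.P.MP_7a6434d8_pr

theorem etight_pow {a l s : ℝ} (ha : 0 < a) (hl : 0 ≤ l) (hs : 0 ≤ s) :
    (1 + l / a) ^ ⌊a * s⌋₊ ≤ Real.exp (l * s) := by
  have h1 : (1 + l / a) ^ ⌊a * s⌋₊ ≤ Real.exp (l / a) ^ ⌊a * s⌋₊ := by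
    refine pow_le_pow_left₀ (by positivity) ?_ _
    rw [add_comm]
    exact Real.add_one_le_exp _
  refine h1.trans ?_
  rw [← Real.exp_nat_mul]
  refine Real.exp_le_exp.2 ?_
  have h2 : (⌊a * s⌋₊ : ℝ) ≤ a * s := Nat.floor_le (by positivity)
  calc (⌊a * s⌋₊ : ℝ) * (l / a) ≤ a * s * (l / a) :=
        mul_le_mul_of_nonneg_right h2 (by positivity)
    _ = l * s := by field_simp

theorem tight_all {d : Sph → Sph → ℝ} {μ : Measure ℂ} [IsProbabilityMeasure μ] {L : Measure Path}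
    (hd : IsMet d) (h0 : μ {0} = 0) (h1 : μ {1} = 0) (hL : Cont μ L) {ε : ℝ} (hε : 0 < ε)
    (T : ℝ) : ∃ δ > 0, ∀ N : Net, N.Geo d μ → N.En d → N.Trap → N.Tight d ε T δ := by
  have hR : 0 < ε / 4 := by positivity
  obtain ⟨l₁, hl₁, H₁⟩ := exit_bound hd h0 h1 hL hR (θ := 1 / 2) (by norm_num)
  obtain ⟨θ, hθ⟩ : ∃ θ, θ = ε / (2 * Real.exp (l₁ * |T|) * Real.exp 1) := ⟨_, rfl⟩
  have hθ0 : 0 < θ := by rw [hθ]; positivity
  obtain ⟨l₂, hl₂, H₂⟩ := exit_bound hd h0 h1 hL hR hθ0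
  refine ⟨l₂⁻¹, inv_pos.2 hl₂, fun N hG hE hT => ?_⟩
  filter_upwards [H₁ N hG hE hT, H₂ N hG hE hT, hE.pos, hG.step hR] with m k₁ k₂ ha hs
  have key := chain_osc (N.q m) ha hl₁.le hl₂.le hθ0.le (fun x y => d (N.p m x) (N.p m y))
    (fun x y => hd.symm _ _) (fun x y z => hd.triangle _ _ _)
    (fun x => by rw [hd.self]; exact hR) hs k₁ k₂ ⌊N.a m * |T|⌋₊ ⌊N.a m * l₂⁻¹⌋₊
  refine le_trans (measure_mono ?_) (key.trans (ENNReal.ofReal_le_ofReal ?_))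
  · rintro e ⟨i, j, hij, hj, hji, he⟩
    refine ⟨i, j, hij, Nat.le_floor (hj.trans ?_), ?_, ?_⟩
    · exact mul_le_mul_of_nonneg_left (le_abs_self T) ha.le
    · have h2 : j - i ≤ ⌊N.a m * l₂⁻¹⌋₊ := Nat.le_floor (by rwa [Nat.cast_sub hij])
      omega
    · have h2 : 4 * (ε / 4) = ε := by ring
      rw [h2]
      exact he.le
  · have b₁ := etight_pow ha hl₁.le (abs_nonneg T)
    have b₂ := etight_pow ha hl₂.le (inv_pos.2 hl₂).le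
    rw [mul_inv_cancel₀ hl₂.ne'] at b₂
    have p₁ : 0 ≤ (1 + l₁ / N.a m) ^ ⌊N.a m * |T|⌋₊ := by positivity
    calc 2 * θ * (1 + l₁ / N.a m) ^ ⌊N.a m * |T|⌋₊ * (1 + l₂ / N.a m) ^ ⌊N.a m * l₂⁻¹⌋₊
        ≤ 2 * θ * Real.exp (l₁ * |T|) * Real.exp 1 := by gcongr
      _ = ε := by rw [hθ]; field_simp

end Pool.Agent.QL
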