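import Pool.Agent.P.MP_7a6434d8_pr.QL.W.FStep
import Pool.Agent.P.MP_7a6434d8_pr.QL.W.ETight
import Pool.Agent.P.MP_7a6434d8_pr.QL.W.DCont

/-! The deterministic theorem. -/

open MeasureTheory ProbabilityTheory Set Filter Topology Metric
open scoped ENNReal NNReal

namespace Pool.Agent.QL

open Pool.Agent.LGD Pool.Agent.P.MP_7a6434d8_pr

theorem fdet_zero {d : Sph → Sph → ℝ} {μ : Measure ℂ} [IsProbabilityMeasure μ]
    {L : Measure Path} (hd : IsMet d) (hL : Cont μ L) {N : Net} (hG : N.Geo d μ)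
    (t : Fin 0 → ℝ≥0) (g : Fin 0 → C(Sph, ℝ)) : N.Upto L t g 0 := by
  intro h
  have h1 : ∫ w, (∏ j, g j (w.1 (t j))) * h (w.1 0) ∂L = ∫ z : ℂ, h z ∂μ := by
    rw [← hL.init, integral_map (measurable_eval 0).aemeasurable
      (cont_coe h).aestronglyMeasurable]
    simp
  rw [h1]
  refine (hG.avg_tendsto hd h).congr fun m => ?_
  rw [← stat_eval (N.q m) 0 fun x => h (N.p m x)]
  simp [Net.cyl, Net.pos]

theorem fdet_upto {d : Sph → Sph → ℝ} {μ : Measure ℂ} [IsProbabilityMeasure μ]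
    {L : Measure Path} (hd : IsMet d) (h0 : μ {0} = 0) (h1 : μ {1} = 0) (hL : Cont μ L) {N : Net}
    (hG : N.Geo d μ) (hE : N.En d) (hT : N.Trap) (hA : N.AllTight d) :
    ∀ (k : ℕ) (t : Fin k → ℝ≥0) (g : Fin k → C(Sph, ℝ)) (s : ℝ≥0), Monotone t → (∀ j, t j ≤ s) →
      N.Upto L t g s := by
  intro k
  induction k with
  | zero =>
    intro t g s _ _
    have := step_upto hd h0 h1 hL hG hE hT hA (fun j => j.elim0) (fdet_zero hd hL hG t g) s
    simpa using this
  | succ k ih =>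
    intro t g s ht hs
    have h2 := ih (fun j => t j.castSucc) (fun j => g j.castSucc) (t (Fin.last k))
      (fun i j hij => ht (Fin.castSucc_le_castSucc_iff.2 hij)) fun j => ht (Fin.le_last _)
    have h3 : N.Upto L t g (t (Fin.last k)) := by
      intro h
      have h4 := h2 (g (Fin.last k) * h)
      simp only [Net.cyl, Fin.prod_univ_castSucc, ContinuousMap.mul_apply, mul_assoc] at h4 ⊢
      exact h4
    have h5 := step_upto hd h0 h1 hL hG hE hT hA (fun j => ht (Fin.le_last j)) h3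
      (s - t (Fin.last k))
    rwa [add_tsub_cancel_of_le (hs _)] at h5

theorem fdd_of {d : Sph → Sph → ℝ} {μ : Measure ℂ} [IsProbabilityMeasure μ]
    {L : Measure Path} (hd : IsMet d) (h0 : μ {0} = 0) (h1 : μ {1} = 0) (hL : Cont μ L) {N : Net}
    (hG : N.Geo d μ) (hE : N.En d) (hT : N.Trap) : N.Fdd L := by
  have hA : N.AllTight d := fun ε hε T => by
    obtain ⟨δ, hδ, h⟩ := tight_all hd h0 h1 hL hε T
    exact ⟨δ, hδ, h N hG hE hT⟩
  intro k t g ht
  have h2 := fdet_upto hd h0 h1 hL hG hE hT hA k t g (∑ j, t j) ht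
    (fun j => Finset.single_le_sum (f := t) (fun _ _ => zero_le) (Finset.mem_univ j)) 1
  simpa [Net.cyl] using h2

theorem wdet : WDet := by
  intro d μ _ W L hd h0 h1 hW hL
  have hc := cont_of_lbm hW hL
  exact ⟨fun N hG hE hT => fdd_of hd.isMet h0 h1 hc hG hE hT,
    fun ε hε T => tight_all hd.isMet h0 h1 hc hε T⟩

end Pool.Agent.QL
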