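import Pool.Agent.P.MP_7a6434d8_pr.QL.W.Base

/-! Inversion of Laplace transforms along a filter. -/

open MeasureTheory ProbabilityTheory Set Filter Topology Metric
open scoped ENNReal NNReal

namespace Pool.Agent.QL

open Pool.Agent.LGD Pool.Agent.P.MP_7a6434d8_pr

theorem finv_exp : IntegrableOn (fun s : ℝ => Real.exp (-s)) (Ioi 0) := by
  simpa using exp_neg_integrableOn_Ioi 0 one_pos

theorem finv_mem {s : ℝ} (hs : s ∈ Ioi (0 : ℝ)) : Real.exp (-s) ∈ Icc (0 : ℝ) 1 :=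
  ⟨(Real.exp_pos _).le, Real.exp_le_one_iff.2 (neg_nonpos.2 (le_of_lt hs))⟩

theorem finv_int {φ H : ℝ → ℝ} {M : ℝ} (hφ : Continuous φ) (hH : Measurable H)
    (hb : ∀ s, |H s| ≤ M) :
    IntegrableOn (fun s => Real.exp (-s) * (φ (Real.exp (-s)) * H s)) (Ioi 0) := by
  obtain ⟨C, hC⟩ := isCompact_Icc.exists_bound_of_continuousOn (hφ.continuousOn (s := Icc 0 1))
  refine Integrable.mul_bdd (c := C * M) finv_exp
    ((hφ.measurable.comp (by fun_prop)).mul hH).aestronglyMeasurable ?_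
  filter_upwards [ae_restrict_mem measurableSet_Ioi] with s hs
  have h := hC _ (finv_mem hs)
  rw [norm_mul]
  exact mul_le_mul h (hb s) (norm_nonneg _) ((norm_nonneg _).trans h)

theorem finv_int' (k : ℕ) {H : ℝ → ℝ} {M : ℝ} (hH : Measurable H) (hb : ∀ s, |H s| ≤ M) :
    IntegrableOn (fun s => Real.exp (-(((k : ℝ) + 1) * s)) * H s) (Ioi 0) := by
  have h1 : IntegrableOn (fun s : ℝ => Real.exp (-(((k : ℝ) + 1) * s))) (Ioi 0) := by
    simpa only [neg_mul] using exp_neg_integrableOn_Ioi 0 (b := (k : ℝ) + 1) (by positivity)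
  exact Integrable.mul_bdd (c := M) h1 hH.aestronglyMeasurable (Eventually.of_forall hb)

theorem finv_poly {ι : Type} (U : Filter ι) (D : ι → ℝ → ℝ) {M : ℝ}
    (hD : ∀ i, Measurable (D i)) (hb : ∀ i s, |D i s| ≤ M)
    (hL : ∀ k : ℕ, Tendsto
      (fun i => ∫ s in Ioi (0 : ℝ), Real.exp (-(((k : ℝ) + 1) * s)) * D i s) U (𝓝 0))
    (p : Polynomial ℝ) :
    Tendsto (fun i => ∫ s in Ioi (0 : ℝ), Real.exp (-s) * (p.eval (Real.exp (-s)) * D i s)) U
      (𝓝 0) := by
  induction p using Polynomial.induction_on' with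
  | add p q hp hq =>
    have h := hp.add hq
    rw [add_zero] at h
    refine h.congr fun i => ?_
    rw [← integral_add (finv_int p.continuous (hD i) (hb i)) (finv_int q.continuous (hD i) (hb i))]
    congr 1
    funext s
    rw [Polynomial.eval_add]
    ring
  | monomial k c =>
    have h := (hL k).const_mul c
    rw [mul_zero] at h
    refine h.congr fun i => ?_
    rw [← integral_const_mul]
    congr 1
    funext s
    rw [Polynomial.eval_monomial, ← Real.exp_nat_mul,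
      show -(((k : ℝ) + 1) * s) = -s + k * -s by ring, Real.exp_add]
    ring

theorem finv_cont {ι : Type} (U : Filter ι) (D : ι → ℝ → ℝ) {M : ℝ} (hM : 0 ≤ M)
    (hD : ∀ i, Measurable (D i)) (hb : ∀ i s, |D i s| ≤ M)
    (hL : ∀ k : ℕ, Tendsto
      (fun i => ∫ s in Ioi (0 : ℝ), Real.exp (-(((k : ℝ) + 1) * s)) * D i s) U (𝓝 0))
    {φ : ℝ → ℝ} (hφ : Continuous φ) :
    Tendsto (fun i => ∫ s in Ioi (0 : ℝ), Real.exp (-s) * (φ (Real.exp (-s)) * D i s)) U
      (𝓝 0) := by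
  refine Metric.tendsto_nhds.2 fun ε hε => ?_
  have hη : 0 < ε / (2 * (M + 1)) := by positivity
  obtain ⟨p, hp⟩ := exists_polynomial_near_of_continuousOn 0 1 φ hφ.continuousOn _ hη
  filter_upwards [Metric.tendsto_nhds.1 (finv_poly U D hD hb hL p) (ε / 2) (by positivity)]
    with i hi
  rw [dist_zero_right] at hi ⊢
  have h1 := finv_int hφ (hD i) (hb i)
  have h2 := finv_int p.continuous (hD i) (hb i)
  have h3 : ‖(∫ s in Ioi (0 : ℝ), Real.exp (-s) * (φ (Real.exp (-s)) * D i s)) -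
      ∫ s in Ioi (0 : ℝ), Real.exp (-s) * (p.eval (Real.exp (-s)) * D i s)‖ ≤ ε / 2 := by
    rw [← integral_sub h1 h2]
    refine (norm_integral_le_of_norm_le (finv_exp.mul_const (ε / 2)) ?_).trans ?_
    · filter_upwards [ae_restrict_mem measurableSet_Ioi] with s hs
      have h4 := (hp _ (finv_mem hs)).le
      rw [← mul_sub, ← sub_mul, norm_mul, norm_mul, Real.norm_of_nonneg (Real.exp_pos _).le,
        Real.norm_eq_abs, Real.norm_eq_abs, abs_sub_comm]
      refine mul_le_mul_of_nonneg_left ?_ (Real.exp_pos _).le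
      refine (mul_le_mul h4 ((hb i s).trans (le_add_of_nonneg_right zero_le_one)) (abs_nonneg _)
        hη.le).trans (le_of_eq ?_)
      field_simp
    · rw [integral_mul_const, integral_exp_neg_Ioi_zero, one_mul]
  calc _ ≤ _ := norm_le_norm_add_norm_sub' _ _
    _ < ε / 2 + ε / 2 := add_lt_add_of_lt_of_le hi h3
    _ = ε := add_halves ε

theorem laplace_inv {ι : Type} (U : Filter ι) (F : ι → ℝ → ℝ) (G : ℝ → ℝ) {M : ℝ}
    (hF : ∀ i, Measurable (F i)) (hFb : ∀ i s, |F i s| ≤ M) (hG : Continuous G)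
    (hGb : ∀ s, |G s| ≤ M)
    (hL : ∀ k : ℕ, Tendsto
      (fun i => ∫ s in Ioi (0 : ℝ), Real.exp (-(((k : ℝ) + 1) * s)) * F i s) U
      (𝓝 (∫ s in Ioi (0 : ℝ), Real.exp (-(((k : ℝ) + 1) * s)) * G s)))
    {r : ℝ} (hr : 0 ≤ r)
    (he : ∀ ε > 0, ∃ δ > 0, ∀ᶠ i in U, ∀ s, 0 ≤ s → |s - r| ≤ δ → |F i s - F i r| ≤ ε) :
    Tendsto (fun i => F i r) U (𝓝 (G r)) := by
  have hM : 0 ≤ M := (abs_nonneg _).trans (hGb 0)
  have hD : ∀ i, Measurable fun s => F i s - G s := fun i => (hF i).sub hG.measurable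
  have hb : ∀ i s, |F i s - G s| ≤ M + M := fun i s =>
    (abs_sub _ _).trans (add_le_add (hFb i s) (hGb s))
  have hL' : ∀ k : ℕ, Tendsto
      (fun i => ∫ s in Ioi (0 : ℝ), Real.exp (-(((k : ℝ) + 1) * s)) * (F i s - G s)) U (𝓝 0) := by
    intro k
    refine (tendsto_sub_nhds_zero_iff.2 (hL k)).congr fun i => ?_
    rw [← integral_sub (finv_int' k (hF i) (hFb i)) (finv_int' k hG.measurable hGb)]
    simp only [mul_sub]
  refine Metric.tendsto_nhds.2 fun ε hε => ?_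
  obtain ⟨δ₁, hδ₁, h₁⟩ := he (ε / 4) (by positivity)
  obtain ⟨δ₂, hδ₂, h₂⟩ := Metric.continuousAt_iff.1 (hG.continuousAt (x := r)) (ε / 4)
    (by positivity)
  have hδ : 0 < min δ₁ δ₂ := lt_min hδ₁ hδ₂
  set δ := min δ₁ δ₂ with hδe
  let φ : ℝ → ℝ := fun x => max 0 ((x - Real.exp (-(r + δ))) * (Real.exp (-r) - x))
  have hφ : Continuous φ := by fun_prop
  have hφ0 : ∀ x, 0 ≤ φ x := fun x => le_max_left _ _
  have hin : ∀ s ∈ Ioo r (r + δ), 0 < φ (Real.exp (-s)) := fun s hs =>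
    lt_max_of_lt_right (mul_pos (sub_pos.2 (Real.exp_lt_exp.2 (neg_lt_neg hs.2)))
      (sub_pos.2 (Real.exp_lt_exp.2 (neg_lt_neg hs.1))))
  have hout : ∀ s, s ∉ Ioo r (r + δ) → φ (Real.exp (-s)) = 0 := fun s hs => by
    refine max_eq_left ?_
    rcases le_or_gt s r with h | h
    · exact mul_nonpos_of_nonneg_of_nonpos
        (sub_nonneg.2 (Real.exp_le_exp.2 (neg_le_neg (by linarith))))
        (sub_nonpos.2 (Real.exp_le_exp.2 (neg_le_neg h)))
    · have h' : r + δ ≤ s := not_lt.1 fun h' => hs ⟨h, h'⟩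
      exact mul_nonpos_of_nonpos_of_nonneg (sub_nonpos.2 (Real.exp_le_exp.2 (neg_le_neg h')))
        (sub_nonneg.2 (Real.exp_le_exp.2 (neg_le_neg h.le)))
  have hw : IntegrableOn (fun s => Real.exp (-s) * φ (Real.exp (-s))) (Ioi 0) := by
    simpa using finv_int (H := fun _ => 1) (M := 1) hφ measurable_const (by simp)
  have hw0 : ∀ s, 0 ≤ Real.exp (-s) * φ (Real.exp (-s)) := fun s =>
    mul_nonneg (Real.exp_pos _).le (hφ0 _)
  have hc : 0 < ∫ s in Ioi (0 : ℝ), Real.exp (-s) * φ (Real.exp (-s)) := by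
    rw [setIntegral_pos_iff_support_of_nonneg_ae (Eventually.of_forall hw0) hw]
    refine lt_of_lt_of_le ?_ (measure_mono (s := Ioo r (r + δ)) fun s hs =>
      ⟨(mul_pos (Real.exp_pos _) (hin s hs)).ne', hr.trans_lt hs.1⟩)
    simpa using hδ
  set c := ∫ s in Ioi (0 : ℝ), Real.exp (-s) * φ (Real.exp (-s)) with hce
  filter_upwards [h₁, Metric.tendsto_nhds.1
    (finv_cont U (fun i s => F i s - G s) (add_nonneg hM hM) hD hb hL' hφ) (c * (ε / 2))
    (by positivity)] with i hi hi'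
  rw [dist_zero_right] at hi'
  have h3 : ‖c * (F i r - G r) -
      ∫ s in Ioi (0 : ℝ), Real.exp (-s) * (φ (Real.exp (-s)) * (F i s - G s))‖ ≤ c * (ε / 2) := by
    rw [hce, ← integral_mul_const, ← integral_mul_const,
      ← integral_sub (hw.mul_const _) (finv_int hφ (hD i) (hb i))]
    refine norm_integral_le_of_norm_le (hw.mul_const (ε / 2)) (Eventually.of_forall fun s => ?_)
    rw [← mul_assoc, ← mul_sub, norm_mul, Real.norm_of_nonneg (hw0 s)]
    by_cases hs : s ∈ Ioo r (r + δ)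
    · refine mul_le_mul_of_nonneg_left ?_ (hw0 s)
      have h4 : |s - r| < δ := abs_lt.2 ⟨by linarith [hs.1], by linarith [hs.2]⟩
      have h5 := abs_le.1 (hi s (hr.trans hs.1.le) (h4.le.trans (min_le_left _ _)))
      have h6 := abs_lt.1 (h₂ (x := s) (h4.trans_le (min_le_right _ _)))
      rw [Real.norm_eq_abs, abs_le]
      constructor <;> linarith [h5.1, h5.2, h6.1, h6.2]
    · rw [hout s hs, mul_zero, zero_mul, zero_mul]
  have h7 : ‖c * (F i r - G r)‖ < c * ε :=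
    calc _ ≤ _ := norm_le_norm_add_norm_sub' _ _
      _ < c * (ε / 2) + c * (ε / 2) := add_lt_add_of_lt_of_le hi' h3
      _ = c * ε := by ring
  rw [norm_mul, Real.norm_of_nonneg hc.le] at h7
  exact lt_of_mul_lt_mul_left h7 hc.le

end Pool.Agent.QL
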