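import Pool.Agent.P.MP_7a6434d8_pr.QL.W.FMarkov
import Pool.Agent.P.MP_7a6434d8_pr.QL.W.CLim
import Pool.Agent.P.MP_7a6434d8_pr.QL.W.DLap

/-! Convergence of Laplace transforms in the last time. -/

open MeasureTheory ProbabilityTheory Set Filter Topology Metric
open scoped ENNReal NNReal

namespace Pool.Agent.QL

open Pool.Agent.LGD Pool.Agent.P.MP_7a6434d8_pr

theorem flap_int {n : ℕ} {q : Quad n} {j : ℕ} {Y : DP n → ℝ} (h : Dep q j Y) :
    Integrable Y (statLaw q) := by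
  obtain ⟨C, hC⟩ := h.bdd
  exact Integrable.of_bound h.measurable.aestronglyMeasurable C (ae_of_all _ hC)

theorem flap_dep {n : ℕ} {q : Quad n} {j : ℕ} {Y : DP n → ℝ} (h : Dep q j Y)
    (k : q.Vertex → ℝ) : Dep q j fun e => Y e * k (q.tail (e j)) := by
  intro e e' he
  show Y e * k (q.tail (e j)) = Y e' * k (q.tail (e' j))
  rw [h e e' he, he j le_rfl]

theorem flap_cmp {n : ℕ} {q : Quad n} {j : ℕ} {Y : DP n → ℝ} (h : Dep q j Y) {C : ℝ}
    (hC : ∀ e, |Y e| ≤ C) (k k' : q.Vertex → ℝ) :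
    |∫ e, Y e * k (q.tail (e j)) ∂statLaw q - ∫ e, Y e * k' (q.tail (e j)) ∂statLaw q| ≤
      C * avg q fun x => |k x - k' x| := by
  have i1 := flap_int (flap_dep h k)
  have i2 := flap_int (flap_dep h k')
  have h1 : Dep q j fun _ => C := fun _ _ _ => rfl
  have i3 := flap_int (flap_dep h1 fun x => |k x - k' x|)
  rw [← integral_sub i1 i2, ← stat_eval q j, ← integral_const_mul]
  refine (abs_integral_le_integral_abs).trans (integral_mono (i1.sub i2).abs i3 fun e => ?_)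
  show |Y e * k (q.tail (e j)) - Y e * k' (q.tail (e j))| ≤
    C * |k (q.tail (e j)) - k' (q.tail (e j))|
  rw [← mul_sub, abs_mul]
  exact mul_le_mul_of_nonneg_right (hC e) (abs_nonneg _)

theorem flap_cmp' {n : ℕ} {q : Quad n} {j : ℕ} {Y : DP n → ℝ} (h : Dep q j Y) {C ε : ℝ}
    (hC0 : 0 ≤ C) (hC : ∀ e, |Y e| ≤ C) {k k' : q.Vertex → ℝ} (hk : ∀ x, |k x - k' x| ≤ ε) :
    |∫ e, Y e * k (q.tail (e j)) ∂statLaw q - ∫ e, Y e * k' (q.tail (e j)) ∂statLaw q| ≤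
      C * ε := by
  refine (flap_cmp h hC k k').trans (mul_le_mul_of_nonneg_left ?_ hC0)
  exact (avg_mono q hk).trans (avg_const q ε).le

theorem flap_rate {a l : ℝ} (hl : 0 < l) (ha : l ≤ a) :
    l ≤ a * (Real.exp (l / a) - 1) ∧ a * (Real.exp (l / a) - 1) - l ≤ l ^ 2 / a := by
  have ha0 : 0 < a := hl.trans_le ha
  have h1 : l / a + 1 ≤ Real.exp (l / a) := Real.add_one_le_exp _
  have h2 : |l / a| ≤ 1 := by
    rw [abs_of_pos (div_pos hl ha0)]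
    exact (div_le_one ha0).2 ha
  have h3 := (abs_le.1 (Real.abs_exp_sub_one_sub_id_le h2)).2
  have h4 : a * (l / a) = l := by field_simp
  constructor
  · nlinarith
  · have h5 : l ^ 2 / a = a * (l / a) ^ 2 := by field_simp
    rw [h5]
    nlinarith

/-- the Laplace transform of the walk is close to the resolvent -/
theorem flap_true {n : ℕ} {q : Quad n} {a l M : ℝ} (hl : 1 ≤ l) (ha : l ≤ a)
    {f u : q.Vertex → ℝ} (hf : ∀ x, |f x| ≤ M) (hu : IsRes q a l univ f u) (x : q.Vertex) :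
    |(∫ e, lapl q a l f e ∂walkLaw q x) - u x| ≤ 2 * M * (l ^ 2 / a) := by
  have hl0 : 0 < l := one_pos.trans_le hl
  have ha0 : 0 < a := hl0.trans_le ha
  have hM : 0 ≤ M := (abs_nonneg _).trans (hf x)
  obtain ⟨r1, r2⟩ := flap_rate hl0 ha
  have h0 := lapl_res q ha0 hl0 f
  set l' := a * (Real.exp (l / a) - 1) with hl'
  have hl1 : 0 < l' := hl0.trans_le r1
  set U : q.Vertex → ℝ := fun v => ∫ e, lapl q a l f e ∂walkLaw q v with hU
  have h1 : IsRes q a l' univ f fun v => l / l' * U v := by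
    have h2 := h0.cmul (l / l')
    have h3 : (fun x => l / l' * (l' / l * f x)) = f := by
      funext y
      field_simp
    rwa [h3] at h2
  have h4 := hu.lam h1 ha0 hl0 hl1 hf x
  have h5 := h1.bound ha0 hl1 ⟨x, mem_univ x⟩ hf x
  have h6 : l' * (l / l' * U x) = l * U x := by field_simp
  rw [h6, abs_mul, abs_of_pos hl0] at h5
  have h7 : |U x| ≤ M := by nlinarith [abs_nonneg (U x)]
  have h8 : |l - l'| * M / (l * l') ≤ (l' - l) * M := by
    rw [abs_sub_comm, abs_of_nonneg (sub_nonneg.2 r1)]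
    refine div_le_self (mul_nonneg (sub_nonneg.2 r1) hM) ?_
    nlinarith
  have h9 : |U x - l / l' * U x| ≤ (l' - l) * M := by
    have e1 : U x - l / l' * U x = (l' - l) / l' * U x := by field_simp
    rw [e1, abs_mul, abs_of_nonneg (div_nonneg (sub_nonneg.2 r1) hl1.le)]
    refine mul_le_mul (div_le_self (sub_nonneg.2 r1) (hl.trans r1)) h7 (abs_nonneg _)
      (sub_nonneg.2 r1)
  have h10 : |U x - u x| ≤ |U x - l / l' * U x| + |u x - l / l' * U x| := by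
    have := abs_sub_le (U x) (l / l' * U x) (u x)
    rwa [abs_sub_comm (l / l' * U x) (u x)] at this
  show |U x - u x| ≤ 2 * M * (l ^ 2 / a)
  nlinarith

/-- comparison on one map -/
theorem flap_one {n : ℕ} {q : Quad n} {a l M C η ε : ℝ} (hl : 1 ≤ l) (ha : l ≤ a)
    {G : Set q.Vertex} (hG : G.Nonempty) (hη : avg q (ind Gᶜ) ≤ η) {f u v : q.Vertex → ℝ}
    (hf : ∀ x, |f x| ≤ M) (hu : IsRes q a l G f u) (hv : ∀ x, |u x - v x| ≤ ε) {j : ℕ}
    {Y : DP n → ℝ} (hY : Dep q j Y) (hC0 : 0 ≤ C) (hC : ∀ e, |Y e| ≤ C) :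
    |(∫ s in Ioi (0 : ℝ), Real.exp (-(l * s)) *
        ∫ e, Y e * f (q.tail (e (j + ⌊a * s⌋₊))) ∂statLaw q) -
      ∫ e, Y e * v (q.tail (e j)) ∂statLaw q| ≤
      C * (2 * M * (l ^ 2 / a)) + C * (2 * M * η) + C * ε := by
  have hl0 : 0 < l := one_pos.trans_le hl
  have ha0 : 0 < a := hl0.trans_le ha
  obtain ⟨x0, hx0⟩ := hG
  have hM : 0 ≤ M := (abs_nonneg _).trans (hf x0)
  obtain ⟨w, hw⟩ := res_exists q ha0 hl0 (G := univ) ⟨x0, mem_univ _⟩ f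
  rw [stat_laplace q a hl0 j hY f]
  have h1 := flap_cmp' hY hC0 hC (flap_true hl ha hf hw)
  have h2 := flap_cmp hY hC w u
  have h3 := flap_cmp' hY hC0 hC hv
  have h4 := hw.diff hu ha0 hl0 ⟨x0, hx0⟩ hf
  have h5 : 0 ≤ avg q (ind Gᶜ) :=
    (avg_const q 0).ge.trans (avg_mono q fun x => ind_nonneg _ x)
  have h6 : 2 * M * avg q (ind Gᶜ) / l ≤ 2 * M * η :=
    (div_le_self (by positivity) hl).trans (mul_le_mul_of_nonneg_left hη (by positivity))
  have h7 := h2.trans (mul_le_mul_of_nonneg_left (h4.trans h6) hC0)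
  have t1 := abs_sub_le (∫ e, Y e * ∫ w, lapl q a l f w ∂walkLaw q (q.tail (e j)) ∂statLaw q)
    (∫ e, Y e * w (q.tail (e j)) ∂statLaw q) (∫ e, Y e * v (q.tail (e j)) ∂statLaw q)
  have t2 := abs_sub_le (∫ e, Y e * w (q.tail (e j)) ∂statLaw q)
    (∫ e, Y e * u (q.tail (e j)) ∂statLaw q) (∫ e, Y e * v (q.tail (e j)) ∂statLaw q)
  linarith

theorem flap_prod {k : ℕ} (g : Fin k → C(Sph, ℝ)) :
    ∃ C : ℝ, 0 ≤ C ∧ ∀ γ : Fin k → Sph, |∏ j, g j (γ j)| ≤ C := by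
  choose c hc using fun j => cont_bdd (g j)
  refine ⟨∏ j, |c j|, Finset.prod_nonneg fun _ _ => abs_nonneg _, fun γ => ?_⟩
  rw [Finset.abs_prod]
  exact Finset.prod_le_prod (fun _ _ => abs_nonneg _) fun j _ => (hc j _).trans (le_abs_self _)

theorem flap_cyl {k : ℕ} {t : Fin k → ℝ≥0} (g : Fin k → C(Sph, ℝ)) {s : ℝ≥0}
    (hts : ∀ j, t j ≤ s) : Cyl s fun w : Path => ∏ j, g j (w.1 (t j)) := by
  refine ⟨k, t, fun j z => g j z, hts, fun j => cont_coe (g j), fun j => ?_, rfl⟩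
  obtain ⟨c, hc⟩ := cont_bdd (g j)
  exact ⟨c, fun z => hc _⟩

theorem flap_depcyl (N : Net) (m : ℕ) (ha : 0 ≤ N.a m) {k : ℕ} {t : Fin k → ℝ≥0}
    (g : Fin k → C(Sph, ℝ)) {s : ℝ≥0} (hts : ∀ j, t j ≤ s) :
    Dep (N.q m) ⌊N.a m * s⌋₊ (N.cyl m t g) := by
  intro e e' he
  refine Finset.prod_congr rfl fun j _ => ?_
  have h1 : ⌊N.a m * t j⌋₊ ≤ ⌊N.a m * s⌋₊ :=
    Nat.floor_le_floor (mul_le_mul_of_nonneg_left (NNReal.coe_le_coe.2 (hts j)) ha)
  show g j (N.p m _) = g j (N.p m _)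
  rw [he _ h1]

theorem flap_small {K θ : ℝ} (hK : 0 ≤ K) (hθ : 0 < θ) :
    ∃ η > 0, ∀ x, x ≤ η → K * x ≤ θ := by
  refine ⟨θ / (K + 1), by positivity, fun x hx => ?_⟩
  calc K * x ≤ K * (θ / (K + 1)) := mul_le_mul_of_nonneg_left hx hK
    _ ≤ (K + 1) * (θ / (K + 1)) := mul_le_mul_of_nonneg_right (by linarith) (by positivity)
    _ = θ := by field_simp

theorem step_laplace {d : Sph → Sph → ℝ} {μ : Measure ℂ} [IsProbabilityMeasure μ]
    {L : Measure Path} (hd : IsMet d) (h0 : μ {0} = 0) (h1 : μ {1} = 0) (hL : Cont μ L) {N : Net}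
    (hG : N.Geo d μ) (hE : N.En d) (hT : N.Trap) {k : ℕ} {t : Fin k → ℝ≥0}
    {g : Fin k → C(Sph, ℝ)} {s : ℝ≥0} (hts : ∀ j, t j ≤ s) (hup : N.Upto L t g s)
    (h : C(Sph, ℝ)) {l : ℝ} (hl : 1 ≤ l) :
    Tendsto (fun m => ∫ r in Ioi (0 : ℝ), Real.exp (-(l * r)) *
        ∫ e, N.cyl m t g e * h (N.pos m e (⌊N.a m * s⌋₊ + ⌊N.a m * r⌋₊)) ∂statLaw (N.q m)) N.U
      (𝓝 (∫ r in Ioi (0 : ℝ), Real.exp (-(l * r)) *
        ∫ w, (∏ j, g j (w.1 (t j))) * h (w.1 (s + r.toNNReal)) ∂L)) := by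
  have hl0 : 0 < l := one_pos.trans_le hl
  obtain ⟨C, hC0, hC⟩ := flap_prod g
  obtain ⟨M, hM⟩ := cont_bdd h
  have hM0 : 0 ≤ M := (abs_nonneg _).trans (hM OnePoint.infty)
  rw [Metric.tendsto_nhds]
  intro θ hθ
  have hθ6 : 0 < θ / 6 := by positivity
  obtain ⟨η0, hη0, hres⟩ := hL.sol.res s M C hl hθ6
  obtain ⟨η1, hη1, hs1⟩ := flap_small (K := C * (2 * M)) (by positivity) hθ6
  obtain ⟨ε, hε, hs2⟩ := flap_small hC0 hθ6
  set η : ℝ := min (1 / 2) (min η0 η1) with hηdef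
  have hη : 0 < η := lt_min (by norm_num) (lt_min hη0 hη1)
  have hηa : η < 1 := (min_le_left _ _).trans_lt (by norm_num)
  have hηb : η ≤ η0 := (min_le_right _ _).trans (min_le_left _ _)
  have hηc : η ≤ η1 := (min_le_right _ _).trans (min_le_right _ _)
  obtain ⟨G, hg⟩ := hT.good hη
  obtain ⟨u, hu⟩ := Net.exists_res hE hηa hl0 hg h
  obtain ⟨v, ρ, hv, huv⟩ := res_lim hd h0 h1 hG hE hηa hl0 hg hM hu
  have hv' : ResLim μ l η0 M h v ρ := ⟨hv.meas, hv.mem, hv.small.trans hηb, hv.bdd, hv.weak⟩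
  have hB := hres h v ρ _ hM hv' (flap_cyl g hts) fun b => hC fun j => b.1 (t j)
  have hA := Metric.tendsto_nhds.1 (hup v) _ hθ6
  have ha1 : ∀ᶠ m in (N.U : Filter ℕ), l ≤ N.a m := hE.a_top.eventually_ge_atTop l
  have ha2 : ∀ᶠ m in (N.U : Filter ℕ), l ^ 2 / η1 ≤ N.a m := hE.a_top.eventually_ge_atTop _
  filter_upwards [hA, ha1, ha2, hu, huv ε hε, hg.small, hg.nonempty hηa] with m m1 m2 m3 m4 m5
    m6 m7
  have ha0 : 0 < N.a m := hl0.trans_le m2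
  have m8 := flap_one (f := fun x => h (N.p m x)) (v := fun x => v (N.p m x)) hl m2 m7 m6
    (fun x => hM _) m4 m5 (flap_depcyl N m ha0.le g hts) hC0
    fun e => hC fun j => N.pos m e ⌊N.a m * t j⌋₊
  have m9 : l ^ 2 / N.a m ≤ η1 := by
    rw [div_le_iff₀ ha0]
    rw [div_le_iff₀ hη1] at m3
    linarith
  have b1 := hs1 _ m9
  have b2 := hs1 _ hηc
  have b3 := hs2 _ le_rfl
  rw [Real.dist_eq] at m1 ⊢
  simp only [Net.pos] at m1 ⊢
  have m1' := abs_lt.1 m1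
  have m8' := abs_le.1 m8
  have hB' := abs_le.1 hB
  rw [abs_lt]
  constructor <;> nlinarith [m1'.1, m1'.2, m8'.1, m8'.2, hB'.1, hB'.2]

end Pool.Agent.QL
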