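import Pool.Agent.P.MP_7a6434d8_pr.QL.W.FWalk

/-! Markov property, stationarity and the Laplace transform of the walk. -/

open MeasureTheory ProbabilityTheory Set Filter Topology Metric
open scoped ENNReal NNReal

namespace Pool.Agent.QL

open Pool.Agent.LGD Pool.Agent.P.MP_7a6434d8_pr

variable {n : ℕ} (q : Quad n)

theorem fmarkov_mul {α : Type} {f g : α → ℝ} (hf : Bdd f) (hg : Bdd g) :
    Bdd fun x => f x * g x := by
  obtain ⟨C, hC⟩ := hf
  obtain ⟨D, hD⟩ := hg
  exact ⟨C * D, fun x => by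
    rw [abs_mul]
    exact mul_le_mul (hC x) (hD x) (abs_nonneg _) ((abs_nonneg _).trans (hC x))⟩

theorem fmarkov_comp {α β : Type} {f : α → ℝ} (hf : Bdd f) (g : β → α) : Bdd fun x => f (g x) :=
  hf.imp fun _ hC x => hC (g x)

theorem fmarkov_eval (j : ℕ) (k : q.Vertex → ℝ) : Dep q j fun e => k (q.tail (e j)) :=
  fun _ _ h => congrArg k (h j le_rfl)

theorem fmarkov_dep {j : ℕ} {Y : DP n → ℝ} (hY : Dep q j Y) (k : q.Vertex → ℝ) :
    Dep q j fun e => Y e * k (q.tail (e j)) :=
  fun e e' h => congrArg₂ (· * ·) (hY e e' h) (fmarkov_eval q j k e e' h)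

theorem fmarkov_shift (j : ℕ) (e : Fin (4 * n)) (w : DP n) :
    dshift (j + 1) (dcons e w) = dshift j w := by
  funext i
  simp only [dshift]
  rw [Nat.add_right_comm]
  rfl

theorem fmarkov_cons {j : ℕ} {Y : DP n → ℝ} (hY : Dep q (j + 1) Y) (e : Fin (4 * n)) :
    Dep q j fun w => Y (dcons e w) := fun w w' h => hY _ _ fun i hi => by
  obtain _ | i := i
  · rfl
  · exact h i (by omega)

theorem walk_markov (j : ℕ) {Y Φ : DP n → ℝ} (hY : Dep q j Y) (hΦ : Measurable Φ) (hb : Bdd Φ)
    (v : q.Vertex) : ∫ e, Y e * Φ (dshift j e) ∂walkLaw q v =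
      ∫ e, Y e * ∫ w, Φ w ∂walkLaw q (q.tail (e j)) ∂walkLaw q v := by
  induction j generalizing Y v with
  | zero =>
    have h1 : ∀ᵐ e ∂walkLaw q v, Y e = Y fun _ => Quotient.out v := by
      filter_upwards [walk_start q v] with e he
      refine hY _ _ fun i hi => ?_
      rw [Nat.le_zero.1 hi, he, tail_out]
    have h2 : ∫ e, Y e * Φ (dshift 0 e) ∂walkLaw q v =
        ∫ e, (Y fun _ => Quotient.out v) * Φ e ∂walkLaw q v := by
      refine integral_congr_ae ?_
      filter_upwards [h1] with e he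
      rw [he]
      congr 2
      funext i
      simp only [dshift, zero_add]
    have h3 : ∫ e, Y e * ∫ w, Φ w ∂walkLaw q (q.tail (e 0)) ∂walkLaw q v =
        ∫ _, (Y fun _ => Quotient.out v) * ∫ w, Φ w ∂walkLaw q v ∂walkLaw q v := by
      refine integral_congr_ae ?_
      filter_upwards [h1, walk_start q v] with e he he'
      rw [he, he']
    rw [h2, h3, integral_const_mul]
    simp
  | succ j ih =>
    have h1 := fmarkov_dep q hY fun x => ∫ w, Φ w ∂walkLaw q x
    have h2 : Measurable fun e => Y e * Φ (dshift (j + 1) e) :=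
      hY.measurable.mul (hΦ.comp (measurable_dshift _))
    rw [integral_walk_step q v h2 (fmarkov_mul hY.bdd (fmarkov_comp hb _)),
      integral_walk_step q v h1.measurable h1.bdd]
    congr 1
    refine Finset.sum_congr rfl fun e _ => ?_
    simp only [fmarkov_shift]
    exact ih (fmarkov_cons q hY e) _

theorem stat_markov (j : ℕ) {Y Φ : DP n → ℝ} (hY : Dep q j Y) (hΦ : Measurable Φ) (hb : Bdd Φ) :
    ∫ e, Y e * Φ (dshift j e) ∂statLaw q =
      ∫ e, Y e * ∫ w, Φ w ∂walkLaw q (q.tail (e j)) ∂statLaw q := by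
  have h1 := fmarkov_dep q hY fun x => ∫ w, Φ w ∂walkLaw q x
  have h2 : Measurable fun e => Y e * Φ (dshift j e) :=
    hY.measurable.mul (hΦ.comp (measurable_dshift _))
  rw [integral_statLaw q h2 (fmarkov_mul hY.bdd (fmarkov_comp hb _)),
    integral_statLaw q h1.measurable h1.bdd]
  exact congrArg (avg q) (funext fun v => walk_markov q j hY hΦ hb v)

theorem stat_eval (j : ℕ) (k : q.Vertex → ℝ) :
    ∫ e, k (q.tail (e j)) ∂statLaw q = avg q k := by
  rw [integral_statLaw q (fmarkov_eval q j k).measurable (fmarkov_eval q j k).bdd]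
  induction j with
  | zero =>
    refine congrArg (avg q) (funext fun v => ?_)
    have h1 : ∫ e, k (q.tail (e 0)) ∂walkLaw q v = ∫ _, k v ∂walkLaw q v := by
      refine integral_congr_ae ?_
      filter_upwards [walk_start q v] with e he
      rw [he]
    rw [h1]
    simp
  | succ j ih =>
    have h1 : (fun v => ∫ e, k (q.tail (e (j + 1))) ∂walkLaw q v) = fun v =>
        lap q (fun x => ∫ e, k (q.tail (e j)) ∂walkLaw q x) v +
          ∫ e, k (q.tail (e j)) ∂walkLaw q v := by
      funext v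
      rw [lap_eq, sub_add_cancel, integral_walk_step q v (fmarkov_eval q (j + 1) k).measurable
        (fmarkov_eval q (j + 1) k).bdd]
      rfl
    rw [h1, avg_add, ih]
    exact (congrArg (· + avg q k) (avg_lap q _)).trans (zero_add _)

theorem fmarkov_joint (a : ℝ) (g : q.Vertex → ℝ) :
    Measurable fun p : DP n × ℝ => g (q.tail (p.1 ⌊a * p.2⌋₊)) := by
  have h : Measurable fun p : DP n × ℕ => g (q.tail (p.1 p.2)) :=
    measurable_from_prod_countable_left fun j => (fmarkov_eval q j g).measurable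
  exact h.comp (measurable_fst.prodMk (measurable_const.mul measurable_snd).nat_floor)

theorem fmarkov_exp (l : ℝ) : Measurable fun s : ℝ => Real.exp (-(l * s)) := by fun_prop

theorem fmarkov_int {l : ℝ} (hl : 0 < l) (b : ℝ) :
    IntegrableOn (fun s : ℝ => Real.exp (-(l * s))) (Ioi b) := by
  simpa only [neg_mul] using exp_neg_integrableOn_Ioi b hl

theorem fmarkov_g (g : q.Vertex → ℝ) : Bdd g :=
  ⟨∑ y, |g y|, fun x => Finset.single_le_sum (f := fun y => |g y|) (fun _ _ => abs_nonneg _)
    (Finset.mem_univ x)⟩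

theorem measurable_lapl (a l : ℝ) (g : q.Vertex → ℝ) : Measurable (lapl q a l g) :=
  (((fmarkov_exp l).comp measurable_snd).mul
    (fmarkov_joint q a g)).stronglyMeasurable.integral_prod_right'.measurable

theorem lapl_bdd (a : ℝ) {l : ℝ} (hl : 0 < l) (g : q.Vertex → ℝ) : Bdd (lapl q a l g) := by
  obtain ⟨C, hC⟩ := fmarkov_g q g
  refine ⟨∫ s in Ioi (0 : ℝ), Real.exp (-(l * s)) * C, fun e => ?_⟩
  rw [← Real.norm_eq_abs]
  refine norm_integral_le_of_norm_le ((fmarkov_int hl 0).mul_const C) (ae_of_all _ fun s => ?_)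
  rw [Real.norm_eq_abs, abs_mul, abs_of_pos (Real.exp_pos _)]
  exact mul_le_mul_of_nonneg_left (hC _) (Real.exp_pos _).le

theorem fmarkov_step {a l : ℝ} (ha : 0 < a) (hl : 0 < l) (g : q.Vertex → ℝ) (e : Fin (4 * n))
    (w : DP n) : lapl q a l g (dcons e w) =
      (1 - Real.exp (-(l / a))) / l * g (q.tail e) + Real.exp (-(l / a)) * lapl q a l g w := by
  obtain ⟨C, hC⟩ := fmarkov_g q g
  have ha' : 0 < 1 / a := by positivity
  have hi : ∀ b, IntegrableOn
      (fun s : ℝ => Real.exp (-(l * s)) * g (q.tail (dcons e w ⌊a * s⌋₊))) (Ioi b) := fun b =>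
    (fmarkov_int hl b).mul_bdd (c := C)
      ((fmarkov_joint q a g).comp (measurable_prodMk_left (x := dcons e w))).aestronglyMeasurable
      (ae_of_all _ fun s => hC _)
  rw [lapl, ← intervalIntegral.integral_interval_add_Ioi (hi 0) (hi (1 / a))]
  congr 1
  · have h1 : ∫ s in (0 : ℝ)..1 / a, Real.exp (-(l * s)) * g (q.tail (dcons e w ⌊a * s⌋₊)) =
        ∫ s in (0 : ℝ)..1 / a, Real.exp (-(l * s)) * g (q.tail e) := by
      rw [intervalIntegral.integral_of_le ha'.le, intervalIntegral.integral_of_le ha'.le,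
        integral_Ioc_eq_integral_Ioo, integral_Ioc_eq_integral_Ioo]
      refine setIntegral_congr_fun measurableSet_Ioo fun s hs => ?_
      have h2 : ⌊a * s⌋₊ = 0 := Nat.floor_eq_zero.2 (by
        have := hs.2
        rwa [lt_div_iff₀' ha] at this)
      simp only [h2]
      rfl
    have h3 : ∀ s ∈ uIcc (0 : ℝ) (1 / a),
        HasDerivAt (fun s => -Real.exp (-(l * s)) / l) (Real.exp (-(l * s))) s := fun s _ => by
      refine (((hasDerivAt_id' s).const_mul l).fun_neg.exp.fun_neg.div_const l).congr_deriv ?_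
      field_simp
    rw [h1, intervalIntegral.integral_mul_const, intervalIntegral.integral_eq_sub_of_hasDerivAt h3
      (Continuous.intervalIntegrable (by fun_prop) _ _), mul_one_div, mul_zero, neg_zero,
      Real.exp_zero]
    ring
  · rw [← (measurePreserving_add_right volume (1 / a)).setIntegral_preimage_emb
      (measurableEmbedding_addRight _), preimage_add_const_Ioi, sub_self, lapl,
      ← integral_const_mul]
    refine setIntegral_congr_fun measurableSet_Ioi fun s hs => ?_
    have h2 : ⌊a * (s + 1 / a)⌋₊ = ⌊a * s⌋₊ + 1 := by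
      rw [mul_add, mul_one_div_cancel ha.ne', Nat.floor_add_one (mul_pos ha hs).le]
    simp only [h2]
    rw [← mul_assoc, ← Real.exp_add, mul_add, mul_one_div, neg_add, add_comm]
    rfl

theorem lapl_res {a l : ℝ} (ha : 0 < a) (hl : 0 < l) (g : q.Vertex → ℝ) :
    IsRes q a (a * (Real.exp (l / a) - 1)) univ (fun x => a * (Real.exp (l / a) - 1) / l * g x)
      fun v => ∫ e, lapl q a l g e ∂walkLaw q v := by
  intro x
  have hc := card_out_pos q x
  obtain ⟨C, hC⟩ := lapl_bdd q a hl g
  have h1 : ∑ e ∈ q.out x, ∫ w, lapl q a l g (dcons e w) ∂walkLaw q (q.head e) =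
      (q.out x).card * ((1 - Real.exp (-(l / a))) / l * g x) +
        Real.exp (-(l / a)) * ∑ e ∈ q.out x, ∫ w, lapl q a l g w ∂walkLaw q (q.head e) := by
    rw [Finset.mul_sum, ← nsmul_eq_mul, ← Finset.sum_const, ← Finset.sum_add_distrib]
    refine Finset.sum_congr rfl fun e he => ?_
    simp only [fmarkov_step q ha hl]
    rw [integral_add (integrable_const _) ((Integrable.of_bound
      (measurable_lapl q a l g).aestronglyMeasurable C (ae_of_all _ hC)).const_mul _),
      integral_const_mul, integral_const_mul, (mem_out q).1 he]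
    simp
  have h2 := integral_walk_step q x (measurable_lapl q a l g) ⟨C, hC⟩
  rw [h1] at h2
  rw [ind_of_mem (mem_univ x), lap_eq]
  simp only [h2]
  rw [Real.exp_neg]
  field_simp
  ring

theorem stat_laplace (a : ℝ) {l : ℝ} (hl : 0 < l) (j : ℕ) {Y : DP n → ℝ} (hY : Dep q j Y)
    (g : q.Vertex → ℝ) :
    ∫ s in Ioi (0 : ℝ), Real.exp (-(l * s)) *
        ∫ e, Y e * g (q.tail (e (j + ⌊a * s⌋₊))) ∂statLaw q =
      ∫ e, Y e * ∫ w, lapl q a l g w ∂walkLaw q (q.tail (e j)) ∂statLaw q := by
  rw [← stat_markov q j hY (measurable_lapl q a l g) (lapl_bdd q a hl g)]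
  simp only [← integral_const_mul]
  obtain ⟨C, hC⟩ := fmarkov_mul (fmarkov_comp hY.bdd (Prod.snd : ℝ × DP n → DP n))
    (fmarkov_comp (fmarkov_g q g) fun p : ℝ × DP n => q.tail (p.2 (j + ⌊a * p.1⌋₊)))
  have hm : Measurable fun p : ℝ × DP n => Y p.2 * g (q.tail (p.2 (j + ⌊a * p.1⌋₊))) :=
    (hY.measurable.comp measurable_snd).mul ((fmarkov_joint q a g).comp
      (((measurable_dshift j).comp measurable_snd).prodMk measurable_fst))
  rw [integral_integral_swap (((fmarkov_int hl 0).comp_fst (statLaw q)).mul_bdd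
    hm.aestronglyMeasurable (ae_of_all _ hC))]
  refine integral_congr_ae (ae_of_all _ fun e => ?_)
  simp only [lapl, ← integral_const_mul, dshift]
  exact integral_congr_ae (ae_of_all _ fun s => mul_left_comm _ _ _)

end Pool.Agent.QL
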