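import Pool.Agent.P.MP_7a6434d8_pr.QL.W.FLap
import Pool.Agent.P.MP_7a6434d8_pr.QL.W.FInv

/-! One more time. -/

open MeasureTheory ProbabilityTheory Set Filter Topology Metric
open scoped ENNReal NNReal

namespace Pool.Agent.QL

open Pool.Agent.LGD Pool.Agent.P.MP_7a6434d8_pr

theorem fstep_meas (N : Net) (m i : ℕ) (f : Sph → ℝ) :
    Measurable fun e : DP (N.n m) => f (N.pos m e i) :=
  (measurable_of_countable fun x : Fin (4 * N.n m) => f (N.p m ((N.q m).tail x))).comp
    (measurable_pi_apply i)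

theorem fstep_prod {k : ℕ} (g : Fin k → C(Sph, ℝ)) :
    ∃ C, 0 ≤ C ∧ ∀ x : Fin k → Sph, |∏ j, g j (x j)| ≤ C := by
  refine ⟨∏ j, ‖g j‖, Finset.prod_nonneg fun _ _ => norm_nonneg _, fun x => ?_⟩
  rw [Finset.abs_prod]
  exact Finset.prod_le_prod (fun _ _ => abs_nonneg _) fun j _ => (g j).norm_coe_le_norm _

theorem fstep_int {α : Type} [MeasurableSpace α] {P : Measure α} [IsFiniteMeasure P] {f : α → ℝ}
    (hf : Measurable f) {C : ℝ} (h : ∀ x, |f x| ≤ C) : Integrable f P :=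
  Integrable.of_bound hf.aestronglyMeasurable C (Eventually.of_forall h)

theorem fstep_abs {α : Type} [MeasurableSpace α] {P : Measure α} [IsProbabilityMeasure P]
    {f : α → ℝ} {C : ℝ} (h : ∀ x, |f x| ≤ C) : |∫ x, f x ∂P| ≤ C := by
  simpa using norm_integral_le_of_norm_le_const (μ := P) (f := f) (Eventually.of_forall h)

/-- the last time may be moved a little -/
theorem fstep_key {d : Sph → Sph → ℝ} (hd : IsMet d) {N : Net} (hA : N.AllTight d)
    {Y : ∀ m, DP (N.n m) → ℝ} (hY : ∀ m, Measurable (Y m)) {C : ℝ} (hC : 0 ≤ C)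
    (hb : ∀ m e, |Y m e| ≤ C) (h : C(Sph, ℝ)) {ε : ℝ} (hε : 0 < ε) (T : ℝ) :
    ∃ δ > 0, ∀ᶠ m in (N.U : Filter ℕ), ∀ i j : ℕ, i ≤ j → (j : ℝ) ≤ N.a m * T →
      (j : ℝ) - i ≤ N.a m * δ →
      |∫ e, Y m e * h (N.pos m e i) ∂statLaw (N.q m) -
        ∫ e, Y m e * h (N.pos m e j) ∂statLaw (N.q m)| ≤ ε := by
  have hM := norm_nonneg h
  have hh : ∀ x, |h x| ≤ ‖h‖ := h.norm_coe_le_norm
  obtain ⟨η, hη, hηε⟩ : ∃ η > 0, C * (η + 2 * ‖h‖ * η) ≤ ε := by
    refine ⟨ε / (C * (1 + 2 * ‖h‖) + 1), by positivity, ?_⟩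
    rw [show ∀ x : ℝ, C * (x + 2 * ‖h‖ * x) = C * (1 + 2 * ‖h‖) * x from fun x => by ring,
      ← mul_div_assoc, div_le_iff₀ (by positivity)]
    nlinarith
  obtain ⟨θ, hθ, hu⟩ := hd.unif_cont h hη
  obtain ⟨δ, hδ, ht⟩ := hA (min θ η) (lt_min hθ hη) T
  refine ⟨δ, hδ, ?_⟩
  filter_upwards [ht] with m hm i j h1 h2 h3
  obtain ⟨B, hB⟩ : ∃ B : Set (DP (N.n m)), B = {e | min θ η < d (N.pos m e i) (N.pos m e j)} :=
    ⟨_, rfl⟩
  have mB : MeasurableSet B := by
    rw [hB]
    refine measurableSet_lt measurable_const ?_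
    exact (measurable_of_countable fun x : Fin (4 * N.n m) × Fin (4 * N.n m) =>
      d (N.p m ((N.q m).tail x.1)) (N.p m ((N.q m).tail x.2))).comp
        (f := fun e : DP (N.n m) => (e i, e j))
        ((measurable_pi_apply i).prodMk (measurable_pi_apply j))
  have pB : (statLaw (N.q m)).real B ≤ η := by
    refine (ENNReal.toReal_le_of_le_ofReal (lt_min hθ hη).le
      (le_trans (measure_mono ?_) hm)).trans (min_le_right _ _)
    rw [hB]
    exact fun e he => ⟨i, j, h1, h2, h3, he⟩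
  have it : ∀ i, Integrable (fun e => Y m e * h (N.pos m e i)) (statLaw (N.q m)) := fun i =>
    fstep_int ((hY m).mul (fstep_meas N m i h)) (C := C * ‖h‖) fun e => by
      rw [abs_mul]
      exact mul_le_mul (hb m e) (hh _) (abs_nonneg _) hC
  have iB : Integrable (B.indicator fun _ => (1 : ℝ)) (statLaw (N.q m)) :=
    (integrable_const _).indicator mB
  rw [← integral_sub (it i) (it j), ← Real.norm_eq_abs]
  refine le_trans (norm_integral_le_of_norm_le
    (g := fun e => C * (η + 2 * ‖h‖ * B.indicator (fun _ => (1 : ℝ)) e))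
    (((integrable_const _).add (iB.const_mul _)).const_mul _) (Eventually.of_forall fun e => ?_)) ?_
  · rw [← mul_sub, Real.norm_eq_abs, abs_mul]
    refine mul_le_mul (hb m e) ?_ (abs_nonneg _) hC
    by_cases he : e ∈ B
    · rw [indicator_of_mem he]
      linarith [abs_sub (h (N.pos m e i)) (h (N.pos m e j)), hh (N.pos m e i), hh (N.pos m e j)]
    · rw [indicator_of_notMem he, mul_zero, add_zero]
      rw [hB] at he
      exact hu _ _ ((not_lt.1 he).trans (min_le_left _ _))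
  · rw [integral_const_mul, integral_add (integrable_const _) (iB.const_mul _), integral_const_mul,
      integral_indicator mB]
    simp only [integral_const, probReal_univ, smul_eq_mul, one_mul, mul_one,
      measureReal_restrict_apply_univ]
    refine le_trans ?_ hηε
    gcongr

theorem fstep_floor {a x y : ℝ} (ha : 0 < a) (hx : 0 ≤ x) (hxy : x ≤ y) :
    ⌊a * x⌋₊ ≤ ⌊a * y⌋₊ ∧ (⌊a * y⌋₊ : ℝ) ≤ a * y ∧ a * x - 1 ≤ (⌊a * x⌋₊ : ℝ) :=
  ⟨Nat.floor_mono (by gcongr), Nat.floor_le (mul_nonneg ha.le (hx.trans hxy)),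
    (Nat.sub_one_lt_floor _).le⟩

theorem step_upto {d : Sph → Sph → ℝ} {μ : Measure ℂ} [IsProbabilityMeasure μ]
    {L : Measure Path} (hd : IsMet d) (h0 : μ {0} = 0) (h1 : μ {1} = 0) (hL : Cont μ L) {N : Net}
    (hG : N.Geo d μ) (hE : N.En d) (hT : N.Trap) (hA : N.AllTight d) {k : ℕ} {t : Fin k → ℝ≥0}
    {g : Fin k → C(Sph, ℝ)} {s : ℝ≥0} (hts : ∀ j, t j ≤ s) (hup : N.Upto L t g s) (r : ℝ≥0) :
    N.Upto L t g (s + r) := by
  intro h
  have := hL.prob
  obtain ⟨C, hC, hg⟩ := fstep_prod g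
  have hh : ∀ x, |h x| ≤ ‖h‖ := h.norm_coe_le_norm
  have hb : ∀ (x : Fin k → Sph) (y : Sph), |(∏ j, g j (x j)) * h y| ≤ C * ‖h‖ := fun x y => by
    rw [abs_mul]
    exact mul_le_mul (hg x) (hh _) (abs_nonneg _) hC
  have mY : ∀ m, Measurable (N.cyl m t g) := fun m =>
    Finset.measurable_prod _ fun j _ => fstep_meas N m _ (g j)
  have key := fun ε hε => fstep_key hd hA mY hC (fun m e => hg _) h (ε := ε) hε (s + r + 2)
  have big : ∀ δ > 0, ∀ᶠ m in (N.U : Filter ℕ), 2 ≤ N.a m * δ := fun δ hδ =>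
    (hE.a_top.atTop_mul_const hδ).eventually_ge_atTop 2
  have hs := s.2
  have hr := r.2
  have inv := laplace_inv (N.U : Filter ℕ)
    (fun m x => ∫ e, N.cyl m t g e * h (N.pos m e (⌊N.a m * s⌋₊ + ⌊N.a m * x⌋₊)) ∂statLaw (N.q m))
    (fun x => ∫ w, (∏ j, g j (w.1 (t j))) * h (w.1 (s + x.toNNReal)) ∂L) (M := C * ‖h‖)
    (fun m => (measurable_of_countable fun j : ℕ =>
      ∫ e, N.cyl m t g e * h (N.pos m e (⌊N.a m * s⌋₊ + j)) ∂statLaw (N.q m)).comp
        (Nat.measurable_floor.comp (measurable_const.mul measurable_id)))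
    (fun m x => fstep_abs fun e => hb _ _) ?_ (fun x => fstep_abs fun w => hb _ _)
    (fun j => step_laplace hd h0 h1 hL hG hE hT hts hup h (by linarith [j.cast_nonneg (α := ℝ)]))
    r.2 fun ε hε => ?_
  · rw [show Real.toNNReal r.1 = r from Real.toNNReal_coe] at inv
    refine inv.congr_dist (Metric.tendsto_nhds.2 fun ε hε => ?_)
    obtain ⟨δ, hδ, hk⟩ := key (ε / 2) (half_pos hε)
    filter_upwards [hk, hE.pos, big δ hδ] with m hm ha h2
    obtain ⟨-, a1, a2⟩ := fstep_floor ha hs le_rfl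
    obtain ⟨-, a3, a4⟩ := fstep_floor ha hr le_rfl
    obtain ⟨-, a5, -⟩ := fstep_floor ha (add_nonneg hs hr) le_rfl
    rw [Real.dist_0_eq_abs, abs_dist, Real.dist_eq, NNReal.coe_add]
    simp only [NNReal.val_eq_coe] at *
    refine (hm _ _ (Nat.le_floor ?_) ?_ ?_).trans_lt (half_lt_self hε)
    · push_cast
      linarith
    · linarith
    · push_cast
      linarith
  · refine continuous_of_dominated (bound := fun _ => C * ‖h‖) (fun x => ?_)
      (fun x => Eventually.of_forall fun w => hb _ _) (integrable_const _)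
      (Eventually.of_forall fun w => ?_)
    · exact ((Finset.measurable_prod _ fun j _ =>
        (cont_coe (g j)).measurable.comp (measurable_eval _)).mul
          ((cont_coe h).measurable.comp (measurable_eval _))).aestronglyMeasurable
    · exact continuous_const.mul ((cont_coe h).comp
        (w.2.comp (continuous_const.add continuous_real_toNNReal)))
  · obtain ⟨δ, hδ, hk⟩ := key ε hε
    refine ⟨min 1 (δ / 2), lt_min one_pos (half_pos hδ), ?_⟩
    filter_upwards [hk, hE.pos, big δ hδ] with m hm ha h2 x hx hxr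
    simp only [NNReal.val_eq_coe] at *
    obtain ⟨b1, b2⟩ := abs_le.1 (hxr.trans (min_le_left _ _))
    obtain ⟨b3, b4⟩ := abs_le.1 (hxr.trans (min_le_right _ _))
    obtain ⟨-, a1, -⟩ := fstep_floor ha hs le_rfl
    rcases le_total x r with h3 | h3
    · obtain ⟨a2, a3, a4⟩ := fstep_floor ha hx h3
      refine hm _ _ (Nat.add_le_add_left a2 _) ?_ ?_
      · push_cast
        linarith
      · push_cast
        nlinarith
    · obtain ⟨a2, a3, a4⟩ := fstep_floor ha hr h3
      rw [abs_sub_comm]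
      refine hm _ _ (Nat.add_le_add_left a2 _) ?_ ?_
      · push_cast
        nlinarith
      · push_cast
        nlinarith

end Pool.Agent.QL
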