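import Pool.Agent.P.MP_7a6434d8_pr.QL.W.AGreen

/-! The law of the walk: cylinders and the first step. -/

open MeasureTheory ProbabilityTheory Set Filter Topology Metric
open scoped ENNReal NNReal

namespace Pool.Agent.QL

open Pool.Agent.LGD Pool.Agent.P.MP_7a6434d8_pr

variable {n : ℕ} (q : Quad n)

instance fwalk_pick_prob (v : q.Vertex) : IsProbabilityMeasure (pick q v) :=
  PMF.toMeasure.isProbabilityMeasure _

instance walkLaw_prob (v : q.Vertex) : IsProbabilityMeasure (walkLaw q v) := by
  unfold walkLaw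
  infer_instance

theorem statLaw_eq :
    statLaw q = ∑ e : Fin (4 * n), ((4 * n : ℕ) : ℝ≥0∞)⁻¹ • walkLaw q (q.tail e) := by
  ext s hs
  rw [statLaw, Measure.bind_apply hs (measurable_of_finite _).aemeasurable, lintegral_fintype,
    Measure.finsetSum_apply]
  refine Finset.sum_congr rfl fun e _ => ?_
  rw [uniformOn_univ, Measure.count_singleton, Fintype.card_fin, Measure.smul_apply, smul_eq_mul,
    one_div, mul_comm]

instance statLaw_prob : IsProbabilityMeasure (statLaw q) := by
  refine ⟨?_⟩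
  have h := n_pos q
  rw [statLaw_eq, Measure.finsetSum_apply]
  simp only [Measure.smul_apply, measure_univ, smul_eq_mul, mul_one, Finset.sum_const,
    Finset.card_univ, Fintype.card_fin, nsmul_eq_mul]
  exact ENNReal.mul_inv_cancel (by exact_mod_cast (by omega : 4 * n ≠ 0)) (ENNReal.natCast_ne_top _)

theorem measurable_dcons (e : Fin (4 * n)) : Measurable (dcons e : DP n → DP n) := by
  refine measurable_pi_lambda _ fun i => ?_
  cases i with
  | zero => exact measurable_const
  | succ j => exact measurable_pi_apply j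

theorem measurable_dshift (j : ℕ) : Measurable (dshift j : DP n → DP n) :=
  measurable_pi_lambda _ fun i => measurable_pi_apply (j + i)

/-- the first `k` darts -/
def fwalkRes (k : ℕ) (e : DP n) : Fin k → Fin (4 * n) := fun i => e i

theorem fwalk_res_meas (k : ℕ) : Measurable (fwalkRes k : DP n → Fin k → Fin (4 * n)) :=
  measurable_pi_lambda _ fun i => measurable_pi_apply (i : ℕ)

theorem fwalk_pre (k : ℕ) (x : DP n) :
    fwalkRes k ⁻¹' {fwalkRes k x} = {e : DP n | ∀ i < k, e i = x i} := by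
  ext e
  simp only [mem_preimage, mem_singleton_iff, mem_ofPred_eq, funext_iff, fwalkRes]
  exact ⟨fun h i hi => h ⟨i, hi⟩, fun h i => h i i.2⟩

theorem fwalk_cyl_meas (k : ℕ) (x : DP n) : MeasurableSet {e : DP n | ∀ i < k, e i = x i} := by
  rw [← fwalk_pre]
  exact fwalk_res_meas k (measurableSet_singleton _)

/-- finite measures on sequences are determined by initial cylinders -/
theorem dp_ext {P P' : Measure (DP n)} [IsFiniteMeasure P]
    (h : ∀ (k : ℕ) (x : DP n), P {e | ∀ i < k, e i = x i} = P' {e | ∀ i < k, e i = x i}) :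
    P = P' := by
  rcases isEmpty_or_nonempty (DP n) with hE | ⟨⟨x₀⟩⟩
  · exact Subsingleton.elim _ _
  set C : Set (Set (DP n)) := {s | ∃ (k : ℕ) (x : DP n), s = {e | ∀ i < k, e i = x i}} with hC
  refine ext_of_generate_finite C ?_ ?_ ?_ ?_
  · refine le_antisymm ?_ (MeasurableSpace.generateFrom_le ?_)
    · have key : ∀ k, @Measurable _ _ (MeasurableSpace.generateFrom C) _
          (fwalkRes k : DP n → Fin k → Fin (4 * n)) := fun k => by
        refine @measurable_to_countable _ _ _ _ (MeasurableSpace.generateFrom C) _ fun y => ?_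
        exact MeasurableSpace.measurableSet_generateFrom ⟨k, y, fwalk_pre k y⟩
      have : @Measurable (DP n) (DP n) (MeasurableSpace.generateFrom C) _ id := by
        refine @measurable_pi_lambda _ _ _ (MeasurableSpace.generateFrom C) _ _ fun i => ?_
        exact (measurable_pi_apply (Fin.last i)).comp (key (i + 1))
      exact fun s hs => this hs
    · rintro s ⟨k, x, rfl⟩
      exact fwalk_cyl_meas k x
  · rintro s ⟨k, x, rfl⟩ t ⟨k', x', rfl⟩ ⟨y, hy, hy'⟩
    refine ⟨max k k', y, ?_⟩
    ext e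
    simp only [mem_inter_iff, mem_ofPred_eq, lt_max_iff] at hy hy' ⊢
    constructor
    · rintro ⟨a, b⟩ i (hi | hi)
      · rw [a i hi, hy i hi]
      · rw [b i hi, hy' i hi]
    · intro a
      exact ⟨fun i hi => by rw [a i (Or.inl hi), hy i hi],
        fun i hi => by rw [a i (Or.inr hi), hy' i hi]⟩
  · rintro s ⟨k, x, rfl⟩
    exact h k x
  · simpa using h 0 x₀

open Classical in
theorem fwalk_pick (v : q.Vertex) (e : Fin (4 * n)) :
    pick q v {e} = if q.tail e = v then ((q.out v).card : ℝ≥0∞)⁻¹ else 0 := by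
  rw [pick, PMF.toMeasure_apply_singleton _ _ (measurableSet_singleton _),
    PMF.uniformOfFinset_apply]
  simp only [mem_out]

theorem fwalk_pre' (k : ℕ) (x : DP n) :
    Preorder.frestrictLe (π := fun _ => Fin (4 * n)) k ⁻¹' {Preorder.frestrictLe k x} =
      {e : DP n | ∀ i < k + 1, e i = x i} := by
  ext e
  simp only [mem_preimage, mem_singleton_iff, mem_ofPred_eq, funext_iff,
    Preorder.frestrictLe_apply]
  exact ⟨fun h i hi => h ⟨i, Finset.mem_Iic.2 (by omega)⟩,
    fun h i => h i (Nat.lt_succ_of_le (Finset.mem_Iic.1 i.2))⟩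

theorem fwalk_zero (v : q.Vertex) (x : DP n) :
    walkLaw q v {e | ∀ i < 0 + 1, e i = x i} = pick q v {x 0} := by
  rw [← fwalk_pre', ← Measure.map_apply (Preorder.measurable_frestrictLe 0)
    (measurableSet_singleton _), walkLaw, Kernel.trajMeasure,
    Measure.map_comp _ _ (Preorder.measurable_frestrictLe 0), Kernel.traj_map_frestrictLe]
  have key : ∀ (κ : Kernel (Finset.Iic 0 → Fin (4 * n)) (Finset.Iic 0 → Fin (4 * n)))
      (m : Measure (Finset.Iic 0 → Fin (4 * n))), κ = Kernel.id → κ ∘ₘ m = m := by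
    rintro _ m rfl
    exact Measure.id_comp
  rw [key _ _ (by simp), MeasurableEquiv.map_apply]
  congr 1
  ext d
  simp only [mem_preimage, mem_singleton_iff]
  rw [MeasurableEquiv.symm_apply_eq]
  rfl

theorem fwalk_succ (v : q.Vertex) (k : ℕ) (x : DP n) :
    walkLaw q v {e | ∀ i < k + 1 + 1, e i = x i} =
      walkLaw q v {e | ∀ i < k + 1, e i = x i} * pick q (q.head (x k)) {x (k + 1)} := by
  have h := Kernel.map_frestrictLe_trajMeasure_compProd_eq_map_trajMeasure
    (X := fun _ => Fin (4 * n)) (μ₀ := pick q v) (κ := next q) (a := k)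
  have h1 := congrArg (fun m : Measure ((Finset.Iic k → Fin (4 * n)) × Fin (4 * n)) =>
    m ({Preorder.frestrictLe (π := fun _ => Fin (4 * n)) k x} ×ˢ {x (k + 1)})) h
  have hP : IsProbabilityMeasure ((walkLaw q v).map
      (Preorder.frestrictLe (π := fun _ => Fin (4 * n)) k)) :=
    Measure.isProbabilityMeasure_map (Preorder.measurable_frestrictLe k).aemeasurable
  change ((walkLaw q v).map (Preorder.frestrictLe (π := fun _ => Fin (4 * n)) k) ⊗ₘ next q k) _ =
    ((walkLaw q v).map _) _ at h1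
  rw [Measure.compProd_apply_prod (measurableSet_singleton _) (measurableSet_singleton _),
    lintegral_singleton, Measure.map_apply (Preorder.measurable_frestrictLe k)
      (measurableSet_singleton _), fwalk_pre', Measure.map_apply
      ((Preorder.measurable_frestrictLe k).prodMk (measurable_pi_apply (k + 1)))
      ((measurableSet_singleton _).prod (measurableSet_singleton _))] at h1
  have e : {e : DP n | ∀ i < k + 1 + 1, e i = x i} =
      (fun e : DP n => (Preorder.frestrictLe (π := fun _ => Fin (4 * n)) k e, e (k + 1))) ⁻¹'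
        ({Preorder.frestrictLe (π := fun _ => Fin (4 * n)) k x} ×ˢ {x (k + 1)}) := by
    rw [mk_preimage_prod, fwalk_pre']
    ext e
    simp only [mem_ofPred_eq, mem_inter_iff, mem_preimage, mem_singleton_iff]
    exact ⟨fun a => ⟨fun i hi => a i (by omega), a _ (by omega)⟩,
      fun a i hi => (Nat.lt_succ_iff_lt_or_eq.1 hi).elim (a.1 i) fun b => b ▸ a.2⟩
  rw [e, ← h1, mul_comm]
  rfl

open Classical in
theorem walk_cyl (v : q.Vertex) (k : ℕ) (x : DP n) :
    walkLaw q v {e | ∀ i < k + 1, e i = x i} =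
      (if q.tail (x 0) = v then ((q.out v).card : ℝ≥0∞)⁻¹ else 0) *
        ∏ i ∈ Finset.range k, (if q.tail (x (i + 1)) = q.head (x i) then
          ((q.out (q.head (x i))).card : ℝ≥0∞)⁻¹ else 0) := by
  induction k with
  | zero => rw [fwalk_zero, fwalk_pick, Finset.prod_range_zero, mul_one]
  | succ k ih => rw [fwalk_succ, ih, fwalk_pick, Finset.prod_range_succ, mul_assoc]

theorem fwalk_card_ne (v : q.Vertex) : ((q.out v).card : ℝ≥0∞) ≠ 0 := by
  exact_mod_cast (q.out_nonempty v).card_pos.ne'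

theorem walk_step (v : q.Vertex) : walkLaw q v =
    ∑ e ∈ q.out v, ((q.out v).card : ℝ≥0∞)⁻¹ • (walkLaw q (q.head e)).map (dcons e) := by
  classical
  refine dp_ext fun k x => ?_
  rw [Measure.finsetSum_apply]
  simp only [Measure.smul_apply, smul_eq_mul,
    Measure.map_apply (measurable_dcons _) (fwalk_cyl_meas k x)]
  cases k with
  | zero =>
    simp only [Nat.not_lt_zero, false_imp_iff, implies_true, ofPred_true, preimage_univ,
      measure_univ, mul_one, Finset.sum_const, nsmul_eq_mul]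
    exact (ENNReal.mul_inv_cancel (fwalk_card_ne q v) (ENNReal.natCast_ne_top _)).symm
  | succ k =>
    have e1 : ∀ e : Fin (4 * n), e ≠ x 0 →
        dcons e ⁻¹' {w : DP n | ∀ i < k + 1, w i = x i} = ∅ := fun e he =>
      eq_empty_of_forall_notMem fun w hw => he (hw 0 (Nat.succ_pos k))
    have e2 : dcons (x 0) ⁻¹' {w : DP n | ∀ i < k + 1, w i = x i} =
        {w : DP n | ∀ i < k, w i = x (i + 1)} := by
      ext w
      simp only [mem_preimage, mem_ofPred_eq]
      refine ⟨fun a i hi => a (i + 1) (by omega), fun a i hi => ?_⟩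
      cases i with
      | zero => rfl
      | succ j => exact a j (by omega)
    by_cases hx : q.tail (x 0) = v
    · rw [Finset.sum_eq_single_of_mem (x 0) ((mem_out q).2 hx)
        (fun e _ he => by rw [e1 e he, measure_empty, mul_zero]), e2, walk_cyl, if_pos hx]
      congr 1
      cases k with
      | zero => simp
      | succ k => rw [walk_cyl q _ k fun i => x (i + 1), Finset.prod_range_succ', mul_comm]
    · rw [walk_cyl, if_neg hx, zero_mul]
      refine (Finset.sum_eq_zero fun e he => ?_).symm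
      rw [e1 e fun h => hx (h ▸ (mem_out q).1 he), measure_empty, mul_zero]

theorem fwalk_ae {P : Measure (DP n)} {p : DP n → Prop} (k : ℕ)
    (h : ∀ x, ¬ p x → P {e | ∀ i < k, e i = x i} = 0) : ∀ᵐ e ∂P, p e := by
  rw [ae_iff]
  refine measure_mono_null (t := ⋃ z ∈ fwalkRes k '' {x | ¬ p x}, fwalkRes k ⁻¹' {z})
    (fun x hx => mem_iUnion₂.2 ⟨_, mem_image_of_mem _ hx, rfl⟩) ?_
  rw [measure_biUnion_null_iff (Set.to_countable _)]
  rintro _ ⟨x, hx, rfl⟩
  rw [fwalk_pre]
  exact h x hx

theorem walk_start (v : q.Vertex) : ∀ᵐ e ∂walkLaw q v, q.tail (e 0) = v :=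
  fwalk_ae (0 + 1) fun x hx => by rw [walk_cyl, if_neg hx, zero_mul]

theorem walk_cons (v : q.Vertex) :
    ∀ᵐ e ∂walkLaw q v, ∀ j, q.tail (e (j + 1)) = q.head (e j) :=
  ae_all_iff.2 fun j => fwalk_ae (j + 1 + 1) fun x hx => by
    rw [walk_cyl, Finset.prod_range_succ, if_neg hx, mul_zero, mul_zero]

theorem stat_cons : ∀ᵐ e ∂statLaw q, ∀ j, q.tail (e (j + 1)) = q.head (e j) := by
  rw [ae_iff, statLaw_eq, Measure.finsetSum_apply]
  refine Finset.sum_eq_zero fun e _ => ?_
  rw [Measure.smul_apply, ae_iff.1 (walk_cons q _), smul_zero]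

theorem fwalk_int {P : Measure (DP n)} [IsFiniteMeasure P] {Φ : DP n → ℝ} (hΦ : Measurable Φ)
    (hb : Bdd Φ) : Integrable Φ P := by
  obtain ⟨C, hC⟩ := hb
  exact Integrable.of_bound hΦ.aestronglyMeasurable C (Eventually.of_forall hC)

theorem integral_walk_step (v : q.Vertex) {Φ : DP n → ℝ} (hΦ : Measurable Φ) (hb : Bdd Φ) :
    ∫ e, Φ e ∂walkLaw q v =
      (∑ e ∈ q.out v, ∫ w, Φ (dcons e w) ∂walkLaw q (q.head e)) / (q.out v).card := by
  rw [walk_step q v, integral_finsetSum_measure fun e _ =>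
    (fwalk_int hΦ hb).smul_measure (ENNReal.inv_ne_top.2 (fwalk_card_ne q v)), Finset.sum_div]
  refine Finset.sum_congr rfl fun e _ => ?_
  rw [integral_smul_measure, integral_map (measurable_dcons e).aemeasurable
    hΦ.aestronglyMeasurable, ENNReal.toReal_inv, ENNReal.toReal_natCast, smul_eq_mul,
    div_eq_inv_mul]

theorem integral_statLaw {Φ : DP n → ℝ} (hΦ : Measurable Φ) (hb : Bdd Φ) :
    ∫ e, Φ e ∂statLaw q = avg q fun v => ∫ e, Φ e ∂walkLaw q v := by
  have h := n_pos q
  rw [statLaw_eq, integral_finsetSum_measure fun e _ =>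
    (fwalk_int hΦ hb).smul_measure (ENNReal.inv_ne_top.2
      (by exact_mod_cast (by omega : 4 * n ≠ 0))), avg, Finset.sum_div]
  refine Finset.sum_congr rfl fun e _ => ?_
  rw [integral_smul_measure, ENNReal.toReal_inv, ENNReal.toReal_natCast, smul_eq_mul,
    div_eq_inv_mul]
  push_cast
  rfl

theorem fwalk_factor {β : Type} (j : ℕ) {Y : DP n → β}
    (h : ∀ e e' : DP n, (∀ i ≤ j, e i = e' i) → Y e = Y e') :
    ∃ Y' : (Fin (j + 1) → Fin (4 * n)) → β, Y = Y' ∘ fwalkRes (j + 1) := by
  refine ⟨fun z => Y fun i => if hi : i < j + 1 then z ⟨i, hi⟩ else z 0, ?_⟩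
  funext e
  refine h _ _ fun i hi => ?_
  rw [dif_pos (Nat.lt_succ_of_le hi)]
  rfl

/-- functions of finitely many darts are measurable -/
theorem measurable_of_fin {β : Type} [MeasurableSpace β] (j : ℕ) {Y : DP n → β}
    (h : ∀ e e' : DP n, (∀ i ≤ j, e i = e' i) → Y e = Y e') : Measurable Y := by
  obtain ⟨Y', rfl⟩ := fwalk_factor j h
  exact (measurable_of_finite Y').comp (fwalk_res_meas _)

theorem Dep.measurable {q : Quad n} {j : ℕ} {Y : DP n → ℝ} (h : Dep q j Y) : Measurable Y :=
  measurable_of_fin j fun e e' he => h e e' fun i hi => by rw [he i hi]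

theorem Dep.bdd {q : Quad n} {j : ℕ} {Y : DP n → ℝ} (h : Dep q j Y) : Bdd Y := by
  obtain ⟨Y', rfl⟩ := fwalk_factor j fun e e' he => h e e' fun i hi => by rw [he i hi]
  obtain ⟨C, hC⟩ := (Set.finite_range fun z => |Y' z|).bddAbove
  exact ⟨C, fun x => hC ⟨_, rfl⟩⟩

end Pool.Agent.QL
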