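import Pool.Agent.P.MP_7a6434d8_pr.QL.W.GBase
import Pool.Agent.P.MP_7a6434d8_pr.QL.W.CBasic
import Pool.Agent.P.MP_7a6434d8_pr.QL.W.DMeas

/-! Good positions and matching cells give closeness. -/

open MeasureTheory ProbabilityTheory Set Filter Topology Metric
open scoped ENNReal NNReal

namespace Pool.Agent.QL

open Pool.Agent.LGD Pool.Agent.P.MP_7a6434d8_pr

variable {n : ℕ}

theorem Close.iso {q q' : Quad n} {ψ : Equiv.Perm (Fin (4 * n))} (h : UIso q q' ψ) {a ε T : ℝ}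
    {e : DP n} {d : Sph → Sph → ℝ} {μ : Measure ℂ} {w : Path} (hc : Close q a e d μ w ε T) :
    Close q' a (fun j => ψ (e j)) d μ w ε T := by
  obtain ⟨p, k, φ, h0, h1, h2, h3, h4, h5, h6⟩ := hc
  refine ⟨fun x => p ((xrerootV q q' ψ h.1 h.2).symm x), k, φ, h0, h1, h2, fun x y => ?_,
    fun z => ?_, ?_, fun t ht => ?_⟩
  · obtain ⟨x, rfl⟩ := (xrerootV q q' ψ h.1 h.2).surjective x
    obtain ⟨y, rfl⟩ := (xrerootV q q' ψ h.1 h.2).surjective y
    have e1 : q'.graph.dist (xrerootV q q' ψ h.1 h.2 x) (xrerootV q q' ψ h.1 h.2 y) =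
        q.graph.dist x y := xreroot_dist (xrerootG q q' ψ h.1 h.2) x y
    simp only [Equiv.symm_apply_apply, e1]
    exact h3 x y
  · obtain ⟨x, hx⟩ := h4 z
    exact ⟨xrerootV q q' ψ h.1 h.2 x, by simpa only [Equiv.symm_apply_apply] using hx⟩
  · refine le_of_eq_of_le (Finset.sum_congr rfl fun l _ => ?_) h5
    rw [finsum_comp_equiv (xrerootV q q' ψ h.1 h.2).symm (f := fun x => φ l (p x))]
  · simp only [← xreroot_tail q q' ψ h.1 h.2, Equiv.symm_apply_apply]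
    exact h6 t ht

theorem measurableSet_DOsc (q : Quad n) (a ε δ T : ℝ) : MeasurableSet (DOsc q a ε δ T) := by
  have e1 : DOsc q a ε δ T = ⋃ (i : ℕ) (j : ℕ), (fun e : DP n => (e i, e j)) ⁻¹'
      {x | i ≤ j ∧ (j : ℝ) ≤ a * T ∧ (j : ℝ) - i ≤ a * (2 * δ) ∧
        ε < cn n * q.graph.dist (q.tail x.1) (q.tail x.2)} := by
    ext e
    simp only [DOsc, mem_ofPred_eq, mem_iUnion, mem_preimage]
  rw [e1]
  exact MeasurableSet.iUnion fun i => MeasurableSet.iUnion fun j =>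
    ((measurable_pi_apply i).prodMk (measurable_pi_apply j)) (toFinite _).measurableSet

theorem gclose_dz : DenseRange dz := TopologicalSpace.denseRange_denseSeq Sph

theorem gclose_modu {d : Sph → Sph → ℝ} (hd : IsMet d) {r ε : ℝ}
    (h : ∀ i j, chord (dz i) (dz j) < r → d (dz i) (dz j) ≤ ε) {x y : Sph} (hxy : chord x y < r) :
    d x y ≤ ε := by
  by_contra hn
  have ho : IsOpen {z : Sph × Sph | chord z.1 z.2 < r ∧ ε < d z.1 z.2} :=
    (isOpen_lt isMet_chord.cont continuous_const).inter (isOpen_lt continuous_const hd.cont)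
  obtain ⟨⟨i, j⟩, h1, h2⟩ := (gclose_dz.prodMap gclose_dz).exists_mem_open ho
    ⟨(x, y), hxy, not_le.1 hn⟩
  exact absurd (h i j h1) (not_le.2 h2)

theorem gclose_dense {d : Sph → Sph → ℝ} (hd : IsMet d) {V : Type} [Finite V] {p : V → Sph}
    {ε : ℝ} (h : ∀ i, ∃ x, d (dz i) (p x) ≤ ε) (z : Sph) : ∃ x, d z (p x) ≤ ε := by
  by_contra hn
  have ho : IsOpen (⋂ x, {z : Sph | ε < d z (p x)}) := isOpen_iInter_of_finite fun x =>
    isOpen_lt continuous_const (hd.cont.comp (continuous_id.prodMk continuous_const))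
  obtain ⟨i, hi⟩ := gclose_dz.exists_mem_open ho
    ⟨z, mem_iInter.2 fun x => not_le.1 fun hx => hn ⟨x, hx⟩⟩
  obtain ⟨x, hx⟩ := h i
  exact absurd hx (not_le.2 (mem_iInter.1 hi x))

theorem GoodAt.close {q : Quad n} {a ε T θ : ℝ} {δ : ℝ≥0} {Φ : POU θ} {J : ℕ}
    {d : Sph → Sph → ℝ} {L : Measure Path} {p : q.Vertex → Sph}
    (hg : GoodAt q a ε T δ Φ J d L p) (hd : IsMet d) (hθ : 0 < θ) (hδ : 0 < δ) (hε : 0 ≤ ε)
    (hJ : T < J * δ) {μ : Measure ℂ} (hμ : L.map (fun w => w.1 0) = μ) {c : Fin J → Fin Φ.k}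
    {e : DP n} {w : Path} (h1 : cw Φ c (fun j => p (q.tail (e ⌊a * mesh δ J j⌋₊))) ≠ 0)
    (h2 : cw Φ c (fun j => w.1 (mesh δ J j)) ≠ 0) (h3 : e ∉ DOsc q a ε δ T)
    (h4 : w ∉ Osc θ δ (T + 1)) : Close q a e d μ w (4 * ε) T := by
  have hmod : ∀ x y, chord x y ≤ θ → d x y ≤ ε := fun x y hxy =>
    gclose_modu hd hg.modu (by linarith)
  have hδ' : (0 : ℝ) < δ := hδ
  have ha : 0 < a := by
    by_contra hn
    have := mul_nonpos_of_nonpos_of_nonneg (not_lt.1 hn) hδ'.le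
    linarith [hg.big]
  refine ⟨p, Φ.k, Φ.φ, Φ.nonneg, Φ.sum_one,
    fun l x y hx hy => (hmod x y (Φ.small l x y hx hy)).trans (by linarith),
    fun x y => (hg.dist x y).trans (by linarith), fun z => ?_, ?_, fun t ht => ?_⟩
  · obtain ⟨x, hx⟩ := gclose_dense hd hg.dense z
    exact ⟨x, hx.trans (by linarith)⟩
  · refine le_of_eq_of_le (Finset.sum_congr rfl fun l _ => ?_) (hg.meas.trans (by linarith))
    rw [← hμ, integral_map (measurable_eval 0).aemeasurable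
      (cont_coe (Φ.φ l)).aestronglyMeasurable]
  · have ht0 : (0 : ℝ) ≤ t := t.2
    have hq0 : 0 ≤ (t : ℝ) / δ := by positivity
    have hjJ : ⌊(t : ℝ) / δ⌋₊ < J := by
      rw [Nat.floor_lt hq0, div_lt_iff₀ hδ']
      linarith
    obtain ⟨j, hj⟩ : ∃ j : Fin J, (j : ℕ) = ⌊(t : ℝ) / δ⌋₊ := ⟨⟨_, hjJ⟩, rfl⟩
    have hm : ((mesh δ J j : ℝ≥0) : ℝ) = (⌊(t : ℝ) / δ⌋₊ : ℝ) * δ := by
      rw [mesh, hj]
      push_cast
      rfl
    have hlo : ((mesh δ J j : ℝ≥0) : ℝ) ≤ t := by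
      rw [hm, ← le_div_iff₀ hδ']
      exact Nat.floor_le hq0
    have hhi : (t : ℝ) < (mesh δ J j : ℝ≥0) + δ := by
      have := Nat.lt_floor_add_one ((t : ℝ) / δ)
      rw [div_lt_iff₀ hδ'] at this
      rw [hm]
      linarith
    have k1 := Finset.prod_ne_zero_iff.1 h1 j (Finset.mem_univ j)
    have k2 := Finset.prod_ne_zero_iff.1 h2 j (Finset.mem_univ j)
    have d1 := hmod _ _ (Φ.small _ _ _ k1 k2)
    have d2 : d (w.1 (mesh δ J j)) (w.1 t) ≤ ε := by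
      refine hmod _ _ (not_lt.1 fun hlt => h4 ⟨mesh δ J j, t, by linarith, by linarith, ?_, hlt⟩)
      rw [abs_lt]
      constructor <;> linarith
    have d3 : cn n * q.graph.dist (q.tail (e ⌊a * mesh δ J j⌋₊)) (q.tail (e ⌊a * t⌋₊)) ≤ ε := by
      refine not_lt.1 fun hlt => h3 ⟨_, _, ?_, ?_, ?_, hlt⟩
      · exact Nat.floor_le_floor (mul_le_mul_of_nonneg_left hlo ha.le)
      · exact (Nat.floor_le (by positivity)).trans (mul_le_mul_of_nonneg_left ht ha.le)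
      · have b1 : (⌊a * t⌋₊ : ℝ) ≤ a * t := Nat.floor_le (by positivity)
        have b2 := Nat.lt_floor_add_one (a * (mesh δ J j : ℝ≥0))
        have b3 := mul_lt_mul_of_pos_left hhi ha
        have b4 := hg.big
        nlinarith
    have d4 := abs_le.1 (hg.dist (q.tail (e ⌊a * mesh δ J j⌋₊)) (q.tail (e ⌊a * t⌋₊)))
    have t1 := hd.triangle (p (q.tail (e ⌊a * t⌋₊))) (p (q.tail (e ⌊a * mesh δ J j⌋₊))) (w.1 t)
    have t2 := hd.triangle (p (q.tail (e ⌊a * mesh δ J j⌋₊))) (w.1 (mesh δ J j)) (w.1 t)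
    have t3 := hd.symm (p (q.tail (e ⌊a * t⌋₊))) (p (q.tail (e ⌊a * mesh δ J j⌋₊)))
    linarith [d4.1]

end Pool.Agent.QL
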