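import Pool.Agent.P.MP_7a6434d8_pr.QL.W.Base

/-! Coupling of two decomposed probability measures. -/

open MeasureTheory ProbabilityTheory Set Filter Topology Metric
open scoped ENNReal NNReal

namespace Pool.Agent.QL

open Pool.Agent.LGD Pool.Agent.P.MP_7a6434d8_pr

theorem gcoup_alg {a b c : ℝ≥0∞} (hb : b ≠ ⊤) (ha : a ≠ ⊤) (hcb : c ≤ b) (hca : c ≤ a) :
    c / (a * b) * b = c / a := by
  by_cases hb0 : b = 0
  · have : c = 0 := le_antisymm (hb0 ▸ hcb) bot_le
    simp [this]
  by_cases ha0 : a = 0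
  · have : c = 0 := le_antisymm (ha0 ▸ hca) bot_le
    simp [this]
  rw [div_eq_mul_inv, div_eq_mul_inv, ENNReal.mul_inv (Or.inl ha0) (Or.inl ha), mul_assoc, mul_assoc,
    ENNReal.inv_mul_cancel hb0 hb, mul_one]

theorem gcoup_le_one {a c : ℝ≥0∞} (hca : c ≤ a) : c / a ≤ 1 :=
  ENNReal.div_le_of_le_mul (by simpa using hca)

theorem gcoup_rest {a c : ℝ≥0∞} (ha : a ≠ ⊤) (hca : c ≤ a) : (1 - c / a) * a = a - c := by
  by_cases ha0 : a = 0
  · simp [ha0]
  rw [ENNReal.sub_mul (fun _ _ => ha), one_mul, ENNReal.div_mul_cancel ha0 ha]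

theorem gcoup_inv {r t : ℝ≥0∞} (hr : r ≠ ⊤) (ht : t ≤ r) : r⁻¹ * (t * r) = t := by
  by_cases h0 : r = 0
  · have : t = 0 := le_antisymm (h0 ▸ ht) bot_le
    simp [this]
  rw [mul_comm t r, ← mul_assoc, ENNReal.inv_mul_cancel h0 hr, one_mul]

theorem exists_coupling {X Y I : Type} [MeasurableSpace X] [MeasurableSpace Y] [Countable I]
    (P : I → Measure X) (L : I → Measure Y) [IsProbabilityMeasure (Measure.sum P)]
    [IsProbabilityMeasure (Measure.sum L)] :
    ∃ Γ : Measure (X × Y), Γ.fst = Measure.sum P ∧ Γ.snd = Measure.sum L ∧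
      ∀ (Bad : Set (X × Y)) (E : I → Set X) (F : I → Set Y),
        (∀ i x y, x ∉ E i → y ∉ F i → (x, y) ∉ Bad) →
        Γ Bad ≤ ∑' i, (P i univ - L i univ) + ∑' i, P i (E i) + ∑' i, L i (F i) := by
  have hP1 : ∑' i, P i univ = 1 := by
    rw [← Measure.sum_apply _ MeasurableSet.univ]; exact measure_univ
  have hL1 : ∑' i, L i univ = 1 := by
    rw [← Measure.sum_apply _ MeasurableSet.univ]; exact measure_univ
  have hPa : ∀ i, P i univ ≠ ⊤ := fun i =>
    ne_top_of_le_ne_top ENNReal.one_ne_top (hP1 ▸ ENNReal.le_tsum (f := fun i => P i univ) i)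
  have hLb : ∀ i, L i univ ≠ ⊤ := fun i =>
    ne_top_of_le_ne_top ENNReal.one_ne_top (hL1 ▸ ENNReal.le_tsum (f := fun i => L i univ) i)
  have : ∀ i, IsFiniteMeasure (P i) := fun i => ⟨(hPa i).lt_top⟩
  have : ∀ i, IsFiniteMeasure (L i) := fun i => ⟨(hLb i).lt_top⟩
  set c : I → ℝ≥0∞ := fun i => min (P i univ) (L i univ) with hc
  have hca : ∀ i, c i ≤ P i univ := fun i => min_le_left _ _
  have hcb : ∀ i, c i ≤ L i univ := fun i => min_le_right _ _
  set P' : Measure X := Measure.sum fun i => (1 - c i / P i univ) • P i with hP'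
  set L' : Measure Y := Measure.sum fun i => (1 - c i / L i univ) • L i with hL'
  have hP's : ∀ s, P' s = ∑' i, (1 - c i / P i univ) * P i s := fun s => by
    rw [hP', Measure.sum_apply_of_countable]; simp only [Measure.smul_apply, smul_eq_mul]
  have hL's : ∀ s, L' s = ∑' i, (1 - c i / L i univ) * L i s := fun s => by
    rw [hL', Measure.sum_apply_of_countable]; simp only [Measure.smul_apply, smul_eq_mul]
  have hP'u : P' univ = ∑' i, (P i univ - c i) := by
    rw [hP's]; exact tsum_congr fun i => gcoup_rest (hPa i) (hca i)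
  have hL'u : L' univ = ∑' i, (L i univ - c i) := by
    rw [hL's]; exact tsum_congr fun i => gcoup_rest (hLb i) (hcb i)
  have hPc : P' univ + ∑' i, c i = 1 := by
    rw [hP'u, ← ENNReal.tsum_add, ← hP1]
    exact tsum_congr fun i => tsub_add_cancel_of_le (hca i)
  have hLc : L' univ + ∑' i, c i = 1 := by
    rw [hL'u, ← ENNReal.tsum_add, ← hL1]
    exact tsum_congr fun i => tsub_add_cancel_of_le (hcb i)
  have hcfin : ∑' i, c i ≠ ⊤ :=
    ne_top_of_le_ne_top ENNReal.one_ne_top (hPc ▸ le_add_self)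
  have hr : L' univ = P' univ := (ENNReal.add_left_inj hcfin).1 (hLc.trans hPc.symm)
  have hrfin : P' univ ≠ ⊤ := ne_top_of_le_ne_top ENNReal.one_ne_top (hPc ▸ le_self_add)
  have : IsFiniteMeasure P' := ⟨hrfin.lt_top⟩
  have : IsFiniteMeasure L' := ⟨(hr ▸ hrfin : L' univ ≠ ⊤).lt_top⟩
  set G : Measure (X × Y) :=
    Measure.sum fun i => (c i / (P i univ * L i univ)) • (P i).prod (L i) with hG
  have hGs : ∀ B, G B = ∑' i, c i / (P i univ * L i univ) * (P i).prod (L i) B := fun B => by
    rw [hG, Measure.sum_apply_of_countable]; simp only [Measure.smul_apply, smul_eq_mul]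
  have e1 : ∀ i (t : ℝ≥0∞), c i / (P i univ * L i univ) * (t * L i univ) = c i / P i univ * t :=
    fun i t => by
      rw [mul_comm t, ← mul_assoc, gcoup_alg (hLb i) (hPa i) (hcb i) (hca i)]
  have e2 : ∀ i (t : ℝ≥0∞), c i / (P i univ * L i univ) * (P i univ * t) = c i / L i univ * t :=
    fun i t => by
      rw [← mul_assoc, mul_comm (P i univ) (L i univ), gcoup_alg (hPa i) (hLb i) (hca i) (hcb i)]
  refine ⟨G + (P' univ)⁻¹ • P'.prod L', ?_, ?_, ?_⟩
  · ext s hs
    rw [Measure.fst_apply hs, ← Set.prod_univ, Measure.add_apply, Measure.smul_apply, smul_eq_mul,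
      Measure.prod_prod, hr, gcoup_inv hrfin (measure_mono (subset_univ s)), hGs, hP's,
      ← ENNReal.tsum_add, Measure.sum_apply _ hs]
    refine tsum_congr fun i => ?_
    rw [Measure.prod_prod, e1, ← add_mul, add_tsub_cancel_of_le (gcoup_le_one (hca i)), one_mul]
  · ext s hs
    have h1 : (P' univ)⁻¹ * (P' univ * L' s) = L' s := by
      rw [mul_comm (P' univ) (L' s)]
      exact gcoup_inv hrfin (hr ▸ measure_mono (subset_univ s))
    rw [Measure.snd_apply hs, ← Set.univ_prod, Measure.add_apply, Measure.smul_apply, smul_eq_mul,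
      Measure.prod_prod, h1, hGs, hL's, ← ENNReal.tsum_add, Measure.sum_apply _ hs]
    refine tsum_congr fun i => ?_
    rw [Measure.prod_prod, e2, ← add_mul, add_tsub_cancel_of_le (gcoup_le_one (hcb i)), one_mul]
  · intro Bad E F hB
    have h2 : ((P' univ)⁻¹ • P'.prod L') Bad ≤ ∑' i, (P i univ - L i univ) := by
      calc ((P' univ)⁻¹ • P'.prod L') Bad ≤ ((P' univ)⁻¹ • P'.prod L') (univ ×ˢ univ) :=
            measure_mono (by rw [Set.univ_prod_univ]; exact subset_univ _)
        _ = P' univ := by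
            rw [Measure.smul_apply, smul_eq_mul, Measure.prod_prod, hr, gcoup_inv hrfin le_rfl]
        _ = ∑' i, (P i univ - L i univ) := by
            rw [hP'u]; exact tsum_congr fun i => by rw [hc]; exact tsub_min
    have h1 : G Bad ≤ ∑' i, P i (E i) + ∑' i, L i (F i) := by
      rw [hGs, ← ENNReal.tsum_add]
      refine ENNReal.tsum_le_tsum fun i => ?_
      have hsub : Bad ⊆ (E i ×ˢ univ) ∪ (univ ×ˢ F i) := by
        rintro ⟨x, y⟩ hxy
        by_contra hn
        simp only [mem_union, mem_prod, mem_univ, and_true, true_and, not_or] at hn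
        exact hB i x y hn.1 hn.2 hxy
      calc c i / (P i univ * L i univ) * (P i).prod (L i) Bad
          ≤ c i / (P i univ * L i univ) * (P i (E i) * L i univ + P i univ * L i (F i)) := by
            gcongr
            refine (measure_mono hsub).trans ((measure_union_le _ _).trans ?_)
            rw [Measure.prod_prod, Measure.prod_prod]
        _ = c i / P i univ * P i (E i) + c i / L i univ * L i (F i) := by
            rw [mul_add, e1, e2]
        _ ≤ 1 * P i (E i) + 1 * L i (F i) := by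
            gcongr
            · exact gcoup_le_one (hca i)
            · exact gcoup_le_one (hcb i)
        _ = P i (E i) + L i (F i) := by rw [one_mul, one_mul]
    rw [Measure.add_apply, add_assoc, add_comm (G Bad)]
    exact add_le_add h2 h1

end Pool.Agent.QL
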