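import Pool.Agent.P.MP_7a6434d8_pr.QL.W.GCoup

/-! Extending a coupling by matching cells. -/

open MeasureTheory ProbabilityTheory Set Filter Topology Metric
open scoped ENNReal NNReal

namespace Pool.Agent.QL

open Pool.Agent.LGD Pool.Agent.P.MP_7a6434d8_pr

section

variable {C X Ω Y Z : Type} [MeasurableSpace C] [MeasurableSpace X] [MeasurableSpace Ω]
  [MeasurableSpace Y] [Fintype Z]

/-- a measure with a real density -/
noncomputable def gcoup2W (μ : Measure X) (a : X → ℝ) : Measure X :=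
  μ.withDensity fun x => ENNReal.ofReal (a x)

/-- the cells together with the rest -/
def gcoup2T (T : ℕ → Set Ω) : Option ℕ → Set Ω
  | some i => T i
  | none => (⋃ i, T i)ᶜ

theorem gcoup2_sum (μ : Measure X) {α : Z → X → ℝ} (hα : ∀ z, Measurable (α z))
    (α0 : ∀ z x, 0 ≤ α z x) (α1 : ∀ x, ∑ z, α z x = 1) :
    Measure.sum (fun z => gcoup2W μ (α z)) = μ := by
  simp only [gcoup2W]
  rw [← withDensity_tsum fun z => (hα z).ennreal_ofReal]
  convert withDensity_one
  ext x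
  rw [ENNReal.tsum_apply, tsum_fintype, ← ENNReal.ofReal_sum_of_nonneg fun z _ => α0 z x, α1]
  simp

theorem gcoup2_ae (μ : Measure X) {a : X → ℝ} (ha : Measurable a) :
    ∀ᵐ x ∂gcoup2W μ a, a x ≠ 0 :=
  (ae_withDensity_iff ha.ennreal_ofReal).2 (.of_forall fun x hx h => hx (by simp [h]))

theorem gcoup2_int (μ : Measure X) [IsProbabilityMeasure μ] {α : Z → X → ℝ}
    (hα : ∀ z, Measurable (α z)) (α0 : ∀ z x, 0 ≤ α z x) (α1 : ∀ x, ∑ z, α z x = 1) (z : Z) :
    ∫⁻ x, ENNReal.ofReal (α z x) ∂μ = ENNReal.ofReal (∫ x, α z x ∂μ) := by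
  refine (ofReal_integral_eq_lintegral_ofReal (Integrable.of_bound (hα z).aestronglyMeasurable 1
    (.of_forall fun x => ?_)) (.of_forall (α0 z))).symm
  rw [Real.norm_of_nonneg (α0 z x), ← α1 x]
  exact Finset.single_le_sum (f := fun z => α z x) (fun z _ => α0 z x) (Finset.mem_univ z)

theorem gcoup2_diff (G : Measure Ω) [IsFiniteMeasure G] (S : Measure X) [IsProbabilityMeasure S]
    (L : Kernel Ω Y) [IsMarkovKernel L] {α : Z → X → ℝ} (hα : ∀ z, Measurable (α z))
    (α0 : ∀ z x, 0 ≤ α z x) (α1 : ∀ x, ∑ z, α z x = 1) {β : Z → Y → ℝ}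
    (hβ : ∀ z, Measurable (β z)) (β0 : ∀ z y, 0 ≤ β z y) (β1 : ∀ y, ∑ z, β z y = 1) {ε : ℝ}
    (h : ∀ᵐ ω ∂G, ∑ z, |∫ x, α z x ∂S - ∫ y, β z y ∂L ω| ≤ ε) :
    ∑' z, (G univ * gcoup2W S (α z) univ - gcoup2W (G ⊗ₘ L) (fun p => β z p.2) univ) ≤
      G univ * ENNReal.ofReal ε := by
  have hm : ∀ z, Measurable fun ω => ∫⁻ y, ENNReal.ofReal (β z y) ∂L ω := fun z =>
    (hβ z).ennreal_ofReal.lintegral_kernel
  calc _ ≤ ∑' z, ∫⁻ ω, (ENNReal.ofReal (∫ x, α z x ∂S) - ∫⁻ y, ENNReal.ofReal (β z y) ∂L ω) ∂G := by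
        refine ENNReal.tsum_le_tsum fun z => le_trans (le_of_eq ?_) (lintegral_sub_le _ _ (hm z))
        simp only [gcoup2W, withDensity_apply _ MeasurableSet.univ, Measure.restrict_univ]
        rw [Measure.lintegral_compProd ((hβ z).fun_comp measurable_snd).ennreal_ofReal,
          gcoup2_int S hα α0 α1, lintegral_const, mul_comm]
    _ ≤ ∫⁻ _, ENNReal.ofReal ε ∂G := by
        rw [← lintegral_tsum fun z => (measurable_const.fun_sub (hm z)).aemeasurable]
        refine lintegral_mono_ae (h.mono fun ω hω => ?_)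
        refine le_trans ?_ (ENNReal.ofReal_le_ofReal hω)
        rw [tsum_fintype, ENNReal.ofReal_sum_of_nonneg fun z _ => abs_nonneg _]
        refine Finset.sum_le_sum fun z _ => ?_
        rw [gcoup2_int (L ω) hβ β0 β1, ← ENNReal.ofReal_sub _ (integral_nonneg (β0 z))]
        exact ENNReal.ofReal_le_ofReal (le_abs_self _)
    _ = _ := by rw [lintegral_const, mul_comm]

theorem gcoup2T_meas {T : ℕ → Set Ω} (hT : ∀ i, MeasurableSet (T i)) :
    ∀ o, MeasurableSet (gcoup2T T o)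
  | some i => hT i
  | none => (MeasurableSet.iUnion hT).compl

theorem gcoup2_part [Finite C] [DiscreteMeasurableSpace C] (Γ : Measure (C × Ω))
    {T : C → ℕ → Set Ω} (hT : ∀ c i, MeasurableSet (T c i))
    (hd : ∀ c, Pairwise (Function.onFun Disjoint (T c))) :
    Measure.sum (fun j : C × Option ℕ => Γ.restrict ({j.1} ×ˢ gcoup2T (T j.1) j.2)) = Γ := by
  rw [← Measure.restrict_iUnion _ fun j => (measurableSet_singleton _).prod (gcoup2T_meas (hT _) _)]
  · convert Measure.restrict_univ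
    refine eq_univ_of_forall fun p => mem_iUnion.2 ?_
    by_cases hp : p.2 ∈ ⋃ i, T p.1 i
    · obtain ⟨i, hi⟩ := mem_iUnion.1 hp
      exact ⟨(p.1, some i), rfl, hi⟩
    · exact ⟨(p.1, none), rfl, hp⟩
  · rintro ⟨c, o⟩ ⟨c', o'⟩ hne
    refine Set.disjoint_left.2 ?_
    rintro ⟨c₀, ω⟩ ⟨rfl, h1⟩ ⟨rfl, h2⟩
    obtain _ | i := o <;> obtain _ | i' := o'
    · exact hne rfl
    · exact h1 (mem_iUnion.2 ⟨i', h2⟩)
    · exact h2 (mem_iUnion.2 ⟨i, h1⟩)
    · exact Set.disjoint_left.1 (hd _ fun e : i = i' => hne (by rw [e])) h1 h2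

end

theorem exists_coupling2 {C X Ω Y Z : Type} [Finite C] [MeasurableSpace C]
    [DiscreteMeasurableSpace C] [MeasurableSpace X] [MeasurableSpace Ω] [MeasurableSpace Y]
    [Fintype Z] (Γ : Measure (C × Ω)) [IsProbabilityMeasure Γ] (S : C → Measure X)
    [∀ c, IsProbabilityMeasure (S c)] (L : Kernel Ω Y) [IsMarkovKernel L] (T : C → ℕ → Set Ω)
    (hT : ∀ c i, MeasurableSet (T c i)) (hd : ∀ c, Pairwise (Function.onFun Disjoint (T c)))
    (α : C → ℕ → Z → X → ℝ) (hα : ∀ c i z, Measurable (α c i z)) (α0 : ∀ c i z x, 0 ≤ α c i z x)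
    (α1 : ∀ c i x, ∑ z, α c i z x = 1) (β : Z → Y → ℝ) (hβ : ∀ z, Measurable (β z))
    (β0 : ∀ z y, 0 ≤ β z y) (β1 : ∀ y, ∑ z, β z y = 1) {ε : ℝ}
    (h : ∀ c i, ∀ ω ∈ T c i, ∑ z, |∫ x, α c i z x ∂S c - ∫ y, β z y ∂L ω| ≤ ε)
    (E : C → Set X) (hEm : ∀ c, MeasurableSet (E c))
    (hE : ∀ c i, (T c i).Nonempty → S c (E c) ≤ ENNReal.ofReal ε) (F : Set Y)
    (hF : MeasurableSet F) :
    ∃ Γ' : Measure ((C × X) × (Ω × Y)),
      Γ'.fst = Γ.fst.bind (fun c => (S c).map (Prod.mk c)) ∧ Γ'.snd = Γ.snd ⊗ₘ L ∧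
      ∀ Bad : Set ((C × X) × (Ω × Y)),
        (∀ c i z x ω y, ω ∈ T c i → α c i z x ≠ 0 → β z y ≠ 0 → x ∉ E c → y ∉ F →
          ((c, x), (ω, y)) ∉ Bad) →
        Γ' Bad ≤ 2 * Γ {p | ∀ i, p.2 ∉ T p.1 i} + ENNReal.ofReal ε + ENNReal.ofReal ε +
          (Γ.snd ⊗ₘ L) (univ ×ˢ F) := by
  have hp := gcoup2_part Γ hT hd
  set A : C × Option ℕ → Set (C × Ω) := fun j => {j.1} ×ˢ gcoup2T (T j.1) j.2
  have hA : ∀ j, MeasurableSet (A j) := fun j =>
    (measurableSet_singleton _).prod (gcoup2T_meas (hT _) _)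
  set G : C × Option ℕ → Measure Ω := fun j => (Γ.restrict (A j)).snd
  have hG : ∀ j, G j univ = Γ (A j) := fun j => by simp [G, Measure.snd_univ]
  have hG1 : ∑' j, G j univ = 1 := by
    rw [← measure_univ (μ := Γ), ← hp, Measure.sum_apply _ .univ]
    simp [hG, A]
  have hGT : ∀ j, ∀ᵐ ω ∂G j, ω ∈ gcoup2T (T j.1) j.2 := fun j =>
    (ae_map_iff measurable_snd.aemeasurable (gcoup2T_meas (hT _) _)).2
      ((ae_restrict_mem (hA j)).mono fun p hp => hp.2)
  set P : (C × Option ℕ) × Z → Measure (C × X) := fun l =>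
    G l.1 univ • (gcoup2W (S l.1.1) (α l.1.1 (l.1.2.getD 0) l.2)).map (Prod.mk l.1.1)
  set Q : (C × Option ℕ) × Z → Measure (Ω × Y) := fun l =>
    gcoup2W (G l.1 ⊗ₘ L) fun p => β l.2 p.2
  have hPs : ∀ j s, MeasurableSet s → ∑' z, P (j, z) s = G j univ * S j.1 (Prod.mk j.1 ⁻¹' s) :=
    fun j s hs => by
      simp only [P, Measure.smul_apply, smul_eq_mul, Measure.map_apply measurable_prodMk_left hs]
      rw [ENNReal.tsum_mul_left, ← Measure.sum_apply _ (measurable_prodMk_left hs),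
        gcoup2_sum _ (hα _ _) (α0 _ _) (α1 _ _)]
  have hP : Measure.sum P = Γ.fst.bind (fun c => (S c).map (Prod.mk c)) := by
    ext s hs
    rw [Measure.sum_apply _ hs, ENNReal.tsum_prod', Measure.bind_apply hs
      Measurable.of_discrete.aemeasurable, Measure.fst, lintegral_map .of_discrete measurable_fst,
      ← hp, lintegral_sum_measure]
    refine tsum_congr fun j => ?_
    rw [hPs j s hs, setLIntegral_congr_fun (hA j) (g := fun _ => S j.1 (Prod.mk j.1 ⁻¹' s)),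
      setLIntegral_const, hG, mul_comm]
    rintro ⟨c, ω⟩ ⟨rfl, -⟩
    exact Measure.map_apply measurable_prodMk_left hs
  have hQ : Measure.sum Q = Γ.snd ⊗ₘ L := by
    rw [← Measure.sum_sum fun j z => gcoup2W (G j ⊗ₘ L) fun p => β z p.2]
    simp only [gcoup2_sum _ (fun z => (hβ z).fun_comp measurable_snd) (fun z p => β0 z p.2)
      fun p : Ω × Y => β1 p.2]
    rw [← Measure.compProd_sum_left, ← hp]
    exact congrArg (· ⊗ₘ L) (Measure.map_sum measurable_snd.aemeasurable).symm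
  have : IsProbabilityMeasure (Measure.sum P) := ⟨by
    rw [Measure.sum_apply _ .univ, ENNReal.tsum_prod', ← hG1]
    exact tsum_congr fun j => (hPs j _ .univ).trans (by simp)⟩
  have : IsProbabilityMeasure (Measure.sum Q) := by rw [hQ]; infer_instance
  obtain ⟨Γ', h1, h2, h3⟩ := exists_coupling P Q
  refine ⟨Γ', h1.trans hP, h2.trans hQ, fun Bad hB => ?_⟩
  set J : Set (C × Ω) := {p | ∀ i, p.2 ∉ T p.1 i}
  have key : ∀ f : (C × Option ℕ) × Z → ℝ≥0∞, (∀ l, f l ≤ P l univ) →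
      (∀ c i, ∑' z, f ((c, some i), z) ≤ G (c, some i) univ * ENNReal.ofReal ε) →
      ∑' l, f l ≤ Γ J + ENNReal.ofReal ε := fun f f1 f2 => by
    calc _ ≤ ∑' j, (Γ.restrict (A j) J + G j univ * ENNReal.ofReal ε) := by
          rw [ENNReal.tsum_prod']
          refine ENNReal.tsum_le_tsum ?_
          rintro ⟨c, _ | i⟩
          · refine (ENNReal.tsum_le_tsum fun z => f1 _).trans (le_add_right ?_)
            rw [hPs _ _ .univ, preimage_univ, measure_univ (μ := S _), mul_one, hG,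
              Measure.restrict_apply' (hA _)]
            refine measure_mono ?_
            rintro ⟨c', ω⟩ ⟨rfl, hω⟩
            exact ⟨fun i hi => hω (mem_iUnion.2 ⟨i, hi⟩), rfl, hω⟩
          · exact le_add_left (f2 c i)
      _ ≤ _ := by
          rw [ENNReal.tsum_add, ENNReal.tsum_mul_right, hG1, one_mul]
          gcongr
          exact (Measure.le_sum_apply _ _).trans_eq (by rw [hp])
  refine (h3 Bad
    (fun l => {p | p.1 = l.1.1 → α l.1.1 (l.1.2.getD 0) l.2 p.2 ≠ 0 → p.2 ∉ E l.1.1 → l.1.2 = none})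
    (fun l => {p | p.1 ∈ gcoup2T (T l.1.1) l.1.2 → β l.2 p.2 ≠ 0 → p.2 ∈ F}) ?_).trans ?_
  · rintro ⟨⟨c, o⟩, z⟩ ⟨c', x⟩ ⟨ω, y⟩ hx hy
    simp only [mem_ofPred_eq, not_forall] at hx hy
    obtain ⟨rfl, x1, x2, x3⟩ := hx
    obtain ⟨y1, y2, y3⟩ := hy
    obtain _ | i := o
    · exact absurd rfl x3
    · exact hB _ i z x ω y y1 x1 y2 x2 y3
  rw [two_mul, add_assoc (Γ J + Γ J), add_add_add_comm]
  gcongr
  · refine key _ (fun l => tsub_le_self) fun c i => le_trans (le_of_eq ?_)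
      (gcoup2_diff (G (c, some i)) (S c) L (hα c i) (α0 c i) (α1 c i) hβ β0 β1
        ((hGT _).mono (h c i)))
    simp [P, Q, Measure.map_apply measurable_prodMk_left MeasurableSet.univ]
  · refine key _ (fun l => measure_mono (subset_univ _)) fun c i => ?_
    rcases (T c i).eq_empty_or_nonempty with e | e
    · have : G (c, some i) univ = 0 := by simp [hG, A, gcoup2T, e]
      simp [P, this]
    calc _ ≤ ∑' z, P ((c, some i), z) (univ ×ˢ E c) := by
          refine ENNReal.tsum_le_tsum fun z => measure_mono_ae (Measure.ae_smul_measure ?_ _)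
          refine ((ae_map_iff measurable_prodMk_left.aemeasurable
            (p := fun p => p.1 = c ∧ α c i z p.2 ≠ 0) ?_).2 ?_).mono fun p hp hq => ⟨trivial, ?_⟩
          · exact (measurable_fst (measurableSet_singleton c)).inter
              (((hα c i z).comp measurable_snd) (measurableSet_singleton 0).compl)
          · exact (gcoup2_ae _ (hα c i z)).mono fun x hx => ⟨rfl, hx⟩
          · by_contra hE'
            exact absurd (hq hp.1 hp.2 hE') (by simp)
      _ ≤ _ := by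
          rw [hPs _ _ (MeasurableSet.univ.prod (hEm c))]
          gcongr
          simpa using hE c i e
  · rw [← hQ]
    refine le_trans (ENNReal.tsum_le_tsum fun l => measure_mono_ae ?_) (Measure.le_sum_apply _ _)
    filter_upwards [gcoup2_ae (G l.1 ⊗ₘ L) ((hβ l.2).comp measurable_snd),
      withDensity_absolutelyContinuous _ _
        (Measure.ae_compProd_of_ae_fst L (gcoup2T_meas (hT _) _) (hGT l.1))] with p p1 p2 hq
    exact ⟨trivial, hq p2 p1⟩

end Pool.Agent.QL
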