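import Pool.Agent.P.MP_7a6434d8_pr.QL.W.GMd

/-! Closeness bounds the GHPU distance. -/

open MeasureTheory ProbabilityTheory Set Filter Topology Metric
open scoped ENNReal NNReal

namespace Pool.Agent.QL

open Pool.Agent.LGD Pool.Agent.P.MP_7a6434d8_pr

theorem gemb_integrable {X : Type} [MeasurableSpace X] (α : Measure X) [IsFiniteMeasure α]
    {k : ℕ} (f : Fin k → X → ℝ) (hfm : ∀ l, Measurable (f l)) (hf0 : ∀ l x, 0 ≤ f l x)
    (hf1 : ∀ x, ∑ l, f l x = 1) (l : Fin k) : Integrable (f l) α := by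
  refine Integrable.of_bound (hfm l).aestronglyMeasurable 1 (Eventually.of_forall fun x => ?_)
  rw [Real.norm_of_nonneg (hf0 l x), ← hf1 x]
  exact Finset.single_le_sum (fun i _ => hf0 i x) (Finset.mem_univ l)

/-- comparison of two measures through partitions of unity -/
theorem gemb_compare {X Y : Type} [MeasurableSpace X] [MeasurableSpace Y] (α : Measure X)
    (β : Measure Y) [IsFiniteMeasure α] [IsFiniteMeasure β] {k : ℕ} (f : Fin k → X → ℝ)
    (g : Fin k → Y → ℝ) (hfm : ∀ l, Measurable (f l)) (hf0 : ∀ l x, 0 ≤ f l x)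
    (hf1 : ∀ x, ∑ l, f l x = 1) (hgm : ∀ l, Measurable (g l)) (hg0 : ∀ l x, 0 ≤ g l x)
    (hg1 : ∀ x, ∑ l, g l x = 1) {ε : ℝ} (hε : 0 ≤ ε)
    (h : ∑ l, |∫ x, f l x ∂α - ∫ y, g l y ∂β| ≤ ε)
    {A : Set X} {C : Set Y} (hA : MeasurableSet A) (hC : MeasurableSet C)
    (hAC : ∀ l x y, x ∈ A → f l x ≠ 0 → g l y ≠ 0 → y ∈ C) :
    α A ≤ β C + ENNReal.ofReal ε := by
  classical
  have hfi := gemb_integrable α f hfm hf0 hf1
  have hgi := gemb_integrable β g hgm hg0 hg1
  set S : Finset (Fin k) := Finset.univ.filter fun l => ∃ x ∈ A, f l x ≠ 0 with hS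
  have h1 : α.real A ≤ ∑ l ∈ S, ∫ x, f l x ∂α := by
    rw [← integral_finset_sum S fun l _ => hfi l, ← integral_indicator_one hA]
    refine integral_mono ((integrable_const (1 : ℝ)).indicator hA)
      (integrable_finset_sum S fun l _ => hfi l) fun x => ?_
    by_cases hx : x ∈ A
    · rw [indicator_of_mem hx]
      have : ∑ l ∈ S, f l x = ∑ l, f l x := by
        refine Finset.sum_subset (Finset.subset_univ _) fun l _ hl => ?_
        by_contra hne
        exact hl (Finset.mem_filter.2 ⟨Finset.mem_univ _, x, hx, hne⟩)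
      simp only [Pi.one_apply]
      rw [this, hf1]
    · rw [indicator_of_notMem hx]
      exact Finset.sum_nonneg fun l _ => hf0 l x
  have h2 : ∑ l ∈ S, ∫ y, g l y ∂β ≤ β.real C := by
    rw [← integral_finset_sum S fun l _ => hgi l, ← integral_indicator_one hC]
    refine integral_mono (integrable_finset_sum S fun l _ => hgi l)
      ((integrable_const (1 : ℝ)).indicator hC) fun y => ?_
    by_cases hy : y ∈ C
    · rw [indicator_of_mem hy]
      simp only [Pi.one_apply]
      rw [← hg1 y]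
      exact Finset.sum_le_sum_of_subset_of_nonneg (Finset.subset_univ _) fun l _ _ => hg0 l y
    · rw [indicator_of_notMem hy]
      refine le_of_eq (Finset.sum_eq_zero fun l hl => ?_)
      obtain ⟨x, hx, hne⟩ := (Finset.mem_filter.1 hl).2
      by_contra hne'
      exact hy (hAC l x y hx hne hne')
  have h3 : ∑ l ∈ S, ∫ x, f l x ∂α - ∑ l ∈ S, ∫ y, g l y ∂β ≤ ε := by
    rw [← Finset.sum_sub_distrib]
    refine le_trans (Finset.sum_le_sum fun l _ => le_abs_self _) (le_trans ?_ h)
    exact Finset.sum_le_sum_of_subset_of_nonneg (Finset.subset_univ _) fun l _ _ => abs_nonneg _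
  have h4 : α.real A ≤ β.real C + ε := by linarith
  rw [← ofReal_measureReal (μ := α) (s := A), ← ofReal_measureReal (μ := β) (s := C),
    ← ENNReal.ofReal_add measureReal_nonneg hε]
  exact ENNReal.ofReal_le_ofReal h4

theorem gemb_curve {X Y : Type} (η : ℝ≥0 → X) (η' : ℝ≥0 → Y) (E : X → Y → ℝ≥0∞) {r T : ℝ}
    (hr : 0 ≤ r) (hT : 0 ≤ T) (h : ∀ t : ℝ≥0, (t : ℝ) ≤ T → E (η t) (η' t) ≤ ENNReal.ofReal r) :
    curveTerm η η' E ≤ ENNReal.ofReal (r + Real.exp (-T)) := by
  have hexp : ∀ c : ℝ, ∫⁻ x in Ioi c, ENNReal.ofReal (Real.exp (-x)) =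
      ENNReal.ofReal (Real.exp (-c)) := fun c => by
    rw [← integral_exp_neg_Ioi c, ofReal_integral_eq_lintegral_ofReal (integrableOn_exp_neg_Ioi c)
      (Eventually.of_forall fun x => (Real.exp_pos _).le)]
  have hm : Measurable fun x : ℝ => ENNReal.ofReal (Real.exp (-x)) := by fun_prop
  unfold curveTerm
  calc _ ≤ ∫⁻ x in Ioi (0 : ℝ), (ENNReal.ofReal (Real.exp (-x)) * ENNReal.ofReal r +
        (Ioi T).indicator (fun x => ENNReal.ofReal (Real.exp (-x))) x) := by
        refine lintegral_mono fun x => ?_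
        by_cases hx : x ≤ T
        · refine le_trans ?_ le_self_add
          refine mul_le_mul_right (le_trans (min_le_right _ _) ?_) _
          exact iSup₂_le fun t ht => h t (ht.trans hx)
        · refine le_trans ?_ le_add_self
          rw [indicator_of_mem (show x ∈ Ioi T from lt_of_not_ge hx)]
          exact le_trans (mul_le_mul_right (min_le_left _ _) _) (by rw [mul_one])
    _ = ENNReal.ofReal (r + Real.exp (-T)) := by
        rw [lintegral_add_left (hm.mul_const _), lintegral_mul_const _ hm, hexp,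
          lintegral_indicator measurableSet_Ioi, Measure.restrict_restrict measurableSet_Ioi,
          Ioi_inter_Ioi, sup_eq_left.2 hT, hexp, ENNReal.ofReal_add hr (Real.exp_pos _).le]
        simp

theorem gemb_cn_nonneg (n : ℕ) : 0 ≤ cn n := Real.rpow_nonneg (by positivity) _

instance gemb_finite {n : ℕ} (q : Quad n) : IsFiniteMeasure (vmeas q) := by
  have hn := n_pos q
  refine ⟨?_⟩
  unfold vmeas
  rw [Measure.smul_apply, Measure.sum_fintype, Measure.finset_sum_apply, smul_eq_mul]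
  refine ENNReal.mul_lt_top (ENNReal.inv_lt_top.2 (by exact_mod_cast hn)) ?_
  exact ENNReal.sum_lt_top.2 fun v _ => measure_lt_top _ _

theorem gemb_integral {n : ℕ} (q : Quad n) (F : q.Vertex → ℝ) :
    ∫ x : Pt n, F (q.tail x.1) ∂vmeas q = (n : ℝ)⁻¹ * ∑ᶠ v, F v := by
  have hm : Measurable fun x : Pt n => F (q.tail x.1) :=
    (measurable_of_finite fun e => F (q.tail e)).comp measurable_fst
  unfold vmeas
  rw [integral_smul_measure, Measure.sum_fintype, integral_finset_sum_measure
    (fun v _ => integrable_dirac (by simp)), finsum_eq_sum_of_fintype]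
  simp only [integral_dirac' _ _ hm.stronglyMeasurable, tail_out, ENNReal.toReal_inv,
    ENNReal.toReal_natCast, smul_eq_mul]

theorem ghpu_le {n : ℕ} (q : Quad n) {d : Sph → Sph → ℝ} (hd : IsMet d) {μ : Measure ℂ}
    [IsProbabilityMeasure μ] (a : ℝ≥0) (e : DP n) (w : Path) {ε T : ℝ} (hε : 0 < ε)
    (hn : cn n ≤ ε) (hT : 0 ≤ T) (h : Close q a e d μ w ε T) :
    ghpu q a e d μ w ≤ ENNReal.ofReal (20 * ε + Real.exp (-T)) := by
  obtain ⟨p, k, φ, hφ0, hφ1, hφs, hdist, hdense, hmeas, hcurve⟩ := h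
  choose v hv using hdense
  let R₁ : Pt n ⊕ Sph → Pt n := Sum.elim id fun y => (Quotient.out (v y), 0)
  let R₂ : Pt n ⊕ Sph → Sph := Sum.elim (fun x => p (q.tail x.1)) id
  have hR : ∀ z, d (R₂ z) (p (q.tail (R₁ z).1)) ≤ ε := by
    rintro (x | y)
    · simp only [R₁, R₂, Sum.elim_inl, id]
      rw [hd.self]; exact hε.le
    · simp only [R₁, R₂, Sum.elim_inr, id]
      rw [tail_out]; exact hv y
  have hdis : ∀ z z', |mdist q (R₁ z) (R₁ z') - d (R₂ z) (R₂ z')| ≤ 5 * ε := by
    intro z z'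
    have h1 := abs_le.1 (mdist_tail q (R₁ z) (R₁ z'))
    have h2 := abs_le.1 (hdist (q.tail (R₁ z).1) (q.tail (R₁ z').1))
    have h3 := hR z
    have h4 := hR z'
    set x := p (q.tail (R₁ z).1)
    set x' := p (q.tail (R₁ z').1)
    have h5 := hd.triangle (R₂ z) x (R₂ z')
    have h6 := hd.triangle x x' (R₂ z')
    have h7 := hd.triangle x (R₂ z) x'
    have h8 := hd.triangle (R₂ z) (R₂ z') x'
    have h9 := hd.symm x' (R₂ z')
    have h10 := hd.symm x (R₂ z)
    rw [abs_le]
    constructor <;> linarith [h1.1, h1.2, h2.1, h2.2]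
  obtain ⟨W, iW, ι, ι', hι, hι', hgl⟩ := exists_glue (mdist q) d (mdist_self q) (mdist_comm q)
    (mdist_triangle q) (mdist_bdd q) hd.self hd.symm hd.triangle hd.bdd R₁ R₂
    (fun x => ⟨Sum.inl x, rfl⟩) (fun y => ⟨Sum.inr y, rfl⟩) hdis
  borelize W
  have hg1 : ∀ x : Pt n, dist (ι x) (ι' (p (q.tail x.1))) ≤ 5 * ε := fun x => hgl (Sum.inl x)
  have hg2 : ∀ y : Sph, dist (ι (Quotient.out (v y), 0)) (ι' y) ≤ 5 * ε :=
    fun y => hgl (Sum.inr y)
  have hcι : Continuous ι := by
    refine continuous_prod_of_discrete_left.2 fun b => ?_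
    refine (LipschitzWith.of_dist_le' (K := cn n) fun s t => ?_).continuous
    rw [hι]
    exact mdist_same q b s t
  have hcι' : Continuous ι' := by
    refine continuous_iff_continuousAt.2 fun y => ?_
    rw [ContinuousAt, tendsto_iff_dist_tendsto_zero]
    simp only [dist_comm (ι' _) (ι' y), hι']
    have := (hd.cont_right y).tendsto y
    rwa [hd.self] at this
  have hH : hausdorffEDist (range ι) (range ι') ≤ ENNReal.ofReal (5 * ε) := by
    refine hausdorffEDist_le_of_mem_edist ?_ ?_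
    · rintro _ ⟨x, rfl⟩
      refine ⟨_, mem_range_self (p (q.tail x.1)), ?_⟩
      rw [edist_dist]
      exact ENNReal.ofReal_le_ofReal (hg1 x)
    · rintro _ ⟨y, rfl⟩
      refine ⟨_, mem_range_self (Quotient.out (v y), 0), ?_⟩
      rw [edist_dist, dist_comm]
      exact ENNReal.ofReal_le_ofReal (hg2 y)
  have hfm : ∀ l, Measurable fun x : Pt n => φ l (p (q.tail x.1)) := fun l =>
    (measurable_of_finite fun b => φ l (p (q.tail b))).comp measurable_fst
  have hgm : ∀ l, Measurable fun z : ℂ => φ l z := fun l => (cont_coe (φ l)).measurable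
  have hint : ∀ l, ∫ x : Pt n, φ l (p (q.tail x.1)) ∂vmeas q = (n : ℝ)⁻¹ * ∑ᶠ x, φ l (p x) :=
    fun l => gemb_integral q fun x => φ l (p x)
  have hnear : ∀ l (x : Pt n) (z : ℂ), φ l (p (q.tail x.1)) ≠ 0 → φ l z ≠ 0 →
      dist (ι x) (ι' z) ≤ 6 * ε := by
    intro l x z h1 h2
    have h3 := hφs l _ _ h1 h2
    rw [← hι'] at h3
    linarith [dist_triangle (ι x) (ι' (p (q.tail x.1))) (ι' z), hg1 x]
  have hP : levyProkhorovEDist ((vmeas q).map ι) ((μ.map (↑)).map ι') ≤
      ENNReal.ofReal (6 * ε) := by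
    refine levyProkhorovEDist_le_of_forall _ _ _ fun r B hr hr' hB => ?_
    have hr6 : 6 * ε < r.toReal := by
      rwa [ENNReal.ofReal_lt_iff_lt_toReal (by positivity) hr'.ne] at hr
    have hεr : ENNReal.ofReal ε ≤ r :=
      le_trans (ENNReal.ofReal_le_ofReal (by linarith)) hr.le
    have hth : MeasurableSet (thickening r.toReal B) := isOpen_thickening.measurableSet
    have hmz : Measurable fun z : ℂ => ι' z := hcι'.measurable.comp measurable_coe_sph
    rw [Measure.map_map hcι'.measurable measurable_coe_sph]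
    change (vmeas q).map ι B ≤ μ.map (fun z : ℂ => ι' z) _ + r ∧
      μ.map (fun z : ℂ => ι' z) B ≤ (vmeas q).map ι _ + r
    rw [Measure.map_apply hcι.measurable hB, Measure.map_apply hcι.measurable hth,
      Measure.map_apply hmz hB, Measure.map_apply hmz hth]
    constructor
    · refine le_trans (gemb_compare (vmeas q) μ (fun l x => φ l (p (q.tail x.1)))
        (fun l z => φ l z) hfm (fun l x => hφ0 l _) (fun x => hφ1 _) hgm (fun l x => hφ0 l _)
        (fun x => hφ1 _) hε.le ?_ (hcι.measurable hB) (hmz hth) ?_) (add_le_add_right hεr _)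
      · simp only [hint]
        exact hmeas
      · intro l x z hx h1 h2
        refine mem_thickening_iff.2 ⟨ι x, hx, ?_⟩
        rw [dist_comm]
        exact lt_of_le_of_lt (hnear l x z h1 h2) hr6
    · refine le_trans (gemb_compare μ (vmeas q) (fun l z => φ l z)
        (fun l x => φ l (p (q.tail x.1))) hgm (fun l x => hφ0 l _) (fun x => hφ1 _) hfm
        (fun l x => hφ0 l _) (fun x => hφ1 _) hε.le ?_ (hmz hB) (hcι.measurable hth) ?_)
        (add_le_add_right hεr _)
      · simp only [hint, abs_sub_comm (∫ _, _ ∂μ)]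
        exact hmeas
      · intro l z x hz h1 h2
        exact mem_thickening_iff.2 ⟨ι' z, hz, lt_of_le_of_lt (hnear l x z h2 h1) hr6⟩
  have hC : curveTerm (fun t => curve e (a * t)) (fun t => (w.1 t : Sph))
      (fun x y => edist (ι x) (ι' y)) ≤ ENNReal.ofReal (6 * ε + Real.exp (-T)) := by
    refine gemb_curve _ _ _ (by positivity) hT fun t ht => ?_
    rw [edist_dist]
    refine ENNReal.ofReal_le_ofReal ?_
    have h1 := hg1 (curve e (a * t))
    have h2 := hcurve t ht
    have h3 : (curve e (a * t)).1 = e ⌊(a : ℝ) * t⌋₊ := rfl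
    rw [h3] at h1
    rw [← hι'] at h2
    linarith [dist_triangle (ι (curve e (a * t))) (ι' (p (q.tail (e ⌊(a : ℝ) * t⌋₊))))
      (ι' (w.1 t))]
  unfold ghpu gh
  refine le_trans (iInf_le_of_le W (iInf_le_of_le iW (iInf_le_of_le (borel W)
    (iInf_le_of_le ⟨rfl⟩ (iInf_le_of_le ι (iInf_le_of_le ι' (iInf_le_of_le hι
    (iInf_le_of_le hι' (add_le_add (add_le_add hH hP) hC))))))))) ?_
  rw [← ENNReal.ofReal_add (by positivity) (by positivity),
    ← ENNReal.ofReal_add (by positivity) (by positivity)]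
  exact ENNReal.ofReal_le_ofReal (by linarith)

end Pool.Agent.QL
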