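import Pool.Agent.P.MP_7a6434d8_pr.QL.W.CBasic
import Pool.Agent.P.MP_7a6434d8_pr.QL.W.FWalk
import Pool.Agent.P.MP_7a6434d8_pr.QL.W.DMeas

/-! Nets are eventually good. -/

open MeasureTheory ProbabilityTheory Set Filter Topology Metric
open scoped ENNReal NNReal

namespace Pool.Agent.QL

open Pool.Agent.LGD Pool.Agent.P.MP_7a6434d8_pr

theorem gev_unif {d : Sph → Sph → ℝ} (hd : IsMet d) {k : ℕ} (φ : Fin k → C(Sph, ℝ)) {η ε : ℝ}
    (hη : 0 < η) (hε : 0 < ε) :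
    ∃ τ > 0, τ ≤ ε ∧ ∀ l x y, d x y ≤ τ → |φ l x - φ l y| ≤ η := by
  choose θ hθ h using fun l => hd.unif_cont (φ l) hη
  have h1 : ∀ᶠ τ in 𝓝[>] (0 : ℝ), ∀ l, τ ∈ Ioc 0 (θ l) :=
    eventually_all.2 fun l => Ioc_mem_nhdsGT (hθ l)
  obtain ⟨τ, h2, h3⟩ := (h1.and (Ioc_mem_nhdsGT hε)).exists
  exact ⟨τ, h3.1, h3.2, fun l x y hxy => h l x y (hxy.trans (h2 l).2)⟩

theorem gev_prod {ι : Type} (s : Finset ι) (a b : ι → ℝ) {η : ℝ} (ha : ∀ i, a i ∈ Icc (0 : ℝ) 1)
    (hb : ∀ i, b i ∈ Icc (0 : ℝ) 1) (h : ∀ i, |a i - b i| ≤ η) :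
    |∏ i ∈ s, a i - ∏ i ∈ s, b i| ≤ s.card * η := by
  classical
  induction s using Finset.induction_on with
  | empty => simp
  | insert i s hi ih =>
    rw [Finset.prod_insert hi, Finset.prod_insert hi, Finset.card_insert_of_notMem hi]
    have h0 : 0 ≤ ∏ j ∈ s, b j := Finset.prod_nonneg fun j _ => (hb j).1
    have h1 : ∏ j ∈ s, b j ≤ 1 := Finset.prod_le_one (fun j _ => (hb j).1) fun j _ => (hb j).2
    have e : a i * ∏ j ∈ s, a j - b i * ∏ j ∈ s, b j =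
        a i * (∏ j ∈ s, a j - ∏ j ∈ s, b j) + (a i - b i) * ∏ j ∈ s, b j := by ring
    rw [e]
    refine (abs_add_le _ _).trans ?_
    rw [abs_mul, abs_mul, abs_of_nonneg (ha i).1, abs_of_nonneg h0]
    have h2 : a i * |∏ j ∈ s, a j - ∏ j ∈ s, b j| ≤ s.card * η :=
      (mul_le_of_le_one_left (abs_nonneg _) (ha i).2).trans ih
    have h3 : |a i - b i| * ∏ j ∈ s, b j ≤ η :=
      (mul_le_of_le_one_right (abs_nonneg _) h1).trans (h i)
    push_cast
    linarith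

theorem gev_mem {θ : ℝ} (Φ : POU θ) (l : Fin Φ.k) (z : Sph) : Φ.φ l z ∈ Icc (0 : ℝ) 1 := by
  refine ⟨Φ.nonneg l z, ?_⟩
  rw [← Φ.sum_one z]
  exact Finset.single_le_sum (fun i _ => Φ.nonneg i z) (Finset.mem_univ l)

theorem gev_integrable {n : ℕ} (q : Quad n) {θ : ℝ} (Φ : POU θ) {J : ℕ} (c : Fin J → Fin Φ.k)
    (p : q.Vertex → Sph) (t : Fin J → ℕ) :
    Integrable (fun e : DP n => cw Φ c fun j => p (q.tail (e (t j)))) (statLaw q) := by
  have hm : Measurable fun e : DP n => cw Φ c fun j => p (q.tail (e (t j))) := by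
    unfold cw
    refine Finset.measurable_prod _ fun j _ => ?_
    exact (measurable_of_finite fun b => Φ.φ (c j) (p (q.tail b))).comp (measurable_pi_apply _)
  refine Integrable.of_bound hm.aestronglyMeasurable 1 (Eventually.of_forall fun e => ?_)
  rw [Real.norm_of_nonneg (cw_nonneg _ _ _)]
  exact Finset.prod_le_one (fun j _ => (gev_mem Φ _ _).1) fun j _ => (gev_mem Φ _ _).2

theorem gev_sum_abs {ι : Type} [Fintype ι] {F : Filter ℕ} (u : ι → ℕ → ℝ) (v : ι → ℝ)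
    (h : ∀ i, Tendsto (u i) F (𝓝 (v i))) {ε : ℝ} (hε : 0 < ε) :
    ∀ᶠ m in F, ∑ i, |u i m - v i| ≤ ε := by
  have h1 : Tendsto (fun m => ∑ i, |u i m - v i|) F (𝓝 (∑ i : ι, |v i - v i|)) :=
    tendsto_finset_sum _ fun i _ => ((h i).sub_const _).abs
  simp only [sub_self, abs_zero, Finset.sum_const_zero] at h1
  exact h1.eventually (ge_mem_nhds hε)

theorem gev_sum_le {ι : Type} [Fintype ι] (u u' v : ι → ℝ) {ε ρ : ℝ}
    (h : ∑ i, |u i - v i| ≤ ε / 2) (h' : ∀ i, |u' i - u i| ≤ ρ)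
    (hρ : Fintype.card ι * ρ ≤ ε / 2) : ∑ i, |u' i - v i| ≤ ε := by
  have h1 : ∑ i, |u' i - v i| ≤ ∑ i, (ρ + |u i - v i|) :=
    Finset.sum_le_sum fun i _ => (abs_sub_le _ (u i) _).trans (add_le_add_left (h' i) _)
  rw [Finset.sum_add_distrib, Finset.sum_const, Finset.card_univ, nsmul_eq_mul] at h1
  linarith

theorem good_eventually {d : Sph → Sph → ℝ} {μ : Measure ℂ} [IsProbabilityMeasure μ]
    {L : Measure Path} [IsProbabilityMeasure L] (hd : IsMet d) {N : Net} (hG : N.Geo d μ)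
    (ha : Tendsto N.a N.U atTop) (hF : N.Fdd L) (hinit : L.map (fun w => w.1 0) = μ)
    {ε T θ : ℝ} {δ : ℝ≥0} (hε : 0 < ε) (hδ : 0 < δ) (Φ : POU θ) (J : ℕ)
    (hm : ∀ x y, chord x y < 2 * θ → d x y ≤ ε) (hT : N.Tight d (ε / 2) T (2 * δ)) :
    ∀ᶠ m in (N.U : Filter ℕ), ∃ κ,
      GoodAt (N.q m) (N.a m) ε T δ Φ J d L (cand (N.q m) κ) := by
  set K : ℝ := Fintype.card (Fin Φ.k) * 2 + Fintype.card (Fin J → Fin Φ.k) * J + 1 with hK
  have hK1 : (0 : ℝ) ≤ Fintype.card (Fin Φ.k) * 2 := by positivity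
  have hK2 : (0 : ℝ) ≤ Fintype.card (Fin J → Fin Φ.k) * J := by positivity
  have hK0 : 0 < K := by linarith
  set η : ℝ := ε / 2 / K with hη
  have hη0 : 0 < η := by positivity
  have hηK : K * η = ε / 2 := by rw [hη]; field_simp
  obtain ⟨τ, hτ0, hτε, hτ⟩ := gev_unif hd Φ.φ hη0 (show 0 < ε / 4 by positivity)
  have hδ' : (0 : ℝ) < δ := hδ
  have hmono : Monotone (mesh δ J) := fun i j hij => by
    unfold mesh
    exact mul_le_mul_left (Nat.cast_le.2 hij) _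
  have hcard : ∀ᶠ m in (N.U : Filter ℕ),
      (N.n m : ℝ)⁻¹ * Fintype.card (N.q m).Vertex ≤ 2 := by
    have h1 := hG.meas 1
    simp only [ContinuousMap.one_apply, finsum_eq_sum_of_fintype, Finset.sum_const,
      Finset.card_univ, nsmul_eq_mul, mul_one, integral_const, probReal_univ, smul_eq_mul] at h1
    exact h1.eventually (ge_mem_nhds one_lt_two)
  filter_upwards [ha.eventually_ge_atTop (δ : ℝ)⁻¹, hG.dist (ε / 4) (by positivity),
    hG.dense (ε / 2) (by positivity), hcard,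
    gev_sum_abs _ _ (fun l => hG.meas (Φ.φ l)) (half_pos hε),
    gev_sum_abs _ _ (fun c : Fin J → Fin Φ.k =>
      hF J (mesh δ J) (fun j => Φ.φ (c j)) hmono) (half_pos hε), hT]
    with m h1 h2 h3 h4 h5 h6 h7
  choose κ hκ using fun e => hd.dense_dz (N.p m ((N.q m).tail e)) hτ0
  have hc : ∀ x, d (cand (N.q m) κ x) (N.p m x) ≤ τ := fun x => by
    have := hκ (Quotient.out x)
    rw [tail_out] at this
    exact this.le
  refine ⟨κ, ?_, ?_, ?_, fun i j => hm _ _, ?_, ?_, ?_⟩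
  · calc (1 : ℝ) = (δ : ℝ)⁻¹ * δ := (inv_mul_cancel₀ hδ'.ne').symm
      _ ≤ N.a m * δ := mul_le_mul_of_nonneg_right h1 hδ'.le
  · intro x y
    have a1 := abs_le.1 (h2 x y)
    have a2 := hc x
    have a3 := hc y
    set x' := cand (N.q m) κ x
    set y' := cand (N.q m) κ y
    have a5 := hd.triangle x' (N.p m x) y'
    have a6 := hd.triangle (N.p m x) (N.p m y) y'
    have a7 := hd.triangle (N.p m x) x' (N.p m y)
    have a8 := hd.triangle x' y' (N.p m y)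
    have a9 := hd.symm x' (N.p m x)
    have a10 := hd.symm y' (N.p m y)
    rw [abs_le]
    constructor <;> linarith [a1.1, a1.2]
  · intro i
    obtain ⟨x, hx⟩ := h3 (dz i)
    refine ⟨x, ?_⟩
    have a1 := hd.triangle (dz i) (N.p m x) (cand (N.q m) κ x)
    have a2 := hd.symm (N.p m x) (cand (N.q m) κ x)
    linarith [hc x]
  · have hint : ∀ l, ∫ w, Φ.φ l (w.1 0) ∂L = ∫ z : ℂ, Φ.φ l z ∂μ := fun l => by
      rw [← hinit, integral_map (measurable_eval 0).aemeasurable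
        (cont_coe (Φ.φ l)).aestronglyMeasurable]
    simp only [hint]
    refine gev_sum_le _ _ _ h5 (ρ := 2 * η) (fun l => ?_) (by nlinarith)
    rw [← mul_sub, finsum_eq_sum_of_fintype, finsum_eq_sum_of_fintype, ← Finset.sum_sub_distrib,
      abs_mul, abs_of_nonneg (by positivity)]
    have a1 : |∑ x, (Φ.φ l (cand (N.q m) κ x) - Φ.φ l (N.p m x))| ≤
        Fintype.card (N.q m).Vertex * η := by
      refine (Finset.abs_sum_le_sum_abs _ _).trans ?_
      refine (Finset.sum_le_sum fun x _ => hτ l _ _ (hc x)).trans ?_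
      rw [Finset.sum_const, Finset.card_univ, nsmul_eq_mul]
    calc _ ≤ (N.n m : ℝ)⁻¹ * (Fintype.card (N.q m).Vertex * η) :=
          mul_le_mul_of_nonneg_left a1 (by positivity)
      _ = (N.n m : ℝ)⁻¹ * Fintype.card (N.q m).Vertex * η := by ring
      _ ≤ 2 * η := mul_le_mul_of_nonneg_right h4 hη0.le
  · refine gev_sum_le _ _ _ h6 (ρ := J * η) (fun c => ?_) (by nlinarith)
    have i1 := gev_integrable (N.q m) Φ c (cand (N.q m) κ) fun j => ⌊N.a m * mesh δ J j⌋₊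
    have i2 := gev_integrable (N.q m) Φ c (N.p m) fun j => ⌊N.a m * mesh δ J j⌋₊
    change |∫ e, (cw Φ c fun j => cand (N.q m) κ ((N.q m).tail (e ⌊N.a m * mesh δ J j⌋₊)))
      ∂statLaw (N.q m) - ∫ e, (cw Φ c fun j => N.p m ((N.q m).tail (e ⌊N.a m * mesh δ J j⌋₊)))
      ∂statLaw (N.q m)| ≤ _
    rw [← integral_sub i1 i2, ← Real.norm_eq_abs]
    refine (norm_integral_le_of_norm_le_const (C := J * η)
      (Eventually.of_forall fun e => ?_)).trans (by simp)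
    have := gev_prod Finset.univ
      (fun j => Φ.φ (c j) (cand (N.q m) κ ((N.q m).tail (e ⌊N.a m * mesh δ J j⌋₊))))
      (fun j => Φ.φ (c j) (N.p m ((N.q m).tail (e ⌊N.a m * mesh δ J j⌋₊))))
      (fun j => gev_mem Φ _ _) (fun j => gev_mem Φ _ _) fun j => hτ _ _ _ (hc _)
    rw [Finset.card_univ, Fintype.card_fin] at this
    exact this
  · refine le_trans (measure_mono ?_) (h7.trans (ENNReal.ofReal_le_ofReal (by linarith)))
    rintro e ⟨i, j, hij, hj, hji, he⟩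
    refine ⟨i, j, hij, hj, hji, ?_⟩
    have a1 := abs_le.1 (h2 ((N.q m).tail (e i)) ((N.q m).tail (e j)))
    unfold Net.pos
    linarith [a1.2]

end Pool.Agent.QL
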