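import Pool.Agent.P.MP_7a6434d8_pr.QL.W.DMeas
import Pool.Agent.P.MP_7a6434d8_pr.QL.W.Top

/-! Oscillation events, measurability of goodness, extraction. -/

open MeasureTheory ProbabilityTheory Set Filter Topology Metric
open scoped ENNReal NNReal

namespace Pool.Agent.QL

open Pool.Agent.LGD Pool.Agent.P.MP_7a6434d8_pr

theorem gosc_cont (w : Path) : Continuous fun s : ℝ≥0 => ((w.1 s : ℂ) : Sph) :=
  OnePoint.continuous_coe.comp w.2

theorem gosc_chord (s t : ℝ≥0) : Measurable fun w : Path => chord (w.1 s) (w.1 t) := by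
  have h1 : Measurable fun z : Sph × Sph => chord z.1 z.2 := isMet_chord.cont.measurable
  have h2 : ∀ r : ℝ≥0, Measurable fun w : Path => ((w.1 r : ℂ) : Sph) := fun r =>
    measurable_coe_sph.comp (measurable_eval r)
  exact Measurable.comp (g := fun z : Sph × Sph => chord z.1 z.2)
    (f := fun w : Path => (((w.1 s : ℂ) : Sph), ((w.1 t : ℂ) : Sph))) h1 ((h2 s).prodMk (h2 t))

theorem gosc_cont2 (w : Path) : Continuous fun z : ℝ≥0 × ℝ≥0 => chord (w.1 z.1) (w.1 z.2) :=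
  Continuous.comp (g := fun z : Sph × Sph => chord z.1 z.2)
    (f := fun z : ℝ≥0 × ℝ≥0 => (((w.1 z.1 : ℂ) : Sph), ((w.1 z.2 : ℂ) : Sph))) isMet_chord.cont
    (((gosc_cont w).comp continuous_fst).prodMk ((gosc_cont w).comp continuous_snd))

theorem gosc_mono (θ T : ℝ) {δ δ' : ℝ} (h : δ ≤ δ') : Osc θ δ T ⊆ Osc θ δ' T := by
  rintro w ⟨s, t, h1, h2, h3, h4⟩
  exact ⟨s, t, h1, h2, h3.trans_le h, h4⟩

theorem gosc_freq {Ω : Type} (A : ℕ → Set Ω) :
    {ω | ∃ᶠ k in atTop, ω ∈ A k} = ⋂ m, ⋃ (k : ℕ) (_ : m ≤ k), A k := by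
  ext ω
  simp only [frequently_atTop, mem_ofPred_eq, mem_iInter, mem_iUnion, exists_prop]

theorem gosc_freq_meas {Ω : Type} [MeasurableSpace Ω] {A : ℕ → Set Ω}
    (hA : ∀ k, MeasurableSet (A k)) : MeasurableSet {ω | ∃ᶠ k in atTop, ω ∈ A k} := by
  rw [gosc_freq]
  exact MeasurableSet.iInter fun m => MeasurableSet.iUnion fun k =>
    MeasurableSet.iUnion fun _ => hA k

theorem gosc_fatou {Ω : Type} [MeasurableSpace Ω] (P : Measure Ω) [IsFiniteMeasure P]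
    {A : ℕ → Set Ω} (hA : ∀ k, MeasurableSet (A k)) {ε : ℝ≥0∞}
    (h : P {ω | ∃ᶠ k in atTop, ω ∈ A k} < ε) : ∀ᶠ k in atTop, P (A k) < ε := by
  rw [gosc_freq] at h
  have h1 := tendsto_measure_iInter_atTop (μ := P) (s := fun m => ⋃ (k : ℕ) (_ : m ≤ k), A k)
    (fun m => (MeasurableSet.iUnion fun k => MeasurableSet.iUnion fun _ => hA k).nullMeasurableSet)
    (fun m m' hm => iUnion_mono fun k => iUnion_subset fun hk =>
      subset_iUnion (fun _ : m ≤ k => A k) (hm.trans hk))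
    ⟨0, measure_ne_top _ _⟩
  filter_upwards [h1.eventually (gt_mem_nhds h)] with k hk
  refine lt_of_le_of_lt (measure_mono fun ω hω => ?_) hk
  exact mem_iUnion.2 ⟨k, mem_iUnion.2 ⟨le_rfl, hω⟩⟩

theorem measurableSet_Osc (θ δ T : ℝ) : MeasurableSet (Osc θ δ T) := by
  have hu : DenseRange (TopologicalSpace.denseSeq ℝ≥0) := TopologicalSpace.denseRange_denseSeq _
  generalize TopologicalSpace.denseSeq ℝ≥0 = u at hu
  have e : Osc θ δ T = ⋃ (i : ℕ) (j : ℕ), {w : Path | ((u i : ℝ) < T ∧ (u j : ℝ) < T ∧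
      |(u i : ℝ) - u j| < δ) ∧ θ < chord (w.1 (u i)) (w.1 (u j))} := by
    ext w
    simp only [mem_iUnion, mem_ofPred_eq]
    constructor
    · rintro ⟨s, t, h1, h2, h3, h4⟩
      have ho : IsOpen {z : ℝ≥0 × ℝ≥0 | ((z.1 : ℝ) < T ∧ (z.2 : ℝ) < T ∧ |(z.1 : ℝ) - z.2| < δ) ∧
          θ < chord (w.1 z.1) (w.1 z.2)} := by
        refine IsOpen.and (IsOpen.and ?_ (IsOpen.and ?_ ?_)) ?_
        · exact isOpen_lt (by fun_prop) continuous_const
        · exact isOpen_lt (by fun_prop) continuous_const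
        · exact isOpen_lt (by fun_prop) continuous_const
        · exact isOpen_lt continuous_const (gosc_cont2 w)
      obtain ⟨⟨i, j⟩, h⟩ := (hu.prodMap hu).exists_mem_open ho ⟨(s, t), ⟨h1, h2, h3⟩, h4⟩
      exact ⟨i, j, h⟩
    · rintro ⟨i, j, ⟨h1, h2, h3⟩, h4⟩
      exact ⟨u i, u j, h1, h2, h3, h4⟩
  rw [e]
  exact MeasurableSet.iUnion fun i => MeasurableSet.iUnion fun j =>
    (MeasurableSet.const _).inter (measurableSet_lt measurable_const (gosc_chord _ _))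

theorem osc_small (Q : Measure Path) [IsFiniteMeasure Q] {θ : ℝ} (hθ : 0 < θ) (T : ℝ) {ε : ℝ≥0∞}
    (hε : 0 < ε) : ∃ δ₀ > 0, ∀ δ ≤ δ₀, Q (Osc θ δ T) ≤ ε := by
  have h1 := tendsto_measure_iInter_atTop (μ := Q) (s := fun j : ℕ => Osc θ (1 / (j + 1)) T)
    (fun j => (measurableSet_Osc _ _ _).nullMeasurableSet)
    (fun j j' hj => gosc_mono θ T (Nat.one_div_le_one_div hj)) ⟨0, measure_ne_top _ _⟩
  have h2 : ⋂ j : ℕ, Osc θ (1 / (j + 1)) T = ∅ := by
    refine eq_empty_of_forall_notMem fun w hw => ?_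
    have hc : Continuous fun s : ℝ≥0 => sphHomeo ((w.1 s : ℂ) : Sph) :=
      sphHomeo.continuous.comp (gosc_cont w)
    have hu := (isCompact_Icc (a := (0 : ℝ≥0)) (b := T.toNNReal)).uniformContinuousOn_of_continuous
      hc.continuousOn
    obtain ⟨η, hη, hb⟩ := Metric.uniformContinuousOn_iff.1 hu θ hθ
    obtain ⟨j, hj⟩ := exists_nat_one_div_lt hη
    obtain ⟨s, t, h1, h2, h3, h4⟩ := mem_iInter.1 hw j
    have hm : ∀ r : ℝ≥0, (r : ℝ) < T → r ∈ Icc (0 : ℝ≥0) T.toNNReal := fun r hr =>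
      ⟨zero_le, NNReal.coe_le_coe.1 (hr.le.trans (Real.le_coe_toNNReal T))⟩
    exact lt_asymm h4 (hb s (hm s h1) t (hm t h2) (h3.trans hj))
  rw [h2, measure_empty] at h1
  obtain ⟨j, hj⟩ := (h1.eventually (gt_mem_nhds hε)).exists
  exact ⟨1 / (j + 1), by positivity, fun δ hδ => (measure_mono (gosc_mono θ T hδ)).trans hj.le⟩

theorem extract {Ω : Type} [MeasurableSpace Ω] (P : Measure Ω) [IsFiniteMeasure P]
    (S : ℕ → ℕ → Set Ω) (hS : ∀ i k, MeasurableSet (S i k))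
    (h : ∀ᵐ ω ∂P, ∀ᶠ i in atTop, ∀ᶠ k in atTop, ω ∉ S i k) {ε : ℝ≥0∞} (hε : 0 < ε) :
    ∃ i, ∀ᶠ k in atTop, P (S i k) ≤ ε := by
  have h0 : P {ω | ∃ᶠ i in atTop, ω ∈ {ω | ∃ᶠ k in atTop, ω ∈ S i k}} = 0 := by
    refine measure_mono_null (fun ω hω => ?_) (ae_iff.1 h)
    intro hn
    obtain ⟨i, h1, h2⟩ := (hω.and_eventually hn).exists
    obtain ⟨k, h3, h4⟩ := (h1.and_eventually h2).exists
    exact h4 h3
  obtain ⟨i, hi⟩ := (gosc_fatou P (fun i => gosc_freq_meas (hS i)) (h0 ▸ hε)).exists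
  exact ⟨i, (gosc_fatou P (hS i) hi).mono fun k hk => hk.le⟩

theorem measurable_cw_path {θ : ℝ} (Φ : POU θ) {J : ℕ} (c : Fin J → Fin Φ.k) (t : Fin J → ℝ≥0) :
    Measurable fun w : Path => cw Φ c fun j => w.1 (t j) := by
  unfold cw
  exact Finset.measurable_prod _ fun j _ =>
    (cont_coe (Φ.φ (c j))).measurable.comp (measurable_eval _)

theorem measurableSet_goodAt {Ω : Type} [MeasurableSpace Ω] (d : Ω → Sph → Sph → ℝ)
    (hd : ∀ x y, Measurable fun ω => d ω x y) (L : Kernel Ω Path) [IsMarkovKernel L] {n : ℕ}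
    (q : Quad n) (a ε T : ℝ) (δ : ℝ≥0) {θ : ℝ} (Φ : POU θ) (J : ℕ) (p : q.Vertex → Sph) :
    MeasurableSet {ω | GoodAt q a ε T δ Φ J (d ω) (L ω) p} := by
  have e : {ω | GoodAt q a ε T δ Φ J (d ω) (L ω) p} =
      {_ω | 1 ≤ a * δ ∧ statLaw q (DOsc q a ε δ T) ≤ ENNReal.ofReal ε} ∩
      ((⋂ (x) (y), {ω | |cn n * q.graph.dist x y - d ω (p x) (p y)| ≤ ε}) ∩
      ((⋂ i, ⋃ x, {ω | d ω (dz i) (p x) ≤ ε}) ∩
      ((⋂ (i) (j) (_ : chord (dz i) (dz j) < 2 * θ), {ω | d ω (dz i) (dz j) ≤ ε}) ∩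
      ({ω | ∑ l, |(n : ℝ)⁻¹ * ∑ᶠ x, Φ.φ l (p x) - ∫ w, Φ.φ l (w.1 0) ∂L ω| ≤ ε} ∩
        {ω | ∑ c : Fin J → Fin Φ.k,
          |∫ e, cw Φ c (fun j => p (q.tail (e ⌊a * mesh δ J j⌋₊))) ∂statLaw q -
            ∫ w, cw Φ c (fun j => w.1 (mesh δ J j)) ∂L ω| ≤ ε})))) := by
    ext ω
    simp only [mem_ofPred_eq, mem_inter_iff, mem_iInter, mem_iUnion]
    exact ⟨fun h => ⟨⟨h.big, h.osc⟩, h.dist, h.dense, h.modu, h.meas, h.fdd⟩,
      fun ⟨⟨h1, h2⟩, h3, h4, h5, h6, h7⟩ => ⟨h1, h3, h4, h5, h6, h7, h2⟩⟩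
  rw [e]
  refine (MeasurableSet.const _).inter ((MeasurableSet.iInter fun x => MeasurableSet.iInter fun y =>
    measurableSet_le (measurable_const.sub (hd _ _)).abs measurable_const).inter
    ((MeasurableSet.iInter fun i => MeasurableSet.iUnion fun x =>
      measurableSet_le (hd _ _) measurable_const).inter
    ((MeasurableSet.iInter fun i => MeasurableSet.iInter fun j => MeasurableSet.iInter fun _ =>
      measurableSet_le (hd _ _) measurable_const).inter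
    ((measurableSet_le (Finset.measurable_sum _ fun l _ => ?_) measurable_const).inter
      (measurableSet_le (Finset.measurable_sum _ fun c _ => ?_) measurable_const)))))
  · exact (measurable_const.sub (((cont_coe (Φ.φ l)).measurable.comp
      (measurable_eval 0)).stronglyMeasurable.integral_kernel (κ := L)).measurable).abs
  · exact (measurable_const.sub ((measurable_cw_path Φ c _).stronglyMeasurable.integral_kernel
      (κ := L)).measurable).abs

end Pool.Agent.QL
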