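import Pool.Agent.P.MP_7a6434d8_pr.QL.W.GEmb
import Pool.Agent.P.MP_7a6434d8_pr.QL.W.GCoup2
import Pool.Agent.P.MP_7a6434d8_pr.QL.W.GRer
import Pool.Agent.P.MP_7a6434d8_pr.QL.W.GClose
import Pool.Agent.P.MP_7a6434d8_pr.QL.W.GOsc

/-! The coupling for one value of n. -/

open MeasureTheory ProbabilityTheory Set Filter Topology Metric
open scoped ENNReal NNReal

namespace Pool.Agent.QL

open Pool.Agent.LGD Pool.Agent.P.MP_7a6434d8_pr

/-- the weight of a cell for a walk -/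
noncomputable def gk_w {n : ℕ} (q : Quad n) (a : ℝ) (δ : ℝ≥0) {θ : ℝ} (Φ : POU θ) (J : ℕ)
    (p : q.Vertex → Sph) (z : Fin J → Fin Φ.k) (e : DP n) : ℝ :=
  cw Φ z fun j => p (q.tail (e ⌊a * mesh δ J j⌋₊))

theorem gk_w_meas {n : ℕ} (q : Quad n) (a : ℝ) (δ : ℝ≥0) {θ : ℝ} (Φ : POU θ) (J : ℕ)
    (p : q.Vertex → Sph) (z : Fin J → Fin Φ.k) : Measurable (gk_w q a δ Φ J p z) := by
  unfold gk_w cw
  refine Finset.measurable_prod _ fun j _ => ?_
  exact (measurable_of_finite fun x : Fin (4 * n) => Φ.φ (z j) (p (q.tail x))).comp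
    (measurable_pi_apply _)

theorem gk_int {n : ℕ} (q : Quad n) (a : ℝ) (δ : ℝ≥0) {θ : ℝ} (Φ : POU θ) (J : ℕ)
    (p : q.Vertex → Sph) (z : Fin J → Fin Φ.k) :
    ∫ x, gk_w q a δ Φ J p z x.2 ∂statLaw2 q = ∫ e, gk_w q a δ Φ J p z e ∂statLaw q := by
  rw [← statLaw2_snd, integral_map measurable_snd.aemeasurable
    (gk_w_meas q a δ Φ J p z).aestronglyMeasurable]

theorem gk_perm_meas {n : ℕ} (ψ : Equiv.Perm (Fin (4 * n))) :
    Measurable fun (e : DP n) (j : ℕ) => ψ (e j) :=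
  measurable_pi_lambda _ fun j => (measurable_of_finite ψ).comp (measurable_pi_apply j)

theorem gk_ne_meas {X : Type} [MeasurableSpace X] {f : X → ℝ} (hf : Measurable f) :
    MeasurableSet {x | f x ≠ 0} :=
  (hf (measurableSet_singleton 0)).compl

theorem coupled_of_good {Ω : Type} [MeasurableSpace Ω] (P : Measure Ω) [IsProbabilityMeasure P]
    (d : Ω → Sph → Sph → ℝ) (hdm : ∀ x y, Measurable fun ω => d ω x y) (μ : Ω → Measure ℂ)
    (L : Kernel Ω Path) [IsMarkovKernel L]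
    (hae : ∀ᵐ ω ∂P, IsMet (d ω) ∧ IsProbabilityMeasure (μ ω) ∧
      (L ω).map (fun w => w.1 0) = μ ω)
    {n : ℕ} (a : ℝ≥0) (Γ : Measure (RootedQuad n × Ω)) (h1 : Γ.fst = uniformOn univ)
    (h2 : Γ.snd = P) {ε T θ : ℝ} {δ : ℝ≥0} (hε : 0 < ε) (hθ : 0 < θ) (hδ : 0 < δ) (hT : 0 ≤ T)
    (Φ : POU θ) {J : ℕ} (hJ : T < J * δ) (hn : cn n ≤ ε)
    (hgood : Γ {p | ∀ κ, ¬ GoodAt (Quot.out p.1) a ε T δ Φ J (d p.2) (L p.2) (cand _ κ)} ≤
      ENNReal.ofReal ε)
    (hosc : (P ⊗ₘ L) (univ ×ˢ Osc θ δ (T + 1)) ≤ ENNReal.ofReal ε) :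
    Coupled P d μ L n a (ENNReal.ofReal (80 * ε + Real.exp (-T))) := by
  have hΓ : IsProbabilityMeasure Γ := ⟨by rw [← Measure.snd_univ, h2, measure_univ]⟩
  obtain ⟨κ, hκ⟩ := exists_surjective_nat (Fin (4 * n) → ℕ)
  obtain ⟨N, hNsub, hNm, hN0⟩ := exists_measurable_superset_of_null (ae_iff.1 hae)
  obtain ⟨G, hG⟩ : ∃ G : RootedQuad n → ℕ → Set Ω, ∀ c i, G c i =
      {ω | GoodAt (Quot.out c) a ε T δ Φ J (d ω) (L ω) (cand _ (κ i))} ∩ Nᶜ := ⟨_, fun _ _ => rfl⟩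
  have hGm : ∀ c i, MeasurableSet (G c i) := fun c i => by
    rw [hG]
    exact (measurableSet_goodAt d hdm L _ _ _ _ _ _ _ _).inter hNm.compl
  have hTG : ∀ c i, ∀ ω ∈ disjointed (G c) i,
      GoodAt (Quot.out c) a ε T δ Φ J (d ω) (L ω) (cand _ (κ i)) ∧ IsMet (d ω) ∧
        IsProbabilityMeasure (μ ω) ∧ (L ω).map (fun w => w.1 0) = μ ω := fun c i ω hω => by
    have h3 := disjointed_subset (G c) i hω
    rw [hG] at h3
    refine ⟨h3.1, ?_⟩
    by_contra h4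
    exact h3.2 (hNsub h4)
  obtain ⟨Γ', hf, hs, hbad⟩ := exists_coupling2 (Z := Fin J → Fin Φ.k) Γ
    (fun c => statLaw2 (Quot.out c)) L (fun c => disjointed (G c))
    (fun c i => MeasurableSet.disjointed (hGm c) i) (fun c => disjoint_disjointed (G c))
    (fun c i z x => gk_w (Quot.out c) a δ Φ J (cand _ (κ i)) z x.2)
    (fun c i z => (gk_w_meas _ _ _ _ _ _ z).comp measurable_snd)
    (fun c i z x => cw_nonneg Φ z _) (fun c i x => cw_sum Φ _)
    (fun z w => cw Φ z fun j => w.1 (mesh δ J j)) (fun z => measurable_cw_path Φ z _)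
    (fun z w => cw_nonneg Φ z _) (fun w => cw_sum Φ _) (ε := ε)
    (fun c i ω hω => by
      refine le_of_eq_of_le (Finset.sum_congr rfl fun z _ => ?_) (hTG c i ω hω).1.fdd
      rw [gk_int]
      rfl)
    (fun c => Prod.snd ⁻¹' DOsc (Quot.out c) a ε δ T)
    (fun c => measurable_snd (measurableSet_DOsc _ _ _ _ _))
    (fun c i ⟨ω, hω⟩ => by
      rw [← Measure.map_apply measurable_snd (measurableSet_DOsc _ _ _ _ _), statLaw2_snd]
      exact (hTG c i ω hω).1.osc)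
    (Osc θ δ (T + 1)) (measurableSet_Osc _ _ _)
  obtain ⟨R, ψ, hiso, hρm, hlaw⟩ := exists_reroot n
  obtain ⟨ρ, hρ⟩ : ∃ ρ : RootedQuad n × (Fin (4 * n) × DP n) → RootedQuad n × DP n,
      ρ = fun p => (R p.1 p.2.1, fun j => ψ p.1 p.2.1 (p.2.2 j)) := ⟨_, rfl⟩
  rw [← hρ] at hρm hlaw
  have hmap : Measurable (Prod.map ρ (id : Ω × Path → Ω × Path)) := hρm.prodMap measurable_id
  obtain ⟨M, hM⟩ : ∃ M : Set ((RootedQuad n × DP n) × (Ω × Path)), M =
      ⋃ (c : RootedQuad n) (e₀ : Fin (4 * n)) (i : ℕ) (z : Fin J → Fin Φ.k),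
        ({R c e₀} ×ˢ ((fun (e : DP n) (j : ℕ) => (ψ c e₀).symm (e j)) ⁻¹'
          ({e | gk_w (Quot.out c) a δ Φ J (cand _ (κ i)) z e ≠ 0} ∩
            (DOsc (Quot.out c) a ε δ T)ᶜ))) ×ˢ
        (disjointed (G c) i ×ˢ ({w : Path | cw Φ z (fun j => w.1 (mesh δ J j)) ≠ 0} ∩
          (Osc θ δ (T + 1))ᶜ)) := ⟨_, rfl⟩
  have hMm : MeasurableSet M := by
    rw [hM]
    refine MeasurableSet.iUnion fun c => MeasurableSet.iUnion fun e₀ =>
      MeasurableSet.iUnion fun i => MeasurableSet.iUnion fun z => ?_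
    exact ((measurableSet_singleton _).prod (gk_perm_meas _
      ((gk_ne_meas (gk_w_meas _ _ _ _ _ _ z)).inter (measurableSet_DOsc _ _ _ _ _).compl))).prod
      ((MeasurableSet.disjointed (hGm c) i).prod
        ((gk_ne_meas (measurable_cw_path Φ z _)).inter (measurableSet_Osc _ _ _).compl))
  refine ⟨Γ'.map (Prod.map ρ id), ?_, ?_, ?_⟩
  · rw [← hlaw, ← h1, ← hf, Measure.fst, Measure.fst, Measure.map_map measurable_fst hmap,
      Measure.map_map hρm measurable_fst]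
    rfl
  · rw [← h2, ← hs, Measure.snd, Measure.snd, Measure.map_map measurable_snd hmap]
    rfl
  · have hsub : {p : (RootedQuad n × DP n) × (Ω × Path) |
        ENNReal.ofReal (80 * ε + Real.exp (-T)) <
          ghpu (Quot.out p.1.1) a p.1.2 (d p.2.1) (μ p.2.1) p.2.2} ⊆ Mᶜ := by
      rintro ⟨⟨c', e'⟩, ω, w⟩ hp hpM
      rw [hM] at hpM
      simp only [mem_iUnion] at hpM
      obtain ⟨c, e₀, i, z, ⟨hc, he1, he2⟩, hω, hw1, hw2⟩ := hpM
      obtain rfl : c' = R c e₀ := hc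
      obtain ⟨hg, hm, hp1, hp2⟩ := hTG c i ω hω
      have h5 := (hg.close hm hθ hδ hε.le hJ hp2 (c := z) (e := fun j => (ψ c e₀).symm (e' j))
        (w := w) he1 hw1 he2 hw2).iso (hiso c e₀)
      simp only [Equiv.apply_symm_apply] at h5
      have h6 := ghpu_le _ hm a e' w (by linarith : 0 < 4 * ε) (by linarith) hT h5
      rw [show 20 * (4 * ε) = 80 * ε by ring] at h6
      exact absurd h6 (not_le.2 hp)
    refine (measure_mono hsub).trans ?_
    rw [Measure.map_apply hmap hMm.compl]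
    refine (hbad (Prod.map ρ id ⁻¹' Mᶜ) fun c i z x ω y hω hα hβ hx hy hb => hb ?_).trans ?_
    · rw [hM]
      simp only [mem_iUnion]
      refine ⟨c, x.1, i, z, ⟨by rw [hρ]; rfl, ?_⟩, hω, hβ, hy⟩
      have e : (fun j => (ψ c x.1).symm ((Prod.map ρ (id : Ω × Path → Ω × Path)
          ((c, x), (ω, y))).1.2 j)) = x.2 := by
        funext j
        rw [hρ]
        exact Equiv.symm_apply_apply _ _
      rw [mem_preimage, e]
      exact ⟨hα, hx⟩
    · have h7 : Γ {p | ∀ i, p.2 ∉ disjointed (G p.1) i} ≤ ENNReal.ofReal ε := by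
        have h8 : {p : RootedQuad n × Ω | ∀ i, p.2 ∉ disjointed (G p.1) i} ⊆
            {p | ∀ κ, ¬ GoodAt (Quot.out p.1) a ε T δ Φ J (d p.2) (L p.2) (cand _ κ)} ∪
              Prod.snd ⁻¹' N := by
          intro p hp
          by_contra hn
          rw [mem_union, not_or] at hn
          obtain ⟨κ', hκ'⟩ := not_forall.1 hn.1
          obtain ⟨i, rfl⟩ := hκ κ'
          have h9 : p.2 ∈ ⋃ i, G p.1 i :=
            mem_iUnion.2 ⟨i, by rw [hG]; exact ⟨not_not.1 hκ', hn.2⟩⟩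
          rw [← iUnion_disjointed] at h9
          obtain ⟨j, hj⟩ := mem_iUnion.1 h9
          exact hp j hj
        refine (measure_mono h8).trans ((measure_union_le _ _).trans ?_)
        rw [← Measure.snd_apply hNm, h2, hN0, add_zero]
        exact hgood
      rw [h2]
      calc _ ≤ 2 * ENNReal.ofReal ε + ENNReal.ofReal ε + ENNReal.ofReal ε + ENNReal.ofReal ε := by
            gcongr
        _ = ENNReal.ofReal (5 * ε) := by
            rw [ENNReal.ofReal_mul (by norm_num), ENNReal.ofReal_ofNat]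
            ring
        _ ≤ _ := ENNReal.ofReal_le_ofReal (by linarith [Real.exp_pos (-T)])

end Pool.Agent.QL
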