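import Pool.Agent.P.MP_7a6434d8_pr.QL.W.GK
import Pool.Agent.P.MP_7a6434d8_pr.QL.W.GTrap
import Pool.Agent.P.MP_7a6434d8_pr.QL.W.GEv
import Pool.Agent.P.MP_7a6434d8_pr.QL.W.FDet

/-! Convergence along a subsequence. -/

open MeasureTheory ProbabilityTheory Set Filter Topology Metric
open scoped ENNReal NNReal

namespace Pool.Agent.QL

open Pool.Agent.LGD Pool.Agent.P.MP_7a6434d8_pr

theorem gsub_tight {N : Net} {d : Sph → Sph → ℝ} {ε T δ δ' : ℝ} (hE : N.En d)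
    (h : N.Tight d ε T δ) (hδ : δ' ≤ δ) : N.Tight d ε T δ' := by
  filter_upwards [h, hE.pos] with m h1 h2
  refine le_trans (measure_mono ?_) h1
  rintro e ⟨i, j, h3, h4, h5, h6⟩
  exact ⟨i, j, h3, h4, h5.trans (mul_le_mul_of_nonneg_left hδ h2.le), h6⟩

theorem gsub_const {ε : ℝ≥0∞} (hε : 0 < ε) :
    ∃ e T : ℝ, 0 < e ∧ 0 ≤ T ∧ ENNReal.ofReal (80 * e + Real.exp (-T)) ≤ ε := by
  obtain ⟨r, hr, hrε⟩ := ENNReal.lt_iff_exists_nnreal_btwn.1 hε
  have hr0 : (0 : ℝ) < r := by exact_mod_cast hr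
  refine ⟨r / 160, max 0 (-Real.log (r / 2)), by positivity, le_max_left _ _, ?_⟩
  refine le_trans ?_ hrε.le
  rw [← ENNReal.ofReal_coe_nnreal]
  refine ENNReal.ofReal_le_ofReal ?_
  have h1 : Real.exp (-max 0 (-Real.log (r / 2))) ≤ Real.exp (Real.log (r / 2)) :=
    Real.exp_le_exp.2 (by linarith [le_max_right 0 (-Real.log (r / 2))])
  rw [Real.exp_log (by positivity)] at h1
  linarith

theorem coupled_sub {Ω : Type} [MeasurableSpace Ω] (P : Measure Ω) [IsProbabilityMeasure P]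
    (d : Ω → Sph → Sph → ℝ) (hdm : ∀ x y, Measurable fun ω => d ω x y) (μ : Ω → Measure ℂ)
    {W : Measure Path} (hW : IsWiener W) (L : Kernel Ω Path) [IsMarkovKernel L]
    (henv : ∀ᵐ ω ∂P, Env (d ω) (μ ω) W (L ω)) (hin : Inputs P d μ) (n₀ : ℕ → ℕ)
    (hn₀ : StrictMono n₀) :
    ∃ (σ : ℕ → ℕ) (a : ℕ → ℝ≥0), (∀ k, 0 < a k) ∧
      ∀ ε : ℝ≥0∞, 0 < ε → ∀ᶠ k in atTop, Coupled P d μ L (n₀ (σ k)) (a k) ε := by
  classical
  obtain ⟨σ, a, Γ, hσ, ha, hΓ, htrap, hG⟩ := hin n₀ hn₀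
  refine ⟨σ, fun k => (a k).toNNReal, fun k => Real.toNNReal_pos.2 (ha k), fun ε hε => ?_⟩
  obtain ⟨e, T, he, hT, heT⟩ := gsub_const hε
  have hη : 0 < ENNReal.ofReal (e / 3) := ENNReal.ofReal_pos.2 (by positivity)
  obtain ⟨G, hG1, hG2⟩ := hG _ hη
  obtain ⟨H, hH1, hH2⟩ := trap_sets (fun k => n₀ (σ k)) a htrap hη
  let θ : ℕ → ℝ := fun i => 1 / ((i : ℝ) + 1)
  have hθ : ∀ i, 0 < θ i := fun i => by positivity
  let Φ : ∀ i, POU (θ i) := fun i => (pou_nonempty (hθ i)).some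
  have hδ : ∀ i, ∃ δ : ℝ≥0, 0 < δ ∧ (δ : ℝ) ≤ θ i ∧
      (P ⊗ₘ L) (univ ×ˢ Osc (θ i) δ (T + 1)) ≤ ENNReal.ofReal e := fun i => by
    obtain ⟨δ₀, h0, h1⟩ := osc_small (P ⊗ₘ L).snd (hθ i) (T + 1) (ENNReal.ofReal_pos.2 he)
    have h2 : 0 < min δ₀ (θ i) := lt_min h0 (hθ i)
    refine ⟨(min δ₀ (θ i)).toNNReal, Real.toNNReal_pos.2 h2, ?_, ?_⟩
    · rw [Real.coe_toNNReal _ h2.le]; exact min_le_right _ _
    · rw [Real.coe_toNNReal _ h2.le]
      have h3 := h1 _ (min_le_left δ₀ (θ i))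
      rw [Measure.snd_apply (measurableSet_Osc _ _ _)] at h3
      rwa [univ_prod]
  choose δ hδ0 hδ1 hδ2 using hδ
  let J : ℕ → ℕ := fun i => ⌊T / δ i⌋₊ + 1
  have hJ : ∀ i, T < J i * δ i := fun i => by
    have h0 : (0 : ℝ) < δ i := hδ0 i
    have h1 := Nat.lt_floor_add_one (T / δ i)
    rw [div_lt_iff₀ h0] at h1
    simpa [J] using h1
  let G' : ∀ k, Set (RootedQuad (n₀ (σ k)) × Ω) := fun k => (toMeasurable (Γ k) (G k)ᶜ)ᶜ
  have hG' : ∀ k, G' k ⊆ G k := fun k => compl_subset_comm.1 (subset_toMeasurable _ _)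
  let S : ℕ → ℕ → Set Ω := fun i k => {ω | ∃ c, c ∈ H k ∧ (c, ω) ∈ G' k ∧ ∀ κ,
    ¬ GoodAt (Quot.out c) (a k) e T (δ i) (Φ i) (J i) (d ω) (L ω) (cand _ κ)}
  have hS : ∀ i k, MeasurableSet (S i k) := fun i k => by
    have h1 : S i k = ⋃ c ∈ H k, (Prod.mk c ⁻¹' G' k) ∩ ⋂ κ,
        {ω | GoodAt (Quot.out c) (a k) e T (δ i) (Φ i) (J i) (d ω) (L ω) (cand _ κ)}ᶜ := by
      ext ω
      simp only [S, mem_setOf_eq, mem_iUnion, mem_inter_iff, mem_preimage, mem_iInter,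
        mem_compl_iff, exists_prop]
    rw [h1]
    refine MeasurableSet.biUnion (Set.toFinite _).countable fun c _ => MeasurableSet.inter ?_
      (MeasurableSet.iInter fun κ => (measurableSet_goodAt d hdm L _ _ _ _ _ _ _ _).compl)
    exact measurable_prodMk_left (measurableSet_toMeasurable _ _).compl
  have hθ0 : Tendsto θ atTop (𝓝 0) := tendsto_one_div_add_atTop_nhds_zero_nat
  have hae : ∀ᵐ ω ∂P, ∀ᶠ i in atTop, ∀ᶠ k in atTop, ω ∉ S i k := by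
    filter_upwards [henv, hG2] with ω h1 h2
    have := h1.prob
    have hd := h1.geo.isMet
    have hc := cont_of_lbm hW h1.lbm
    have := hc.prob
    obtain ⟨hF, hTi⟩ := wdet (d ω) (μ ω) W (L ω) h1.geo h1.at0 h1.at1 hW h1.lbm
    obtain ⟨δT, hδT, hTi⟩ := hTi (e / 2) (by positivity) T
    obtain ⟨θ₀, hθ₀, hm⟩ := isMet_chord.unif hd he
    filter_upwards [hθ0.eventually (ge_mem_nhds (half_pos hδT)),
      hθ0.eventually (ge_mem_nhds (half_pos hθ₀))] with i hi1 hi2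
    by_contra hn
    rw [not_eventually] at hn
    obtain ⟨k, hk, h3⟩ := extraction_of_frequently_atTop hn
    simp only [not_not] at h3
    choose c hc1 hc2 hc3 using h3
    obtain ⟨U, p, hU, hGeo, hEn⟩ := h2 k c hk fun m => hG' _ (hc2 m)
    have hTr := hH2 k c U p (hk.tendsto_atTop.mono_left hU) hc1
    have h4 := good_eventually hd hGeo hEn.a_top (hF _ hGeo hEn hTr) hc.init he (hδ0 i) (Φ i) (J i)
      (fun x y hxy => hm x y (by linarith))
      (gsub_tight hEn (hTi _ hGeo hEn hTr) (by linarith [hδ1 i]))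
    obtain ⟨m, κ, h5⟩ := h4.exists
    exact hc3 m κ h5
  obtain ⟨i, hi⟩ := extract P S hS hae hη
  have hcn : Tendsto (fun k => cn (n₀ (σ k))) atTop (𝓝 0) :=
    cn_tendsto.comp (hn₀.comp hσ).tendsto_atTop
  have hae2 : ∀ᵐ ω ∂P, IsMet (d ω) ∧ IsProbabilityMeasure (μ ω) ∧
      (L ω).map (fun w => w.1 0) = μ ω := by
    filter_upwards [henv] with ω h1
    have := h1.prob
    exact ⟨h1.geo.isMet, h1.prob, (cont_of_lbm hW h1.lbm).init⟩
  filter_upwards [hi, hG1, hcn.eventually (ge_mem_nhds he)] with k h1 h2 h3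
  obtain ⟨Γ', h4, h5, h6⟩ := coupled_of_good P d hdm μ L hae2 (a k).toNNReal (Γ k) (hΓ k).1
    (hΓ k).2 he (hθ i) (hδ0 i) hT (Φ i) (hJ i) h3 (by
      rw [Real.coe_toNNReal _ (ha k).le]
      have h7 : {p : RootedQuad (n₀ (σ k)) × Ω | ∀ κ, ¬ GoodAt (Quot.out p.1) (a k) e T (δ i) (Φ i)
          (J i) (d p.2) (L p.2) (cand _ κ)} ⊆
          (toMeasurable (Γ k) (G k)ᶜ ∪ Prod.fst ⁻¹' (H k)ᶜ) ∪ Prod.snd ⁻¹' S i k := by
        intro p hp
        by_cases h8 : p ∈ toMeasurable (Γ k) (G k)ᶜ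
        · exact Or.inl (Or.inl h8)
        by_cases h9 : p.1 ∈ H k
        · exact Or.inr ⟨p.1, h9, h8, hp⟩
        · exact Or.inl (Or.inr h9)
      refine (measure_mono h7).trans ((measure_union_le _ _).trans ?_)
      refine (add_le_add_left (measure_union_le _ _) _).trans ?_
      rw [measure_toMeasurable, ← Measure.fst_apply MeasurableSet.of_discrete,
        ← Measure.snd_apply (hS i k), (hΓ k).1, (hΓ k).2]
      refine (add_le_add (add_le_add h2 (hH1 k)) h1).trans (le_of_eq ?_)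
      rw [← ENNReal.ofReal_add (by positivity) (by positivity),
        ← ENNReal.ofReal_add (by positivity) (by positivity)]
      congr 1; ring) (hδ2 i)
  exact ⟨Γ', h4, h5, (measure_mono fun p hp => lt_of_le_of_lt heT hp).trans (h6.trans heT)⟩

end Pool.Agent.QL
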